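import Mathlib

set_option autoImplicit false

/-!
Quadratic twists `t y² = ∏ q_j(x,z)` of a hyperelliptic curve all of whose Weierstrass points are
quadratic, their adelic points and the pairing with the constant quaternion algebras `(q_j, c)`.
-/

namespace Stoll308

open Finset

/-- A family of `r` binary quadratic forms `a_j x² + b_j x z + c_j z²` with integer
coefficients. -/
structure Forms (r : ℕ) where
  a : Fin r → ℤ
  b : Fin r → ℤ
  c : Fin r → ℤ

namespace Forms

variable {r : ℕ}

/-- The value of the `j`-th form at `(x, z)`. -/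
def val (q : Forms r) (j : Fin r) {R : Type*} [CommRing R] (x z : R) : R :=
  (q.a j : R) * x ^ 2 + (q.b j : R) * x * z + (q.c j : R) * z ^ 2

/-- The discriminant of the `j`-th form. -/
def disc (q : Forms r) (j : Fin r) : ℤ := q.b j ^ 2 - 4 * q.a j * q.c j

/-- The resultant of the `j`-th and the `k`-th form. -/
def res (q : Forms r) (j k : Fin r) : ℤ :=
  (q.a j * q.c k - q.a k * q.c j) ^ 2 -
    (q.a j * q.b k - q.a k * q.b j) * (q.b j * q.c k - q.b k * q.c j)

/-- The forms are irreducible over `ℚ`, pairwise coprime, and three of them have pairwise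
different splitting fields. -/
structure Good (q : Forms r) : Prop where
  irr : ∀ j, ¬ IsSquare (q.disc j)
  cop : ∀ j k, j ≠ k → q.res j k ≠ 0
  three : ∃ j₁ j₂ j₃, ¬ IsSquare (q.disc j₁ * q.disc j₂) ∧ ¬ IsSquare (q.disc j₁ * q.disc j₃) ∧
    ¬ IsSquare (q.disc j₂ * q.disc j₃)

/-- A point with coordinates in the field `F` of the smooth projective curve
`C_t : t y² = ∏ q_j(x,z)` in the weighted projective space `ℙ(1,r,1)` (given by coordinates
`(x,y,z)` with `(x,z) ≠ (0,0)`). -/
structure Point (q : Forms r) (t : ℤ) (F : Type*) [Field F] where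
  x : F
  y : F
  z : F
  ne : x ≠ 0 ∨ z ≠ 0
  eq : (t : F) * y ^ 2 = ∏ j, q.val j x z

/-- The value at `P`, up to squares, of the function `q_j(x,z)/z²` of the curve `C_t`: it is
`q_j(x,z)` if this is not `0` and otherwise `t ∏_{k ≠ j} q_k(x,z)`. -/
noncomputable def Point.eval {q : Forms r} {t : ℤ} {F : Type*} [Field F] (P : q.Point t F) (j : Fin r) : F :=
  open Classical in
  if q.val j P.x P.z ≠ 0 then q.val j P.x P.z else (t : F) * ∏ k ∈ univ.erase j, q.val k P.x P.z

/-- An adelic point of `C_t`: a point over `ℝ` and a point over `ℚ_p` for every prime `p`. -/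
structure AdelicPoint (q : Forms r) (t : ℤ) where
  real : q.Point t ℝ
  padic : ∀ (p : ℕ) [Fact p.Prime], q.Point t ℚ_[p]

end Forms

/-- The quaternion algebra `(u, c)` over the field `F` is split: `u X² + c Y² = Z²` has a
nontrivial solution. -/
def Splits {F : Type*} [Field F] (u c : F) : Prop :=
  ∃ X Y Z : F, (X ≠ 0 ∨ Y ≠ 0 ∨ Z ≠ 0) ∧ u * X ^ 2 + c * Y ^ 2 = Z ^ 2

namespace Forms

variable {r : ℕ} {q : Forms r} {t : ℤ}

/-- The primes `p` at which the quaternion algebra `(q_j, c)`, evaluated at the adelic point `P`,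
does not split. -/
def AdelicPoint.ramified (P : q.AdelicPoint t) (j : Fin r) (c : ℤ) : Set ℕ :=
  {p : ℕ | ∃ _ : Fact p.Prime, ¬ Splits ((P.padic p).eval j) (c : ℚ_[p])}

/-- The adelic point `P` is orthogonal to the quaternion algebra `(q_j, c)` of the function field
of `C_t` (unramified on `C_t`): the local invariants at `P` sum to zero, that is, the number of
places, the real one included, at which the algebra evaluated at `P` is not split is finite and
even. -/
def AdelicPoint.Orthogonal (P : q.AdelicPoint t) (j : Fin r) (c : ℤ) : Prop :=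
  (P.ramified j c).Finite ∧ (Even (P.ramified j c).ncard ↔ Splits (P.real.eval j) (c : ℝ))

/-- `C_t` has points over every completion of `ℚ`. -/
def ELS (q : Forms r) (t : ℤ) : Prop := Nonempty (q.AdelicPoint t)

/-- Some adelic point of `C_t` is orthogonal to all the quaternion algebras `(q_j, c)`, `c` a
nonzero integer. This holds if the Brauer-Manin set of `C_t` is nonempty. -/
def BMNonempty (q : Forms r) (t : ℤ) : Prop :=
  ∃ P : q.AdelicPoint t, ∀ (j : Fin r) (c : ℤ), c ≠ 0 → P.Orthogonal j c

/-- The squarefree integers `t` with `|t| ≤ X` such that `C_t` has points everywhere locally. -/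
def elsSet (q : Forms r) (X : ℕ) : Set ℤ := {t | Squarefree t ∧ |t| ≤ X ∧ q.ELS t}

/-- Those of them for which some adelic point is orthogonal to all the `(q_j, c)`. -/
def bmSet (q : Forms r) (X : ℕ) : Set ℤ := {t | Squarefree t ∧ |t| ≤ X ∧ q.BMNonempty t}

/-- The product of the bad primes: `2`, the leading coefficients, the discriminants and the
resultants. -/
def bad (q : Forms r) : ℤ :=
  2 * (∏ j, q.a j) * (∏ j, q.disc j) * ∏ j, ∏ k ∈ univ.erase j, q.res j k

/-- The modulus controlling the bad places. -/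
def Q (q : Forms r) : ℕ := 8 * q.bad.natAbs

open Classical in
/-- The product of the good primes `p` dividing `t` with `j p = i`. -/
noncomputable def D (q : Forms r) (t : ℤ) (j : ℕ → Fin r) (i : Fin r) : ℕ :=
  ∏ p ∈ t.natAbs.primeFactors.filter (fun p : ℕ => ¬ (p : ℤ) ∣ q.bad ∧ j p = i), p

open Classical in
/-- Descent data for `t` away from the bad primes: every good prime `p` dividing `t` has an index
`j p` and a zero `θ` of `q_(j p)` modulo `p` such that for `i ≠ j p` the Legendre symbol of
`q_i(θ)` modulo `p` is `ψ_i(p mod Q)` times the Jacobi symbol of `p` modulo `D_i`. -/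
def Desc (q : Forms r) (t : ℤ) : Prop :=
  ∃ (j : ℕ → Fin r) (ψ : Fin r → ℕ → ℤ), (∀ i n, ψ i n = 1 ∨ ψ i n = -1) ∧
    ∀ p : ℕ, p.Prime → ¬ (p : ℤ) ∣ q.bad → (p : ℤ) ∣ t →
      ∃ θ : ZMod p, q.val (j p) θ 1 = 0 ∧ ∀ i, i ≠ j p →
        (if IsSquare (q.val i θ 1) then (1 : ℤ) else -1) =
          ψ i (p % q.Q) * jacobiSym p (q.D t j i)

end Forms

end Stoll308
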