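import Mathlib
import Pool.Agent.Work.MP_308fa9_nt.Defs

set_option autoImplicit false

/-!
Squares and the splitting of quaternion algebras over `ℚ_p`, `p` odd.
-/

namespace Stoll308

section General

variable {F : Type*} [Field F]

lemma Splits.symm {u c : F} (h : Splits u c) : Splits c u := by
  obtain ⟨X, Y, Z, hne, h⟩ := h
  exact ⟨Y, X, Z, by tauto, by rw [← h]; ring⟩

lemma splits_comm {u c : F} : Splits u c ↔ Splits c u := ⟨Splits.symm, Splits.symm⟩

lemma Splits.mul_sq {u c w : F} (hw : w ≠ 0) (h : Splits (u * w ^ 2) c) : Splits u c := by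
  obtain ⟨X, Y, Z, hne, h⟩ := h
  refine ⟨w * X, Y, Z, ?_, by rw [← h]; ring⟩
  rcases hne with h | h | h
  · exact Or.inl (mul_ne_zero hw h)
  · exact Or.inr (Or.inl h)
  · exact Or.inr (Or.inr h)

lemma splits_mul_sq {u c w : F} (hw : w ≠ 0) : Splits (u * w ^ 2) c ↔ Splits u c := by
  refine ⟨Splits.mul_sq hw, fun h => ?_⟩
  apply Splits.mul_sq (inv_ne_zero hw)
  rwa [mul_assoc, ← mul_pow, mul_inv_cancel₀ hw, one_pow, mul_one]

lemma splits_mul_sq' {u c w : F} (hw : w ≠ 0) : Splits u (c * w ^ 2) ↔ Splits u c := by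
  rw [splits_comm, splits_mul_sq hw, splits_comm]

lemma splits_one {u : F} : Splits u 1 := ⟨0, 1, 1, by simp, by ring⟩

lemma Splits.neg_mul {a b : F} (h : Splits a b) : Splits a (-(a * b)) := by
  obtain ⟨X, Y, Z, hne, h⟩ := h
  by_cases hY : Y = 0
  · subst hY
    have hX : X ≠ 0 := by
      rintro rfl
      have : Z = 0 := by
        have : Z ^ 2 = 0 := by rw [← h]; ring
        exact pow_eq_zero_iff (two_ne_zero) |>.1 this
      simp_all
    refine ⟨1, 0, Z / X, by simp, ?_⟩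
    field_simp
    rw [← h]; ring
  · refine ⟨Z, Y, a * X, Or.inr (Or.inl hY), ?_⟩
    have : Z ^ 2 = a * X ^ 2 + b * Y ^ 2 := h.symm
    rw [this]; ring

lemma splits_neg_mul {a b : F} (ha : a ≠ 0) : Splits a (-(a * b)) ↔ Splits a b := by
  refine ⟨fun h => ?_, Splits.neg_mul⟩
  have h2 := h.neg_mul
  have h3 : -(a * -(a * b)) = b * a ^ 2 := by ring
  rw [h3] at h2
  exact (splits_mul_sq' ha).1 h2

end General

section Padic

variable {p : ℕ} [hp : Fact p.Prime]

open PadicInt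

lemma norm_eq_one_iff_toZMod {e : ℤ_[p]} : ‖e‖ = 1 ↔ toZMod e ≠ 0 := by
  rw [← PadicInt.isUnit_iff, Ne, ← RingHom.mem_ker, ker_toZMod]
  rw [IsLocalRing.mem_maximalIdeal, mem_nonunits_iff, not_not]

lemma norm_two_eq_one (h2 : p ≠ 2) : ‖(2 : ℤ_[p])‖ = 1 := by
  have : ((2 : ℕ) : ℤ_[p]) = 2 := by norm_num
  rw [← this, PadicInt.norm_natCast_eq_one_iff]
  exact (Nat.coprime_primes hp.out Nat.prime_two).2 h2

/-- A unit whose residue is a square is a square. -/
lemma sq_of_residue (h2 : p ≠ 2) {e : ℤ_[p]} (he : ‖e‖ = 1) (hs : IsSquare (toZMod e)) :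
    ∃ w : ℤ_[p], ‖w‖ = 1 ∧ e = w ^ 2 := by
  obtain ⟨r, hr⟩ := hs
  obtain ⟨a, ha⟩ := ZMod.ringHom_surjective (toZMod : ℤ_[p] →+* ZMod p) r
  have hr0 : r ≠ 0 := by
    rintro rfl
    exact (norm_eq_one_iff_toZMod.1 he) (by rw [hr, mul_zero])
  have ha1 : ‖a‖ = 1 := norm_eq_one_iff_toZMod.2 (by rw [ha]; exact hr0)
  have h1 : ‖a ^ 2 - e‖ < 1 := by
    rw [lt_iff_le_and_ne]
    refine ⟨PadicInt.norm_le_one _, fun h => ?_⟩
    apply norm_eq_one_iff_toZMod.1 h
    rw [map_sub, map_pow, ha, hr]; ring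
  have hder : ‖(2 : ℤ_[p]) * a‖ = 1 := by rw [norm_mul, norm_two_eq_one h2, ha1, one_mul]
  obtain ⟨z, hz, -⟩ := hensels_lemma (F := (Polynomial.X ^ 2 - Polynomial.C e : Polynomial ℤ_[p]))
    (a := a) (by
      simp only [map_sub, map_pow, Polynomial.aeval_X, Polynomial.aeval_C,
        Polynomial.derivative_C, sub_zero,
        Polynomial.derivative_X_pow, map_mul, Algebra.algebraMap_self, RingHom.id_apply]
      simp only [Nat.cast_ofNat, Nat.add_one_sub_one, pow_one]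
      rw [hder, one_pow]
      exact h1)
  simp only [map_sub, map_pow, Polynomial.aeval_X, Polynomial.aeval_C, Algebra.algebraMap_self,
    RingHom.id_apply, sub_eq_zero] at hz
  refine ⟨z, ?_, hz.symm⟩
  have : ‖z‖ ^ 2 = 1 := by rw [← norm_pow, hz, he]
  exact (pow_eq_one_iff_of_nonneg (norm_nonneg z) two_ne_zero).1 this

/-- The residue of a unit square is a square. -/
lemma residue_of_sq {e : ℤ_[p]} (he : ‖e‖ = 1) {w : ℚ_[p]} (hw : (e : ℚ_[p]) = w ^ 2) :
    IsSquare (toZMod e) := by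
  have h1 : ‖w‖ ^ 2 = 1 := by rw [← norm_pow, ← hw, ← PadicInt.norm_def, he]
  have h2 : ‖w‖ = 1 := (pow_eq_one_iff_of_nonneg (norm_nonneg w) two_ne_zero).1 h1
  obtain ⟨w', hw'⟩ : ∃ w' : ℤ_[p], (w' : ℚ_[p]) = w := ⟨⟨w, h2.le⟩, rfl⟩
  have h3 : e = w' ^ 2 := by
    have : (e : ℚ_[p]) = ((w' ^ 2 : ℤ_[p]) : ℚ_[p]) := by rw [PadicInt.coe_pow, hw', hw]
    exact Subtype.ext this
  rw [h3, map_pow]
  exact ⟨_, sq _⟩

/-- Two units: split. -/
lemma splits_units (h2 : p ≠ 2) {e c : ℤ_[p]} (he : ‖e‖ = 1) (hc : ‖c‖ = 1) :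
    Splits (e : ℚ_[p]) (c : ℚ_[p]) := by
  have hodd : Fintype.card (ZMod p) % 2 = 1 := by
    rw [ZMod.card]
    exact (hp.out.eq_two_or_odd).resolve_left h2
  have he0 := norm_eq_one_iff_toZMod.1 he
  have hc0 := norm_eq_one_iff_toZMod.1 hc
  obtain ⟨x, y, hxy⟩ := FiniteField.exists_root_sum_quadratic
    (f := Polynomial.C (toZMod e) * Polynomial.X ^ 2 - Polynomial.C 1)
    (g := Polynomial.C (toZMod c) * Polynomial.X ^ 2)
    (by
      rw [Polynomial.degree_sub_C]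
      · exact Polynomial.degree_C_mul_X_pow 2 he0
      · rw [Polynomial.degree_C_mul_X_pow 2 he0]; norm_num)
    (Polynomial.degree_C_mul_X_pow 2 hc0) hodd
  simp only [Polynomial.eval_sub, Polynomial.eval_mul, Polynomial.eval_C, Polynomial.eval_pow,
    Polynomial.eval_X] at hxy
  obtain ⟨a, ha⟩ := ZMod.ringHom_surjective (toZMod : ℤ_[p] →+* ZMod p) x
  obtain ⟨b, hb⟩ := ZMod.ringHom_surjective (toZMod : ℤ_[p] →+* ZMod p) y
  have h1 : toZMod (e * a ^ 2 + c * b ^ 2) = 1 := by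
    rw [map_add, map_mul, map_mul, map_pow, map_pow, ha, hb]
    linear_combination hxy
  obtain ⟨w, hw1, hw⟩ := sq_of_residue h2 (e := e * a ^ 2 + c * b ^ 2)
    (norm_eq_one_iff_toZMod.2 (by rw [h1]; exact one_ne_zero)) (by rw [h1]; exact ⟨1, by ring⟩)
  refine ⟨a, b, w, Or.inr (Or.inr ?_), ?_⟩
  · intro h0
    rw [PadicInt.norm_def, h0, norm_zero] at hw1
    exact zero_ne_one hw1
  · have : ((e * a ^ 2 + c * b ^ 2 : ℤ_[p]) : ℚ_[p]) = ((w ^ 2 : ℤ_[p]) : ℚ_[p]) := by rw [hw]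
    push_cast at this
    exact this

/-- A prime times a unit against a unit. -/
lemma splits_prime_unit (h2 : p ≠ 2) {e c : ℤ_[p]} (he : ‖e‖ = 1) (hc : ‖c‖ = 1) :
    Splits ((p : ℚ_[p]) * e) (c : ℚ_[p]) ↔ IsSquare (toZMod c) := by
  constructor
  · rintro ⟨X, Y, Z, hne, h⟩
    by_contra hns
    -- `‖Z² - c Y²‖ = max(‖Y‖,‖Z‖)²`
    have key : ∀ Y Z : ℤ_[p], (‖Y‖ = 1 ∨ ‖Z‖ = 1) → ‖Z ^ 2 - c * Y ^ 2‖ = 1 := by
      intro Y Z hYZ
      rw [norm_eq_one_iff_toZMod]
      intro h0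
      rw [map_sub, map_mul, map_pow, map_pow] at h0
      by_cases hY : toZMod Y = 0
      · rw [hY] at h0
        have hZ : toZMod Z = 0 := by
          have : (toZMod Z) ^ 2 = 0 := by linear_combination h0
          exact pow_eq_zero_iff two_ne_zero |>.1 this
        rcases hYZ with h | h
        · exact norm_eq_one_iff_toZMod.1 h hY
        · exact norm_eq_one_iff_toZMod.1 h hZ
      · apply hns
        refine ⟨toZMod Z / toZMod Y, ?_⟩
        field_simp
        linear_combination -h0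
    have key2 : ∀ Y Z : ℚ_[p], ‖Z ^ 2 - c * Y ^ 2‖ = (max ‖Y‖ ‖Z‖) ^ 2 := by
      intro Y Z
      rcases le_total ‖Y‖ ‖Z‖ with hle | hle
      · rw [max_eq_right hle]
        by_cases hZ : Z = 0
        · subst hZ
          have : Y = 0 := by simpa using hle
          subst this; simp
        have hZ' : ‖Z‖ ≠ 0 := norm_ne_zero_iff.2 hZ
        have hy : ‖Y / Z‖ ≤ 1 := by
          rw [norm_div]; exact div_le_one_of_le₀ hle (norm_nonneg _)
        obtain ⟨w', hw'⟩ : ∃ w' : ℤ_[p], (w' : ℚ_[p]) = Y / Z := ⟨⟨Y / Z, hy⟩, rfl⟩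
        have := key w' 1 (Or.inr (by simp))
        rw [PadicInt.norm_def] at this
        push_cast at this
        rw [hw'] at this
        have h3 : Z ^ 2 - (c : ℚ_[p]) * Y ^ 2 = Z ^ 2 * (1 ^ 2 - c * (Y / Z) ^ 2) := by
          field_simp
        rw [h3, norm_mul, norm_pow]
        have h4 : ‖(1 : ℚ_[p]) ^ 2 - c * (Y / Z) ^ 2‖ = 1 := by simpa using this
        rw [h4, mul_one]
      · rw [max_eq_left hle]
        by_cases hY : Y = 0
        · subst hY
          have : Z = 0 := by simpa using hle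
          subst this; simp
        have hY' : ‖Y‖ ≠ 0 := norm_ne_zero_iff.2 hY
        have hz : ‖Z / Y‖ ≤ 1 := by
          rw [norm_div]; exact div_le_one_of_le₀ hle (norm_nonneg _)
        obtain ⟨w', hw'⟩ : ∃ w' : ℤ_[p], (w' : ℚ_[p]) = Z / Y := ⟨⟨Z / Y, hz⟩, rfl⟩
        have := key 1 w' (Or.inl (by simp))
        rw [PadicInt.norm_def] at this
        push_cast at this
        rw [hw'] at this
        have h3 : Z ^ 2 - (c : ℚ_[p]) * Y ^ 2 = Y ^ 2 * ((Z / Y) ^ 2 - c * 1 ^ 2) := by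
          field_simp
        rw [h3, norm_mul, norm_pow]
        have h4 : ‖(Z / Y) ^ 2 - (c : ℚ_[p]) * 1 ^ 2‖ = 1 := by simpa using this
        rw [h4, mul_one]
    have h5 : (p : ℚ_[p]) * e * X ^ 2 = Z ^ 2 - c * Y ^ 2 := by rw [← h]; ring
    have h6 : ‖(p : ℚ_[p]) * e * X ^ 2‖ = (max ‖Y‖ ‖Z‖) ^ 2 := by rw [h5, key2]
    rw [norm_mul, norm_mul, norm_pow, ← PadicInt.norm_def, he, mul_one, Padic.norm_p] at h6
    have hp1 : (1 : ℝ) < p := by exact_mod_cast hp.out.one_lt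
    by_cases hX : X = 0
    · subst hX
      have h7 : max ‖Y‖ ‖Z‖ = 0 := by
        have : (max ‖Y‖ ‖Z‖) ^ 2 = 0 := by rw [← h6]; simp
        exact pow_eq_zero_iff two_ne_zero |>.1 this
      have hY : Y = 0 := by
        have : ‖Y‖ ≤ 0 := h7 ▸ le_max_left _ _
        simpa using this
      have hZ : Z = 0 := by
        have : ‖Z‖ ≤ 0 := h7 ▸ le_max_right _ _
        simpa using this
      simp_all
    · obtain ⟨W, hW, hW0⟩ : ∃ W : ℚ_[p], max ‖Y‖ ‖Z‖ = ‖W‖ ∧ W ≠ 0 := by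
        have hpos : 0 < (max ‖Y‖ ‖Z‖) ^ 2 := by
          rw [← h6]
          have : 0 < ‖X‖ := norm_pos_iff.2 hX
          positivity
        rcases max_choice ‖Y‖ ‖Z‖ with h | h
        · refine ⟨Y, h, ?_⟩
          rintro rfl
          rw [h] at hpos; simp at hpos
        · refine ⟨Z, h, ?_⟩
          rintro rfl
          rw [h] at hpos; simp at hpos
      rw [hW, Padic.norm_eq_zpow_neg_valuation hX, Padic.norm_eq_zpow_neg_valuation hW0] at h6
      have h8 : (p : ℝ) ^ (-1 - 2 * X.valuation) = (p : ℝ) ^ (-2 * W.valuation) := by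
        have hp0 : (p : ℝ) ≠ 0 := by positivity
        rw [show (-1 - 2 * X.valuation : ℤ) = -1 + (-X.valuation) * 2 by ring,
          zpow_add₀ hp0, zpow_mul, zpow_neg_one, show (-2 * W.valuation : ℤ) =
            (-W.valuation) * 2 by ring, zpow_mul]
        exact_mod_cast h6
      have h9 := zpow_right_injective₀ (by positivity) hp1.ne' h8
      omega
  · intro hs
    obtain ⟨w, hw1, hw⟩ := sq_of_residue h2 hc hs
    refine ⟨0, 1, w, Or.inr (Or.inl one_ne_zero), ?_⟩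
    rw [hw]; push_cast; ring

end Padic

end Stoll308
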