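import Pool.Agent.Work.MP_308fa9_nt.Mert2

set_option autoImplicit false

/-! Mean values of Jacobi symbols. -/

namespace Stoll308.AP

open Finset Filter Topology NumberTheorySymbols
open Pool.Agent.Work.MP_2b9663_nt

/-- A nonsquare is a nonresidue modulo arbitrarily large primes. -/
lemma exists_jacobi_neg {a : ℤ} (h0 : a ≠ 0) (h : ¬ IsSquare a) (B : ℕ) :
    ∃ p : ℕ, p.Prime ∧ B < p ∧ J(a | p) = -1 := by
  by_contra hcon
  push Not at hcon
  have h1 : (1 : ℝ) ≤ 0 := by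
    refine MV.mono MV.one (MV.jacobi_nonsquare h0 h) (smallPrimes (max B a.natAbs + 1))
      fun p hp => ?_
    rw [mem_smallPrimes] at hp
    have hp1 : B < (p : ℕ) := by omega
    have hp2 : a.natAbs < (p : ℕ) := by omega
    have hg : a.gcd ((p : ℕ) : ℤ) = 1 := by
      rw [← Int.isCoprime_iff_gcd_eq_one, isCoprime_comm]
      rw [Prime.coprime_iff_not_dvd (Nat.prime_iff_prime_int.mp p.2)]
      intro hd
      have := Nat.le_of_dvd (Int.natAbs_pos.mpr h0) (Int.natCast_dvd.mp hd)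
      omega
    rcases jacobiSym.eq_one_or_neg_one hg with h2 | h2
    · rw [h2]; norm_num
    · exact absurd h2 (hcon p p.2 hp1)
  linarith

/-- Two quadratic characters with different fields can be prescribed. -/
lemma exists_jacobi_pos_neg {a b : ℤ} (ha0 : a ≠ 0) (hb0 : b ≠ 0) (ha : ¬ IsSquare a)
    (hb : ¬ IsSquare b) (hab : ¬ IsSquare (a * b)) (B : ℕ) :
    ∃ p : ℕ, p.Prime ∧ B < p ∧ J(a | p) = 1 ∧ J(b | p) = -1 := by
  by_contra hcon
  push Not at hcon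
  have hm := ((MV.one.add (MV.jacobi_nonsquare ha0 ha)).add
    ((MV.jacobi_nonsquare hb0 hb).const_mul (-1))).add
    ((MV.jacobi_nonsquare (mul_ne_zero ha0 hb0) hab).const_mul (-1))
  have h1 : (1 + 0 + (-1) * 0 + (-1) * 0 : ℝ) ≤ 0 := by
    refine MV.mono hm MV.zero (smallPrimes (max B (max a.natAbs b.natAbs) + 1))
      fun p hp => ?_
    rw [mem_smallPrimes] at hp
    have hp1 : B < (p : ℕ) := by omega
    have hg : ∀ c : ℤ, c ≠ 0 → c.natAbs < (p : ℕ) → c.gcd ((p : ℕ) : ℤ) = 1 := by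
      intro c h0 hc
      rw [← Int.isCoprime_iff_gcd_eq_one, isCoprime_comm]
      rw [Prime.coprime_iff_not_dvd (Nat.prime_iff_prime_int.mp p.2)]
      intro hd
      have := Nat.le_of_dvd (Int.natAbs_pos.mpr h0) (Int.natCast_dvd.mp hd)
      omega
    have hga := jacobiSym.eq_one_or_neg_one (hg a ha0 (by omega))
    have hgb := jacobiSym.eq_one_or_neg_one (hg b hb0 (by omega))
    rw [jacobiSym.mul_left]
    rcases hga with h2 | h2 <;> rcases hgb with h3 | h3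
    · rw [h2, h3]; norm_num
    · exact absurd h3 (hcon p p.2 hp1 h2)
    · rw [h2, h3]; norm_num
    · rw [h2, h3]; norm_num
  linarith

/-- The Jacobi symbol as a class function. -/
noncomputable def jcl (a : ℤ) (k : ℕ) (x : ZMod k) : ℝ := ((J(a | x.val) : ℤ) : ℝ)

lemma jacobi_mod {a : ℤ} {k : ℕ} (hk : 4 * a.natAbs ∣ k) {n : ℕ} (hn : Odd n) :
    J(a | n % k) = J(a | n) := by
  have h4 : (n % k) % (4 * a.natAbs) = n % (4 * a.natAbs) := Nat.mod_mod_of_dvd n hk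
  have h2k : 2 ∣ k := (by rw [show (4 : ℕ) = 2 * 2 by norm_num, mul_assoc]; exact dvd_mul_right 2 _ : 2 ∣ 4 * a.natAbs).trans hk
  have hodd : Odd (n % k) := by
    rw [Nat.odd_iff] at hn ⊢
    rw [Nat.mod_mod_of_dvd n h2k, hn]
  rw [jacobiSym.mod_right a hodd, jacobiSym.mod_right a hn, h4]

lemma jcl_natCast {a : ℤ} {k : ℕ} (hk : 4 * a.natAbs ∣ k) {n : ℕ} (hn : Odd n) :
    jcl a k (n : ZMod k) = ((J(a | n) : ℤ) : ℝ) := by
  unfold jcl
  rw [ZMod.val_natCast, jacobi_mod hk hn]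

lemma jcl_mean_zero {a : ℤ} (h0 : a ≠ 0) (h : ¬ IsSquare a) {k : ℕ} [NeZero k]
    (hk : 4 * a.natAbs ∣ k) : ∑ u : (ZMod k)ˣ, jcl a k u = 0 := by
  have hk0 : 0 < k := Nat.pos_of_ne_zero (NeZero.ne k)
  obtain ⟨p, hp, hlt, hJ⟩ := exists_jacobi_neg h0 h k
  have hu : IsUnit (p : ZMod k) := by
    rw [ZMod.isUnit_iff_coprime]
    exact (Nat.Prime.coprime_iff_not_dvd hp).2 fun hd =>
      absurd (Nat.le_of_dvd hk0 hd) (not_le.2 hlt)
  obtain ⟨w, hw⟩ := hu
  have h4 : 4 ≤ k := Nat.le_of_dvd hk0 ((Dvd.intro _ rfl : 4 ∣ 4 * a.natAbs).trans hk)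
  have h2k : 2 ∣ k := (by rw [show (4 : ℕ) = 2 * 2 by norm_num, mul_assoc]; exact dvd_mul_right 2 _ : 2 ∣ 4 * a.natAbs).trans hk
  have hpodd : Odd p := hp.odd_of_ne_two (by omega)
  have hmul : ∀ u : (ZMod k)ˣ, jcl a k ((u * w : (ZMod k)ˣ) : ZMod k) = - jcl a k u := by
    intro u
    have hcop : Nat.Coprime (u : ZMod k).val k := by
      have := u.isUnit
      rw [← ZMod.natCast_zmod_val (u : ZMod k), ZMod.isUnit_iff_coprime] at this
      exact this
    have hodd : Odd (u : ZMod k).val := by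
      rw [← Nat.not_even_iff_odd, even_iff_two_dvd]
      intro h2
      have := Nat.dvd_gcd h2 h2k
      rw [hcop] at this
      omega
    have e1 : ((u * w : (ZMod k)ˣ) : ZMod k) = (((u : ZMod k).val * p : ℕ) : ZMod k) := by
      push_cast
      rw [ZMod.natCast_zmod_val, hw]
    rw [e1, jcl_natCast hk (hodd.mul hpodd)]
    unfold jcl
    have : NeZero (u : ZMod k).val := ⟨by rintro h00; rw [h00] at hodd; exact absurd hodd (by decide)⟩
    have : NeZero p := ⟨hp.ne_zero⟩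
    rw [jacobiSym.mul_right, hJ]
    push_cast
    ring
  have h5 : ∑ u : (ZMod k)ˣ, jcl a k u = ∑ u : (ZMod k)ˣ, jcl a k ((u * w : (ZMod k)ˣ) : ZMod k) :=
    (Equiv.sum_comp (Equiv.mulRight w) (fun u : (ZMod k)ˣ => jcl a k u)).symm
  rw [sum_congr rfl fun u _ => hmul u, sum_neg_distrib] at h5
  linarith

lemma Mert.jacobi {a : ℤ} (h0 : a ≠ 0) (h : ¬ IsSquare a) :
    Mert (fun p => ((J(a | p) : ℤ) : ℝ)) 0 := by
  have : NeZero (4 * a.natAbs) := ⟨by positivity⟩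
  have h1 := Mert.classfn (q := 4 * a.natAbs) (jcl a (4 * a.natAbs))
  rw [jcl_mean_zero h0 h dvd_rfl, zero_div] at h1
  refine h1.congr 2 fun p hp hlt => ?_
  rw [jcl_natCast dvd_rfl (hp.odd_of_ne_two (by omega))]

lemma Mert.jacobi_square {a : ℤ} (h0 : a ≠ 0) (h : IsSquare a) :
    Mert (fun p => ((J(a | p) : ℤ) : ℝ)) 1 := by
  refine Mert.one.congr a.natAbs fun p hp hlt => ?_
  obtain ⟨b, rfl⟩ := h
  have hb : b ≠ 0 := fun h => h0 (by rw [h, mul_zero])
  have hg : b.gcd (p : ℤ) = 1 := by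
    rw [← Int.isCoprime_iff_gcd_eq_one, isCoprime_comm]
    rw [Prime.coprime_iff_not_dvd (Nat.prime_iff_prime_int.mp hp)]
    intro hd
    have h1 := Nat.le_of_dvd (Int.natAbs_pos.mpr hb) (Int.natCast_dvd.mp hd)
    rw [Int.natAbs_mul] at hlt
    have : b.natAbs ≤ b.natAbs * b.natAbs := Nat.le_mul_self _
    omega
  rw [jacobiSym.mul_left, ← sq, jacobiSym.sq_one hg, Int.cast_one]

/-- In any case the mean value is nonnegative. -/
lemma Mert.jacobi_nonneg {a : ℤ} (h0 : a ≠ 0) :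
    ∃ κ : ℝ, 0 ≤ κ ∧ Mert (fun p => ((J(a | p) : ℤ) : ℝ)) κ := by
  by_cases h : IsSquare a
  · exact ⟨1, zero_le_one, Mert.jacobi_square h0 h⟩
  · exact ⟨0, le_rfl, Mert.jacobi h0 h⟩

end Stoll308.AP
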