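import Mathlib
import Pool.Agent.Work.MP_2b9663_nt.MV
import Pool.Agent.Work.MP_713a1e_co.Sieve

/-! Partial sums of `c p / p` over primes from the behaviour of the Dirichlet series at `1`. -/

set_option autoImplicit false

namespace Stoll308.MeanSum

open Finset Filter Topology
open Pool.Agent.Work.MP_2b9663_nt
open Pool.Agent.Work.MP_40574a_nt.Mertens

/-- the primes up to `X` -/
abbrev PR (X : ℕ) : Finset ℕ := (Icc 1 X).filter Nat.Prime

lemma mem_PR {X p : ℕ} : p ∈ PR X ↔ p.Prime ∧ p ≤ X := by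
  rw [PR, mem_filter, mem_Icc]
  exact ⟨fun h => ⟨h.2, h.1.2⟩, fun h => ⟨⟨h.1.one_le, h.2⟩, h.1⟩⟩

lemma sum_smallPrimes (X : ℕ) (f : ℕ → ℝ) :
    ∑ p ∈ smallPrimes (X + 1), f (p : ℕ) = ∑ p ∈ PR X, f p := by
  refine sum_bij (fun p _ => (p : ℕ)) ?_ ?_ ?_ ?_
  · intro p hp
    rw [mem_smallPrimes] at hp
    exact mem_PR.2 ⟨p.2, by omega⟩
  · intro p _ q _ h
    exact Nat.Primes.coe_nat_injective h
  · intro p hp
    obtain ⟨h1, h2⟩ := mem_PR.1 hp
    exact ⟨⟨p, h1⟩, by rw [mem_smallPrimes]; change p < X + 1; omega, rfl⟩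
  · intro p _
    rfl

/-- Mertens' second theorem, lower bound. -/
lemma sum_inv_ge {X : ℕ} (hX : 2 ≤ X) :
    Real.log (Real.log X) - 2 ≤ ∑ p ∈ PR X, 1 / (p : ℝ) := by
  have hX2 : (2 : ℝ) ≤ X := by exact_mod_cast hX
  have hlog : 0 < Real.log X := Real.log_pos (by linarith)
  have h1 := Pool.Agent.Work.MP_713a1e_co.mertens_third_upper hX2
  have hPB : PB 1 (X : ℝ) = PR X := by
    ext p
    unfold PB
    rw [Nat.floor_one, Nat.floor_natCast, mem_filter, mem_Ioc, mem_PR]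
    constructor
    · rintro ⟨⟨_, h2⟩, h3⟩
      exact ⟨h3, h2⟩
    · rintro ⟨h1, h2⟩
      exact ⟨⟨h1.one_lt, h2⟩, h1⟩
  rw [hPB] at h1
  have hpos : ∀ q ∈ PR X, 0 < 1 - 1 / (q : ℝ) := fun q hq =>
    Pool.Agent.Work.MP_713a1e_co.one_sub_inv_pos (mem_PR.1 hq).1
  have h2 : Real.log (∏ q ∈ PR X, (1 - 1 / (q : ℝ))) ≤ Real.log (1 / Real.log X) :=
    Real.log_le_log (prod_pos hpos) h1
  rw [Real.log_prod (fun q hq => (hpos q hq).ne'), one_div, Real.log_inv] at h2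
  have h3 : ∀ q ∈ PR X, -(1 / (q : ℝ)) - 2 * (1 / ((q : ℝ) * (q : ℝ))) ≤ Real.log (1 - 1 / (q : ℝ)) := by
    intro q hq
    have hq2 : (2 : ℝ) ≤ q := by exact_mod_cast (mem_PR.1 hq).1.two_le
    have hy : 0 < 1 - 1 / (q : ℝ) := hpos q hq
    have h4 := Real.one_sub_inv_le_log_of_pos hy
    have h5 : 1 / (q : ℝ) ≤ 1 / 2 := one_div_le_one_div_of_le (by norm_num) hq2
    refine le_trans ?_ h4
    set x := 1 / (q : ℝ) with hx
    have hx0 : 0 < x := by positivity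
    have h6 : 1 / ((q : ℝ) * (q : ℝ)) = x * x := by rw [hx]; ring
    rw [h6]
    have h7 : (1 - x)⁻¹ ≤ 1 + x + 2 * (x * x) := by
      rw [inv_le_iff_one_le_mul₀ hy]
      nlinarith [mul_pos hx0 hx0, mul_pos (mul_pos hx0 hx0) hx0]
    linarith
  have h4 := sum_le_sum h3
  have h5 : ∑ q ∈ PR X, 1 / ((q : ℝ) * (q : ℝ)) ≤ 1 := by
    have h6 : ∀ N : ℕ, 1 ≤ N → ∑ q ∈ PR N, 1 / ((q : ℝ) * (q : ℝ)) ≤ 1 - 1 / N := by
      intro N hN
      induction N, hN using Nat.le_induction with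
      | base =>
        have : PR 1 = ∅ := by
          ext p
          rw [mem_PR]
          constructor
          · rintro ⟨h1, h2⟩
            have := h1.two_le
            omega
          · intro h
            simp at h
        rw [this]
        simp
      | succ N hN ih =>
        have hNpos : (0 : ℝ) < N := by exact_mod_cast hN
        have h7 : ∑ q ∈ PR (N + 1), 1 / ((q : ℝ) * (q : ℝ)) ≤
            ∑ q ∈ PR N, 1 / ((q : ℝ) * (q : ℝ)) + 1 / (((N + 1 : ℕ) : ℝ) * ((N + 1 : ℕ) : ℝ)) := by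
          have : PR (N + 1) ⊆ insert (N + 1) (PR N) := by
            intro p hp
            rw [mem_PR] at hp
            rw [mem_insert, mem_PR]
            rcases Nat.lt_or_ge p (N + 1) with h | h
            · exact Or.inr ⟨hp.1, by omega⟩
            · exact Or.inl (by omega)
          refine (sum_le_sum_of_subset_of_nonneg this fun _ _ _ => by positivity).trans ?_
          rw [sum_insert (by rw [mem_PR]; omega)]
          linarith
        have h8 : 1 / (((N + 1 : ℕ) : ℝ) * ((N + 1 : ℕ) : ℝ)) ≤ 1 / (N : ℝ) - 1 / ((N + 1 : ℕ) : ℝ) := by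
          push_cast
          rw [div_sub_div _ _ hNpos.ne' (by positivity), div_le_div_iff₀ (by positivity) (by positivity)]
          nlinarith
        linarith
    have h7 := h6 X (by omega)
    have : 0 ≤ 1 / (X : ℝ) := by positivity
    linarith
  rw [sum_sub_distrib, sum_neg_distrib, ← mul_sum] at h4
  linarith

lemma sum_log_div_le {X : ℕ} (hX : 1 ≤ X) :
    ∑ p ∈ PR X, Real.log p / p ≤ Real.log X + Real.log 4 := by
  have h := upper_nat hX
  rw [A_nat] at h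
  refine le_trans (le_of_eq ?_) h
  refine sum_congr ?_ fun _ _ => rfl
  ext p
  rw [mem_PR, mem_filter, mem_Icc]
  exact ⟨fun h => ⟨⟨Nat.zero_le _, h.2⟩, h.1⟩, fun h => ⟨h.2, h.1.2⟩⟩

/-- the difference between a partial sum and the Dirichlet series -/
lemma diff_le {c : ℕ → ℝ} {B : ℝ} (hc : ∀ p : Nat.Primes, |c p| ≤ B) {ε : ℝ} (hε : 0 < ε)
    {X : ℕ} (hX : 1 ≤ X) :
    |∑ p ∈ PR X, c p / p - PS (fun p => c p) ε| ≤
      B * (2 * (ε * (Real.log X + Real.log 4)) + (PS (fun _ => 1) ε - ∑ p ∈ PR X, 1 / (p : ℝ))) := by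
  have hs := PS_summable (c := fun p : Nat.Primes => c p) hc hε
  have hs1 : Summable (fun p : Nat.Primes => (1 : ℝ) * ((p : ℕ) : ℝ) ^ (-(1 + ε))) :=
    PS_summable (c := fun _ => 1) (B := 1) (fun p => by simp) hε
  have h1 := hs.sum_add_tsum_compl (s := smallPrimes (X + 1))
  have h2 := hs1.sum_add_tsum_compl (s := smallPrimes (X + 1))
  have hB : 0 ≤ B := (abs_nonneg _).trans (hc ⟨2, Nat.prime_two⟩)
  set T := ∑' p : ↑((smallPrimes (X + 1) : Set Nat.Primes))ᶜ, c p * (((p : Nat.Primes) : ℕ) : ℝ) ^ (-(1 + ε)) with hT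
  set T1 := ∑' p : ↑((smallPrimes (X + 1) : Set Nat.Primes))ᶜ, (1 : ℝ) * (((p : Nat.Primes) : ℕ) : ℝ) ^ (-(1 + ε)) with hT1
  have h3 : |T| ≤ B * T1 := by
    rw [hT, hT1, ← tsum_mul_left]
    have h4 : Summable (fun p : ↑((smallPrimes (X + 1) : Set Nat.Primes))ᶜ =>
        B * ((1 : ℝ) * (((p : Nat.Primes) : ℕ) : ℝ) ^ (-(1 + ε)))) :=
      (hs1.mul_left B).subtype _
    have h5 : ∀ p : ↑((smallPrimes (X + 1) : Set Nat.Primes))ᶜ,
        ‖c p * (((p : Nat.Primes) : ℕ) : ℝ) ^ (-(1 + ε))‖ ≤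
        B * ((1 : ℝ) * (((p : Nat.Primes) : ℕ) : ℝ) ^ (-(1 + ε))) := by
      intro p
      rw [Real.norm_eq_abs, abs_mul, abs_of_nonneg (Real.rpow_nonneg (Nat.cast_nonneg _) _), one_mul]
      exact mul_le_mul_of_nonneg_right (hc p) (Real.rpow_nonneg (Nat.cast_nonneg _) _)
    have h6 := tsum_of_norm_bounded h4.hasSum h5
    rw [Real.norm_eq_abs] at h6
    exact h6
  have e1 : ∑ p ∈ smallPrimes (X + 1), c p * ((p : ℕ) : ℝ) ^ (-(1 + ε)) =
      ∑ p ∈ PR X, c p * (p : ℝ) ^ (-(1 + ε)) := sum_smallPrimes X (fun p => c p * (p : ℝ) ^ (-(1 + ε)))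
  have e2 : ∑ p ∈ smallPrimes (X + 1), (1 : ℝ) * ((p : ℕ) : ℝ) ^ (-(1 + ε)) =
      ∑ p ∈ PR X, (1 : ℝ) * (p : ℝ) ^ (-(1 + ε)) := sum_smallPrimes X (fun p => (1 : ℝ) * (p : ℝ) ^ (-(1 + ε)))
  have h1' : ∑ p ∈ PR X, c p * (p : ℝ) ^ (-(1 + ε)) + T = PS (fun p => c p) ε := by
    rw [← e1]; exact h1
  have h2' : ∑ p ∈ PR X, (1 : ℝ) * (p : ℝ) ^ (-(1 + ε)) + T1 = PS (fun _ => 1) ε := by
    rw [← e2]; exact h2
  have h4 : ∀ p ∈ PR X, 1 / (p : ℝ) - (p : ℝ) ^ (-(1 + ε)) ≤ ε * (Real.log p / p) ∧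
      0 ≤ 1 / (p : ℝ) - (p : ℝ) ^ (-(1 + ε)) := by
    intro p hp
    have hp1 : (1 : ℝ) ≤ p := by exact_mod_cast (mem_PR.1 hp).1.one_le
    have hp0 : (0 : ℝ) < p := by linarith
    have h5 : (p : ℝ) ^ (-(1 + ε)) = 1 / (p : ℝ) * (p : ℝ) ^ (-ε) := by
      rw [neg_add, Real.rpow_add hp0, Real.rpow_neg_one, one_div]
    have h6 : 1 - ε * Real.log p ≤ (p : ℝ) ^ (-ε) := by
      rw [Real.rpow_def_of_pos hp0]
      have := Real.add_one_le_exp (Real.log p * -ε)
      linarith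
    have h7 : (p : ℝ) ^ (-ε) ≤ 1 := Real.rpow_le_one_of_one_le_of_nonpos hp1 (by linarith)
    rw [h5]
    have h8 : 0 ≤ 1 / (p : ℝ) := by positivity
    constructor
    · have : ε * (Real.log p / p) = 1 / (p : ℝ) * (ε * Real.log p) := by ring
      rw [this]
      nlinarith
    · nlinarith
  have h5 : ∑ p ∈ PR X, (1 / (p : ℝ) - (p : ℝ) ^ (-(1 + ε))) ≤ ε * (Real.log X + Real.log 4) := by
    refine (sum_le_sum fun p hp => (h4 p hp).1).trans ?_
    rw [← mul_sum]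
    exact mul_le_mul_of_nonneg_left (sum_log_div_le hX) hε.le
  have h6 : |∑ p ∈ PR X, c p / p - ∑ p ∈ PR X, c p * (p : ℝ) ^ (-(1 + ε))| ≤
      B * ∑ p ∈ PR X, (1 / (p : ℝ) - (p : ℝ) ^ (-(1 + ε))) := by
    rw [← sum_sub_distrib, mul_sum]
    refine (abs_sum_le_sum_abs _ _).trans (sum_le_sum fun p hp => ?_)
    have : c p / p - c p * (p : ℝ) ^ (-(1 + ε)) = c p * (1 / (p : ℝ) - (p : ℝ) ^ (-(1 + ε))) := by ring
    rw [this, abs_mul, abs_of_nonneg (h4 p hp).2]
    exact mul_le_mul_of_nonneg_right (hc ⟨p, (mem_PR.1 hp).1⟩) (h4 p hp).2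
  have h7 : T1 = (PS (fun _ => 1) ε - ∑ p ∈ PR X, 1 / (p : ℝ)) +
      ∑ p ∈ PR X, (1 / (p : ℝ) - (p : ℝ) ^ (-(1 + ε))) := by
    rw [← h2', sum_sub_distrib]
    simp only [one_mul]
    ring
  have h8 : ∑ p ∈ PR X, c p / p - PS (fun p => c p) ε =
      (∑ p ∈ PR X, c p / p - ∑ p ∈ PR X, c p * (p : ℝ) ^ (-(1 + ε))) - T := by
    rw [← h1']; ring
  rw [h8]
  refine (abs_sub _ _).trans ?_
  rw [h7] at h3
  nlinarith

/-- **Partial sums over primes.** If the Dirichlet series of `c` over the primes behaves like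
`-κ log ε` at `1 + ε`, then `∑_{p ≤ X} c p / p = κ log log X + O(1)`. -/
theorem mv_sum {c : ℕ → ℝ} {κ : ℝ} (h : MV (fun p => c p) κ) :
    ∃ C : ℝ, 0 < C ∧ ∀ X : ℕ, 3 ≤ X →
      |∑ p ∈ PR X, c p / p - κ * Real.log (Real.log X)| ≤ C := by
  obtain ⟨⟨B, hB⟩, C1, hC1⟩ := h
  obtain ⟨C2, hC2⟩ := LA_one
  have hB0 : 0 ≤ B := (abs_nonneg _).trans (hB ⟨2, Nat.prime_two⟩)
  have htend : Tendsto (fun X : ℕ => (1 : ℝ) / Real.log X) atTop (𝓝[>] 0) := by
    rw [tendsto_nhdsWithin_iff]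
    constructor
    · have h1 : Tendsto (fun X : ℕ => Real.log X) atTop atTop :=
        Real.tendsto_log_atTop.comp tendsto_natCast_atTop_atTop
      simp only [one_div]
      exact h1.inv_tendsto_atTop
    · filter_upwards [eventually_ge_atTop 2] with X hX
      have : (1 : ℝ) < X := by exact_mod_cast hX
      exact div_pos one_pos (Real.log_pos this)
  have h3 : ∀ᶠ X : ℕ in atTop, |∑ p ∈ PR X, c p / p - κ * Real.log (Real.log X)| ≤
      C1 + B * (2 * (1 + Real.log 4) + (C2 + 2)) := by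
    filter_upwards [htend.eventually hC1, htend.eventually hC2, eventually_ge_atTop 3]
      with X h4 h5 hX
    have hX1 : (3 : ℝ) ≤ X := by exact_mod_cast hX
    have hlog : 1 ≤ Real.log X := by
      have : Real.log (Real.exp 1) ≤ Real.log X :=
        Real.log_le_log (Real.exp_pos 1) ((Real.exp_one_lt_d9.le.trans (by norm_num)).trans hX1)
      rwa [Real.log_exp] at this
    have hlog0 : 0 < Real.log X := by linarith
    have hε : 0 < 1 / Real.log X := div_pos one_pos hlog0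
    have h6 := diff_le (c := c) hB hε (X := X) (by omega)
    have h7 : Real.log (1 / Real.log X) = -Real.log (Real.log X) := by
      rw [one_div, Real.log_inv]
    rw [h7] at h4 h5
    have h8 := sum_inv_ge (X := X) (by omega)
    have h9 : 1 / Real.log X * (Real.log X + Real.log 4) ≤ 1 + Real.log 4 := by
      have : Real.log 4 ≤ Real.log 4 * Real.log X := le_mul_of_one_le_right (Real.log_nonneg (by norm_num)) hlog
      rw [one_div, inv_mul_le_iff₀ hlog0]
      nlinarith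
    have h10 := (abs_le.1 h5).2
    have h11 : 2 * (1 / Real.log X * (Real.log X + Real.log 4)) +
        (PS (fun _ => 1) (1 / Real.log X) - ∑ p ∈ PR X, 1 / (p : ℝ)) ≤
        2 * (1 + Real.log 4) + (C2 + 2) := by linarith
    have h12 := mul_le_mul_of_nonneg_left h11 hB0
    have h13 : ∑ p ∈ PR X, c p / p - κ * Real.log (Real.log X) =
        (∑ p ∈ PR X, c p / p - PS (fun p => c p) (1 / Real.log X)) +
        (PS (fun p => c p) (1 / Real.log X) + κ * -Real.log (Real.log X)) := by ring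
    rw [h13]
    exact (abs_add_le _ _).trans (by linarith)
  obtain ⟨N, hN⟩ := eventually_atTop.1 h3
  set F : ℕ → ℝ := fun X => |∑ p ∈ PR X, c p / p - κ * Real.log (Real.log X)| with hF
  refine ⟨|C1 + B * (2 * (1 + Real.log 4) + (C2 + 2))| + ∑ k ∈ range N, F k + 1, ?_, ?_⟩
  · have : 0 ≤ ∑ k ∈ range N, F k := sum_nonneg fun k _ => abs_nonneg _
    have := abs_nonneg (C1 + B * (2 * (1 + Real.log 4) + (C2 + 2)))
    linarith
  · intro X _
    rcases Nat.lt_or_ge X N with h4 | h4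
    · have h5 : F X ≤ ∑ k ∈ range N, F k :=
        single_le_sum (f := F) (fun k _ => abs_nonneg _) (mem_range.2 h4)
      have := abs_nonneg (C1 + B * (2 * (1 + Real.log 4) + (C2 + 2)))
      change F X ≤ _
      linarith
    · have h5 := (hN X h4).trans (le_abs_self _)
      have : 0 ≤ ∑ k ∈ range N, F k := sum_nonneg fun k _ => abs_nonneg _
      linarith

end Stoll308.MeanSum
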