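import Mathlib
import Pool.Agent.Work.MP_308fa9_nt.MeanSum

/-! An upper bound for sums of multiplicative functions supported on squarefree numbers. -/

set_option autoImplicit false

namespace Stoll308.HT

open Finset Stoll308.MeanSum

/-- the multiplicative function supported on squarefree numbers with values `H p` at primes -/
noncomputable def hf (H : ℕ → ℝ) (n : ℕ) : ℝ := if Squarefree n then ∏ p ∈ n.primeFactors, H p else 0

lemma hf_nonneg {H : ℕ → ℝ} (h0 : ∀ p, p.Prime → 0 ≤ H p) (n : ℕ) : 0 ≤ hf H n := by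
  unfold hf
  split_ifs
  · exact prod_nonneg fun p hp => h0 p (Nat.prime_of_mem_primeFactors hp)
  · exact le_rfl

lemma hf_mul_le {H : ℕ → ℝ} {K : ℝ} (h0 : ∀ p, p.Prime → 0 ≤ H p) (hK : ∀ p, p.Prime → H p ≤ K)
    {p m : ℕ} (hp : p.Prime) (hm : m ≠ 0) : hf H (p * m) ≤ K * hf H m := by
  have hK0 : 0 ≤ K := (h0 p hp).trans (hK p hp)
  by_cases hsq : Squarefree (p * m)
  · have h1 : Squarefree m := hsq.of_mul_right
    have h2 : Nat.Coprime p m := Nat.coprime_of_squarefree_mul hsq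
    unfold hf
    rw [if_pos hsq, if_pos h1, Nat.primeFactors_mul hp.ne_zero hm, hp.primeFactors]
    rw [prod_union (by
      rw [disjoint_singleton_left]
      intro h
      have := Nat.dvd_of_mem_primeFactors h
      exact (Nat.Prime.coprime_iff_not_dvd hp).1 h2 this), prod_singleton]
    exact mul_le_mul_of_nonneg_right (hK p hp)
      (prod_nonneg fun p hp => h0 p (Nat.prime_of_mem_primeFactors hp))
  · have : hf H (p * m) = 0 := by unfold hf; rw [if_neg hsq]
    rw [this]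
    exact mul_nonneg hK0 (hf_nonneg h0 m)

lemma log_eq_sum {n : ℕ} (hn : Squarefree n) :
    Real.log n = ∑ p ∈ n.primeFactors, Real.log p := by
  conv_lhs => rw [← Nat.prod_primeFactors_of_squarefree hn]
  push_cast
  rw [Real.log_prod]
  intro p hp
  have := (Nat.prime_of_mem_primeFactors hp).pos
  positivity

lemma sum_div_le_prod {H : ℕ → ℝ} (h0 : ∀ p, p.Prime → 0 ≤ H p) (X : ℕ) :
    ∑ m ∈ Icc 1 X, hf H m / m ≤ ∏ p ∈ PR X, (1 + H p / p) := by
  rw [prod_one_add]
  have h1 : ∑ m ∈ Icc 1 X, hf H m / m = ∑ m ∈ (Icc 1 X).filter Squarefree, hf H m / m := by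
    rw [sum_filter]
    refine sum_congr rfl fun m _ => ?_
    split_ifs with h
    · rfl
    · unfold hf; rw [if_neg h, zero_div]
  rw [h1]
  have h2 : ∀ m ∈ (Icc 1 X).filter Squarefree, hf H m / m = ∏ p ∈ m.primeFactors, H p / p := by
    intro m hm
    have hsq := (mem_filter.1 hm).2
    unfold hf
    rw [if_pos hsq, prod_div_distrib]
    congr 1
    conv_lhs => rw [← Nat.prod_primeFactors_of_squarefree hsq]
    push_cast
    rfl
  rw [sum_congr rfl h2]
  rw [← sum_image (f := fun t : Finset ℕ => ∏ p ∈ t, H p / p) (g := Nat.primeFactors)]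
  · refine sum_le_sum_of_subset_of_nonneg ?_ fun t ht _ => prod_nonneg fun p hp => ?_
    · intro t ht
      rw [mem_image] at ht
      obtain ⟨m, hm, rfl⟩ := ht
      rw [mem_powerset]
      intro p hp
      rw [mem_PR]
      have h3 := mem_Icc.1 (mem_filter.1 hm).1
      exact ⟨Nat.prime_of_mem_primeFactors hp, (Nat.le_of_dvd (by omega) (Nat.dvd_of_mem_primeFactors hp)).trans h3.2⟩
    · have := (mem_PR.1 (mem_powerset.1 ht hp)).1
      exact div_nonneg (h0 p this) (Nat.cast_nonneg _)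
  · intro m hm n hn hmn
    have h3 := (mem_filter.1 hm).2
    have h4 := (mem_filter.1 hn).2
    change m.primeFactors = n.primeFactors at hmn
    rw [← Nat.prod_primeFactors_of_squarefree h3, ← Nat.prod_primeFactors_of_squarefree h4, hmn]

lemma prod_le_exp {H : ℕ → ℝ} (h0 : ∀ p, p.Prime → 0 ≤ H p) (X : ℕ) :
    ∏ p ∈ PR X, (1 + H p / p) ≤ Real.exp (∑ p ∈ PR X, H p / p) := by
  rw [Real.exp_sum]
  refine prod_le_prod (fun p hp => ?_) fun p hp => ?_
  · have := div_nonneg (h0 p (mem_PR.1 hp).1) (Nat.cast_nonneg p)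
    linarith
  · have := Real.add_one_le_exp (H p / p)
    linarith

lemma sum_hf_log_le {H : ℕ → ℝ} {K : ℝ} (h0 : ∀ p, p.Prime → 0 ≤ H p) (hK : ∀ p, p.Prime → H p ≤ K)
    (X : ℕ) : ∑ n ∈ Icc 1 X, hf H n * Real.log n ≤
      K * Real.log 4 * X * ∑ m ∈ Icc 1 X, hf H m / m := by
  have hK0 : 0 ≤ K := (h0 2 Nat.prime_two).trans (hK 2 Nat.prime_two)
  have h1 : ∀ n ∈ Icc 1 X, hf H n * Real.log n =
      ∑ p ∈ PR X, if p ∣ n then hf H n * Real.log p else 0 := by
    intro n hn
    have hn' := mem_Icc.1 hn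
    by_cases hsq : Squarefree n
    · rw [log_eq_sum hsq, mul_sum, ← sum_filter]
      refine sum_congr ?_ fun _ _ => rfl
      ext p
      rw [mem_filter, mem_PR, Nat.mem_primeFactors]
      constructor
      · rintro ⟨h1, h2, _⟩
        exact ⟨⟨h1, (Nat.le_of_dvd (by omega) h2).trans hn'.2⟩, h2⟩
      · rintro ⟨⟨h1, _⟩, h2⟩
        exact ⟨h1, h2, by omega⟩
    · have : hf H n = 0 := by unfold hf; rw [if_neg hsq]
      rw [this, zero_mul]
      simp
  rw [sum_congr rfl h1, sum_comm]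
  have h2 : ∀ p ∈ PR X, (∑ n ∈ Icc 1 X, if p ∣ n then hf H n * Real.log p else 0) ≤
      ∑ m ∈ Icc 1 X, if p * m ≤ X then K * hf H m * Real.log p else 0 := by
    intro p hp
    obtain ⟨hpp, hpX⟩ := mem_PR.1 hp
    have hlogp : 0 ≤ Real.log p := Real.log_nonneg (by exact_mod_cast hpp.one_le)
    rw [← sum_filter, ← sum_filter]
    have h3 : (Icc 1 X).filter (fun n => p ∣ n) = ((Icc 1 X).filter (fun m => p * m ≤ X)).image (fun m => p * m) := by
      ext n
      rw [mem_filter, mem_image, mem_Icc]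
      constructor
      · rintro ⟨⟨h4, h5⟩, m, rfl⟩
        have hm : 1 ≤ m := by
          rcases Nat.eq_zero_or_pos m with h | h
          · rw [h, mul_zero] at h4; omega
          · exact h
        refine ⟨m, mem_filter.2 ⟨mem_Icc.2 ⟨hm, ?_⟩, h5⟩, rfl⟩
        exact (Nat.le_mul_of_pos_left m hpp.pos).trans h5
      · rintro ⟨m, hm, rfl⟩
        obtain ⟨h4, h5⟩ := mem_filter.1 hm
        have h6 := mem_Icc.1 h4
        exact ⟨⟨Nat.mul_pos hpp.pos (by omega), h5⟩, Dvd.intro m rfl⟩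
    rw [h3, sum_image (fun a _ b _ hab => Nat.eq_of_mul_eq_mul_left hpp.pos hab)]
    refine sum_le_sum fun m hm => ?_
    have h6 := mem_Icc.1 (mem_filter.1 hm).1
    exact mul_le_mul_of_nonneg_right (hf_mul_le h0 hK hpp (by omega)) hlogp
  refine (sum_le_sum h2).trans ?_
  rw [sum_comm, mul_sum]
  refine sum_le_sum fun m hm => ?_
  have hm1 := mem_Icc.1 hm
  have hmpos : (0 : ℝ) < m := by exact_mod_cast hm1.1
  rw [← sum_filter, ← mul_sum]
  have h4 : ∑ p ∈ (PR X).filter (fun p => p * m ≤ X), Real.log p ≤ Real.log 4 * (X / m) := by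
    refine le_trans ?_ (Chebyshev.theta_le_log4_mul_x (by positivity))
    rw [Chebyshev.theta_eq_sum_Icc]
    refine sum_le_sum_of_subset_of_nonneg ?_ ?_
    · intro p hp
      obtain ⟨h5, h6⟩ := mem_filter.1 hp
      rw [mem_filter, mem_Icc]
      refine ⟨⟨Nat.zero_le _, ?_⟩, (mem_PR.1 h5).1⟩
      rw [Nat.le_floor_iff (by positivity), le_div_iff₀ hmpos]
      exact_mod_cast h6
    · intro p hp _
      exact Real.log_nonneg (by exact_mod_cast (mem_filter.1 hp).2.one_le)
  have h5 : 0 ≤ K * hf H m := mul_nonneg hK0 (hf_nonneg h0 m)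
  calc K * hf H m * ∑ p ∈ (PR X).filter (fun p => p * m ≤ X), Real.log p
      ≤ K * hf H m * (Real.log 4 * (X / m)) := mul_le_mul_of_nonneg_left h4 h5
    _ = K * Real.log 4 * X * (hf H m / m) := by ring

/-- **Upper bound of Hall–Tenenbaum type** for a function supported on squarefree numbers. -/
theorem sum_hf_le {H : ℕ → ℝ} {K : ℝ} (h0 : ∀ p, p.Prime → 0 ≤ H p) (hK : ∀ p, p.Prime → H p ≤ K)
    {X : ℕ} (hX : 2 ≤ X) : ∑ n ∈ Icc 1 X, hf H n ≤
      (2 * K + 1) * (X / Real.log X) * Real.exp (∑ p ∈ PR X, H p / p) := by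
  have hK0 : 0 ≤ K := (h0 2 Nat.prime_two).trans (hK 2 Nat.prime_two)
  have hXr : (2 : ℝ) ≤ X := by exact_mod_cast hX
  have hlog : 0 < Real.log X := Real.log_pos (by linarith)
  have hS : 0 ≤ ∑ m ∈ Icc 1 X, hf H m / m :=
    sum_nonneg fun m _ => div_nonneg (hf_nonneg h0 m) (Nat.cast_nonneg m)
  have h1 := sum_hf_log_le h0 hK X
  have h2 : ∑ n ∈ Icc 1 X, hf H n * (Real.log X - Real.log n) ≤ X * ∑ m ∈ Icc 1 X, hf H m / m := by
    rw [mul_sum]
    refine sum_le_sum fun n hn => ?_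
    have hn1 := mem_Icc.1 hn
    have hnpos : (0 : ℝ) < n := by exact_mod_cast hn1.1
    have h3 : Real.log X - Real.log n ≤ X / n := by
      rw [← Real.log_div (by linarith) hnpos.ne']
      exact (Real.log_le_sub_one_of_pos (by positivity)).trans (by linarith)
    calc hf H n * (Real.log X - Real.log n) ≤ hf H n * (X / n) :=
          mul_le_mul_of_nonneg_left h3 (hf_nonneg h0 n)
      _ = X * (hf H n / n) := by ring
  have h3 : Real.log X * ∑ n ∈ Icc 1 X, hf H n =
      ∑ n ∈ Icc 1 X, hf H n * (Real.log X - Real.log n) + ∑ n ∈ Icc 1 X, hf H n * Real.log n := by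
    rw [← sum_add_distrib, mul_sum]
    refine sum_congr rfl fun n _ => ?_
    ring
  have h4 : Real.log 4 ≤ 2 := by
    have : (4 : ℝ) = 2 ^ 2 := by norm_num
    rw [this, Real.log_pow]
    have := Real.log_two_lt_d9
    push_cast
    linarith
  have h5 : Real.log X * ∑ n ∈ Icc 1 X, hf H n ≤ (2 * K + 1) * X * ∑ m ∈ Icc 1 X, hf H m / m := by
    have h6 : K * Real.log 4 * X * ∑ m ∈ Icc 1 X, hf H m / m ≤ K * 2 * X * ∑ m ∈ Icc 1 X, hf H m / m := by
      gcongr
    rw [h3]
    calc _ ≤ X * ∑ m ∈ Icc 1 X, hf H m / m + K * 2 * X * ∑ m ∈ Icc 1 X, hf H m / m :=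
          add_le_add h2 (h1.trans h6)
      _ = _ := by ring
  have h6 := (sum_div_le_prod h0 X).trans (prod_le_exp h0 X)
  have h7 : (2 * K + 1) * X * ∑ m ∈ Icc 1 X, hf H m / m ≤
      (2 * K + 1) * X * Real.exp (∑ p ∈ PR X, H p / p) :=
    mul_le_mul_of_nonneg_left h6 (by positivity)
  have h8 : ∑ n ∈ Icc 1 X, hf H n ≤ ((2 * K + 1) * X * Real.exp (∑ p ∈ PR X, H p / p)) / Real.log X := by
    rw [le_div_iff₀ hlog, mul_comm]
    exact h5.trans h7
  refine h8.trans (le_of_eq ?_)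
  ring

end Stoll308.HT
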