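import Mathlib

/-! Bilinear sums of Jacobi symbols. -/

namespace Stoll308.Bilin

open Finset

open scoped NumberTheorySymbols

noncomputable section

/-! ### Periodic sums -/

lemma sum_range_periodic {q : ℕ} {f : ℕ → ℝ} (hf : ∀ m, f (m + q) = f m)
    (h0 : ∑ m ∈ range q, f m = 0) (t : ℕ) : ∑ m ∈ range (q * t), f m = 0 := by
  induction t with
  | zero => simp
  | succ t ih =>
    rw [Nat.mul_succ, sum_range_add, ih, zero_add]
    rw [← h0]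
    refine sum_congr rfl fun m _ => ?_
    have : ∀ s : ℕ, f (m + q * s) = f m := by
      intro s
      induction s with
      | zero => simp
      | succ s ih2 => rw [Nat.mul_succ, ← add_assoc, hf, ih2]
    rw [add_comm (q * t) m]
    exact this t

lemma abs_sum_range_le {q : ℕ} (hq : 0 < q) {f : ℕ → ℝ} (hf : ∀ m, f (m + q) = f m)
    (hf1 : ∀ m, |f m| ≤ 1) (h0 : ∑ m ∈ range q, f m = 0) (K : ℕ) :
    |∑ m ∈ range K, f m| ≤ q := by
  have hK : K = q * (K / q) + K % q := (Nat.div_add_mod K q).symm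
  rw [hK, sum_range_add, sum_range_periodic hf h0, zero_add]
  refine (abs_sum_le_sum_abs _ _).trans ?_
  calc ∑ m ∈ range (K % q), |f (q * (K / q) + m)| ≤ ∑ _m ∈ range (K % q), (1 : ℝ) :=
        sum_le_sum fun m _ => hf1 _
    _ = ((K % q : ℕ) : ℝ) := by simp
    _ ≤ q := by exact_mod_cast (Nat.mod_lt K hq).le

lemma abs_jacobi_le_one (a : ℤ) (b : ℕ) : |((J(a | b) : ℤ) : ℝ)| ≤ 1 := by
  rcases jacobiSym.trichotomy a b with h | h | h <;> rw [h] <;> simp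

lemma jacobi_sum_eq_zero {q : ℕ} [NeZero q] {m0 : ℕ} (h : J(m0 | q) = -1) :
    ∑ m ∈ range q, ((J(m | q) : ℤ) : ℝ) = 0 := by
  have hco : Nat.Coprime m0 q := by
    by_contra hne
    have h1 : J((m0 : ℤ) | q) = 0 := by
      rw [jacobiSym.eq_zero_iff_not_coprime, Int.gcd_natCast_natCast]
      exact hne
    rw [h] at h1
    norm_num at h1
  have h1 : ∑ m ∈ range q, ((J(m | q) : ℤ) : ℝ) = ∑ x : ZMod q, ((J((x.val : ℤ) | q) : ℤ) : ℝ) := by
    refine sum_bij' (fun m _ => (m : ZMod q)) (fun x _ => x.val) (fun _ _ => mem_univ _)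
      (fun x _ => mem_range.2 (ZMod.val_lt x)) (fun m hm => ?_) (fun x _ => ?_) (fun m hm => ?_)
    · exact ZMod.val_cast_of_lt (mem_range.1 hm)
    · simp
    · rw [ZMod.val_cast_of_lt (mem_range.1 hm)]
  rw [h1]
  set u : (ZMod q)ˣ := ZMod.unitOfCoprime m0 hco with hu
  have h2 : ∑ x : ZMod q, ((J((x.val : ℤ) | q) : ℤ) : ℝ) =
      ∑ x : ZMod q, ((J(((u : ZMod q) * x).val | q) : ℤ) : ℝ) := by
    exact (Equiv.sum_comp (Units.mulLeft u) (fun x : ZMod q => ((J((x.val : ℤ) | q) : ℤ) : ℝ))).symm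
  have h3 : ∀ x : ZMod q, J((((u : ZMod q) * x).val : ℤ) | q) = - J((x.val : ℤ) | q) := by
    intro x
    rw [hu, ZMod.coe_unitOfCoprime, ZMod.val_mul, ZMod.val_natCast]
    have e1 : J(((m0 % q * x.val % q : ℕ) : ℤ) | q) = J(((m0 * x.val : ℕ) : ℤ) | q) := by
      rw [Int.natCast_mod, ← jacobiSym.mod_left]
      push_cast
      rw [jacobiSym.mul_left, jacobiSym.mul_left, ← jacobiSym.mod_left]
    rw [e1]
    push_cast
    rw [jacobiSym.mul_left, h]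
    ring
  have h4 : ∑ x : ZMod q, ((J(((u : ZMod q) * x).val | q) : ℤ) : ℝ) =
      - ∑ x : ZMod q, ((J((x.val : ℤ) | q) : ℤ) : ℝ) := by
    rw [← sum_neg_distrib]
    refine sum_congr rfl fun x _ => ?_
    rw [h3 x]
    push_cast
    ring
  linarith [h2.trans h4]

lemma exists_neg_one_prime {p : ℕ} (hp : p.Prime) (hp2 : p ≠ 2) : ∃ a : ℕ, J(a | p) = -1 := by
  have := Fact.mk hp
  have hchar : ringChar (ZMod p) ≠ 2 := by rwa [ZMod.ringChar_zmod_n]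
  obtain ⟨a, ha⟩ := FiniteField.exists_nonsquare hchar
  refine ⟨a.val, ?_⟩
  rw [← jacobiSym.legendreSym.to_jacobiSym, legendreSym.eq_neg_one_iff]
  simpa using ha

lemma exists_neg_one {p k : ℕ} (hp : p.Prime) (hp2 : p ≠ 2) (hk : Nat.Coprime p k) :
    ∃ m : ℕ, J(m | p * k) = -1 := by
  obtain ⟨a, ha⟩ := exists_neg_one_prime hp hp2
  obtain ⟨m, hm1, hm2⟩ := Nat.chineseRemainder hk a 1
  have hp0 : p ≠ 0 := hp.ne_zero
  rcases Nat.eq_zero_or_pos k with hk0 | hk0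
  · subst hk0
    rw [Nat.coprime_zero_right] at hk
    exact absurd hk hp.one_lt.ne'
  refine ⟨m, ?_⟩
  have : NeZero p := ⟨hp0⟩
  have : NeZero k := ⟨hk0.ne'⟩
  rw [jacobiSym.mul_right]
  have e1 : J(m | p) = -1 := by
    rw [← ha, jacobiSym.mod_left (m : ℤ), jacobiSym.mod_left (a : ℤ)]
    congr 1
    exact_mod_cast hm1
  have e2 : J(m | k) = 1 := by
    rw [← jacobiSym.one_left k, jacobiSym.mod_left (m : ℤ), jacobiSym.mod_left (1 : ℤ)]
    congr 1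
    exact_mod_cast hm2
  rw [e1, e2]
  norm_num

lemma exists_neg_one_mul {n n' : ℕ} (hn : Squarefree n) (hn' : Squarefree n') (ho : Odd n)
    (ho' : Odd n') (hne : n ≠ n') : ∃ m : ℕ, J(m | n * n') = -1 := by
  -- a prime dividing exactly one of them
  have key : ∀ n n' : ℕ, Squarefree n → Squarefree n' → Odd n → Odd n' →
      (∃ p, p.Prime ∧ p ∣ n ∧ ¬ p ∣ n') → ∃ m : ℕ, J(m | n * n') = -1 := by
    rintro n n' hn hn' ho ho' ⟨p, hp, hpn, hpn'⟩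
    obtain ⟨n1, rfl⟩ := hpn
    have h1 : ¬ p ∣ n1 := fun h => by
      have := hn p (mul_dvd_mul_left p h)
      exact hp.one_lt.ne' (Nat.isUnit_iff.1 this)
    have hp2 : p ≠ 2 := by
      rintro rfl
      exact (Nat.not_odd_iff_even.2 (even_two_mul n1)) ho
    have h2 : Nat.Coprime p (n1 * n') := by
      refine Nat.Coprime.mul_right ?_ ?_
      · exact (Nat.Prime.coprime_iff_not_dvd hp).2 h1
      · exact (Nat.Prime.coprime_iff_not_dvd hp).2 hpn'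
    obtain ⟨m, hm⟩ := exists_neg_one hp hp2 h2
    exact ⟨m, by rw [mul_assoc]; exact hm⟩
  by_cases h : n.primeFactors ⊆ n'.primeFactors
  · by_cases h' : n'.primeFactors ⊆ n.primeFactors
    · exfalso
      apply hne
      rw [← Nat.prod_primeFactors_of_squarefree hn, ← Nat.prod_primeFactors_of_squarefree hn',
        Subset.antisymm h h']
    · rw [not_subset] at h'
      obtain ⟨p, hp1, hp2⟩ := h'
      have hn0 : n ≠ 0 := hn.ne_zero
      obtain ⟨m, hm⟩ := key n' n hn' hn ho' ho ⟨p, Nat.prime_of_mem_primeFactors hp1,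
        Nat.dvd_of_mem_primeFactors hp1, fun hd => hp2 (Nat.mem_primeFactors.2
          ⟨Nat.prime_of_mem_primeFactors hp1, hd, hn0⟩)⟩
      exact ⟨m, by rw [mul_comm]; exact hm⟩
  · rw [not_subset] at h
    obtain ⟨p, hp1, hp2⟩ := h
    have hn0 : n' ≠ 0 := hn'.ne_zero
    exact key n n' hn hn' ho ho' ⟨p, Nat.prime_of_mem_primeFactors hp1,
        Nat.dvd_of_mem_primeFactors hp1, fun hd => hp2 (Nat.mem_primeFactors.2
          ⟨Nat.prime_of_mem_primeFactors hp1, hd, hn0⟩)⟩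

/-- Complete sums of nonprincipal Jacobi symbols. -/
lemma jacobi_sum_le {n n' : ℕ} (hn : Squarefree n) (hn' : Squarefree n') (ho : Odd n)
    (ho' : Odd n') (hne : n ≠ n') (K : ℕ) :
    |∑ m ∈ range K, ((J(m | n * n') : ℤ) : ℝ)| ≤ ((n * n' : ℕ) : ℝ) := by
  have hpos : 0 < n * n' := Nat.mul_pos (Nat.pos_of_ne_zero hn.ne_zero)
    (Nat.pos_of_ne_zero hn'.ne_zero)
  have : NeZero (n * n') := ⟨hpos.ne'⟩
  obtain ⟨m, hm⟩ := exists_neg_one_mul hn hn' ho ho' hne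
  refine abs_sum_range_le hpos (fun m => ?_) (fun m => abs_jacobi_le_one _ _)
    (jacobi_sum_eq_zero hm) K
  congr 1
  rw [jacobiSym.mod_left, jacobiSym.mod_left (m : ℤ)]
  congr 1
  push_cast
  simp

/-! ### Moments of the divisor function -/

/-- the divisor function -/
def tau (n : ℕ) : ℝ := (n.divisors.card : ℝ)

lemma tau_nonneg (n : ℕ) : 0 ≤ tau n := by unfold tau; positivity

lemma tau_mul_le (a b : ℕ) : tau (a * b) ≤ tau a * tau b := by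
  unfold tau
  rw [Nat.divisors_mul]
  exact_mod_cast Finset.card_mul_le

lemma harm_le {K : ℕ} (hK : 1 ≤ K) : ∑ x ∈ Icc 1 K, (1 : ℝ) / x ≤ 1 + Real.log K := by
  have h := harmonic_le_one_add_log K
  rw [harmonic_eq_sum_Icc] at h
  push_cast at h
  simpa [one_div] using h

lemma tau_moment_aux (K k : ℕ) : ∑ x ∈ Icc 1 K, tau x ^ k / x ≤
    (∑ x ∈ Icc 1 K, (1 : ℝ) / x) ^ (2 ^ k) := by
  induction k with
  | zero => simp
  | succ k ih =>
    have h1 : ∀ x ∈ Icc 1 K, tau x ^ (k + 1) / x =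
        ∑ ab ∈ x.divisorsAntidiagonal, tau (ab.1 * ab.2) ^ k / ((ab.1 : ℝ) * ab.2) := by
      intro x hx
      have h2 : ∀ ab ∈ x.divisorsAntidiagonal, tau (ab.1 * ab.2) ^ k / ((ab.1 : ℝ) * ab.2) =
          tau x ^ k / x := by
        intro ab hab
        have h3 := (Nat.mem_divisorsAntidiagonal.1 hab).1
        rw [← Nat.cast_mul, h3]
      rw [sum_congr rfl h2, Nat.sum_divisorsAntidiagonal (fun _ _ => tau x ^ k / (x : ℝ)),
        sum_const, nsmul_eq_mul]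
      unfold tau
      ring
    rw [sum_congr rfl h1]
    have h4 : ∑ x ∈ Icc 1 K, ∑ ab ∈ x.divisorsAntidiagonal,
        tau (ab.1 * ab.2) ^ k / ((ab.1 : ℝ) * ab.2) ≤
        ∑ ab ∈ Icc 1 K ×ˢ Icc 1 K, tau (ab.1 * ab.2) ^ k / ((ab.1 : ℝ) * ab.2) := by
      rw [← sum_biUnion]
      · refine sum_le_sum_of_subset_of_nonneg ?_ fun ab _ _ => by
          have := tau_nonneg (ab.1 * ab.2)
          positivity
        intro ab hab
        obtain ⟨x, hx, hx'⟩ := mem_biUnion.1 hab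
        obtain ⟨h5, h6⟩ := Nat.mem_divisorsAntidiagonal.1 hx'
        have hxK := mem_Icc.1 hx
        have ha : ab.1 ≠ 0 := by rintro h; rw [h, zero_mul] at h5; exact h6 h5.symm
        have hb : ab.2 ≠ 0 := by rintro h; rw [h, mul_zero] at h5; exact h6 h5.symm
        have hax : ab.1 ≤ x := Nat.le_of_dvd (by omega) ⟨ab.2, h5.symm⟩
        have hbx : ab.2 ≤ x := Nat.le_of_dvd (by omega) ⟨ab.1, by rw [mul_comm]; exact h5.symm⟩
        simp only [mem_product, mem_Icc]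
        omega
      · intro x _ y _ hxy
        rw [Function.onFun, disjoint_left]
        intro ab h1 h2
        exact hxy ((Nat.mem_divisorsAntidiagonal.1 h1).1.symm.trans
          (Nat.mem_divisorsAntidiagonal.1 h2).1)
    refine h4.trans ?_
    have h5 : ∑ ab ∈ Icc 1 K ×ˢ Icc 1 K, tau (ab.1 * ab.2) ^ k / ((ab.1 : ℝ) * ab.2) ≤
        (∑ x ∈ Icc 1 K, tau x ^ k / x) ^ 2 := by
      rw [sq, sum_mul_sum, ← sum_product']
      refine sum_le_sum fun ab _ => ?_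
      have h6 := pow_le_pow_left₀ (tau_nonneg _) (tau_mul_le ab.1 ab.2) k
      rw [mul_pow] at h6
      calc tau (ab.1 * ab.2) ^ k / ((ab.1 : ℝ) * ab.2)
          ≤ (tau ab.1 ^ k * tau ab.2 ^ k) / ((ab.1 : ℝ) * ab.2) := by gcongr
        _ = _ := by rw [div_mul_div_comm]
    refine h5.trans ?_
    rw [pow_succ 2 k, pow_mul]
    refine pow_le_pow_left₀ ?_ ih 2
    exact sum_nonneg fun x _ => by have := tau_nonneg x; positivity

lemma tau_moment {K : ℕ} (hK : 1 ≤ K) (k : ℕ) :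
    ∑ x ∈ Icc 1 K, tau x ^ k ≤ K * (1 + Real.log K) ^ (2 ^ k) := by
  have h1 : ∑ x ∈ Icc 1 K, tau x ^ k ≤ K * ∑ x ∈ Icc 1 K, tau x ^ k / x := by
    rw [mul_sum]
    refine sum_le_sum fun x hx => ?_
    have hx' := mem_Icc.1 hx
    have h2 : (x : ℝ) ≤ K := by exact_mod_cast hx'.2
    have h3 : (0 : ℝ) < x := by exact_mod_cast hx'.1
    have h4 : 0 ≤ tau x ^ k := pow_nonneg (tau_nonneg x) k
    rw [mul_div_assoc', le_div_iff₀ h3]
    nlinarith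
  refine h1.trans ?_
  have h5 : 0 ≤ ∑ x ∈ Icc 1 K, (1 : ℝ) / x := sum_nonneg fun x _ => by positivity
  have h6 := pow_le_pow_left₀ h5 (harm_le hK) (2 ^ k)
  have h7 := (tau_moment_aux K k).trans h6
  gcongr

/-! ### The block bound -/

/-- odd squarefree numbers up to `N` -/
def OS (N : ℕ) : Finset ℕ := (Icc 1 N).filter (fun n => Odd n ∧ Squarefree n)

lemma sum_sq_le (N K : ℕ) :
    ∑ x ∈ Icc 1 K, (∑ n ∈ OS N, ((J(x | n) : ℤ) : ℝ)) ^ 2 ≤ N * K + 2 * (N : ℝ) ^ 4 := by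
  have h1 : ∀ x ∈ Icc 1 K, (∑ n ∈ OS N, ((J(x | n) : ℤ) : ℝ)) ^ 2 =
      ∑ n ∈ OS N, ∑ n' ∈ OS N, ((J(x | n * n') : ℤ) : ℝ) := by
    intro x _
    rw [sq, sum_mul_sum]
    refine sum_congr rfl fun n hn => sum_congr rfl fun n' hn' => ?_
    have e1 : n ≠ 0 := (mem_filter.1 hn).2.2.ne_zero
    have e2 : n' ≠ 0 := (mem_filter.1 hn').2.2.ne_zero
    rw [jacobiSym.mul_right' _ e1 e2]
    push_cast
    ring
  rw [sum_congr rfl h1]
  have hcard : ((OS N).card : ℝ) ≤ N := by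
    have : (OS N).card ≤ N := (card_filter_le _ _).trans (by simp)
    exact_mod_cast this
  have hrow : ∀ n ∈ OS N, ∑ x ∈ Icc 1 K, ∑ n' ∈ OS N, ((J(x | n * n') : ℤ) : ℝ) ≤
      K + 2 * (N : ℝ) ^ 3 := by
    intro n hn
    obtain ⟨hn1, hno, hns⟩ := mem_filter.1 hn
    have hnN : (n : ℝ) ≤ N := by exact_mod_cast (mem_Icc.1 hn1).2
    rw [sum_comm, ← add_sum_erase _ _ hn]
    have hdiag : ∑ x ∈ Icc 1 K, ((J(x | n * n) : ℤ) : ℝ) ≤ K := by
      calc ∑ x ∈ Icc 1 K, ((J(x | n * n) : ℤ) : ℝ) ≤ ∑ _x ∈ Icc 1 K, (1 : ℝ) :=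
            sum_le_sum fun x _ => (abs_le.1 (abs_jacobi_le_one _ _)).2
        _ = K := by simp
    have hoff : ∀ n' ∈ (OS N).erase n, ∑ x ∈ Icc 1 K, ((J(x | n * n') : ℤ) : ℝ) ≤
        2 * (N : ℝ) ^ 2 := by
      intro n' hn'
      obtain ⟨hne, hn'2⟩ := mem_erase.1 hn'
      obtain ⟨hn'1, hn'o, hn's⟩ := mem_filter.1 hn'2
      have hn'N : (n' : ℝ) ≤ N := by exact_mod_cast (mem_Icc.1 hn'1).2
      have h2 := jacobi_sum_le hns hn's hno hn'o (Ne.symm hne) (K + 1)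
      have h3 : ∑ m ∈ range (K + 1), ((J(m | n * n') : ℤ) : ℝ) =
          ((J(((0 : ℕ) : ℤ) | n * n') : ℤ) : ℝ) + ∑ x ∈ Icc 1 K, ((J(x | n * n') : ℤ) : ℝ) := by
        rw [sum_range_succ']
        rw [add_comm]
        congr 1
        rw [sum_bij (fun x _ => x + 1)]
        · intro x hx; have := mem_range.1 hx; exact mem_Icc.2 ⟨by omega, by omega⟩
        · intro x _ y _ h; omega
        · intro y hy; have := mem_Icc.1 hy; exact ⟨y - 1, mem_range.2 (by omega), by omega⟩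
        · intro x _; rfl
      rw [h3] at h2
      have h4 := (abs_le.1 h2).2
      have h5 := (abs_le.1 (abs_jacobi_le_one ((0 : ℕ) : ℤ) (n * n'))).1
      have h6 : ((n * n' : ℕ) : ℝ) ≤ (N : ℝ) ^ 2 := by
        push_cast
        rw [sq]
        gcongr
      have h7 : (1 : ℝ) ≤ (N : ℝ) ^ 2 := by
        have : (1 : ℝ) ≤ N := by
          have := (mem_Icc.1 hn1)
          exact_mod_cast this.1.trans this.2
        nlinarith
      linarith
    calc _ ≤ (K : ℝ) + ∑ _n' ∈ (OS N).erase n, 2 * (N : ℝ) ^ 2 :=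
          add_le_add hdiag (sum_le_sum hoff)
      _ ≤ K + N * (2 * (N : ℝ) ^ 2) := by
          rw [sum_const, nsmul_eq_mul]
          have : (((OS N).erase n).card : ℝ) ≤ N := by
            refine le_trans ?_ hcard
            exact_mod_cast card_le_card (erase_subset _ _)
          gcongr
      _ = _ := by ring
  rw [sum_comm]
  calc ∑ n ∈ OS N, ∑ x ∈ Icc 1 K, ∑ n' ∈ OS N, ((J(x | n * n') : ℤ) : ℝ)
      ≤ ∑ _n ∈ OS N, ((K : ℝ) + 2 * (N : ℝ) ^ 3) := sum_le_sum hrow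
    _ ≤ N * ((K : ℝ) + 2 * (N : ℝ) ^ 3) := by
        rw [sum_const, nsmul_eq_mul]
        gcongr
    _ = _ := by ring

/-- Fourth moment of the row sums. -/
lemma fourth_moment {M N : ℕ} (hM : 1 ≤ M) (hNM : N ≤ M) {a : ℕ → ℝ} (ha : ∀ m, |a m| ≤ 1) :
    (∑ n ∈ OS N, (∑ m ∈ Icc 1 M, a m * ((J(m | n) : ℤ) : ℝ)) ^ 4) ^ 2 ≤
      3 * N * (M : ℝ) ^ 8 * (1 + Real.log ((M : ℝ) ^ 4)) ^ 256 := by
  set g : ℕ → ℝ := fun x => ∑ n ∈ OS N, ((J(x | n) : ℤ) : ℝ) with hg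
  set P : Finset (Fin 4 → ℕ) := Fintype.piFinset (fun _ : Fin 4 => Icc 1 M) with hP
  have h1 : ∀ n ∈ OS N, (∑ m ∈ Icc 1 M, a m * ((J(m | n) : ℤ) : ℝ)) ^ 4 =
      ∑ φ ∈ P, (∏ i, a (φ i)) * ((J(((∏ i, φ i : ℕ) : ℤ) | n) : ℤ) : ℝ) := by
    intro n _
    have h2 : (∑ m ∈ Icc 1 M, a m * ((J(m | n) : ℤ) : ℝ)) ^ 4 =
        ∏ _i : Fin 4, ∑ m ∈ Icc 1 M, a m * ((J(m | n) : ℤ) : ℝ) := by
      rw [prod_const, card_univ, Fintype.card_fin]
    rw [h2, prod_univ_sum]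
    refine sum_congr rfl fun φ _ => ?_
    rw [prod_mul_distrib]
    congr 1
    simp only [Fin.prod_univ_four, Nat.cast_mul, jacobiSym.mul_left, Int.cast_mul]
  rw [sum_congr rfl h1, sum_comm]
  have h3 : |∑ φ ∈ P, ∑ n ∈ OS N, (∏ i, a (φ i)) * ((J(((∏ i, φ i : ℕ) : ℤ) | n) : ℤ) : ℝ)| ≤
      ∑ φ ∈ P, |g (∏ i, φ i)| := by
    refine (abs_sum_le_sum_abs _ _).trans (sum_le_sum fun φ _ => ?_)
    rw [← mul_sum, abs_mul]
    have h4 : |∏ i, a (φ i)| ≤ 1 := by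
      rw [abs_prod]
      exact prod_le_one (fun i _ => abs_nonneg _) fun i _ => ha _
    calc |∏ i, a (φ i)| * |∑ n ∈ OS N, ((J(((∏ i, φ i : ℕ) : ℤ) | n) : ℤ) : ℝ)|
        ≤ 1 * |g (∏ i, φ i)| := by gcongr
      _ = _ := one_mul _
  have hM4 : 1 ≤ M ^ 4 := Nat.one_le_pow _ _ hM
  have h5 : ∑ φ ∈ P, |g (∏ i, φ i)| ≤ ∑ x ∈ Icc 1 (M ^ 4), tau x ^ 4 * |g x| := by
    have hmap : ∀ φ ∈ P, ∏ i, φ i ∈ Icc 1 (M ^ 4) := by
      intro φ hφ
      have h6 : ∀ i, φ i ∈ Icc 1 M := fun i => Fintype.mem_piFinset.1 hφ i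
      refine mem_Icc.2 ⟨Nat.one_le_iff_ne_zero.2 (prod_ne_zero_iff.2 fun i _ => ?_), ?_⟩
      · have := mem_Icc.1 (h6 i); omega
      · calc ∏ i, φ i ≤ ∏ _i : Fin 4, M := prod_le_prod' fun i _ => (mem_Icc.1 (h6 i)).2
          _ = M ^ 4 := by simp
    rw [← sum_fiberwise_of_maps_to hmap]
    refine sum_le_sum fun x hx => ?_
    have h7 : ∀ φ ∈ P.filter (fun φ => ∏ i, φ i = x), |g (∏ i, φ i)| = |g x| := by
      intro φ hφ
      rw [(mem_filter.1 hφ).2]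
    rw [sum_congr rfl h7, sum_const, nsmul_eq_mul]
    refine mul_le_mul_of_nonneg_right ?_ (abs_nonneg _)
    have h8 : P.filter (fun φ => ∏ i, φ i = x) ⊆
        Fintype.piFinset (fun _ : Fin 4 => x.divisors) := by
      intro φ hφ
      rw [Fintype.mem_piFinset]
      intro i
      rw [Nat.mem_divisors]
      refine ⟨?_, by have := mem_Icc.1 hx; omega⟩
      rw [← (mem_filter.1 hφ).2]
      exact dvd_prod_of_mem _ (mem_univ i)
    have h9 := card_le_card h8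
    rw [Fintype.card_piFinset, prod_const, card_univ, Fintype.card_fin] at h9
    unfold tau
    exact_mod_cast h9
  have h10 := h3.trans h5
  have h11 : (∑ φ ∈ P, ∑ n ∈ OS N, (∏ i, a (φ i)) * ((J(((∏ i, φ i : ℕ) : ℤ) | n) : ℤ) : ℝ)) ^ 2
      ≤ (∑ x ∈ Icc 1 (M ^ 4), tau x ^ 4 * |g x|) ^ 2 := by
    rw [← sq_abs]
    exact pow_le_pow_left₀ (abs_nonneg _) h10 2
  refine h11.trans ?_
  have h12 : (∑ x ∈ Icc 1 (M ^ 4), tau x ^ 4 * |g x|) ^ 2 ≤
      (∑ x ∈ Icc 1 (M ^ 4), (tau x ^ 4) ^ 2) * ∑ x ∈ Icc 1 (M ^ 4), |g x| ^ 2 :=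
    sum_mul_sq_le_sq_mul_sq _ _ _
  refine h12.trans ?_
  have h13 : ∑ x ∈ Icc 1 (M ^ 4), (tau x ^ 4) ^ 2 ≤
      (M : ℝ) ^ 4 * (1 + Real.log ((M : ℝ) ^ 4)) ^ 256 := by
    have := tau_moment hM4 8
    push_cast at this
    refine le_trans (le_of_eq ?_) this
    refine sum_congr rfl fun x _ => ?_
    rw [← pow_mul]
  have h14 : ∑ x ∈ Icc 1 (M ^ 4), |g x| ^ 2 ≤ 3 * N * (M : ℝ) ^ 4 := by
    have h15 := sum_sq_le N (M ^ 4)
    have h16 : ∑ x ∈ Icc 1 (M ^ 4), |g x| ^ 2 =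
        ∑ x ∈ Icc 1 (M ^ 4), (∑ n ∈ OS N, ((J(x | n) : ℤ) : ℝ)) ^ 2 :=
      sum_congr rfl fun x _ => sq_abs _
    rw [h16]
    refine h15.trans ?_
    push_cast
    rcases Nat.eq_zero_or_pos N with h0 | h0
    · subst h0; simp
    · have h17 : (1 : ℝ) ≤ N := by exact_mod_cast h0
      have h18 : (N : ℝ) ≤ M := by exact_mod_cast hNM
      have h19 : (N : ℝ) ^ 4 ≤ N * (M : ℝ) ^ 4 := by
        have : (N : ℝ) ^ 4 ≤ (M : ℝ) ^ 4 := pow_le_pow_left₀ (by linarith) h18 4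
        nlinarith [pow_nonneg (by linarith : (0 : ℝ) ≤ M) 4]
      nlinarith
  have hE : 0 ≤ (1 + Real.log ((M : ℝ) ^ 4)) ^ 256 := by
    have : 0 ≤ Real.log ((M : ℝ) ^ 4) :=
      Real.log_nonneg (one_le_pow₀ (by exact_mod_cast hM))
    positivity
  generalize (1 + Real.log ((M : ℝ) ^ 4)) ^ 256 = E at h13 hE ⊢
  calc (∑ x ∈ Icc 1 (M ^ 4), (tau x ^ 4) ^ 2) * ∑ x ∈ Icc 1 (M ^ 4), |g x| ^ 2
      ≤ ((M : ℝ) ^ 4 * E) * (3 * N * (M : ℝ) ^ 4) := by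
        refine mul_le_mul h13 h14 (sum_nonneg fun x _ => by positivity) (by positivity)
    _ = _ := by ring

/-- The block bound, when the denominators are the shorter variable. -/
lemma block_pow {M N : ℕ} (hM : 1 ≤ M) (hNM : N ≤ M) {a b : ℕ → ℝ} (ha : ∀ m, |a m| ≤ 1)
    (hb : ∀ n, |b n| ≤ 1) (hb0 : ∀ n, b n ≠ 0 → Odd n ∧ Squarefree n) :
    (∑ n ∈ Icc 1 N, ∑ m ∈ Icc 1 M, a m * b n * ((J(m | n) : ℤ) : ℝ)) ^ 8 ≤
      3 * (N : ℝ) ^ 7 * (M : ℝ) ^ 8 * (1 + Real.log ((M : ℝ) ^ 4)) ^ 256 := by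
  set f : ℕ → ℝ := fun n => ∑ m ∈ Icc 1 M, a m * ((J(m | n) : ℤ) : ℝ) with hf
  have h1 : ∑ n ∈ Icc 1 N, ∑ m ∈ Icc 1 M, a m * b n * ((J(m | n) : ℤ) : ℝ) =
      ∑ n ∈ OS N, b n * f n := by
    unfold OS
    rw [sum_filter]
    refine sum_congr rfl fun n _ => ?_
    by_cases h : b n = 0
    · simp [h]
    · rw [if_pos (hb0 n h), hf, mul_sum]
      refine sum_congr rfl fun m _ => ?_
      ring
  rw [h1]
  have hcard : ((OS N).card : ℝ) ≤ N := by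
    have : (OS N).card ≤ N := (card_filter_le _ _).trans (by simp)
    exact_mod_cast this
  have h2 : (∑ n ∈ OS N, b n * f n) ^ 2 ≤ N * ∑ n ∈ OS N, f n ^ 2 := by
    refine (sum_mul_sq_le_sq_mul_sq _ _ _).trans ?_
    have h3 : ∑ n ∈ OS N, b n ^ 2 ≤ N := by
      calc ∑ n ∈ OS N, b n ^ 2 ≤ ∑ _n ∈ OS N, (1 : ℝ) := by
            refine sum_le_sum fun n _ => ?_
            rw [← sq_abs]
            exact pow_le_one₀ (abs_nonneg _) (hb n)
        _ ≤ N := by simpa using hcard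
    exact mul_le_mul_of_nonneg_right h3 (sum_nonneg fun n _ => sq_nonneg _)
  have h4 : (∑ n ∈ OS N, f n ^ 2) ^ 2 ≤ N * ∑ n ∈ OS N, f n ^ 4 := by
    have h5 : (∑ n ∈ OS N, 1 * f n ^ 2) ^ 2 ≤ (∑ n ∈ OS N, (1 : ℝ) ^ 2) *
      ∑ n ∈ OS N, (f n ^ 2) ^ 2 := sum_mul_sq_le_sq_mul_sq _ _ _
    simp only [one_mul, one_pow, sum_const, nsmul_eq_mul, mul_one] at h5
    refine h5.trans ?_
    have h6 : ∀ n ∈ OS N, (f n ^ 2) ^ 2 = f n ^ 4 := fun n _ => by ring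
    rw [sum_congr rfl h6]
    exact mul_le_mul_of_nonneg_right hcard (sum_nonneg fun n _ => by positivity)
  have h7 := fourth_moment hM hNM ha
  set S2 := ∑ n ∈ OS N, f n ^ 2 with hS2
  set S4 := ∑ n ∈ OS N, f n ^ 4 with hS4
  have hS2' : 0 ≤ S2 := sum_nonneg fun n _ => sq_nonneg _
  have hS4' : 0 ≤ S4 := sum_nonneg fun n _ => by positivity
  have hN0 : (0 : ℝ) ≤ N := Nat.cast_nonneg N
  set T := ∑ n ∈ OS N, b n * f n with hT
  have h8 : T ^ 8 ≤ (N : ℝ) ^ 6 * S4 ^ 2 := by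
    have h9 : (T ^ 2) ^ 4 ≤ (N * S2) ^ 4 := pow_le_pow_left₀ (sq_nonneg _) h2 4
    have h10 : (S2 ^ 2) ^ 2 ≤ (N * S4) ^ 2 := pow_le_pow_left₀ (sq_nonneg _) h4 2
    calc T ^ 8 = (T ^ 2) ^ 4 := by ring
      _ ≤ (N * S2) ^ 4 := h9
      _ = (N : ℝ) ^ 4 * (S2 ^ 2) ^ 2 := by ring
      _ ≤ (N : ℝ) ^ 4 * (N * S4) ^ 2 := by gcongr
      _ = _ := by ring
  generalize (1 + Real.log ((M : ℝ) ^ 4)) ^ 256 = E at h7 ⊢
  calc T ^ 8 ≤ (N : ℝ) ^ 6 * S4 ^ 2 := h8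
    _ ≤ (N : ℝ) ^ 6 * (3 * N * (M : ℝ) ^ 8 * E) := by gcongr
    _ = _ := by ring

end

end Stoll308.Bilin
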