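import Mathlib
import Pool.Agent.Work.MP_308fa9_nt.Bilin

/-! Bilinear sums of Jacobi symbols over hyperbolic regions. -/

namespace Stoll308.Bilin

open Finset

open scoped NumberTheorySymbols

noncomputable section

/-- the rectangular bilinear sum -/
def Bs (a b : ℕ → ℝ) (M N : ℕ) : ℝ :=
  ∑ n ∈ Icc 1 N, ∑ m ∈ Icc 1 M, a m * b n * ((J(m | n) : ℤ) : ℝ)

lemma block1 {M N : ℕ} (hM : 1 ≤ M) (hNM : N ≤ M) {a b : ℕ → ℝ} (ha : ∀ m, |a m| ≤ 1)
    (hb : ∀ n, |b n| ≤ 1) (hb0 : ∀ n, b n ≠ 0 → Odd n ∧ Squarefree n) :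
    |Bs a b M N| ≤ 2 * M * (N : ℝ) ^ (7 / 8 : ℝ) * (1 + 4 * Real.log M) ^ 32 := by
  have h := block_pow hM hNM ha hb hb0
  have hlog : Real.log ((M : ℝ) ^ 4) = 4 * Real.log M := by
    rw [Real.log_pow]; norm_num
  rw [hlog] at h
  have hM1 : (1 : ℝ) ≤ M := by exact_mod_cast hM
  have hl : 0 ≤ Real.log M := Real.log_nonneg hM1
  have hN0 : (0 : ℝ) ≤ N := Nat.cast_nonneg N
  have hP : (1 + 4 * Real.log (M : ℝ)) ^ 256 = ((1 + 4 * Real.log (M : ℝ)) ^ 32) ^ 8 := by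
    rw [← pow_mul]
  rw [hP] at h
  have hP0 : 0 ≤ (1 + 4 * Real.log (M : ℝ)) ^ 32 := by positivity
  generalize (1 + 4 * Real.log (M : ℝ)) ^ 32 = P at h hP0 ⊢
  have h0 : 0 ≤ 2 * M * (N : ℝ) ^ (7 / 8 : ℝ) * P := by positivity
  refine le_of_pow_le_pow_left₀ (n := 8) (by norm_num) h0 ?_
  have e1 : |Bs a b M N| ^ 8 = (Bs a b M N) ^ 8 := by
    rw [show (8 : ℕ) = 2 * 4 by norm_num, pow_mul, sq_abs, ← pow_mul]
  have e2 : ((N : ℝ) ^ (7 / 8 : ℝ)) ^ 8 = (N : ℝ) ^ 7 := by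
    rw [← Real.rpow_natCast, ← Real.rpow_mul hN0]
    norm_num
  rw [e1]
  have e3 : (2 * M * (N : ℝ) ^ (7 / 8 : ℝ) * P) ^ 8 =
      256 * ((N : ℝ) ^ (7 / 8 : ℝ)) ^ 8 * (M : ℝ) ^ 8 * P ^ 8 := by ring
  rw [e3, e2]
  refine h.trans ?_
  gcongr
  norm_num

lemma block2 {M N : ℕ} (hN : 1 ≤ N) (hMN : M ≤ N) {a b : ℕ → ℝ} (ha : ∀ m, |a m| ≤ 1)
    (hb : ∀ n, |b n| ≤ 1) (ha0 : ∀ m, a m ≠ 0 → Odd m ∧ Squarefree m)
    (hb0 : ∀ n, b n ≠ 0 → Odd n ∧ Squarefree n) :
    |Bs a b M N| ≤ 6 * N * (M : ℝ) ^ (7 / 8 : ℝ) * (1 + 4 * Real.log N) ^ 32 := by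
  set a' : ℕ → ℝ := fun m => if m % 4 = 3 then a m else 0 with ha'
  set b' : ℕ → ℝ := fun n => if n % 4 = 3 then b n else 0 with hb'
  have key : Bs a b M N = Bs b a N M - 2 * Bs b' a' N M := by
    unfold Bs
    rw [sum_comm, mul_sum, ← sum_sub_distrib]
    refine sum_congr rfl fun m _ => ?_
    rw [mul_sum, ← sum_sub_distrib]
    refine sum_congr rfl fun n _ => ?_
    by_cases h1 : a m = 0
    · simp [h1, ha']
    by_cases h2 : b n = 0
    · simp [h2, hb']
    have hm := Nat.odd_iff.1 (ha0 m h1).1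
    have hn := Nat.odd_iff.1 (hb0 n h2).1
    have h3 := jacobiSym.quadratic_reciprocity_if hm hn
    rw [← h3]
    simp only [ha', hb']
    by_cases h4 : m % 4 = 3
    · by_cases h5 : n % 4 = 3
      · rw [if_pos ⟨h4, h5⟩, if_pos h4, if_pos h5]
        push_cast
        ring
      · rw [if_neg (by tauto), if_neg h5]
        ring
    · rw [if_neg (by tauto), if_neg h4]
      ring
  have h1 := block1 hN hMN (a := b) (b := a) hb ha ha0
  have h2 := block1 hN hMN (a := b') (b := a')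
    (fun n => by simp only [hb']; split_ifs; exacts [hb n, by simp])
    (fun m => by simp only [ha']; split_ifs; exacts [ha m, by simp])
    (fun m hm => by
      simp only [ha'] at hm
      split_ifs at hm
      · exact ha0 m hm
      · exact absurd rfl hm)
  rw [key]
  have h3 := abs_sub (Bs b a N M) (2 * Bs b' a' N M)
  rw [abs_mul, abs_two] at h3
  linarith

/-- The rectangular bound in symmetric form. -/
lemma block {M N z Y : ℕ} (hz : 1 ≤ z) (hM : z ≤ M) (hN : z ≤ N) (hMN : M * N ≤ Y)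
    {a b : ℕ → ℝ} (ha : ∀ m, |a m| ≤ 1)
    (hb : ∀ n, |b n| ≤ 1) (ha0 : ∀ m, a m ≠ 0 → Odd m ∧ Squarefree m)
    (hb0 : ∀ n, b n ≠ 0 → Odd n ∧ Squarefree n) :
    |Bs a b M N| ≤ 6 * Y * (z : ℝ) ^ (-(1 / 8) : ℝ) * (1 + 4 * Real.log Y) ^ 32 := by
  have hz1 : (1 : ℝ) ≤ z := by exact_mod_cast hz
  have hMN' : (M : ℝ) * N ≤ Y := by exact_mod_cast hMN
  have key : ∀ M N : ℕ, z ≤ M → z ≤ N → (M : ℝ) * N ≤ Y → N ≤ M → ∀ x : ℝ,
      x ≤ 6 * M * (N : ℝ) ^ (7 / 8 : ℝ) * (1 + 4 * Real.log M) ^ 32 →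
      x ≤ 6 * Y * (z : ℝ) ^ (-(1 / 8) : ℝ) * (1 + 4 * Real.log Y) ^ 32 := by
    intro M N hM hN hMN hNM x hx
    refine hx.trans ?_
    have hN1 : (1 : ℝ) ≤ N := by exact_mod_cast hz.trans hN
    have hM1 : (1 : ℝ) ≤ M := by exact_mod_cast hz.trans hM
    have hzN : (z : ℝ) ≤ N := by exact_mod_cast hN
    have e1 : (N : ℝ) ^ (7 / 8 : ℝ) = N * (N : ℝ) ^ (-(1 / 8) : ℝ) := by
      rw [← Real.rpow_one_add' (by linarith) (by norm_num)]
      norm_num
    have e2 : (N : ℝ) ^ (-(1 / 8) : ℝ) ≤ (z : ℝ) ^ (-(1 / 8) : ℝ) :=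
      Real.rpow_le_rpow_of_nonpos (by linarith) hzN (by norm_num)
    have hMY : (M : ℝ) ≤ Y := by nlinarith
    have e3 : Real.log M ≤ Real.log Y := Real.log_le_log (by linarith) hMY
    have e4 : 0 ≤ Real.log M := Real.log_nonneg hM1
    have e5 : (1 + 4 * Real.log M) ^ 32 ≤ (1 + 4 * Real.log Y) ^ 32 :=
      pow_le_pow_left₀ (by positivity) (by linarith) _
    have e6 : 0 ≤ (z : ℝ) ^ (-(1 / 8) : ℝ) := by positivity
    rw [e1]
    calc 6 * (M : ℝ) * (N * (N : ℝ) ^ (-(1 / 8) : ℝ)) * (1 + 4 * Real.log M) ^ 32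
        = 6 * (M * N) * (N : ℝ) ^ (-(1 / 8) : ℝ) * (1 + 4 * Real.log M) ^ 32 := by ring
      _ ≤ 6 * Y * (z : ℝ) ^ (-(1 / 8) : ℝ) * (1 + 4 * Real.log Y) ^ 32 := by gcongr
  rcases le_total N M with h | h
  · refine key M N hM hN hMN' h _ ((block1 (hz.trans hM) h ha hb hb0).trans ?_)
    have hM1 : (1 : ℝ) ≤ M := by exact_mod_cast hz.trans hM
    have e4 : 0 ≤ Real.log M := Real.log_nonneg hM1
    gcongr
    norm_num
  · exact key N M hN hM (by rw [mul_comm]; exact hMN') h _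
      (block2 (hz.trans hN) h ha hb ha0 hb0)

/-! ### Hyperbolic regions -/

lemma diff_Ioc_le {h : ℕ → ℝ} (hh : ∀ m, |h m| ≤ 1) {z A B : ℕ} (hBA : B ≤ A) :
    |∑ m ∈ Ioc z A, h m - ∑ m ∈ Ioc z B, h m| ≤ (A : ℝ) - B := by
  have hsub : Ioc z B ⊆ Ioc z A := Ioc_subset_Ioc_right hBA
  rw [← sum_sdiff hsub, add_sub_cancel_right]
  refine (abs_sum_le_sum_abs _ _).trans ?_
  have h1 : ((Ioc z A \ Ioc z B).card : ℝ) ≤ (A : ℝ) - B := by
    have h2 : Ioc z A \ Ioc z B ⊆ Ioc B A := by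
      intro m hm
      simp only [mem_sdiff, mem_Ioc] at hm ⊢
      omega
    have h3 := card_le_card h2
    rw [Nat.card_Ioc] at h3
    rw [← Nat.cast_sub hBA]
    exact_mod_cast h3
  calc ∑ m ∈ Ioc z A \ Ioc z B, |h m| ≤ ∑ _m ∈ Ioc z A \ Ioc z B, (1 : ℝ) :=
        sum_le_sum fun m _ => hh m
    _ = ((Ioc z A \ Ioc z B).card : ℝ) := by simp
    _ ≤ _ := h1

lemma strip_bound {Y z u J : ℕ} (hJ : 1 ≤ J) (hJz : J ≤ z) (hzu : z ≤ u)
    {a b : ℕ → ℝ} (ha : ∀ m, |a m| ≤ 1)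
    (hb : ∀ n, |b n| ≤ 1) (ha0 : ∀ m, a m ≠ 0 → Odd m ∧ Squarefree m)
    (hb0 : ∀ n, b n ≠ 0 → Odd n ∧ Squarefree n) :
    |∑ n ∈ Ioc u (u + u / J + 1), ∑ m ∈ Ioc z (Y / n), a m * b n * ((J(m | n) : ℤ) : ℝ)| ≤
      6 * Y / (J : ℝ) ^ 2 + 6 * Y * (z : ℝ) ^ (-(1 / 8) : ℝ) * (1 + 4 * Real.log Y) ^ 32 := by
  set v := u + u / J + 1 with hv
  have hz : 1 ≤ z := hJ.trans hJz
  have hu : 1 ≤ u := hz.trans hzu
  have huv : u < v := Nat.lt_succ_of_le (Nat.le_add_right _ _)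
  have hJ0 : (0 : ℝ) < J := by exact_mod_cast hJ
  have hu0 : (0 : ℝ) < u := by exact_mod_cast hu
  have hv0 : (0 : ℝ) < v := by exact_mod_cast (by omega : 0 < v)
  have hY0 : (0 : ℝ) ≤ Y := Nat.cast_nonneg Y
  have hE1 : 0 ≤ 6 * Y / (J : ℝ) ^ 2 := by positivity
  have hlY : 0 ≤ Real.log Y := Real.log_natCast_nonneg Y
  have hE2 : 0 ≤ 6 * Y * (z : ℝ) ^ (-(1 / 8) : ℝ) * (1 + 4 * Real.log Y) ^ 32 := by positivity
  rcases le_or_gt (Y / u) z with hcase | hcase
  · have h0 : ∑ n ∈ Ioc u v, ∑ m ∈ Ioc z (Y / n), a m * b n * ((J(m | n) : ℤ) : ℝ) = 0 := by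
      refine sum_eq_zero fun n hn => ?_
      have h1 : Y / n ≤ Y / u := Nat.div_le_div_left (mem_Ioc.1 hn).1.le (by omega)
      rw [Ioc_eq_empty (by omega), sum_empty]
    rw [h0, abs_zero]
    linarith
  · set W := Y / v with hW
    have hsplit : |∑ n ∈ Ioc u v, ∑ m ∈ Ioc z (Y / n), a m * b n * ((J(m | n) : ℤ) : ℝ) -
        ∑ n ∈ Ioc u v, ∑ m ∈ Ioc z W, a m * b n * ((J(m | n) : ℤ) : ℝ)| ≤
        6 * Y / (J : ℝ) ^ 2 := by
      rw [← sum_sub_distrib]
      refine (abs_sum_le_sum_abs _ _).trans ?_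
      have h1 : ∀ n ∈ Ioc u v, |∑ m ∈ Ioc z (Y / n), a m * b n * ((J(m | n) : ℤ) : ℝ) -
          ∑ m ∈ Ioc z W, a m * b n * ((J(m | n) : ℤ) : ℝ)| ≤ 3 * Y / (J * u) := by
        intro n hn
        obtain ⟨hn1, hn2⟩ := mem_Ioc.1 hn
        have h2 : W ≤ Y / n := Nat.div_le_div_left hn2 (by omega)
        refine (diff_Ioc_le (fun m => ?_) h2).trans ?_
        · rw [abs_mul, abs_mul]
          have := abs_jacobi_le_one (m : ℤ) n
          have h3 := ha m
          have h4 := hb n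
          calc |a m| * |b n| * |((J(m | n) : ℤ) : ℝ)| ≤ 1 * 1 * 1 := by gcongr
            _ = 1 := by norm_num
        · have h3 : ((Y / n : ℕ) : ℝ) ≤ Y / u := by
            calc ((Y / n : ℕ) : ℝ) ≤ ((Y / u : ℕ) : ℝ) := by
                  exact_mod_cast Nat.div_le_div_left hn1.le (by omega)
              _ ≤ _ := Nat.cast_div_le
          have h4 : (Y : ℝ) / v - 1 ≤ W := by
            have h5 : Y < v * (W + 1) := by
              rw [hW]
              exact Nat.lt_mul_div_succ Y (by omega)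
            have h6 : (Y : ℝ) < v * (W + 1) := by exact_mod_cast h5
            rw [sub_le_iff_le_add, div_le_iff₀ hv0]
            linarith
          have h7 : (J : ℝ) ≤ Y / u := by
            have h8 : J ≤ Y / u := by omega
            calc (J : ℝ) ≤ ((Y / u : ℕ) : ℝ) := by exact_mod_cast h8
              _ ≤ _ := Nat.cast_div_le
          have h9 : (v : ℝ) - u ≤ 2 * u / J := by
            have h10 : ((u / J : ℕ) : ℝ) ≤ u / J := Nat.cast_div_le
            have h11 : (1 : ℝ) ≤ u / J := by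
              rw [one_le_div hJ0]
              exact_mod_cast hJz.trans hzu
            have h12 : (v : ℝ) = u + ((u / J : ℕ) : ℝ) + 1 := by rw [hv]; push_cast; ring
            rw [h12]
            have : 2 * (u : ℝ) / J = u / J + u / J := by ring
            rw [this]
            linarith
          have h13 : (Y : ℝ) / u - Y / v ≤ 2 * Y / (J * u) := by
            rw [div_sub_div _ _ hu0.ne' hv0.ne', div_le_div_iff₀ (by positivity) (by positivity)]
            have h14 : (Y : ℝ) * v - u * Y = Y * (v - u) := by ring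
            have h15 : (Y : ℝ) * (v - u) ≤ Y * (2 * u / J) := mul_le_mul_of_nonneg_left h9 hY0
            have h16 : (u : ℝ) ≤ v := by exact_mod_cast huv.le
            calc ((Y : ℝ) * v - u * Y) * (J * u) = (Y * (v - u)) * (J * u) := by rw [h14]
              _ ≤ (Y * (2 * u / J)) * (J * u) := by gcongr
              _ = 2 * Y * (u * u) := by field_simp
              _ ≤ 2 * Y * (u * v) := by gcongr
          have h17 : (1 : ℝ) ≤ Y / (J * u) := by
            rw [one_le_div (by positivity)]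
            rw [le_div_iff₀ hu0] at h7
            exact h7
          have h18 : 3 * (Y : ℝ) / (J * u) = 2 * Y / (J * u) + Y / (J * u) := by ring
          rw [h18]
          linarith
      refine (sum_le_sum h1).trans ?_
      rw [sum_const, Nat.card_Ioc, nsmul_eq_mul]
      have h2 : ((v - u : ℕ) : ℝ) ≤ 2 * u / J := by
        rw [Nat.cast_sub huv.le]
        have h10 : ((u / J : ℕ) : ℝ) ≤ u / J := Nat.cast_div_le
        have h11 : (1 : ℝ) ≤ u / J := by
          rw [one_le_div hJ0]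
          exact_mod_cast hJz.trans hzu
        have h12 : (v : ℝ) = u + ((u / J : ℕ) : ℝ) + 1 := by rw [hv]; push_cast; ring
        rw [h12]
        have : 2 * (u : ℝ) / J = u / J + u / J := by ring
        rw [this]
        linarith
      calc ((v - u : ℕ) : ℝ) * (3 * Y / (J * u)) ≤ (2 * u / J) * (3 * Y / (J * u)) := by
            gcongr
        _ = 6 * Y / (J : ℝ) ^ 2 := by field_simp; ring
    have hmain : |∑ n ∈ Ioc u v, ∑ m ∈ Ioc z W, a m * b n * ((J(m | n) : ℤ) : ℝ)| ≤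
        6 * Y * (z : ℝ) ^ (-(1 / 8) : ℝ) * (1 + 4 * Real.log Y) ^ 32 := by
      rcases le_or_gt W z with hWz | hWz
      · have h0 : ∑ n ∈ Ioc u v, ∑ m ∈ Ioc z W, a m * b n * ((J(m | n) : ℤ) : ℝ) = 0 := by
          refine sum_eq_zero fun n hn => ?_
          rw [Ioc_eq_empty (by omega), sum_empty]
        rw [h0, abs_zero]
        exact hE2
      · set a1 : ℕ → ℝ := fun m => if z < m then a m else 0 with ha1
        set b1 : ℕ → ℝ := fun n => if u < n then b n else 0 with hb1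
        have h1 : ∑ n ∈ Ioc u v, ∑ m ∈ Ioc z W, a m * b n * ((J(m | n) : ℤ) : ℝ) =
            Bs a1 b1 W v := by
          unfold Bs
          have e1 : Ioc u v = (Icc 1 v).filter (fun n => u < n) := by
            ext n; simp only [mem_Ioc, mem_filter, mem_Icc]; omega
          have e2 : Ioc z W = (Icc 1 W).filter (fun m => z < m) := by
            ext n; simp only [mem_Ioc, mem_filter, mem_Icc]; omega
          rw [e1, e2, sum_filter]
          refine sum_congr rfl fun n _ => ?_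
          by_cases h : u < n
          · rw [if_pos h, sum_filter]
            refine sum_congr rfl fun m _ => ?_
            by_cases h' : z < m
            · simp only [ha1, hb1, if_pos h, if_pos h']
            · simp only [ha1, hb1, if_pos h, if_neg h', zero_mul]
          · simp only [hb1, if_neg h, mul_zero, zero_mul, sum_const_zero]
        rw [h1]
        refine block hz hWz.le (hzu.trans huv.le) ?_ ?_ ?_ ?_ ?_
        · rw [hW, mul_comm]; exact Nat.mul_div_le Y v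
        · intro m; simp only [ha1]; split_ifs; exacts [ha m, by simp]
        · intro m; simp only [hb1]; split_ifs; exacts [hb m, by simp]
        · intro m hm; simp only [ha1] at hm; split_ifs at hm
          · exact ha0 m hm
          · exact absurd rfl hm
        · intro m hm; simp only [hb1] at hm; split_ifs at hm
          · exact hb0 m hm
          · exact absurd rfl hm
    have := abs_sub_abs_le_abs_sub
      (∑ n ∈ Ioc u v, ∑ m ∈ Ioc z (Y / n), a m * b n * ((J(m | n) : ℤ) : ℝ))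
      (∑ n ∈ Ioc u v, ∑ m ∈ Ioc z W, a m * b n * ((J(m | n) : ℤ) : ℝ))
    linarith

/-- partition points -/
def pt (z J : ℕ) : ℕ → ℕ
  | 0 => z
  | k + 1 => pt z J k + pt z J k / J + 1

lemma pt_mono (z J : ℕ) (k : ℕ) : pt z J k ≤ pt z J (k + 1) := by
  rw [pt, add_assoc]
  exact Nat.le_add_right _ _

lemma le_pt (z J : ℕ) (k : ℕ) : z ≤ pt z J k := by
  induction k with
  | zero => exact le_rfl
  | succ k ih => exact ih.trans (pt_mono z J k)

lemma pt_growth {z J : ℕ} (hz : 1 ≤ z) (hJ : 1 ≤ J) (k : ℕ) :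
    (1 + 1 / (J : ℝ)) ^ k ≤ pt z J k := by
  have hJ0 : (0 : ℝ) < J := by exact_mod_cast hJ
  induction k with
  | zero => simpa [pt] using hz
  | succ k ih =>
    rw [pow_succ, pt]
    push_cast
    have h1 : (pt z J k : ℝ) / J < ((pt z J k / J : ℕ) : ℝ) + 1 := by
      have h2 : pt z J k < J * (pt z J k / J + 1) := Nat.lt_mul_div_succ _ (by omega)
      have h3 : (pt z J k : ℝ) < J * (((pt z J k / J : ℕ) : ℝ) + 1) := by exact_mod_cast h2
      rw [div_lt_iff₀ hJ0]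
      linarith
    calc (1 + 1 / (J : ℝ)) ^ k * (1 + 1 / J) ≤ pt z J k * (1 + 1 / J) := by gcongr
      _ = pt z J k + pt z J k / J := by ring
      _ ≤ _ := by linarith

lemma sum_pt (F : ℕ → ℝ) (z J K : ℕ) :
    ∑ n ∈ Ioc z (pt z J K), F n = ∑ k ∈ range K, ∑ n ∈ Ioc (pt z J k) (pt z J (k + 1)), F n := by
  induction K with
  | zero => simp [pt]
  | succ K ih =>
    rw [sum_range_succ, ← ih, sum_Ioc_consecutive _ (le_pt z J K) (pt_mono z J K)]

/-- **The bilinear bound over a hyperbolic region.** -/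
theorem bilinear : ∃ C : ℝ, 0 < C ∧ ∀ (Y z : ℕ), 1 ≤ Y → 1 ≤ z → ∀ a b : ℕ → ℝ,
    (∀ m, |a m| ≤ 1) → (∀ n, |b n| ≤ 1) → (∀ m, a m ≠ 0 → Odd m ∧ Squarefree m) →
    (∀ n, b n ≠ 0 → Odd n ∧ Squarefree n) →
    |∑ n ∈ Ioc z Y, ∑ m ∈ Ioc z (Y / n), a m * b n * ((J(m | n) : ℤ) : ℝ)| ≤
      C * Y * (z : ℝ) ^ (-(1 / 16) : ℝ) * (1 + Real.log Y) ^ 33 := by
  refine ⟨36 * 4 ^ 32, by norm_num, fun Y z hY hz a b ha hb ha0 hb0 => ?_⟩
  have hz1 : (1 : ℝ) ≤ z := by exact_mod_cast hz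
  have hY1 : (1 : ℝ) ≤ Y := by exact_mod_cast hY
  have hlY : 0 ≤ Real.log Y := Real.log_nonneg hY1
  set w : ℝ := (z : ℝ) ^ (1 / 16 : ℝ) with hw
  have hw1 : 1 ≤ w := Real.one_le_rpow hz1 (by norm_num)
  set J : ℕ := ⌊w⌋₊ with hJ
  have hJ1 : 1 ≤ J := Nat.floor_pos.2 hw1
  have hJw : (J : ℝ) ≤ w := Nat.floor_le (by linarith)
  have hwJ : w ≤ 2 * J := by
    have h1 := Nat.lt_floor_add_one w
    have h2 : (1 : ℝ) ≤ J := by exact_mod_cast hJ1
    linarith
  have hJz : J ≤ z := by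
    have h1 : w ≤ z := by
      calc w ≤ (z : ℝ) ^ (1 : ℝ) := Real.rpow_le_rpow_of_exponent_le hz1 (by norm_num)
        _ = z := Real.rpow_one _
    exact_mod_cast hJw.trans h1
  set l := Nat.log 2 Y + 1 with hl
  set K := J * l with hK
  have hptK : Y ≤ pt z J K := by
    have h1 := pt_growth hz hJ1 K
    have h2 : (2 : ℝ) ≤ (1 + 1 / (J : ℝ)) ^ J := by
      have h3 := one_add_mul_le_pow (a := 1 / (J : ℝ)) (by
        have : 0 ≤ 1 / (J : ℝ) := by positivity
        linarith) J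
      have h4 : (J : ℝ) * (1 / J) = 1 := by
        have : (0 : ℝ) < J := by exact_mod_cast hJ1
        field_simp
      linarith
    have h5 : (Y : ℝ) < 2 ^ l := by exact_mod_cast Nat.lt_pow_succ_log_self (by norm_num) Y
    have h6 : (2 : ℝ) ^ l ≤ (1 + 1 / (J : ℝ)) ^ K := by
      rw [hK, pow_mul]
      exact pow_le_pow_left₀ (by norm_num) h2 l
    have h7 : (Y : ℝ) ≤ (pt z J K : ℝ) := by linarith
    exact_mod_cast h7
  set F : ℕ → ℝ := fun n => ∑ m ∈ Ioc z (Y / n), a m * b n * ((J(m | n) : ℤ) : ℝ) with hF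
  have hext : ∑ n ∈ Ioc z Y, F n = ∑ n ∈ Ioc z (pt z J K), F n := by
    refine sum_subset (Ioc_subset_Ioc_right hptK) fun n hn hn' => ?_
    have h1 := mem_Ioc.1 hn
    have h2 : Y < n := by
      by_contra h
      exact hn' (mem_Ioc.2 ⟨h1.1, by omega⟩)
    simp only [hF]
    rw [Nat.div_eq_of_lt h2, Ioc_eq_empty (by omega), sum_empty]
  rw [hext, sum_pt]
  refine (abs_sum_le_sum_abs _ _).trans ?_
  set L := (1 + 4 * Real.log (Y : ℝ)) ^ 32 with hL
  set E := 6 * (Y : ℝ) / (J : ℝ) ^ 2 + 6 * Y * (z : ℝ) ^ (-(1 / 8) : ℝ) * L with hE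
  have hstrip : ∀ k ∈ range K, |∑ n ∈ Ioc (pt z J k) (pt z J (k + 1)), F n| ≤ E := by
    intro k _
    exact strip_bound hJ1 hJz (le_pt z J k) ha hb ha0 hb0
  refine (sum_le_sum hstrip).trans ?_
  rw [sum_const, card_range, nsmul_eq_mul, hK]
  push_cast
  have hJ0 : (0 : ℝ) < J := by exact_mod_cast hJ1
  have hL1 : 1 ≤ L := one_le_pow₀ (by linarith)
  have hz16 : (z : ℝ) ^ (-(1 / 16) : ℝ) = 1 / w := by
    rw [hw, Real.rpow_neg (by linarith)]
    exact (one_div _).symm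
  have hz8 : (z : ℝ) ^ (-(1 / 8) : ℝ) = 1 / w ^ 2 := by
    rw [hw, Real.rpow_neg (by linarith), ← Real.rpow_natCast, ← Real.rpow_mul (by linarith),
      one_div]
    norm_num
  have hl0 : (0 : ℝ) ≤ l := Nat.cast_nonneg l
  have hlle : (l : ℝ) ≤ 2 * (1 + Real.log Y) := by
    have h1 : (2 : ℝ) ^ (Nat.log 2 Y) ≤ Y := by
      exact_mod_cast Nat.pow_log_le_self 2 (by omega)
    have h2 : (Nat.log 2 Y : ℝ) * Real.log 2 ≤ Real.log Y := by
      rw [← Real.log_pow]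
      exact Real.log_le_log (by positivity) h1
    have h3 := Real.log_two_gt_d9
    have h4 : (0 : ℝ) ≤ Nat.log 2 Y := Nat.cast_nonneg _
    rw [hl]
    push_cast
    nlinarith
  have hJE : (J : ℝ) * E ≤ 18 * Y * (1 / w) * L := by
    have h1 : (J : ℝ) * (6 * (Y : ℝ) / (J : ℝ) ^ 2) = 6 * Y / J := by
      field_simp
    have h2 : 6 * (Y : ℝ) / J ≤ 12 * Y * (1 / w) := by
      have : 12 * (Y : ℝ) * (1 / w) = 12 * Y / w := by ring
      rw [this, div_le_div_iff₀ hJ0 (by linarith)]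
      nlinarith
    have h3 : (J : ℝ) * (6 * Y * (1 / w ^ 2) * L) ≤ 6 * Y * (1 / w) * L := by
      calc (J : ℝ) * (6 * Y * (1 / w ^ 2) * L) ≤ w * (6 * Y * (1 / w ^ 2) * L) := by gcongr
        _ = 6 * Y * (1 / w) * L := by
          have : w ≠ 0 := by linarith
          field_simp
    have h4 : 12 * (Y : ℝ) * (1 / w) ≤ 12 * Y * (1 / w) * L := by
      have : 0 ≤ 12 * (Y : ℝ) * (1 / w) := by positivity
      nlinarith
    rw [hE, mul_add, h1, hz8]
    linarith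
  have hLle : L ≤ 4 ^ 32 * (1 + Real.log Y) ^ 32 := by
    rw [hL, ← mul_pow]
    exact pow_le_pow_left₀ (by linarith) (by linarith) _
  rw [hz16]
  calc (J : ℝ) * l * E = l * (J * E) := by ring
    _ ≤ (2 * (1 + Real.log Y)) * (18 * Y * (1 / w) * (4 ^ 32 * (1 + Real.log Y) ^ 32)) := by
        refine mul_le_mul hlle (hJE.trans ?_) (by positivity) (by linarith)
        gcongr
    _ = 36 * 4 ^ 32 * Y * (1 / w) * (1 + Real.log Y) ^ 33 := by ring

end

end Stoll308.Bilin
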