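import Mathlib
import Pool.Agent.Work.MP_308fa9_nt.Bilin2

/-! Sums over tuples with a pair of large linked variables. -/

set_option linter.unusedSectionVars false

namespace Stoll308.Linked

open Finset Function

open scoped NumberTheorySymbols

noncomputable section

variable {V : Type*} [Fintype V] [DecidableEq V]

/-- tuples of positive integers with product at most `X` -/
def TX (V : Type*) [Fintype V] [DecidableEq V] (X : ℕ) : Finset (V → ℕ) :=
  (Fintype.piFinset fun _ : V => Icc 1 X).filter (fun e => ∏ v, e v ≤ X)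

/-- the summand -/
def FF (a : V → ℕ → ℝ) (κ : V → V → ℕ → ℕ → ℝ) (e : V → ℕ) : ℝ :=
  (∏ v, a v (e v)) * ∏ v, ∏ u ∈ univ.erase v, κ v u (e v) (e u)

/-- replace two coordinates -/
def upd (v w : V) (e : V → ℕ) (m n : ℕ) : V → ℕ := update (update e v m) w n

lemma upd_v {v w : V} (h : v ≠ w) (e : V → ℕ) (m n : ℕ) : upd v w e m n v = m := by
  simp [upd, h]

lemma upd_w {v w : V} (e : V → ℕ) (m n : ℕ) : upd v w e m n w = n := by
  simp [upd]

lemma upd_of_ne {v w x : V} (hv : x ≠ v) (hw : x ≠ w) (e : V → ℕ) (m n : ℕ) :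
    upd v w e m n x = e x := by
  simp [upd, hv, hw]

lemma prod_two {M : Type*} [CommMonoid M] {v w : V} (h : v ≠ w) (f : V → M) :
    ∏ x, f x = f v * f w * ∏ x ∈ (univ.erase v).erase w, f x := by
  rw [mul_assoc, mul_prod_erase (univ.erase v) f (mem_erase.2 ⟨Ne.symm h, mem_univ _⟩),
    mul_prod_erase univ f (mem_univ _)]

lemma prod_upd {v w : V} (h : v ≠ w) {e : V → ℕ} (hv : e v = 1) (hw : e w = 1) (m n : ℕ) :
    ∏ x, upd v w e m n x = (∏ x, e x) * (m * n) := by
  rw [prod_two h, prod_two h e, upd_v h, upd_w, hv, hw]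
  have : ∏ x ∈ (univ.erase v).erase w, upd v w e m n x = ∏ x ∈ (univ.erase v).erase w, e x := by
    refine prod_congr rfl fun x hx => ?_
    rw [mem_erase, mem_erase] at hx
    exact upd_of_ne hx.2.1 hx.1 e m n
  rw [this]
  ring

section factor

variable (a : V → ℕ → ℝ) (κ : V → V → ℕ → ℕ → ℝ) (v w : V) (e : V → ℕ)

/-- factor depending on `m` -/
def facA (m : ℕ) : ℝ := a v m * (∏ y ∈ (univ.erase v).erase w, κ v y m (e y)) *
  ∏ x ∈ (univ.erase v).erase w, κ x v (e x) m

/-- factor depending on `n` -/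
def facB (n : ℕ) : ℝ := a w n * (∏ y ∈ (univ.erase v).erase w, κ w y n (e y)) *
  ∏ x ∈ (univ.erase v).erase w, κ x w (e x) n

/-- constant factor -/
def facC : ℝ := (∏ x ∈ (univ.erase v).erase w, a x (e x)) *
  ∏ x ∈ (univ.erase v).erase w, ∏ y ∈ ((univ.erase v).erase w).erase x, κ x y (e x) (e y)

variable {a κ v w e}

lemma FF_upd (h : v ≠ w) (m n : ℕ) : FF a κ (upd v w e m n) =
    facC a κ v w e * facA a κ v w e m * facB a κ v w e n * (κ v w m n * κ w v n m) := by
  unfold FF facA facB facC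
  set R := (univ.erase v).erase w with hR
  have hRv : ∀ x ∈ R, x ≠ v := fun x hx => (mem_erase.1 (mem_erase.1 hx).2).1
  have hRw : ∀ x ∈ R, x ≠ w := fun x hx => (mem_erase.1 hx).1
  have e1 : ∏ x, a x (upd v w e m n x) = a v m * a w n * ∏ x ∈ R, a x (e x) := by
    rw [prod_two h, upd_v h, upd_w]
    congr 1
    exact prod_congr rfl fun x hx => by rw [upd_of_ne (hRv x hx) (hRw x hx)]
  have e2 : ∏ y ∈ univ.erase v, κ v y (upd v w e m n v) (upd v w e m n y) =
      κ v w m n * ∏ y ∈ R, κ v y m (e y) := by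
    rw [upd_v h, ← mul_prod_erase (univ.erase v) _ (mem_erase.2 ⟨Ne.symm h, mem_univ w⟩), upd_w]
    congr 1
    exact prod_congr rfl fun x hx => by rw [upd_of_ne (hRv x hx) (hRw x hx)]
  have hR' : R = (univ.erase w).erase v := by rw [hR, erase_right_comm]
  have e3 : ∏ y ∈ univ.erase w, κ w y (upd v w e m n w) (upd v w e m n y) =
      κ w v n m * ∏ y ∈ R, κ w y n (e y) := by
    rw [upd_w, ← mul_prod_erase (univ.erase w) _ (mem_erase.2 ⟨h, mem_univ v⟩), upd_v h, ← hR']
    congr 1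
    exact prod_congr rfl fun x hx => by rw [upd_of_ne (hRv x hx) (hRw x hx)]
  have e4 : ∏ x ∈ R, ∏ y ∈ univ.erase x, κ x y (upd v w e m n x) (upd v w e m n y) =
      (∏ x ∈ R, κ x v (e x) m) * (∏ x ∈ R, κ x w (e x) n) *
        ∏ x ∈ R, ∏ y ∈ R.erase x, κ x y (e x) (e y) := by
    rw [← prod_mul_distrib, ← prod_mul_distrib]
    refine prod_congr rfl fun x hx => ?_
    have hxv := hRv x hx
    have hxw := hRw x hx
    rw [upd_of_ne hxv hxw, ← mul_prod_erase (univ.erase x) _ (mem_erase.2 ⟨Ne.symm hxv, mem_univ v⟩),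
      ← mul_prod_erase ((univ.erase x).erase v) _
        (mem_erase.2 ⟨Ne.symm h, mem_erase.2 ⟨Ne.symm hxw, mem_univ w⟩⟩), upd_v h, upd_w]
    have h5 : ((univ.erase x).erase v).erase w = R.erase x := by
      ext y; simp only [mem_erase, mem_univ, hR]; tauto
    rw [h5, mul_assoc]
    congr 2
    refine prod_congr rfl fun y hy => ?_
    have hy' := (mem_erase.1 hy).2
    rw [upd_of_ne (hRv y hy') (hRw y hy')]
  rw [e1, prod_two h (fun x => ∏ y ∈ univ.erase x, κ x y (upd v w e m n x) (upd v w e m n y)),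
    e2, e3, e4]
  ring

lemma abs_prod_le_one {ι : Type*} (s : Finset ι) {f : ι → ℝ} (hf : ∀ i ∈ s, |f i| ≤ 1) :
    |∏ i ∈ s, f i| ≤ 1 := by
  rw [abs_prod]
  exact prod_le_one (fun i _ => abs_nonneg _) hf

lemma abs_mul_le_one {x y : ℝ} (hx : |x| ≤ 1) (hy : |y| ≤ 1) : |x * y| ≤ 1 := by
  rw [abs_mul]
  calc |x| * |y| ≤ 1 * 1 := mul_le_mul hx hy (abs_nonneg _) (by norm_num)
    _ = 1 := by norm_num

variable (ha : ∀ x m, |a x m| ≤ 1) (hκ : ∀ x y m n, |κ x y m n| ≤ 1)
include ha hκ

lemma facA_le (m : ℕ) : |facA a κ v w e m| ≤ 1 :=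
  abs_mul_le_one (abs_mul_le_one (ha _ _) (abs_prod_le_one _ fun _ _ => hκ _ _ _ _))
    (abs_prod_le_one _ fun _ _ => hκ _ _ _ _)

lemma facB_le (n : ℕ) : |facB a κ v w e n| ≤ 1 :=
  abs_mul_le_one (abs_mul_le_one (ha _ _) (abs_prod_le_one _ fun _ _ => hκ _ _ _ _))
    (abs_prod_le_one _ fun _ _ => hκ _ _ _ _)

lemma facC_le : |facC a κ v w e| ≤ 1 :=
  abs_mul_le_one (abs_prod_le_one _ fun _ _ => ha _ _)
    (abs_prod_le_one _ fun _ _ => abs_prod_le_one _ fun _ _ => hκ _ _ _ _)

end factor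

/-- The contribution of a pair of linked large variables. -/
theorem linked_bound : ∃ C : ℝ, 0 < C ∧ ∀ (V : Type) [Fintype V] [DecidableEq V] (X z : ℕ),
    1 ≤ X → 1 ≤ z → ∀ (a : V → ℕ → ℝ) (κ : V → V → ℕ → ℕ → ℝ) (v w : V), v ≠ w →
    (∀ x m, |a x m| ≤ 1) → (∀ x y m n, |κ x y m n| ≤ 1) →
    (∀ x m, a x m ≠ 0 → Odd m ∧ Squarefree m) →
    (∀ m, a v m ≠ 0 → z < m) → (∀ m, a w m ≠ 0 → z < m) →
    (∀ m n, 1 ≤ m → 1 ≤ n → κ v w m n * κ w v n m = ((J(m | n) : ℤ) : ℝ)) →
    |∑ e ∈ TX V X, FF a κ e| ≤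
      C * X * (z : ℝ) ^ (-(1 / 16) : ℝ) * (1 + Real.log X) ^ (33 + Fintype.card V) := by
  obtain ⟨C, hC, hbil⟩ := Bilin.bilinear
  refine ⟨C, hC, fun V _ _ X z hX hz a κ v w hvw ha hκ ha0 hav haw hJ => ?_⟩
  have hX1 : (1 : ℝ) ≤ X := by exact_mod_cast hX
  have hlX : 0 ≤ Real.log X := Real.log_nonneg hX1
  set T' : Finset (V → ℕ) := (Fintype.piFinset fun _ : V => Icc 1 X).filter
    (fun e => e v = 1 ∧ e w = 1) with hT'
  set pr : (V → ℕ) → (V → ℕ) := fun e => upd v w e 1 1 with hpr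
  have hmaps : ∀ e ∈ TX V X, pr e ∈ T' := by
    intro e he
    obtain ⟨he1, he2⟩ := mem_filter.1 he
    rw [hT', mem_filter, Fintype.mem_piFinset]
    refine ⟨fun x => ?_, upd_v hvw _ _ _, upd_w _ _ _⟩
    by_cases hxv : x = v
    · rw [hxv, hpr]; simp only; rw [upd_v hvw]; exact mem_Icc.2 ⟨le_rfl, hX⟩
    · by_cases hxw : x = w
      · rw [hxw, hpr]; simp only; rw [upd_w]; exact mem_Icc.2 ⟨le_rfl, hX⟩
      · rw [hpr]; simp only; rw [upd_of_ne hxv hxw]; exact Fintype.mem_piFinset.1 he1 x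
  rw [← sum_fiberwise_of_maps_to hmaps]
  have hupd2 : ∀ (e : V → ℕ) (m n m' n' : ℕ), upd v w (upd v w e m n) m' n' = upd v w e m' n' := by
    intro e m n m' n'
    funext x
    by_cases hxw : x = w
    · rw [hxw, upd_w, upd_w]
    · by_cases hxv : x = v
      · rw [hxv, upd_v hvw, upd_v hvw]
      · rw [upd_of_ne hxv hxw, upd_of_ne hxv hxw, upd_of_ne hxv hxw]
  have hself : ∀ e : V → ℕ, upd v w e (e v) (e w) = e := by
    intro e
    funext x
    by_cases hxw : x = w
    · rw [hxw, upd_w]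
    · by_cases hxv : x = v
      · rw [hxv, upd_v hvw]
      · rw [upd_of_ne hxv hxw]
  have hfiber : ∀ e0 ∈ T', |∑ e ∈ (TX V X).filter (fun e => pr e = e0), FF a κ e| ≤
      C * (X / (∏ x, (e0 x : ℝ))) * (z : ℝ) ^ (-(1 / 16) : ℝ) * (1 + Real.log X) ^ 33 := by
    intro e0 he0
    obtain ⟨he1, hv1, hw1⟩ := mem_filter.1 he0
    rw [Fintype.mem_piFinset] at he1
    set D := ∏ x, e0 x with hD
    have hDpos : 0 < D := prod_pos fun x _ => (mem_Icc.1 (he1 x)).1
    have hDr : (∏ x, (e0 x : ℝ)) = D := by rw [hD]; push_cast; rfl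
    rw [hDr]
    have hD0 : (0 : ℝ) < D := by exact_mod_cast hDpos
    set Y := X / D with hY
    have hzpos : 0 < (z : ℝ) ^ (-(1 / 16) : ℝ) := by
      have : (0 : ℝ) < z := by exact_mod_cast hz
      positivity
    -- reparametrise the fibre
    have hre : ∑ e ∈ (TX V X).filter (fun e => pr e = e0), FF a κ e =
        ∑ n ∈ Ioc z Y, ∑ m ∈ Ioc z (Y / n), FF a κ (upd v w e0 m n) := by
      rw [← sum_filter_ne_zero, ← sum_sigma (Ioc z Y) (fun n => Ioc z (Y / n))
        (fun x => FF a κ (upd v w e0 x.2 x.1)), ← sum_filter_ne_zero (s := (Ioc z Y).sigma _)]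
      refine sum_bij' (fun e _ => ⟨e w, e v⟩) (fun x _ => upd v w e0 x.2 x.1) ?_ ?_ ?_ ?_ ?_
      · intro e he
        rw [mem_filter, mem_filter] at he
        obtain ⟨⟨heT, hpe⟩, hne⟩ := he
        have hF : ∀ x, a x (e x) ≠ 0 := by
          intro x hx
          apply hne
          unfold FF
          rw [prod_eq_zero (mem_univ x) hx, zero_mul]
        have hmv := hav _ (hF v)
        have hnw := haw _ (hF w)
        have hee : e = upd v w e0 (e v) (e w) := by
          rw [← hpe, hpr]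
          simp only
          rw [hupd2, hself]
        have hprod : ∏ x, e x = D * (e v * e w) := by
          conv_lhs => rw [hee]
          rw [prod_upd hvw hv1 hw1]
        have hle := (mem_filter.1 heT).2
        rw [hprod] at hle
        have hmn : e v * e w ≤ Y := by
          rw [hY, Nat.le_div_iff_mul_le hDpos, mul_comm]
          exact hle
        have hw0 : 0 < e w := by omega
        rw [mem_filter, mem_sigma, mem_Ioc, mem_Ioc]
        refine ⟨⟨⟨hnw, ?_⟩, hmv, ?_⟩, ?_⟩
        · exact le_trans (Nat.le_mul_of_pos_left _ (by omega)) hmn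
        · exact (Nat.le_div_iff_mul_le hw0).2 hmn
        · simp only
          rw [← hee]
          exact hne
      · rintro ⟨n, m⟩ hx
        rw [mem_filter, mem_sigma, mem_Ioc, mem_Ioc] at hx
        obtain ⟨⟨⟨h1, h2⟩, h3, h4⟩, hne⟩ := hx
        simp only at h1 h2 h3 h4 hne
        have hn0 : 0 < n := by omega
        have hmn : m * n ≤ Y := (Nat.le_div_iff_mul_le hn0).1 h4
        have hDmn : D * (m * n) ≤ X := by
          have := (Nat.le_div_iff_mul_le hDpos).1 hmn
          rw [mul_comm]; exact this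
        rw [mem_filter, mem_filter]
        refine ⟨⟨?_, ?_⟩, hne⟩
        · unfold TX
          rw [mem_filter, Fintype.mem_piFinset]
          refine ⟨fun x => ?_, ?_⟩
          · simp only
            have hmX : m * n ≤ X := le_trans (Nat.le_mul_of_pos_left _ hDpos) hDmn
            by_cases hxw : x = w
            · rw [hxw, upd_w, mem_Icc]
              exact ⟨by omega, le_trans (Nat.le_mul_of_pos_left _ (by omega)) hmX⟩
            · by_cases hxv : x = v
              · rw [hxv, upd_v hvw, mem_Icc]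
                exact ⟨by omega, le_trans (Nat.le_mul_of_pos_right _ (by omega)) hmX⟩
              · rw [upd_of_ne hxv hxw]
                exact he1 x
          · simp only
            rw [prod_upd hvw hv1 hw1]
            exact hDmn
        · simp only [hpr]
          rw [hupd2]
          funext x
          by_cases hxw : x = w
          · rw [hxw, upd_w, hw1]
          · by_cases hxv : x = v
            · rw [hxv, upd_v hvw, hv1]
            · rw [upd_of_ne hxv hxw]
      · intro e he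
        rw [mem_filter, mem_filter] at he
        simp only
        rw [← he.1.2, hpr]
        simp only
        rw [hupd2, hself]
      · rintro ⟨n, m⟩ _
        simp only
        rw [upd_v hvw, upd_w]
      · intro e he
        rw [mem_filter, mem_filter] at he
        simp only
        rw [← he.1.2, hpr]
        simp only
        rw [hupd2, hself]
    rw [hre]
    rcases Nat.eq_zero_or_pos Y with hY0 | hY0
    · rw [hY0, Ioc_eq_empty (by omega), sum_empty, abs_zero]
      positivity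
    have hsum : ∑ n ∈ Ioc z Y, ∑ m ∈ Ioc z (Y / n), FF a κ (upd v w e0 m n) =
        ∑ n ∈ Ioc z Y, ∑ m ∈ Ioc z (Y / n), (facC a κ v w e0 * facA a κ v w e0 m) *
          facB a κ v w e0 n * ((J(m | n) : ℤ) : ℝ) := by
      refine sum_congr rfl fun n hn => sum_congr rfl fun m hm => ?_
      have h1 := mem_Ioc.1 hn
      have h2 := mem_Ioc.1 hm
      rw [FF_upd hvw, hJ m n (by omega) (by omega)]
    rw [hsum]
    refine (hbil Y z hY0 hz (fun m => facC a κ v w e0 * facA a κ v w e0 m)
      (facB a κ v w e0) (fun m => abs_mul_le_one (facC_le ha hκ) (facA_le ha hκ m))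
      (fun n => facB_le ha hκ n) ?_ ?_).trans ?_
    · intro m hm
      apply ha0 v
      intro h
      apply hm
      unfold facA
      rw [h]; ring
    · intro m hm
      apply ha0 w
      intro h
      apply hm
      unfold facB
      rw [h]; ring
    · have hYX : (Y : ℝ) ≤ X / D := Nat.cast_div_le
      have hYX' : (Y : ℝ) ≤ X := by
        refine hYX.trans (div_le_self (by positivity) ?_)
        exact_mod_cast hDpos
      have hY1 : (1 : ℝ) ≤ Y := by exact_mod_cast hY0
      have hlog : Real.log Y ≤ Real.log X := Real.log_le_log (by linarith) hYX'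
      have hlY : 0 ≤ Real.log Y := Real.log_nonneg hY1
      gcongr
  refine (abs_sum_le_sum_abs _ _).trans ((sum_le_sum hfiber).trans ?_)
  have hzpos : 0 < (z : ℝ) ^ (-(1 / 16) : ℝ) := by
    have : (0 : ℝ) < z := by exact_mod_cast hz
    positivity
  have hT'sum : ∑ e0 ∈ T', 1 / (∏ x, (e0 x : ℝ)) ≤ (1 + Real.log X) ^ Fintype.card V := by
    have h1 : ∑ e0 ∈ T', 1 / (∏ x, (e0 x : ℝ)) ≤
        ∑ e0 ∈ Fintype.piFinset fun _ : V => Icc 1 X, ∏ x, (1 / (e0 x : ℝ)) := by
      refine (sum_le_sum_of_subset_of_nonneg (filter_subset _ _) fun e _ _ => ?_).trans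
        (le_of_eq (sum_congr rfl fun e _ => ?_))
      · have : 0 ≤ ∏ x, (e x : ℝ) := prod_nonneg fun x _ => Nat.cast_nonneg _
        positivity
      · rw [prod_div_distrib, prod_const_one]
    refine h1.trans ?_
    rw [← prod_univ_sum (fun _ : V => Icc 1 X) (fun _ k => 1 / (k : ℝ)), prod_const, card_univ]
    exact pow_le_pow_left₀ (sum_nonneg fun k _ => by positivity) (Bilin.harm_le hX) _
  calc ∑ e0 ∈ T', C * (X / (∏ x, (e0 x : ℝ))) * (z : ℝ) ^ (-(1 / 16) : ℝ) * (1 + Real.log X) ^ 33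
      = (C * X * (z : ℝ) ^ (-(1 / 16) : ℝ) * (1 + Real.log X) ^ 33) *
        ∑ e0 ∈ T', 1 / (∏ x, (e0 x : ℝ)) := by
        rw [mul_sum]
        exact sum_congr rfl fun e _ => by ring
    _ ≤ (C * X * (z : ℝ) ^ (-(1 / 16) : ℝ) * (1 + Real.log X) ^ 33) *
        (1 + Real.log X) ^ Fintype.card V := by
        refine mul_le_mul_of_nonneg_left hT'sum (by positivity)
    _ = _ := by rw [pow_add]; ring

end

end Stoll308.Linked
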