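import Mathlib

/-! Ordered factorisations of a squarefree number and colourings of its primes. -/

set_option linter.unusedSectionVars false

namespace Stoll308.Tuples

open Finset

noncomputable section

variable {V : Type*} [Fintype V] [DecidableEq V]

/-- ordered factorisations of `n` indexed by `V` -/
def tup (V : Type*) [Fintype V] [DecidableEq V] (n : ℕ) : Finset (V → ℕ) :=
  (Fintype.piFinset fun _ : V => n.divisors).filter (fun e => ∏ v, e v = n)

lemma mem_tup {n : ℕ} (hn : n ≠ 0) {e : V → ℕ} : e ∈ tup V n ↔ ∏ v, e v = n := by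
  unfold tup
  rw [mem_filter, Fintype.mem_piFinset, and_iff_right_iff_imp]
  intro h v
  rw [Nat.mem_divisors]
  exact ⟨h ▸ dvd_prod_of_mem e (mem_univ v), hn⟩

/-- the factorisation attached to a colouring of the primes -/
def ev (P : Finset ℕ) (c : P → V) (v : V) : ℕ := ∏ p : P, if c p = v then (p : ℕ) else 1

lemma ev_eq (P : Finset ℕ) (c : P → V) (v : V) :
    ev P c v = ∏ p ∈ univ.filter (fun p : P => c p = v), (p : ℕ) := by
  unfold ev
  rw [prod_filter]

lemma prod_ev (P : Finset ℕ) (c : P → V) : ∏ v, ev P c v = ∏ p ∈ P, p := by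
  unfold ev
  rw [prod_comm]
  have : ∀ p : P, ∏ v, (if c p = v then (p : ℕ) else 1) = p := by
    intro p
    rw [prod_ite_eq]
    simp
  rw [prod_congr rfl fun p _ => this p]
  exact prod_coe_sort P (fun p => p)

lemma primeFactors_ev {P : Finset ℕ} (hP : ∀ p ∈ P, p.Prime) (c : P → V) (v : V) :
    (ev P c v).primeFactors = (univ.filter (fun p : P => c p = v)).map (Function.Embedding.subtype _) := by
  rw [ev_eq]
  have : ∏ p ∈ univ.filter (fun p : P => c p = v), (p : ℕ) =
      ∏ p ∈ (univ.filter (fun p : P => c p = v)).map (Function.Embedding.subtype _), p := by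
    rw [prod_map]
    rfl
  rw [this]
  apply Nat.primeFactors_prod
  intro p hp
  rw [mem_map] at hp
  obtain ⟨x, _, rfl⟩ := hp
  exact hP x x.2

lemma ev_pos {P : Finset ℕ} (hP : ∀ p ∈ P, p.Prime) (c : P → V) (v : V) : 0 < ev P c v := by
  unfold ev
  refine prod_pos fun p _ => ?_
  split_ifs
  · exact (hP p p.2).pos
  · norm_num

lemma dvd_ev_iff {P : Finset ℕ} (hP : ∀ p ∈ P, p.Prime) (c : P → V) (v : V) (p : P) :
    (p : ℕ) ∣ ev P c v ↔ c p = v := by
  have h1 : (p : ℕ) ∣ ev P c v ↔ (p : ℕ) ∈ (ev P c v).primeFactors := by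
    rw [Nat.mem_primeFactors]
    exact ⟨fun h => ⟨hP p p.2, h, (ev_pos hP c v).ne'⟩, fun h => h.2.1⟩
  rw [h1, primeFactors_ev hP, mem_map]
  constructor
  · rintro ⟨x, hx, hxp⟩
    have : x = p := Subtype.ext hxp
    rw [← this]
    exact (mem_filter.1 hx).2
  · intro h
    exact ⟨p, mem_filter.2 ⟨mem_univ _, h⟩, rfl⟩

/-- A product over the primes of a function of prime and colour. -/
lemma prod_colour {M : Type*} [CommMonoid M] {P : Finset ℕ} (hP : ∀ p ∈ P, p.Prime) (c : P → V)
    (f : V → ℕ → M) : ∏ p : P, f (c p) p = ∏ v, ∏ p ∈ (ev P c v).primeFactors, f v p := by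
  have h1 : ∀ v, ∏ p ∈ (ev P c v).primeFactors, f v p =
      ∏ p ∈ univ.filter (fun p : P => c p = v), f v p := by
    intro v
    rw [primeFactors_ev hP, prod_map]
    rfl
  rw [prod_congr rfl fun v _ => h1 v, ← prod_fiberwise_of_maps_to (g := c) (t := univ)
    (fun _ _ => mem_univ _)]
  refine prod_congr rfl fun v _ => prod_congr rfl fun p hp => ?_
  rw [(mem_filter.1 hp).2]

/-- **Colourings correspond to ordered factorisations.** -/
lemma sum_colourings {R : Type*} [AddCommMonoid R] {n : ℕ} (hn : Squarefree n)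
    (Φ : (V → ℕ) → R) :
    ∑ c : n.primeFactors → V, Φ (ev n.primeFactors c) = ∑ e ∈ tup V n, Φ e := by
  classical
  have hn0 : n ≠ 0 := hn.ne_zero
  have hP : ∀ p ∈ n.primeFactors, p.Prime := fun p hp => Nat.prime_of_mem_primeFactors hp
  refine sum_bij (fun c _ => ev n.primeFactors c) ?_ ?_ ?_ (fun _ _ => rfl)
  · intro c _
    rw [mem_tup hn0, prod_ev, Nat.prod_primeFactors_of_squarefree hn]
  · intro c _ c' _ h
    funext p
    have h1 := (dvd_ev_iff hP c (c p) p).2 rfl
    rw [h] at h1
    exact ((dvd_ev_iff hP c' (c p) p).1 h1).symm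
  · intro e he
    rw [mem_tup hn0] at he
    have hex : ∀ p : n.primeFactors, ∃ v, (p : ℕ) ∣ e v := by
      intro p
      have h1 : (p : ℕ) ∣ ∏ v, e v := (Nat.dvd_of_mem_primeFactors p.2).trans he.symm.dvd
      obtain ⟨v, _, hv⟩ := (Prime.dvd_finsetProd_iff (hP p p.2).prime e).1 h1
      exact ⟨v, hv⟩
    choose c hc using hex
    have huniq : ∀ (p : n.primeFactors) v, (p : ℕ) ∣ e v → c p = v := by
      intro p v hv
      by_contra hne
      have h1 : (p : ℕ) * p ∣ n := by
        have h2 : e (c p) * e v ∣ ∏ u, e u := by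
          rw [← mul_prod_erase univ e (mem_univ (c p))]
          refine mul_dvd_mul_left _ (dvd_prod_of_mem e ?_)
          exact mem_erase.2 ⟨Ne.symm hne, mem_univ _⟩
        exact ((mul_dvd_mul (hc p) hv).trans h2).trans he.dvd
      have h3 := hn _ h1
      exact (hP p p.2).one_lt.ne' (Nat.isUnit_iff.1 h3)
    refine ⟨c, mem_univ _, ?_⟩
    funext v
    have hev : e v ∣ n := he ▸ dvd_prod_of_mem e (mem_univ v)
    have hsq : Squarefree (e v) := hn.squarefree_of_dvd hev
    have hsq' : Squarefree (ev n.primeFactors c v) := by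
      refine hn.squarefree_of_dvd ?_
      have : ev n.primeFactors c v ∣ ∏ u, ev n.primeFactors c u := dvd_prod_of_mem _ (mem_univ v)
      rwa [prod_ev, Nat.prod_primeFactors_of_squarefree hn] at this
    rw [← Nat.prod_primeFactors_of_squarefree hsq, ← Nat.prod_primeFactors_of_squarefree hsq']
    congr 1
    rw [primeFactors_ev hP]
    ext p
    rw [mem_map]
    constructor
    · rintro ⟨x, hx, rfl⟩
      have h1 := (mem_filter.1 hx).2
      rw [Nat.mem_primeFactors]
      exact ⟨hP x x.2, h1 ▸ hc x, hsq.ne_zero⟩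
    · intro hp
      have hp' : p ∈ n.primeFactors := Nat.primeFactors_mono hev hn0 hp
      exact ⟨⟨p, hp'⟩, mem_filter.2 ⟨mem_univ _,
        huniq ⟨p, hp'⟩ v (Nat.dvd_of_mem_primeFactors hp)⟩, rfl⟩

/-- The multinomial identity over the primes of a squarefree number. -/
lemma prod_sum_eq_sum_tup {n : ℕ} (hn : Squarefree n) (g : V → ℕ → ℝ) :
    ∏ p ∈ n.primeFactors, ∑ v, g v p = ∑ e ∈ tup V n, ∏ v, ∏ p ∈ (e v).primeFactors, g v p := by
  have hP : ∀ p ∈ n.primeFactors, p.Prime := fun p hp => Nat.prime_of_mem_primeFactors hp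
  rw [← sum_colourings hn (fun e => ∏ v, ∏ p ∈ (e v).primeFactors, g v p)]
  rw [← prod_coe_sort n.primeFactors (fun p => ∑ v, g v p), prod_univ_sum]
  have h1 : (Fintype.piFinset fun _ : n.primeFactors => (univ : Finset V)) = univ := by
    ext c; simp
  rw [h1]
  refine sum_congr rfl fun c _ => ?_
  exact prod_colour hP c g

end

end Stoll308.Tuples
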