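import Mathlib
import Pool.Agent.Work.MP_308fa9_nt.Defs

/-! The patterns of quadratic symbols realised by the zeros of a form modulo `p`. -/

set_option autoImplicit false

namespace Stoll308

open Finset NumberTheorySymbols

variable {r : ℕ} (q : Forms r)

open Classical in
/-- the pattern of a zero `θ` of `q_j` modulo `p` -/
noncomputable def patOf (p : ℕ) (j : Fin r) (θ : ZMod p) (i : Fin r) : ℤ :=
  if i = j then 1 else if IsSquare (q.val i θ 1) then 1 else -1

open Classical in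
/-- the patterns of the zeros of `q_j` modulo `p` -/
noncomputable def pat (p : ℕ) (j : Fin r) : Finset (Fin r → ℤ) :=
  ((range p).filter (fun θ : ℕ => q.val j (θ : ZMod p) 1 = 0)).image
    (fun θ : ℕ => patOf q p j (θ : ZMod p))

lemma mem_pat {p : ℕ} (hp : p.Prime) {j : Fin r} {a : Fin r → ℤ} :
    a ∈ pat q p j ↔ ∃ θ : ZMod p, q.val j θ 1 = 0 ∧ a = patOf q p j θ := by
  have := Fact.mk hp
  unfold pat
  rw [mem_image]
  constructor
  · rintro ⟨θ, hθ, rfl⟩
    exact ⟨θ, (mem_filter.1 hθ).2, rfl⟩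
  · rintro ⟨θ, hθ, rfl⟩
    refine ⟨θ.val, mem_filter.2 ⟨mem_range.2 (ZMod.val_lt θ), ?_⟩, ?_⟩
    · rw [ZMod.natCast_zmod_val]; exact hθ
    · rw [ZMod.natCast_zmod_val]

lemma patOf_sign (p : ℕ) (j : Fin r) (θ : ZMod p) (i : Fin r) :
    patOf q p j θ i = 1 ∨ patOf q p j θ i = -1 := by
  unfold patOf
  split_ifs <;> simp

lemma patOf_self (p : ℕ) (j : Fin r) (θ : ZMod p) : patOf q p j θ j = 1 := by
  unfold patOf
  rw [if_pos rfl]

lemma pat_sign {p : ℕ} {j : Fin r} {a : Fin r → ℤ} (ha : a ∈ pat q p j) (i : Fin r) :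
    a i = 1 ∨ a i = -1 := by
  unfold pat at ha
  rw [mem_image] at ha
  obtain ⟨θ, -, rfl⟩ := ha
  exact patOf_sign q p j _ i

lemma pat_self {p : ℕ} {j : Fin r} {a : Fin r → ℤ} (ha : a ∈ pat q p j) : a j = 1 := by
  unfold pat at ha
  rw [mem_image] at ha
  obtain ⟨θ, -, rfl⟩ := ha
  exact patOf_self q p j _

lemma not_dvd_of_bad {p : ℕ} (hp : p.Prime) (hb : ¬ (p : ℤ) ∣ q.bad) :
    p ≠ 2 ∧ (∀ j, ¬ (p : ℤ) ∣ q.a j) ∧ (∀ j, ¬ (p : ℤ) ∣ q.disc j) ∧
      ∀ j k, j ≠ k → ¬ (p : ℤ) ∣ q.res j k := by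
  have hpp : Prime (p : ℤ) := Nat.prime_iff_prime_int.mp hp
  unfold Forms.bad at hb
  refine ⟨?_, fun j h => hb ?_, fun j h => hb ?_, fun j k hjk h => hb ?_⟩
  · rintro rfl
    apply hb
    rw [mul_assoc, mul_assoc]
    exact Dvd.intro _ rfl
  · exact Dvd.dvd.mul_right (Dvd.dvd.mul_right (Dvd.dvd.mul_left
      (h.trans (dvd_prod_of_mem _ (mem_univ j))) _) _) _
  · exact Dvd.dvd.mul_right (Dvd.dvd.mul_left
      (h.trans (dvd_prod_of_mem _ (mem_univ j))) _) _
  · refine Dvd.dvd.mul_left ?_ _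
    refine (h.trans (dvd_prod_of_mem (fun k => q.res j k) (mem_erase.2 ⟨hjk.symm, mem_univ k⟩))).trans
      (dvd_prod_of_mem (fun j => ∏ k ∈ univ.erase j, q.res j k) (mem_univ j))

lemma chi_eq {p : ℕ} [hp : Fact p.Prime] {x : ZMod p} (hx : x ≠ 0) (d : Decidable (IsSquare x)) :
    (if IsSquare x then (1 : ℤ) else -1) = quadraticChar (ZMod p) x := by
  split_ifs with h
  · rw [(quadraticChar_one_iff_isSquare hx).2 h]
  · have h1 := quadraticChar_dichotomy hx
    rcases h1 with h1 | h1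
    · exact absurd ((quadraticChar_one_iff_isSquare hx).1 h1) h
    · rw [h1]

/-- Structure of the set of patterns at a good prime. -/
lemma pat_struct {p : ℕ} (hp : p.Prime) (hb : ¬ (p : ℤ) ∣ q.bad) (j : Fin r) :
    pat q p j = ∅ ∨ (J(q.disc j | p) = 1 ∧ ∃ a ∈ pat q p j, ∃ b ∈ pat q p j,
      (∀ x ∈ pat q p j, x = a ∨ x = b) ∧ ∀ i, i ≠ j → a i * b i = J(q.res j i | p)) := by
  classical
  have := Fact.mk hp
  obtain ⟨hp2, ha, hd, hres⟩ := not_dvd_of_bad q hp hb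
  rcases (pat q p j).eq_empty_or_nonempty with h | ⟨x0, hx0⟩
  · exact Or.inl h
  right
  obtain ⟨θ, hθ, -⟩ := (mem_pat q hp).1 hx0
  set A : ZMod p := ((q.a j : ℤ) : ZMod p) with hA
  set B : ZMod p := ((q.b j : ℤ) : ZMod p) with hB
  set C : ZMod p := ((q.c j : ℤ) : ZMod p) with hC
  have hA0 : A ≠ 0 := by
    rw [hA, Ne, ZMod.intCast_zmod_eq_zero_iff_dvd]
    exact ha j
  have hval : ∀ y : ZMod p, q.val j y 1 = A * y ^ 2 + B * y + C := by
    intro y
    unfold Forms.val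
    rw [hA, hB, hC]
    ring
  have hθ' : A * θ ^ 2 + B * θ + C = 0 := by rw [← hval]; exact hθ
  have hdisc : ((q.disc j : ℤ) : ZMod p) = (2 * A * θ + B) ^ 2 := by
    unfold Forms.disc
    push_cast
    rw [← hA, ← hB, ← hC]
    linear_combination (-4 * A) * hθ'
  have hd0 : ((q.disc j : ℤ) : ZMod p) ≠ 0 := by
    rw [Ne, ZMod.intCast_zmod_eq_zero_iff_dvd]
    exact hd j
  set θ2 : ZMod p := -θ - B / A with hθ2
  have hAθ2 : A * θ2 = -A * θ - B := by
    rw [hθ2]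
    field_simp
  have hθ2r : q.val j θ2 1 = 0 := by
    rw [hval]
    have : A * (A * θ2 ^ 2 + B * θ2 + C) = 0 := by
      have e : A * (A * θ2 ^ 2 + B * θ2 + C) = (A * θ2) ^ 2 + B * (A * θ2) + A * C := by ring
      rw [e, hAθ2]
      linear_combination A * hθ'
    exact (mul_eq_zero.1 this).resolve_left hA0
  refine ⟨?_, patOf q p j θ, (mem_pat q hp).2 ⟨θ, hθ, rfl⟩, patOf q p j θ2,
    (mem_pat q hp).2 ⟨θ2, hθ2r, rfl⟩, ?_, ?_⟩
  · rw [← jacobiSym.legendreSym.to_jacobiSym, legendreSym.eq_one_iff p hd0]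
    exact ⟨2 * A * θ + B, by rw [hdisc, sq]⟩
  · intro x hx
    obtain ⟨y, hy, rfl⟩ := (mem_pat q hp).1 hx
    rw [hval] at hy
    have h1 : (y - θ) * (A * (y - θ2)) = 0 := by
      have e : (y - θ) * (A * (y - θ2)) = (y - θ) * (A * y - A * θ2) := by ring
      rw [e, hAθ2]
      linear_combination hy - hθ'
    rcases mul_eq_zero.1 h1 with h2 | h2
    · left
      rw [sub_eq_zero.1 h2]
    · right
      rw [sub_eq_zero.1 ((mul_eq_zero.1 h2).resolve_left hA0)]
  · intro i hij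
    have hres' := hres j i hij.symm
    have hr0 : ((q.res j i : ℤ) : ZMod p) ≠ 0 := by
      rw [Ne, ZMod.intCast_zmod_eq_zero_iff_dvd]
      exact hres'
    set A' : ZMod p := ((q.a i : ℤ) : ZMod p) with hA'
    set B' : ZMod p := ((q.b i : ℤ) : ZMod p) with hB'
    set C' : ZMod p := ((q.c i : ℤ) : ZMod p) with hC'
    have hvali : ∀ y : ZMod p, q.val i y 1 = A' * y ^ 2 + B' * y + C' := by
      intro y
      unfold Forms.val
      rw [hA', hB', hC']
      ring
    have hprod : ((q.res j i : ℤ) : ZMod p) = A ^ 2 * (q.val i θ 1 * q.val i θ2 1) := by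
      rw [hvali, hvali]
      unfold Forms.res
      push_cast
      rw [← hA, ← hB, ← hC, ← hA', ← hB', ← hC']
      have e : A ^ 2 * ((A' * θ ^ 2 + B' * θ + C') * (A' * θ2 ^ 2 + B' * θ2 + C')) =
        (A' * θ ^ 2 + B' * θ + C') * (A' * (A * θ2) ^ 2 + B' * A * (A * θ2) + C' * A ^ 2) := by ring
      rw [e, hAθ2]
      have hCC : C = -(A * θ ^ 2 + B * θ) := by linear_combination hθ'
      rw [hCC]
      ring
    have hprod0 : q.val i θ 1 * q.val i θ2 1 ≠ 0 := by
      intro h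
      rw [h, mul_zero] at hprod
      exact hr0 hprod
    have hx0 := left_ne_zero_of_mul hprod0
    have hy0 := right_ne_zero_of_mul hprod0
    unfold patOf
    rw [if_neg hij, if_neg hij, chi_eq hx0 _, chi_eq hy0 _]
    rw [← jacobiSym.legendreSym.to_jacobiSym, legendreSym, hprod, map_mul, quadraticChar_sq_one' hA0,
      one_mul, map_mul]

end Stoll308
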