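import Mathlib
import Pool.Agent.Work.MP_308fa9_nt.Pat
import Pool.Agent.Work.MP_2b9663_nt.MV

/-! The weights attached to the patterns and the bound for their sums over unlinked sets. -/

set_option autoImplicit false

namespace Stoll308

open Finset NumberTheorySymbols
open Pool.Agent.Work.MP_2b9663_nt (MV BD)

variable {r : ℕ} (q : Forms r)

/-- the index set of the weights -/
abbrev VV (r : ℕ) := Fin r × Finset (Fin r)

/-- the weights -/
noncomputable def wt (v : VV r) (p : ℕ) : ℝ :=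
  if v.1 ∈ v.2 then 0 else (1 / 2) ^ (r - 1) * ∑ a ∈ pat q p v.1, ∏ i ∈ v.2, (a i : ℝ)

lemma sum_wt (p : ℕ) (j : Fin r) (ε : Fin r → ℝ) :
    ∑ T : Finset (Fin r), wt q (j, T) p * ∏ i ∈ T, ε i =
      (1 / 2) ^ (r - 1) * ∑ a ∈ pat q p j, ∏ i ∈ univ.erase j, (1 + (a i : ℝ) * ε i) := by
  have h1 : ∀ T : Finset (Fin r), wt q (j, T) p * ∏ i ∈ T, ε i =
      if j ∉ T then (1 / 2) ^ (r - 1) * ∑ a ∈ pat q p j, ∏ i ∈ T, ((a i : ℝ) * ε i) else 0 := by
    intro T
    unfold wt
    by_cases h : j ∈ T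
    · rw [if_pos h, if_neg (not_not.2 h), zero_mul]
    · rw [if_neg h, if_pos h, mul_assoc, sum_mul]
      congr 1
      refine sum_congr rfl fun a _ => ?_
      rw [prod_mul_distrib]
  rw [sum_congr rfl fun T _ => h1 T, ← sum_filter]
  have h2 : (univ : Finset (Finset (Fin r))).filter (fun T => j ∉ T) = (univ.erase j).powerset := by
    ext T
    rw [mem_filter, mem_powerset, subset_erase]
    simp
  rw [h2, ← mul_sum, sum_comm]
  congr 1
  refine sum_congr rfl fun a _ => ?_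
  rw [prod_one_add]

lemma term_nonneg {p : ℕ} {j : Fin r} {a : Fin r → ℤ} (ha : a ∈ pat q p j) {x : ℝ} (hx : |x| ≤ 1)
    (i : Fin r) : 0 ≤ 1 + (a i : ℝ) * x := by
  have := abs_le.1 hx
  rcases pat_sign q ha i with h | h <;> rw [h] <;> push_cast <;> linarith

lemma sum_wt_nonneg (p : ℕ) (j : Fin r) {ε : Fin r → ℝ} (hε : ∀ i, |ε i| ≤ 1) :
    0 ≤ ∑ T : Finset (Fin r), wt q (j, T) p * ∏ i ∈ T, ε i := by
  rw [sum_wt]
  refine mul_nonneg (by positivity) (sum_nonneg fun a ha => prod_nonneg fun i _ => ?_)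
  exact term_nonneg q ha (hε i) i

lemma one_le_sum_wt (p : ℕ) (j : Fin r) {ε : Fin r → ℝ} (hε : ∀ i, |ε i| ≤ 1)
    {a : Fin r → ℤ} (ha : a ∈ pat q p j) (h : ∀ i, i ≠ j → (a i : ℝ) * ε i = 1) :
    1 ≤ ∑ T : Finset (Fin r), wt q (j, T) p * ∏ i ∈ T, ε i := by
  rw [sum_wt]
  have h1 : ∏ i ∈ univ.erase j, (1 + (a i : ℝ) * ε i) = 2 ^ (r - 1) := by
    rw [prod_congr rfl fun i hi => by rw [h i (ne_of_mem_erase hi)]]
    rw [prod_const, card_erase_of_mem (mem_univ j), card_univ, Fintype.card_fin]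
    norm_num
  have h2 : ∏ i ∈ univ.erase j, (1 + (a i : ℝ) * ε i) ≤
      ∑ a ∈ pat q p j, ∏ i ∈ univ.erase j, (1 + (a i : ℝ) * ε i) :=
    single_le_sum (f := fun a : Fin r → ℤ => ∏ i ∈ univ.erase j, (1 + (a i : ℝ) * ε i))
      (fun b hb => prod_nonneg fun i _ => term_nonneg q hb (hε i) i) ha
  rw [h1] at h2
  calc (1 : ℝ) = (1 / 2) ^ (r - 1) * 2 ^ (r - 1) := by rw [← mul_pow]; norm_num
    _ ≤ _ := mul_le_mul_of_nonneg_left h2 (by positivity)

/-- the sum of the absolute values of the pattern sums -/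
noncomputable def GG (P : Finset (Fin r → ℤ)) (N E : Finset (Fin r)) : ℝ :=
  ∑ T ∈ E.powerset, |∑ a ∈ P, ∏ i ∈ N ∪ T, (a i : ℝ)|

lemma abs_prod_sign {a : Fin r → ℤ} (ha : ∀ i, a i = 1 ∨ a i = -1) (S : Finset (Fin r)) :
    |∏ i ∈ S, (a i : ℝ)| = 1 := by
  rw [abs_prod]
  refine prod_eq_one fun i _ => ?_
  rcases ha i with h | h <;> rw [h] <;> simp

lemma GG_le_card {P : Finset (Fin r → ℤ)} (hP : ∀ a ∈ P, ∀ i, a i = 1 ∨ a i = -1)
    (N E : Finset (Fin r)) : GG P N E ≤ P.card * 2 ^ E.card := by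
  unfold GG
  have h1 : ∀ T ∈ E.powerset, |∑ a ∈ P, ∏ i ∈ N ∪ T, (a i : ℝ)| ≤ P.card := by
    intro T _
    refine (abs_sum_le_sum_abs _ _).trans ?_
    rw [sum_congr rfl fun a ha => abs_prod_sign (hP a ha) _]
    simp
  refine (sum_le_sum h1).trans ?_
  rw [sum_const, card_powerset, nsmul_eq_mul]
  push_cast
  rw [mul_comm]

lemma GG_le_one {P : Finset (Fin r → ℤ)} (hP : ∀ a ∈ P, ∀ i, a i = 1 ∨ a i = -1)
    {a b : Fin r → ℤ} (ha : a ∈ P) (hb : b ∈ P) (hab : ∀ x ∈ P, x = a ∨ x = b)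
    {N E : Finset (Fin r)} (hNE : Disjoint N E) (h : ∀ i, i ∉ E → a i = b i) :
    GG P N E ≤ 2 ^ E.card := by
  classical
  by_cases heq : a = b
  · have hPc : P = {a} := by
      ext x
      rw [mem_singleton]
      constructor
      · intro hx
        rcases hab x hx with h | h
        · exact h
        · rw [h, heq]
      · rintro rfl; exact ha
    have := GG_le_card hP N E
    rw [hPc, card_singleton] at this
    rw [hPc]
    push_cast at this
    linarith
  · have hPc : P = {a, b} := by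
      ext x
      rw [mem_insert, mem_singleton]
      constructor
      · exact hab x
      · rintro (rfl | rfl)
        · exact ha
        · exact hb
    obtain ⟨i0, hi0⟩ := Function.ne_iff.1 heq
    have hi0E : i0 ∈ E := by
      by_contra hh
      exact hi0 (h i0 hh)
    unfold GG
    have h1 : ∀ T ∈ E.powerset, |∑ a ∈ P, ∏ i ∈ N ∪ T, (a i : ℝ)| =
        1 + ∏ i ∈ T, ((a i : ℝ) * (b i : ℝ)) := by
      intro T hT
      rw [mem_powerset] at hT
      rw [hPc, sum_pair heq]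
      have h2 : ∏ i ∈ N ∪ T, (a i : ℝ) + ∏ i ∈ N ∪ T, (b i : ℝ) =
          (∏ i ∈ N ∪ T, (a i : ℝ)) * (1 + ∏ i ∈ N ∪ T, ((a i : ℝ) * (b i : ℝ))) := by
        rw [mul_add, mul_one, prod_mul_distrib, ← mul_assoc, ← prod_mul_distrib]
        have : ∏ i ∈ N ∪ T, ((a i : ℝ) * (a i : ℝ)) = 1 := by
          refine prod_eq_one fun i _ => ?_
          rcases hP a ha i with h | h <;> rw [h] <;> norm_num
        rw [this, one_mul]
      rw [h2, abs_mul, abs_prod_sign (hP a ha), one_mul]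
      have h3 : ∏ i ∈ N ∪ T, ((a i : ℝ) * (b i : ℝ)) = ∏ i ∈ T, ((a i : ℝ) * (b i : ℝ)) := by
        rw [prod_union (hNE.mono_right hT)]
        have : ∏ i ∈ N, ((a i : ℝ) * (b i : ℝ)) = 1 := by
          refine prod_eq_one fun i hi => ?_
          rw [← h i (disjoint_left.1 hNE hi)]
          rcases hP a ha i with h | h <;> rw [h] <;> norm_num
        rw [this, one_mul]
      rw [h3, abs_of_nonneg]
      have h4 : |∏ i ∈ T, ((a i : ℝ) * (b i : ℝ))| = 1 := by
        rw [prod_mul_distrib, abs_mul, abs_prod_sign (hP a ha), abs_prod_sign (hP b hb), one_mul]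
      have h5 := neg_abs_le (∏ i ∈ T, ((a i : ℝ) * (b i : ℝ)))
      rw [h4] at h5
      linarith
    rw [sum_congr rfl h1, sum_add_distrib, ← prod_one_add]
    have h6 : ∏ i ∈ E, (1 + (a i : ℝ) * (b i : ℝ)) = 0 := by
      refine prod_eq_zero hi0E ?_
      rcases hP a ha i0 with h | h <;> rcases hP b hb i0 with h' | h' <;> rw [h, h'] at hi0 <;>
        first
        | exact absurd rfl hi0
        | (rw [h, h']; norm_num)
    rw [h6, add_zero]
    simp

/-- unlinked sets of indices -/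
def Unlinked (L : Finset (VV r)) : Prop :=
  ∀ v ∈ L, ∀ u ∈ L, v ≠ u → (u.1 ∈ v.2 ↔ v.1 ∈ u.2)

lemma fiber_bound {L : Finset (VV r)} (hun : Unlinked L) (hself : ∀ v ∈ L, v.1 ∉ v.2)
    {j : Fin r} (hj : j ∈ L.image Prod.fst) :
    ∃ N ⊆ (L.image Prod.fst).erase j, ∀ p : ℕ, ∑ v ∈ L.filter (fun v => v.1 = j), |wt q v p| ≤
      (1 / 2) ^ (r - 1) * GG (pat q p j) N (L.image Prod.fst)ᶜ := by
  classical
  set K := L.image Prod.fst with hK
  obtain ⟨v0, hv0, hv0j⟩ := mem_image.1 hj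
  refine ⟨v0.2 ∩ K, ?_, fun p => ?_⟩
  · intro i hi
    rw [mem_inter] at hi
    refine mem_erase.2 ⟨?_, hi.2⟩
    rintro rfl
    rw [← hv0j] at hi
    exact hself v0 hv0 hi.1
  have hN : ∀ v ∈ L, v.1 = j → v.2 ∩ K = v0.2 ∩ K := by
    intro v hv hvj
    ext i
    rw [mem_inter, mem_inter]
    by_cases hij : i = j
    · have e1 : i ∉ v.2 := by rw [hij, ← hvj]; exact hself v hv
      have e2 : i ∉ v0.2 := by rw [hij, ← hv0j]; exact hself v0 hv0
      simp [e1, e2]
    · refine and_congr_left fun hiK => ?_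
      obtain ⟨u, hu, hui⟩ := mem_image.1 hiK
      have hvu : v ≠ u := by rintro rfl; exact hij (hui.symm.trans hvj)
      have hv0u : v0 ≠ u := by rintro rfl; exact hij (hui.symm.trans hv0j)
      have h1 := hun v hv u hu hvu
      have h2 := hun v0 hv0 u hu hv0u
      rw [hui, hvj] at h1
      rw [hui, hv0j] at h2
      rw [h1, h2]
  unfold GG
  rw [mul_sum]
  have h1 : ∀ v ∈ L.filter (fun v => v.1 = j), |wt q v p| =
      (fun T => (1 / 2 : ℝ) ^ (r - 1) * |∑ a ∈ pat q p j, ∏ i ∈ (v0.2 ∩ K) ∪ T, (a i : ℝ)|) (v.2 ∩ Kᶜ) := by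
    intro v hv
    obtain ⟨hvL, hvj⟩ := mem_filter.1 hv
    have h2 : v.2 = (v0.2 ∩ K) ∪ (v.2 ∩ Kᶜ) := by
      rw [← hN v hvL hvj]
      ext i
      rw [mem_union, mem_inter, mem_inter, mem_compl]
      tauto
    unfold wt
    rw [if_neg (hself v hvL), abs_mul, abs_of_nonneg (by positivity : (0 : ℝ) ≤ (1 / 2) ^ (r - 1)), hvj]
    beta_reduce
    rw [← h2]
  rw [sum_congr rfl h1, ← sum_image (f := fun T => (1 / 2 : ℝ) ^ (r - 1) *
    |∑ a ∈ pat q p j, ∏ i ∈ (v0.2 ∩ K) ∪ T, (a i : ℝ)|) (g := fun v : VV r => v.2 ∩ Kᶜ)]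
  · refine sum_le_sum_of_subset_of_nonneg ?_ fun _ _ _ => by positivity
    intro T hT
    obtain ⟨v, _, rfl⟩ := mem_image.1 hT
    rw [mem_powerset]
    exact inter_subset_right
  · intro v hv u hu hvu
    obtain ⟨hvL, hvj⟩ := mem_filter.1 (mem_coe.1 hv)
    obtain ⟨huL, huj⟩ := mem_filter.1 (mem_coe.1 hu)
    have e1 := hN v hvL hvj
    have e2 := hN u huL huj
    beta_reduce at hvu
    have e3 : v.2 = u.2 := by
      ext i
      by_cases hi : i ∈ K
      · have := congrArg (fun s => i ∈ s) (e1.trans e2.symm)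
        simp only [mem_inter, hi, and_true, eq_iff_iff] at this
        exact this
      · have := congrArg (fun s => i ∈ s) hvu
        simp only [mem_inter, mem_compl, hi, not_false_eq_true, and_true, eq_iff_iff] at this
        exact this
    exact Prod.ext (hvj.trans huj.symm) e3

/-- the indicator of the primes split in the `j`-th field -/
noncomputable def uu (j : Fin r) (p : ℕ) : ℝ := (1 + (J(q.disc j | p) : ℝ)) / 2

lemma uu_nonneg (j : Fin r) (p : ℕ) : 0 ≤ uu q j p := by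
  unfold uu
  rcases jacobiSym.trichotomy (q.disc j) p with h | h | h <;> rw [h] <;> norm_num

lemma MV_uu (j : Fin r) (h : ¬ IsSquare (q.disc j)) : MV (fun p => uu q j p) (1 / 2) := by
  have h0 : q.disc j ≠ 0 := by
    intro h0
    rw [h0] at h
    exact h ⟨0, by norm_num⟩
  have h1 := (MV.const (1 / 2)).add ((MV.jacobi_nonsquare h0 h).const_mul (1 / 2))
  have e : (fun p : Nat.Primes => (1 / 2 : ℝ) + 1 / 2 * ((J(q.disc j | p) : ℤ) : ℝ)) =
      fun p : Nat.Primes => uu q j p := by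
    funext p
    unfold uu
    ring
  rw [e] at h1
  simpa using h1

lemma GG_empty (N E : Finset (Fin r)) : GG (∅ : Finset (Fin r → ℤ)) N E = 0 := by
  unfold GG
  simp

lemma card_le_two_of {P : Finset (Fin r → ℤ)} {a b : Fin r → ℤ} (hab : ∀ x ∈ P, x = a ∨ x = b) :
    P.card ≤ 2 := by
  classical
  have : P ⊆ {a, b} := by
    intro x hx
    rw [mem_insert, mem_singleton]
    exact hab x hx
  exact (card_le_card this).trans card_le_two

lemma pow_aux {K : Finset (Fin r)} (hK : K.Nonempty) :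
    (1 / 2 : ℝ) ^ (r - 1) * (2 * 2 ^ (Kᶜ).card) = 4 * (1 / 2) ^ K.card := by
  have h1 : 1 ≤ r := by
    obtain ⟨j, _⟩ := hK
    exact Nat.succ_le_of_lt (Fin.pos j)
  have h2 : K.card + (Kᶜ).card = r := by
    rw [card_add_card_compl, Fintype.card_fin]
  have h3 : (2 : ℝ) ^ (r - 1) * 2 = 2 ^ K.card * 2 ^ (Kᶜ).card := by
    rw [← pow_succ, ← pow_add, h2]
    congr 1
    omega
  rw [one_div, inv_pow, inv_pow]
  have h4 : (2 : ℝ) ^ (r - 1) ≠ 0 := by positivity
  have h5 : (2 : ℝ) ^ K.card ≠ 0 := by positivity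
  field_simp
  linarith

/-- the general bound for the weights over one fibre -/
lemma fiber_le {L : Finset (VV r)} (hun : Unlinked L) (hself : ∀ v ∈ L, v.1 ∉ v.2)
    {j : Fin r} (hj : j ∈ L.image Prod.fst) {p : ℕ} (hp : p.Prime) (hb : ¬ (p : ℤ) ∣ q.bad) :
    ∑ v ∈ L.filter (fun v => v.1 = j), |wt q v p| ≤
      4 * (1 / 2) ^ (L.image Prod.fst).card * uu q j p := by
  classical
  obtain ⟨N, _, hN⟩ := fiber_bound q hun hself hj
  refine (hN p).trans ?_
  rcases pat_struct q hp hb j with h | ⟨hJ, a, ha, b, hb', hab, -⟩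
  · rw [h, GG_empty, mul_zero]
    exact mul_nonneg (by positivity) (uu_nonneg q j p)
  · have h1 : uu q j p = 1 := by unfold uu; rw [hJ]; norm_num
    rw [h1, mul_one, ← pow_aux ⟨j, hj⟩]
    have h2 := GG_le_card (fun a ha => pat_sign q ha) (P := pat q p j) N (L.image Prod.fst)ᶜ
    have h3 : ((pat q p j).card : ℝ) ≤ 2 := by exact_mod_cast card_le_two_of hab
    refine mul_le_mul_of_nonneg_left (h2.trans ?_) (by positivity)
    exact mul_le_mul_of_nonneg_right h3 (by positivity)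

/-- the bound if only one index occurs -/
lemma fiber_le_one {L : Finset (VV r)} (hun : Unlinked L) (hself : ∀ v ∈ L, v.1 ∉ v.2)
    {j : Fin r} (hK : L.image Prod.fst = {j}) {p : ℕ} (hp : p.Prime) (hb : ¬ (p : ℤ) ∣ q.bad) :
    ∑ v ∈ L.filter (fun v => v.1 = j), |wt q v p| ≤ uu q j p := by
  classical
  have hj : j ∈ L.image Prod.fst := by rw [hK]; exact mem_singleton_self j
  obtain ⟨N, hNK, hN⟩ := fiber_bound q hun hself hj
  have hN0 : N = ∅ := by
    rw [hK, erase_singleton] at hNK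
    exact subset_empty.1 hNK
  refine (hN p).trans ?_
  rcases pat_struct q hp hb j with h | ⟨hJ, a, ha, b, hb', hab, -⟩
  · rw [h, GG_empty, mul_zero]
    exact uu_nonneg q j p
  · have h1 : uu q j p = 1 := by unfold uu; rw [hJ]; norm_num
    have h2 := GG_le_one (fun a ha => pat_sign q ha) (P := pat q p j) ha hb' hab
      (N := N) (E := (L.image Prod.fst)ᶜ) (by rw [hN0]; exact disjoint_empty_left _) (by
        intro i hi
        rw [hK, mem_compl, not_not, mem_singleton] at hi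
        rw [hi, pat_self q ha, pat_self q hb'])
    have h3 := pow_aux ⟨j, hj⟩
    have h4 : (L.image Prod.fst).card = 1 := by rw [hK, card_singleton]
    rw [h4] at h3
    rw [h1]
    calc _ ≤ (1 / 2 : ℝ) ^ (r - 1) * 2 ^ ((L.image Prod.fst)ᶜ).card :=
          mul_le_mul_of_nonneg_left h2 (by positivity)
      _ = ((1 / 2 : ℝ) ^ (r - 1) * (2 * 2 ^ ((L.image Prod.fst)ᶜ).card)) / 2 := by ring
      _ = 1 := by rw [h3]; norm_num

/-- the bound if two indices occur -/
lemma fiber_le_two {L : Finset (VV r)} (hun : Unlinked L) (hself : ∀ v ∈ L, v.1 ∉ v.2)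
    {j l : Fin r} (hjl : j ≠ l) (hK : L.image Prod.fst = {j, l}) {p : ℕ} (hp : p.Prime)
    (hb : ¬ (p : ℤ) ∣ q.bad) :
    ∑ v ∈ L.filter (fun v => v.1 = j), |wt q v p| ≤ uu q j p * ((3 - (J(q.res j l | p) : ℝ)) / 4) := by
  classical
  have hj : j ∈ L.image Prod.fst := by rw [hK]; exact mem_insert_self j _
  obtain ⟨N, hNK, hN⟩ := fiber_bound q hun hself hj
  have hNK' : N ⊆ L.image Prod.fst := hNK.trans (erase_subset _ _)
  refine (hN p).trans ?_
  rcases pat_struct q hp hb j with h | ⟨hJ, a, ha, b, hb', hab, hs⟩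
  · rw [h, GG_empty, mul_zero]
    refine mul_nonneg (uu_nonneg q j p) ?_
    rcases jacobiSym.trichotomy (q.res j l) p with h | h | h <;> rw [h] <;> norm_num
  · have h1 : uu q j p = 1 := by unfold uu; rw [hJ]; norm_num
    have h3 := pow_aux ⟨j, hj⟩
    have h4 : (L.image Prod.fst).card = 2 := by rw [hK, card_pair hjl]
    rw [h4] at h3
    rw [h1, one_mul]
    have h5 := hs l hjl.symm
    rw [← h5]
    have ha' := pat_sign q ha l
    have hb'' := pat_sign q hb' l
    by_cases hal : a l = b l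
    · have h2 := GG_le_one (fun a ha => pat_sign q ha) (P := pat q p j) ha hb' hab
        (N := N) (E := (L.image Prod.fst)ᶜ) (disjoint_compl_right.mono_left hNK') (by
          intro i hi
          rw [hK, mem_compl, not_not, mem_insert, mem_singleton] at hi
          rcases hi with hi | hi
          · rw [hi, pat_self q ha, pat_self q hb']
          · rw [hi, hal])
      have h6 : ((a l * b l : ℤ) : ℝ) = 1 := by
        rcases ha' with h | h <;> rw [← hal, h] <;> norm_num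
      rw [h6]
      calc _ ≤ (1 / 2 : ℝ) ^ (r - 1) * 2 ^ ((L.image Prod.fst)ᶜ).card :=
            mul_le_mul_of_nonneg_left h2 (by positivity)
        _ = ((1 / 2 : ℝ) ^ (r - 1) * (2 * 2 ^ ((L.image Prod.fst)ᶜ).card)) / 2 := by ring
        _ ≤ _ := by rw [h3]; norm_num
    · have h6 : ((a l * b l : ℤ) : ℝ) = -1 := by
        rcases ha' with h | h <;> rcases hb'' with h' | h' <;> rw [h, h'] at hal ⊢ <;>
          first
          | exact absurd rfl hal
          | norm_num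
      rw [h6]
      have h2 := GG_le_card (fun a ha => pat_sign q ha) (P := pat q p j) N (L.image Prod.fst)ᶜ
      have h7 : ((pat q p j).card : ℝ) ≤ 2 := by exact_mod_cast card_le_two_of hab
      calc _ ≤ (1 / 2 : ℝ) ^ (r - 1) * (2 * 2 ^ ((L.image Prod.fst)ᶜ).card) := by
            refine mul_le_mul_of_nonneg_left (h2.trans ?_) (by positivity)
            exact mul_le_mul_of_nonneg_right h7 (by positivity)
        _ ≤ _ := by rw [h3]; norm_num

lemma MV_two (j l : Fin r) (h : ¬ IsSquare (q.disc j)) (hr : q.res j l ≠ 0) :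
    ∃ κ : ℝ, κ ≤ 3 / 8 ∧ MV (fun p => uu q j p * ((3 - (J(q.res j l | p) : ℝ)) / 4)) κ := by
  have h0 : q.disc j ≠ 0 := by
    intro h0
    rw [h0] at h
    exact h ⟨0, by norm_num⟩
  have hex : ∀ a : ℤ, a ≠ 0 → ∃ κ : ℝ, 0 ≤ κ ∧ MV (fun p => ((J(a | p) : ℤ) : ℝ)) κ := by
    intro a ha
    by_cases hsq : IsSquare a
    · exact ⟨1, zero_le_one, MV.jacobi_square ha hsq⟩
    · exact ⟨0, le_rfl, MV.jacobi_nonsquare ha hsq⟩
  obtain ⟨κ1, hκ1, h1⟩ := hex _ hr
  obtain ⟨κ2, hκ2, h2⟩ := hex _ (mul_ne_zero h0 hr)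
  have h3 := ((MV.const (3 / 8)).add ((MV.jacobi_nonsquare h0 h).const_mul (3 / 8))).add
    ((h1.const_mul (-(1 / 8))).add (h2.const_mul (-(1 / 8))))
  refine ⟨3 / 8 + 3 / 8 * 0 + (-(1 / 8) * κ1 + -(1 / 8) * κ2), by linarith, ?_⟩
  · have e : (fun p : Nat.Primes => uu q j p * ((3 - (J(q.res j l | p) : ℝ)) / 4)) =
      (fun p : Nat.Primes => (3 / 8 : ℝ) + 3 / 8 * ((J(q.disc j | p) : ℤ) : ℝ) +
        (-(1 / 8) * ((J(q.res j l | p) : ℤ) : ℝ) +
          -(1 / 8) * ((J(q.disc j * q.res j l | p) : ℤ) : ℝ))) := by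
      funext p
      unfold uu
      rw [jacobiSym.mul_left]
      push_cast
      ring
    rw [e]
    exact h3

/-- **The weights over an unlinked set have mean at most `3/4`.** -/
theorem exists_mean {L : Finset (VV r)} (hun : Unlinked L) (hself : ∀ v ∈ L, v.1 ∉ v.2)
    (hirr : ∀ j, ¬ IsSquare (q.disc j)) (hcop : ∀ j k, j ≠ k → q.res j k ≠ 0) :
    ∃ (c : ℕ → ℝ) (κ : ℝ), MV (fun p => c p) κ ∧ κ ≤ 3 / 4 ∧
      ∀ p : ℕ, p.Prime → ¬ (p : ℤ) ∣ q.bad → ∑ v ∈ L, |wt q v p| ≤ c p := by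
  classical
  set K := L.image Prod.fst with hK
  have hsum : ∀ p : ℕ, ∑ v ∈ L, |wt q v p| =
      ∑ j ∈ K, ∑ v ∈ L.filter (fun v => v.1 = j), |wt q v p| := by
    intro p
    exact (sum_fiberwise_of_maps_to (fun v hv => mem_image_of_mem _ hv) _).symm
  rcases Nat.lt_or_ge K.card 3 with hlt | hge
  · interval_cases hk : K.card
    · have hK0 : K = ∅ := card_eq_zero.1 hk
      refine ⟨fun _ => 0, 0, MV.zero, by norm_num, fun p _ _ => ?_⟩
      rw [hsum, hK0]
      simp
    · obtain ⟨j, hj⟩ := card_eq_one.1 hk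
      refine ⟨fun p => uu q j p, 1 / 2, MV_uu q j (hirr j), by norm_num, fun p hp hb => ?_⟩
      rw [hsum, hj, sum_singleton]
      exact fiber_le_one q hun hself (hK ▸ hj) hp hb
    · obtain ⟨j, l, hjl, hj⟩ := card_eq_two.1 hk
      obtain ⟨κ1, hκ1, h1⟩ := MV_two q j l (hirr j) (hcop j l hjl)
      obtain ⟨κ2, hκ2, h2⟩ := MV_two q l j (hirr l) (hcop l j hjl.symm)
      refine ⟨fun p => uu q j p * ((3 - (J(q.res j l | p) : ℝ)) / 4) +
        uu q l p * ((3 - (J(q.res l j | p) : ℝ)) / 4), κ1 + κ2, h1.add h2, by linarith,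
        fun p hp hb => ?_⟩
      rw [hsum, hj, sum_pair hjl]
      refine add_le_add (fiber_le_two q hun hself hjl (hK ▸ hj) hp hb)
        (fiber_le_two q hun hself hjl.symm ?_ hp hb)
      rw [pair_comm, ← hj]
  · refine ⟨fun p => ∑ j ∈ K, 4 * (1 / 2) ^ K.card * uu q j p,
      ∑ j ∈ K, 4 * (1 / 2) ^ K.card * (1 / 2), MV.sum K fun j _ => (MV_uu q j (hirr j)).const_mul _,
      ?_, fun p hp hb => ?_⟩
    · rw [sum_const, nsmul_eq_mul]
      have h1 : ∀ k : ℕ, 3 ≤ k → 8 * (k : ℝ) ≤ 3 * 2 ^ k := by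
        intro k hk
        induction k, hk using Nat.le_induction with
        | base => norm_num
        | succ k hk ih =>
          have : (3 : ℝ) ≤ k := by exact_mod_cast hk
          push_cast
          rw [pow_succ]
          linarith
      have h2 := h1 K.card hge
      have h3 : (0 : ℝ) < 2 ^ K.card := by positivity
      rw [one_div, inv_pow]
      rw [show (K.card : ℝ) * (4 * (2 ^ K.card)⁻¹ * 2⁻¹) = (2 * K.card) / 2 ^ K.card by
        field_simp; ring]
      rw [div_le_div_iff₀ h3 (by norm_num)]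
      linarith
    · rw [hsum]
      exact sum_le_sum fun j hj => fiber_le q hun hself hj hp hb

end Stoll308
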