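import Mathlib
import Pool.Agent.Work.MP_308fa9_nt.Wt
import Pool.Agent.Work.MP_308fa9_nt.Tuples
import Pool.Agent.Work.MP_308fa9_nt.Linked
import Pool.Agent.Work.MP_308fa9_nt.HT

/-! The descent condition expanded into a character sum over tuples. -/

set_option autoImplicit false

namespace Stoll308

open Finset NumberTheorySymbols Tuples Linked

variable {r : ℕ} (q : Forms r) (ψ : Fin r → ℕ → ℤ)

/-- squarefree numbers all of whose prime factors are good -/
def GoodN (n : ℕ) : Prop := Squarefree n ∧ ∀ p ∈ n.primeFactors, ¬ (p : ℤ) ∣ q.bad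

open Classical in
/-- the multiplicative coefficients -/
noncomputable def al (v : VV r) (m : ℕ) : ℝ :=
  if GoodN q m then ∏ p ∈ m.primeFactors, (wt q v p * ∏ i ∈ v.2, (ψ i (p % q.Q) : ℝ)) else 0

/-- the symbols between the variables -/
noncomputable def ka (v u : VV r) (m n : ℕ) : ℝ :=
  if Nat.Coprime m n then (if u.1 ∈ v.2 then (J((m : ℤ) | n) : ℝ) else 1) else 0

lemma GoodN.dvd {q : Forms r} {m n : ℕ} (h : GoodN q n) (hmn : m ∣ n) : GoodN q m :=
  ⟨h.1.squarefree_of_dvd hmn, fun p hp => h.2 p (Nat.primeFactors_mono hmn h.1.ne_zero hp)⟩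

lemma jacobi_prod_right {ι : Type*} (s : Finset ι) (a : ℤ) (f : ι → ℕ) (hf : ∀ i ∈ s, f i ≠ 0) :
    J(a | ∏ i ∈ s, f i) = ∏ i ∈ s, J(a | f i) := by
  classical
  induction s using Finset.induction_on with
  | empty => simp
  | insert x s hx ih =>
    have h1 : f x ≠ 0 := hf x (mem_insert_self _ _)
    have h2 : ∏ i ∈ s, f i ≠ 0 := prod_ne_zero_iff.2 fun i hi => hf i (mem_insert_of_mem hi)
    rw [prod_insert hx, prod_insert hx, jacobiSym.mul_right' a h1 h2,
      ih fun i hi => hf i (mem_insert_of_mem hi)]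

lemma jacobi_prod_left {ι : Type*} (s : Finset ι) (f : ι → ℤ) (b : ℕ) :
    J(∏ i ∈ s, f i | b) = ∏ i ∈ s, J(f i | b) := by
  classical
  induction s using Finset.induction_on with
  | empty => simp
  | insert x s hx ih => rw [prod_insert hx, prod_insert hx, jacobiSym.mul_left, ih]

section colour

variable {q ψ} {n : ℕ} (hn : GoodN q n) (c : n.primeFactors → VV r)

omit q in
lemma jac_D (p : ℕ) (i : Fin r) :
    J((p : ℤ) | ∏ p' : n.primeFactors, if (c p').1 = i then (p' : ℕ) else 1) =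
      ∏ u ∈ univ.filter (fun u : VV r => u.1 = i), J((p : ℤ) | ev n.primeFactors c u) := by
  have hP : ∀ p ∈ n.primeFactors, p.Prime := fun p hp => Nat.prime_of_mem_primeFactors hp
  rw [← jacobi_prod_right _ _ _ fun u _ => (ev_pos hP c u).ne']
  congr 1
  unfold ev
  rw [prod_comm]
  refine prod_congr rfl fun p' _ => ?_
  rw [prod_ite_eq]
  simp

include hn

lemma ev_dvd (v : VV r) : ev n.primeFactors c v ∣ n := by
  have : ev n.primeFactors c v ∣ ∏ u, ev n.primeFactors c u := dvd_prod_of_mem _ (mem_univ v)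
  rwa [prod_ev, Nat.prod_primeFactors_of_squarefree hn.1] at this

lemma ev_coprime {v u : VV r} (h : v ≠ u) :
    Nat.Coprime (ev n.primeFactors c v) (ev n.primeFactors c u) := by
  have hP : ∀ p ∈ n.primeFactors, p.Prime := fun p hp => Nat.prime_of_mem_primeFactors hp
  rw [← Nat.disjoint_primeFactors (ev_pos hP c v).ne' (ev_pos hP c u).ne']
  rw [disjoint_left]
  intro p hp hp'
  have hpn : p ∈ n.primeFactors := Nat.primeFactors_mono (ev_dvd hn c v) hn.1.ne_zero hp
  have h1 := (dvd_ev_iff hP c v ⟨p, hpn⟩).1 (Nat.dvd_of_mem_primeFactors hp)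
  have h2 := (dvd_ev_iff hP c u ⟨p, hpn⟩).1 (Nat.dvd_of_mem_primeFactors hp')
  exact h (h1.symm.trans h2)

lemma prod_eq_FF :
    ∏ p : n.primeFactors, (wt q (c p) p * ∏ i ∈ (c p).2, ((ψ i ((p : ℕ) % q.Q) : ℝ) *
      (J(((p : ℕ) : ℤ) | ∏ p' : n.primeFactors, if (c p').1 = i then (p' : ℕ) else 1) : ℝ))) =
      FF (al q ψ) ka (ev n.primeFactors c) := by
  classical
  have hP : ∀ p ∈ n.primeFactors, p.Prime := fun p hp => Nat.prime_of_mem_primeFactors hp
  by_cases hself : ∃ p : n.primeFactors, (c p).1 ∈ (c p).2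
  · obtain ⟨p, hp⟩ := hself
    have h1 : wt q (c p) p = 0 := by unfold wt; rw [if_pos hp]
    rw [prod_eq_zero (mem_univ p) (by rw [h1, zero_mul])]
    unfold FF
    have h2 : al q ψ (c p) (ev n.primeFactors c (c p)) = 0 := by
      unfold al
      rw [if_pos (hn.dvd (ev_dvd hn c _))]
      refine prod_eq_zero (i := (p : ℕ)) ?_ (by rw [h1, zero_mul])
      rw [Nat.mem_primeFactors]
      exact ⟨hP p p.2, (dvd_ev_iff hP c (c p) p).2 rfl, (ev_pos hP c _).ne'⟩
    rw [prod_eq_zero (f := fun v => al q ψ v (ev n.primeFactors c v)) (mem_univ (c p)) h2, zero_mul]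
  · push Not at hself
    have h1 : ∀ p : n.primeFactors, (wt q (c p) p * ∏ i ∈ (c p).2, ((ψ i ((p : ℕ) % q.Q) : ℝ) *
      (J(((p : ℕ) : ℤ) | ∏ p' : n.primeFactors, if (c p').1 = i then (p' : ℕ) else 1) : ℝ))) =
      (fun (v : VV r) (p : ℕ) => wt q v p * ∏ i ∈ v.2, (ψ i (p % q.Q) : ℝ)) (c p) p *
      (fun (v : VV r) (p : ℕ) => ∏ u : VV r, if u.1 ∈ v.2 then
        (J((p : ℤ) | ev n.primeFactors c u) : ℝ) else 1) (c p) p := by
      intro p
      beta_reduce
      rw [prod_mul_distrib, mul_assoc]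
      congr 2
      have h2 : ∀ i, ((J(((p : ℕ) : ℤ) | ∏ p' : n.primeFactors, if (c p').1 = i then (p' : ℕ) else 1) : ℤ) : ℝ) =
          ∏ u ∈ univ.filter (fun u : VV r => u.1 = i), (J(((p : ℕ) : ℤ) | ev n.primeFactors c u) : ℝ) := by
        intro i
        rw [jac_D]
        push_cast
        rfl
      rw [prod_congr rfl fun i _ => h2 i, ← prod_filter]
      rw [← prod_fiberwise_of_maps_to (s := univ.filter (fun u : VV r => u.1 ∈ (c p).2)) (t := (c p).2)
        (g := fun u => u.1) (fun u hu => (mem_filter.1 hu).2)]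
      refine prod_congr rfl fun i hi => ?_
      refine prod_congr ?_ fun _ _ => rfl
      ext u
      rw [mem_filter, mem_filter, mem_filter]
      constructor
      · rintro ⟨h1, h2⟩
        exact ⟨⟨h1, h2 ▸ hi⟩, h2⟩
      · rintro ⟨⟨h1, _⟩, h2⟩
        exact ⟨h1, h2⟩
    rw [prod_congr rfl fun p _ => h1 p, prod_mul_distrib]
    rw [prod_colour hP c (fun (v : VV r) (p : ℕ) => wt q v p * ∏ i ∈ v.2, (ψ i (p % q.Q) : ℝ)),
      prod_colour hP c (fun (v : VV r) (p : ℕ) => ∏ u : VV r, if u.1 ∈ v.2 then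
        (J((p : ℤ) | ev n.primeFactors c u) : ℝ) else 1)]
    unfold FF
    congr 1
    · refine prod_congr rfl fun v _ => ?_
      unfold al
      rw [if_pos (hn.dvd (ev_dvd hn c _))]
    · refine prod_congr rfl fun v _ => ?_
      rw [prod_comm]
      have h3 : ∀ u : VV r, (∏ p ∈ (ev n.primeFactors c v).primeFactors, if u.1 ∈ v.2 then
          (J((p : ℤ) | ev n.primeFactors c u) : ℝ) else 1) =
          if u.1 ∈ v.2 then (J((ev n.primeFactors c v : ℤ) | ev n.primeFactors c u) : ℝ) else 1 := by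
        intro u
        split_ifs
        · have h4 : ((ev n.primeFactors c v : ℕ) : ℤ) =
              ∏ p ∈ (ev n.primeFactors c v).primeFactors, (p : ℤ) := by
            conv_lhs => rw [← Nat.prod_primeFactors_of_squarefree (hn.dvd (ev_dvd hn c v)).1]
            push_cast
            rfl
          conv_rhs => rw [h4, jacobi_prod_left]
          push_cast
          rfl
        · exact prod_const_one
      rw [prod_congr rfl fun u _ => h3 u]
      rw [← mul_prod_erase univ _ (mem_univ v)]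
      have h5 : (if v.1 ∈ v.2 then (J((ev n.primeFactors c v : ℤ) | ev n.primeFactors c v) : ℝ) else 1) = 1 := by
        split_ifs with h
        · have h6 : ev n.primeFactors c v = 1 := by
            unfold ev
            refine prod_eq_one fun p _ => ?_
            rw [if_neg]
            rintro rfl
            exact hself p h
          rw [h6]
          simp
        · rfl
      rw [h5, one_mul]
      refine prod_congr rfl fun u hu => ?_
      unfold ka
      rw [if_pos (ev_coprime hn c (ne_of_mem_erase hu).symm)]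

end colour

/-- the symbols in the descent condition -/
noncomputable def eps {n : ℕ} (j : n.primeFactors → Fin r) (p : n.primeFactors) (i : Fin r) : ℝ :=
  (ψ i ((p : ℕ) % q.Q) : ℝ) *
    (J(((p : ℕ) : ℤ) | ∏ p' : n.primeFactors, if j p' = i then (p' : ℕ) else 1) : ℝ)

/-- the sum over all choices of the indices -/
noncomputable def SS (n : ℕ) : ℝ :=
  ∑ j : n.primeFactors → Fin r, ∏ p : n.primeFactors,
    ∑ T : Finset (Fin r), wt q (j p, T) p * ∏ i ∈ T, eps q ψ j p i

lemma SS_eq {n : ℕ} (hn : GoodN q n) : SS q ψ n = ∑ e ∈ tup (VV r) n, FF (al q ψ) ka e := by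
  classical
  rw [← sum_colourings hn.1]
  unfold SS
  have h1 : ∀ j : n.primeFactors → Fin r, ∏ p : n.primeFactors,
      ∑ T : Finset (Fin r), wt q (j p, T) p * ∏ i ∈ T, eps q ψ j p i =
      ∑ T : n.primeFactors → Finset (Fin r), ∏ p : n.primeFactors,
        (wt q (j p, T p) p * ∏ i ∈ T p, eps q ψ j p i) := by
    intro j
    rw [prod_univ_sum]
    refine sum_congr ?_ fun _ _ => rfl
    ext c; simp
  rw [sum_congr rfl fun j _ => h1 j, ← Fintype.sum_prod_type']
  rw [← Equiv.sum_comp (Equiv.arrowProdEquivProdArrow _ (fun _ => Fin r) (fun _ => Finset (Fin r)))]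
  refine sum_congr rfl fun c _ => ?_
  rw [← prod_eq_FF hn c]
  rfl

variable {ψ}

lemma abs_eps_le (hψ : ∀ i n, ψ i n = 1 ∨ ψ i n = -1) {n : ℕ} (j : n.primeFactors → Fin r)
    (p : n.primeFactors) (i : Fin r) : |eps q ψ j p i| ≤ 1 := by
  unfold eps
  rw [abs_mul]
  have h1 : |(ψ i ((p : ℕ) % q.Q) : ℝ)| = 1 := by
    rcases hψ i ((p : ℕ) % q.Q) with h | h <;> rw [h] <;> simp
  rw [h1, one_mul]
  rcases jacobiSym.trichotomy ((p : ℕ) : ℤ)
    (∏ p' : n.primeFactors, if j p' = i then (p' : ℕ) else 1) with h | h | h <;> rw [h] <;> simp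

lemma SS_nonneg (hψ : ∀ i n, ψ i n = 1 ∨ ψ i n = -1) (n : ℕ) : 0 ≤ SS q ψ n :=
  sum_nonneg fun j _ => prod_nonneg fun p _ => sum_wt_nonneg q p (j p) (abs_eps_le q hψ j p)

open Classical in
/-- The descent condition for a good number and given signs `ψ`. -/
def DescN (ψ : Fin r → ℕ → ℤ) (n : ℕ) : Prop :=
  ∃ j : ℕ → Fin r, ∀ p ∈ n.primeFactors,
    ∃ θ : ZMod p, q.val (j p) θ 1 = 0 ∧ ∀ i, i ≠ j p →
      (if IsSquare (q.val i θ 1) then (1 : ℤ) else -1) =
        ψ i (p % q.Q) * jacobiSym p (∏ p' ∈ n.primeFactors.filter (fun p' => j p' = i), p')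

lemma one_le_SS (hψ : ∀ i n, ψ i n = 1 ∨ ψ i n = -1) {n : ℕ} (h : DescN q ψ n) :
    1 ≤ SS q ψ n := by
  classical
  obtain ⟨j, hj⟩ := h
  set j0 : n.primeFactors → Fin r := fun p => j p with hj0
  have h1 : 1 ≤ ∏ p : n.primeFactors,
      ∑ T : Finset (Fin r), wt q (j0 p, T) p * ∏ i ∈ T, eps q ψ j0 p i := by
    have h2 : ∀ p : n.primeFactors, 1 ≤
        ∑ T : Finset (Fin r), wt q (j0 p, T) p * ∏ i ∈ T, eps q ψ j0 p i := by
      intro p
      obtain ⟨θ, hθ, hi⟩ := hj p p.2
      refine one_le_sum_wt q p (j0 p) (abs_eps_le q hψ j0 p) (a := patOf q p (j0 p) θ)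
        ((mem_pat q (Nat.prime_of_mem_primeFactors p.2)).2 ⟨θ, hθ, rfl⟩) fun i hne => ?_
      have h3 := hi i hne
      have h4 : patOf q p (j0 p) θ i =
          ψ i ((p : ℕ) % q.Q) * jacobiSym (p : ℕ) (∏ p' ∈ n.primeFactors.filter (fun p' => j p' = i), p') := by
        rw [← h3]
        unfold patOf
        rw [if_neg hne]
      have h5 : eps q ψ j0 p i = ((patOf q p (j0 p) θ i : ℤ) : ℝ) := by
        rw [h4]
        unfold eps
        push_cast
        congr 3
        rw [prod_filter]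
        exact prod_coe_sort n.primeFactors (fun p' => if j p' = i then p' else 1)
      rw [h5]
      rcases patOf_sign q p (j0 p) θ i with h | h <;> rw [h] <;> norm_num
    calc (1 : ℝ) = ∏ _p : n.primeFactors, (1 : ℝ) := by rw [prod_const_one]
      _ ≤ _ := prod_le_prod (fun _ _ => zero_le_one) fun p _ => h2 p
  refine h1.trans ?_
  unfold SS
  exact single_le_sum (f := fun j : n.primeFactors → Fin r => ∏ p : n.primeFactors,
    ∑ T : Finset (Fin r), wt q (j p, T) p * ∏ i ∈ T, eps q ψ j p i)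
    (fun j _ => prod_nonneg fun p _ => sum_wt_nonneg q p (j p) (abs_eps_le q hψ j p)) (mem_univ j0)

variable (ψ)

lemma good_of_FF {e : VV r → ℕ} (h : FF (al q ψ) ka e ≠ 0) : GoodN q (∏ v, e v) := by
  unfold FF at h
  have h1 : ∀ v, GoodN q (e v) := by
    intro v
    by_contra hv
    apply h
    rw [prod_eq_zero (mem_univ v), zero_mul]
    unfold al
    rw [if_neg hv]
  have h2 : ∀ v u, v ≠ u → Nat.Coprime (e v) (e u) := by
    intro v u hvu
    by_contra hc
    apply h
    rw [prod_eq_zero (s := univ) (f := fun v => ∏ u ∈ univ.erase v, ka v u (e v) (e u)) (mem_univ v),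
      mul_zero]
    refine prod_eq_zero (mem_erase.2 ⟨hvu.symm, mem_univ u⟩) ?_
    unfold ka
    rw [if_neg hc]
  refine ⟨?_, ?_⟩
  · refine Finset.squarefree_prod_of_pairwise_isCoprime (fun v _ u _ hvu => ?_) fun v _ => (h1 v).1
    exact Nat.coprime_iff_isRelPrime.1 (h2 v u hvu)
  · intro p hp
    rw [Nat.mem_primeFactors] at hp
    obtain ⟨v, _, hv⟩ := (Prime.dvd_finsetProd_iff hp.1.prime e).1 hp.2.1
    exact (h1 v).2 p (Nat.mem_primeFactors.2 ⟨hp.1, hv, (h1 v).1.ne_zero⟩)

lemma mem_TX {X : ℕ} {e : VV r → ℕ} : e ∈ TX (VV r) X ↔ (∀ v, 1 ≤ e v) ∧ ∏ v, e v ≤ X := by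
  unfold TX
  rw [mem_filter, Fintype.mem_piFinset]
  constructor
  · rintro ⟨h1, h2⟩
    exact ⟨fun v => (mem_Icc.1 (h1 v)).1, h2⟩
  · rintro ⟨h1, h2⟩
    refine ⟨fun v => mem_Icc.2 ⟨h1 v, le_trans ?_ h2⟩, h2⟩
    exact Nat.le_of_dvd (prod_pos fun v _ => h1 v) (dvd_prod_of_mem e (mem_univ v))

lemma sum_TX (X : ℕ) (F : (VV r → ℕ) → ℝ) :
    ∑ e ∈ TX (VV r) X, F e = ∑ n ∈ Icc 1 X, ∑ e ∈ tup (VV r) n, F e := by
  classical
  rw [← sum_fiberwise_of_maps_to (s := TX (VV r) X) (t := Icc 1 X) (g := fun e => ∏ v, e v)]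
  · refine sum_congr rfl fun n hn => sum_congr ?_ fun _ _ => rfl
    have hn' := mem_Icc.1 hn
    ext e
    rw [mem_filter, mem_TX, mem_tup (by omega)]
    constructor
    · rintro ⟨_, h⟩; exact h
    · intro h
      refine ⟨⟨fun v => ?_, by omega⟩, h⟩
      rcases Nat.eq_zero_or_pos (e v) with h0 | h0
      · rw [prod_eq_zero (mem_univ v) h0] at h
        omega
      · exact h0
  · intro e he
    rw [mem_TX] at he
    exact mem_Icc.2 ⟨Nat.succ_le_of_lt (prod_pos fun v _ => he.1 v), he.2⟩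

open Classical in
/-- **The count of the numbers satisfying the descent condition is at most the character sum.** -/
theorem card_le_sum (hψ : ∀ i n, ψ i n = 1 ∨ ψ i n = -1) (X : ℕ) :
    (((Icc 1 X).filter (fun n => GoodN q n ∧ DescN q ψ n)).card : ℝ) ≤
      ∑ e ∈ TX (VV r) X, FF (al q ψ) ka e := by
  rw [sum_TX]
  have h1 : ∀ n ∈ Icc 1 X, (if GoodN q n ∧ DescN q ψ n then (1 : ℝ) else 0) ≤
      ∑ e ∈ tup (VV r) n, FF (al q ψ) ka e := by
    intro n hn
    have hn' := mem_Icc.1 hn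
    by_cases hg : GoodN q n
    · rw [← SS_eq q ψ hg]
      split_ifs with h
      · exact one_le_SS q hψ h.2
      · exact SS_nonneg q hψ n
    · rw [if_neg (fun h => hg h.1)]
      refine le_of_eq (Eq.symm (sum_eq_zero fun e he => ?_))
      rw [mem_tup (by omega)] at he
      by_contra hne
      exact hg (he ▸ good_of_FF q ψ hne)
  rw [card_filter]
  push_cast
  exact sum_le_sum h1

end Stoll308
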