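import Mathlib
import Pool.Agent.Work.MP_308fa9_nt.Expand

/-! The bound for the character sum. -/

set_option autoImplicit false

namespace Stoll308

open Finset NumberTheorySymbols Tuples Linked HT MeanSum
open Pool.Agent.Work.MP_2b9663_nt (MV BD)

section split

set_option linter.unusedSectionVars false

variable {V : Type} [Fintype V] [DecidableEq V]

/-- thresholds -/
noncomputable def thr (a : V → ℕ → ℝ) (z : ℕ) (L : Finset V) (v : V) (m : ℕ) : ℝ :=
  if v ∈ L then (if z < m then a v m else 0) else (if z < m then 0 else a v m)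

lemma abs_thr_le (a : V → ℕ → ℝ) (z : ℕ) (L : Finset V) (v : V) (m : ℕ) :
    |thr a z L v m| ≤ |a v m| := by
  unfold thr
  split_ifs <;> simp

lemma FF_split (a : V → ℕ → ℝ) (κ : V → V → ℕ → ℕ → ℝ) (z : ℕ) (e : V → ℕ) :
    FF a κ e = ∑ L : Finset V, FF (thr a z L) κ e := by
  rw [sum_eq_single (univ.filter (fun v => z < e v))]
  · unfold FF
    congr 1
    refine prod_congr rfl fun v _ => ?_
    unfold thr
    by_cases h : z < e v <;> simp [h]
  · intro L _ hne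
    have : ∃ v, ¬ (v ∈ L ↔ z < e v) := by
      by_contra hcon
      push Not at hcon
      apply hne
      ext v
      rw [mem_filter]
      simp [hcon v]
    obtain ⟨v, hv⟩ := this
    unfold FF
    rw [prod_eq_zero (mem_univ v), zero_mul]
    unfold thr
    by_cases h : v ∈ L
    · have h2 : ¬ z < e v := fun h' => hv ⟨fun _ => h', fun _ => h⟩
      rw [if_pos h, if_neg h2]
    · have h2 : z < e v := by
        by_contra h'
        exact hv ⟨fun x => absurd x h, fun x => absurd x h'⟩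
      rw [if_neg h, if_pos h2]
  · intro h
    exact absurd (mem_univ _) h

end split

variable {r : ℕ} (q : Forms r) {ψ : Fin r → ℕ → ℤ}

lemma abs_wt_le (hr : 2 ≤ r) {p : ℕ} (hp : p.Prime) (hb : ¬ (p : ℤ) ∣ q.bad) (v : VV r) :
    |wt q v p| ≤ 1 := by
  unfold wt
  split_ifs
  · simp
  · rw [abs_mul, abs_of_nonneg (by positivity : (0 : ℝ) ≤ (1 / 2) ^ (r - 1))]
    have h1 : |∑ a ∈ pat q p v.1, ∏ i ∈ v.2, (a i : ℝ)| ≤ 2 := by
      refine (abs_sum_le_sum_abs _ _).trans ?_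
      rw [sum_congr rfl fun a ha => abs_prod_sign (pat_sign q ha) _]
      rw [sum_const, nsmul_eq_mul, mul_one]
      rcases pat_struct q hp hb v.1 with h | ⟨_, a, _, b, _, hab, -⟩
      · rw [h]; simp
      · exact_mod_cast card_le_two_of hab
    have h2 : (1 / 2 : ℝ) ^ (r - 1) ≤ (1 / 2) ^ 1 :=
      pow_le_pow_of_le_one (by norm_num) (by norm_num) (by omega)
    calc (1 / 2 : ℝ) ^ (r - 1) * |∑ a ∈ pat q p v.1, ∏ i ∈ v.2, (a i : ℝ)|
        ≤ (1 / 2) ^ 1 * 2 := mul_le_mul h2 h1 (abs_nonneg _) (by norm_num)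
      _ = 1 := by norm_num

lemma abs_al (hψ : ∀ i n, ψ i n = 1 ∨ ψ i n = -1) {m : ℕ} (hm : GoodN q m) (v : VV r) :
    |al q ψ v m| = ∏ p ∈ m.primeFactors, |wt q v p| := by
  unfold al
  rw [if_pos hm, abs_prod]
  refine prod_congr rfl fun p _ => ?_
  rw [abs_mul, abs_prod]
  have : ∏ i ∈ v.2, |(ψ i (p % q.Q) : ℝ)| = 1 := by
    refine prod_eq_one fun i _ => ?_
    rcases hψ i (p % q.Q) with h | h <;> rw [h] <;> simp
  rw [this, mul_one]

lemma abs_al_le (hr : 2 ≤ r) (hψ : ∀ i n, ψ i n = 1 ∨ ψ i n = -1) (v : VV r) (m : ℕ) :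
    |al q ψ v m| ≤ 1 := by
  by_cases hm : GoodN q m
  · rw [abs_al q hψ hm]
    refine prod_le_one (fun _ _ => abs_nonneg _) fun p hp => ?_
    exact abs_wt_le q hr (Nat.prime_of_mem_primeFactors hp) (hm.2 p hp) v
  · unfold al
    rw [if_neg hm]
    simp

lemma good_of_al {v : VV r} {m : ℕ} (h : al q ψ v m ≠ 0) : GoodN q m := by
  by_contra hm
  apply h
  unfold al
  rw [if_neg hm]

lemma GoodN.odd {m : ℕ} (h : GoodN q m) : Odd m := by
  rw [← Nat.not_even_iff_odd, even_iff_two_dvd]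
  intro h2
  have h3 := h.2 2 (Nat.mem_primeFactors.2 ⟨Nat.prime_two, h2, h.1.ne_zero⟩)
  apply h3
  unfold Forms.bad
  rw [mul_assoc, mul_assoc]
  exact Dvd.intro _ rfl

lemma abs_ka_le (v u : VV r) (m n : ℕ) : |ka v u m n| ≤ 1 := by
  unfold ka
  split_ifs
  · rcases jacobiSym.trichotomy (m : ℤ) n with h | h | h <;> rw [h] <;> simp
  · simp
  · simp

lemma ka_mul {v w : VV r} (h1 : w.1 ∈ v.2) (h2 : v.1 ∉ w.2) {m n : ℕ} (hn : 1 ≤ n) :
    ka v w m n * ka w v n m = ((J((m : ℤ) | n) : ℤ) : ℝ) := by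
  unfold ka
  by_cases h : Nat.Coprime m n
  · rw [if_pos h, if_pos h.symm, if_pos h1, if_neg h2, mul_one]
  · rw [if_neg h, zero_mul]
    have : J((m : ℤ) | n) = 0 := by
      rw [jacobiSym.eq_zero_iff]
      refine ⟨by omega, ?_⟩
      rw [Int.gcd_natCast_natCast]
      exact h
    rw [this]
    simp

/-- the primes factors of the weights over unlinked sets -/
noncomputable def gg (z : ℕ) (L : Finset (VV r)) (v : VV r) (p : ℕ) : ℝ :=
  open Classical in
  if ¬ (p : ℤ) ∣ q.bad ∧ (v ∈ L ∨ p ≤ z) then |wt q v p| else 0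

lemma gg_nonneg (z : ℕ) (L : Finset (VV r)) (v : VV r) (p : ℕ) : 0 ≤ gg q z L v p := by
  unfold gg
  split_ifs
  · exact abs_nonneg _
  · exact le_rfl

lemma gg_le_one (hr : 2 ≤ r) (z : ℕ) (L : Finset (VV r)) (v : VV r) {p : ℕ} (hp : p.Prime) :
    gg q z L v p ≤ 1 := by
  unfold gg
  split_ifs with h
  · exact abs_wt_le q hr hp h.1 v
  · exact zero_le_one

lemma abs_thr_al (hψ : ∀ i n, ψ i n = 1 ∨ ψ i n = -1) (z : ℕ) (L : Finset (VV r)) (v : VV r)
    {m : ℕ} (hm : GoodN q m) :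
    |thr (al q ψ) z L v m| ≤ ∏ p ∈ m.primeFactors, gg q z L v p := by
  have h0 : 0 ≤ ∏ p ∈ m.primeFactors, gg q z L v p := prod_nonneg fun p _ => gg_nonneg q z L v p
  by_cases hv : v ∈ L
  · refine (abs_thr_le _ _ _ _ _).trans ?_
    rw [abs_al q hψ hm]
    refine le_of_eq (prod_congr rfl fun p hp => ?_)
    unfold gg
    rw [if_pos ⟨hm.2 p hp, Or.inl hv⟩]
  · by_cases hz : z < m
    · unfold thr
      rw [if_neg hv, if_pos hz, abs_zero]
      exact h0
    · refine (abs_thr_le _ _ _ _ _).trans ?_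
      rw [abs_al q hψ hm]
      refine le_of_eq (prod_congr rfl fun p hp => ?_)
      have hpz : p ≤ z := (Nat.le_of_dvd (Nat.pos_of_ne_zero hm.1.ne_zero)
        (Nat.dvd_of_mem_primeFactors hp)).trans (not_lt.1 hz)
      unfold gg
      rw [if_pos ⟨hm.2 p hp, Or.inr hpz⟩]

/-- the trivial bound -/
lemma trivial_bound (hψ : ∀ i n, ψ i n = 1 ∨ ψ i n = -1) (z : ℕ) (L : Finset (VV r)) (X : ℕ) :
    |∑ e ∈ TX (VV r) X, FF (thr (al q ψ) z L) ka e| ≤
      ∑ n ∈ Icc 1 X, hf (fun p => ∑ v, gg q z L v p) n := by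
  classical
  refine (abs_sum_le_sum_abs _ _).trans ?_
  rw [sum_TX]
  refine sum_le_sum fun n hn => ?_
  have hn' := mem_Icc.1 hn
  have hnn : 0 ≤ hf (fun p => ∑ v, gg q z L v p) n :=
    hf_nonneg (fun p _ => sum_nonneg fun v _ => gg_nonneg q z L v p) n
  by_cases hg : GoodN q n
  · unfold hf
    rw [if_pos hg.1, prod_sum_eq_sum_tup hg.1]
    refine sum_le_sum fun e he => ?_
    rw [mem_tup hg.1.ne_zero] at he
    unfold FF
    rw [abs_mul]
    have h1 : |∏ v : VV r, ∏ u ∈ univ.erase v, ka v u (e v) (e u)| ≤ 1 :=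
      abs_prod_le_one _ fun v _ => abs_prod_le_one _ fun u _ => abs_ka_le _ _ _ _
    refine (mul_le_of_le_one_right (abs_nonneg _) h1).trans ?_
    rw [abs_prod]
    refine prod_le_prod (fun _ _ => abs_nonneg _) fun v _ => ?_
    exact abs_thr_al q hψ z L v (hg.dvd (he ▸ dvd_prod_of_mem e (mem_univ v)))
  · refine le_trans (le_of_eq (sum_eq_zero fun e he => ?_)) hnn
    rw [mem_tup (by omega)] at he
    rw [abs_eq_zero]
    by_contra hne
    have h2 : FF (al q ψ) ka e ≠ 0 := by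
      intro h3
      apply hne
      unfold FF at h3 ⊢
      rcases mul_eq_zero.1 h3 with h4 | h4
      · obtain ⟨v, hv, h5⟩ := prod_eq_zero_iff.1 h4
        rw [prod_eq_zero hv, zero_mul]
        have := abs_thr_le (al q ψ) z L v (e v)
        rw [h5, abs_zero] at this
        exact abs_eq_zero.1 (le_antisymm this (abs_nonneg _))
      · rw [h4, mul_zero]
    exact hg (he ▸ good_of_FF q ψ h2)

/-- if an index of `L` is self-linked the sum vanishes -/
lemma self_zero (z : ℕ) (hz : 1 ≤ z) (L : Finset (VV r)) {v : VV r} (hv : v ∈ L)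
    (hself : v.1 ∈ v.2) (e : VV r → ℕ) : FF (thr (al q ψ) z L) ka e = 0 := by
  unfold FF
  rw [prod_eq_zero (mem_univ v), zero_mul]
  unfold thr
  rw [if_pos hv]
  split_ifs with h
  · unfold al
    split_ifs with hg
    · obtain ⟨p, hp, hpd⟩ := Nat.exists_prime_and_dvd (show e v ≠ 1 by omega)
      refine prod_eq_zero (Nat.mem_primeFactors.2 ⟨hp, hpd, by omega⟩) ?_
      unfold wt
      rw [if_pos hself, zero_mul]
    · rfl
  · rfl

/-- the bound for linked sets -/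
lemma linked_case (hr : 2 ≤ r) : ∃ C : ℝ, 0 < C ∧ ∀ (ψ : Fin r → ℕ → ℤ),
    (∀ i n, ψ i n = 1 ∨ ψ i n = -1) → ∀ (X z : ℕ), 1 ≤ X → 1 ≤ z → ∀ L : Finset (VV r),
      ¬ Unlinked L → |∑ e ∈ TX (VV r) X, FF (thr (al q ψ) z L) ka e| ≤
        C * X * (z : ℝ) ^ (-(1 / 16) : ℝ) * (1 + Real.log X) ^ (33 + Fintype.card (VV r)) := by
  obtain ⟨C, hC, h⟩ := linked_bound
  refine ⟨C, hC, fun ψ hψ X z hX hz L hL => ?_⟩
  unfold Unlinked at hL
  push Not at hL
  obtain ⟨v, hv, u, hu, hvu, hh⟩ := hL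
  have key : ∃ v ∈ L, ∃ w ∈ L, v ≠ w ∧ w.1 ∈ v.2 ∧ v.1 ∉ w.2 := by
    rcases hh with ⟨h1, h2⟩ | ⟨h1, h2⟩
    · exact ⟨v, hv, u, hu, hvu, h1, h2⟩
    · exact ⟨u, hu, v, hv, hvu.symm, h2, h1⟩
  obtain ⟨v, hv, w, hw, hvw, h1, h2⟩ := key
  refine h (VV r) X z hX hz (thr (al q ψ) z L) ka v w hvw
    (fun x m => (abs_thr_le _ _ _ _ _).trans (abs_al_le q hr hψ x m))
    (fun x y m n => abs_ka_le x y m n) ?_ ?_ ?_ (fun m n _ hn => ka_mul h1 h2 hn)
  · intro x m hm
    have hg : GoodN q m := by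
      refine good_of_al q (ψ := ψ) (v := x) ?_
      intro h0
      have := abs_thr_le (al q ψ) z L x m
      rw [h0, abs_zero] at this
      exact hm (abs_eq_zero.1 (le_antisymm this (abs_nonneg _)))
    exact ⟨hg.odd, hg.1⟩
  · intro m hm
    by_contra hzm
    apply hm
    unfold thr
    rw [if_pos hv, if_neg hzm]
  · intro m hm
    by_contra hzm
    apply hm
    unfold thr
    rw [if_pos hw, if_neg hzm]

end Stoll308
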