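import Mathlib
import Pool.Agent.Work.MP_308fa9_nt.Bound

/-! The bound for the character sum, final form. -/

set_option autoImplicit false

namespace Stoll308

open Finset NumberTheorySymbols Tuples Linked HT MeanSum
open Pool.Agent.Work.MP_2b9663_nt (MV BD)

variable {r : ℕ} (q : Forms r)

lemma one_le_log {X : ℕ} (hX : 3 ≤ X) : 1 ≤ Real.log X := by
  have h1 : (3 : ℝ) ≤ X := by exact_mod_cast hX
  have : Real.log (Real.exp 1) ≤ Real.log X :=
    Real.log_le_log (Real.exp_pos 1) ((Real.exp_one_lt_d9.le.trans (by norm_num)).trans h1)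
  rwa [Real.log_exp] at this

lemma bad_ne_zero0 (ha : ∀ j, q.a j ≠ 0) (hd : ∀ j, q.disc j ≠ 0)
    (hcop : ∀ j k, j ≠ k → q.res j k ≠ 0) : q.bad ≠ 0 := by
  unfold Forms.bad
  refine mul_ne_zero (mul_ne_zero (mul_ne_zero two_ne_zero ?_) ?_) ?_
  · exact prod_ne_zero_iff.2 fun j _ => ha j
  · exact prod_ne_zero_iff.2 fun j _ => hd j
  · exact prod_ne_zero_iff.2 fun j _ => prod_ne_zero_iff.2 fun k hk =>
      hcop j k (ne_of_mem_erase hk).symm

lemma disc_ne_zero {j : Fin r} (h : ¬ IsSquare (q.disc j)) : q.disc j ≠ 0 := by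
  intro h0
  rw [h0] at h
  exact h ⟨0, by norm_num⟩

lemma a_ne_zero {j : Fin r} (h : ¬ IsSquare (q.disc j)) : q.a j ≠ 0 := by
  intro h0
  apply h
  unfold Forms.disc
  rw [h0]
  exact ⟨q.b j, by ring⟩

/-- the bound for unlinked sets -/
lemma unlinked_case (hr : 2 ≤ r) (hirr : ∀ j, ¬ IsSquare (q.disc j))
    (hcop : ∀ j k, j ≠ k → q.res j k ≠ 0) {L : Finset (VV r)} (hun : Unlinked L)
    (hself : ∀ v ∈ L, v.1 ∉ v.2) :
    ∃ C : ℝ, 0 < C ∧ ∀ X z : ℕ, 3 ≤ X → 3 ≤ z →
      ∑ n ∈ Icc 1 X, hf (fun p => ∑ v, gg q z L v p) n ≤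
        C * (X * Real.log X ^ (-(1 / 4) : ℝ)) * Real.log z ^ Fintype.card (VV r) := by
  classical
  obtain ⟨c, κ, hc, hκ, hle⟩ := exists_mean q hun hself hirr hcop
  obtain ⟨C1, hC1, h1⟩ := mv_sum hc
  obtain ⟨C2, hC2, h2⟩ := mv_sum (c := fun _ => 1) (κ := 1) MV.one
  have hbad : q.bad ≠ 0 := bad_ne_zero0 q (fun j => a_ne_zero q (hirr j))
    (fun j => disc_ne_zero q (hirr j)) hcop
  set K := Fintype.card (VV r) with hK
  set C0 : ℝ := ∑ p ∈ q.bad.natAbs.primeFactors, |c p| with hC0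
  refine ⟨(2 * K + 1) * Real.exp (C0 + C1 + K * C2), by positivity, fun X z hX hz => ?_⟩
  have hlX := one_le_log hX
  have hlz := one_le_log hz
  have hlX0 : 0 < Real.log X := by linarith
  have hlz0 : 0 < Real.log z := by linarith
  set H : ℕ → ℝ := fun p => ∑ v, gg q z L v p with hH
  have hH0 : ∀ p, p.Prime → 0 ≤ H p := fun p _ => sum_nonneg fun v _ => gg_nonneg q z L v p
  have hHK : ∀ p, p.Prime → H p ≤ K := by
    intro p hp
    calc H p ≤ ∑ v : VV r, (1 : ℝ) := sum_le_sum fun v _ => gg_le_one q hr z L v hp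
      _ = K := by rw [sum_const, card_univ, nsmul_eq_mul, mul_one]
  have h3 := sum_hf_le hH0 hHK (X := X) (by omega)
  have h4 : ∀ p ∈ PR X, H p / p ≤ c p / p + (if (p : ℤ) ∣ q.bad then |c p| else 0) / p +
      (if p ≤ z then (K : ℝ) else 0) / p := by
    intro p hp
    obtain ⟨hpp, _⟩ := mem_PR.1 hp
    rw [← add_div, ← add_div]
    refine div_le_div_of_nonneg_right ?_ (Nat.cast_nonneg p)
    by_cases hpz : p ≤ z
    · rw [if_pos hpz]
      have h5 : 0 ≤ c p + (if (p : ℤ) ∣ q.bad then |c p| else 0) := by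
        split_ifs with hpb
        · linarith [neg_abs_le (c p)]
        · rw [add_zero]
          exact (sum_nonneg fun v _ => abs_nonneg _).trans (hle p hpp hpb)
      linarith [hHK p hpp]
    · rw [if_neg hpz, add_zero]
      by_cases hpb : (p : ℤ) ∣ q.bad
      · rw [if_pos hpb]
        have h6 : H p = 0 := by
          rw [hH]
          refine sum_eq_zero fun v _ => ?_
          unfold gg
          rw [if_neg (fun h => h.1 hpb)]
        rw [h6]
        linarith [neg_abs_le (c p)]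
      · rw [if_neg hpb, add_zero]
        refine le_trans (le_of_eq ?_) (hle p hpp hpb)
        rw [hH]
        beta_reduce
        rw [← sum_filter_add_sum_filter_not univ (fun v => v ∈ L)]
        have e1 : ∑ v ∈ univ.filter (fun v => v ∉ L), gg q z L v p = 0 := by
          refine sum_eq_zero fun v hv => ?_
          unfold gg
          rw [if_neg]
          rintro ⟨_, h | h⟩
          · exact (mem_filter.1 hv).2 h
          · exact hpz h
        rw [e1, add_zero]
        have e2 : univ.filter (fun v => v ∈ L) = L := by ext v; simp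
        rw [e2]
        refine sum_congr rfl fun v hv => ?_
        unfold gg
        rw [if_pos ⟨hpb, Or.inl hv⟩]
  have h5 : ∑ p ∈ PR X, H p / p ≤ 3 / 4 * Real.log (Real.log X) + K * Real.log (Real.log z) +
      (C0 + C1 + K * C2) := by
    refine (sum_le_sum h4).trans ?_
    rw [sum_add_distrib, sum_add_distrib]
    have h6 : ∑ p ∈ PR X, c p / p ≤ 3 / 4 * Real.log (Real.log X) + C1 := by
      have := (abs_le.1 (h1 X hX)).2
      have h7 : κ * Real.log (Real.log X) ≤ 3 / 4 * Real.log (Real.log X) :=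
        mul_le_mul_of_nonneg_right hκ (Real.log_nonneg hlX)
      linarith
    have h7 : ∑ p ∈ PR X, (if (p : ℤ) ∣ q.bad then |c p| else 0) / (p : ℝ) ≤ C0 := by
      have e1 : ∑ p ∈ PR X, (if (p : ℤ) ∣ q.bad then |c p| else 0) / (p : ℝ) =
          ∑ p ∈ (PR X).filter (fun p : ℕ => (p : ℤ) ∣ q.bad), |c p| / (p : ℝ) := by
        conv_rhs => rw [sum_filter]
        refine sum_congr rfl fun p _ => ?_
        split_ifs
        · rfl
        · rw [zero_div]
      rw [e1]
      refine (sum_le_sum_of_subset_of_nonneg (t := q.bad.natAbs.primeFactors) ?_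
        fun _ _ _ => by positivity).trans (sum_le_sum fun p hp => ?_)
      · intro p hp
        obtain ⟨h8, h9⟩ := mem_filter.1 hp
        exact Nat.mem_primeFactors.2 ⟨(mem_PR.1 h8).1, Int.natCast_dvd.1 h9,
          Int.natAbs_ne_zero.2 hbad⟩
      · have : (1 : ℝ) ≤ p := by exact_mod_cast (Nat.prime_of_mem_primeFactors hp).one_le
        exact div_le_self (abs_nonneg _) this
    have h8 : ∑ p ∈ PR X, (if p ≤ z then (K : ℝ) else 0) / (p : ℝ) ≤
        K * Real.log (Real.log z) + K * C2 := by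
      have e1 : ∑ p ∈ PR X, (if p ≤ z then (K : ℝ) else 0) / (p : ℝ) =
          ∑ p ∈ (PR X).filter (fun p : ℕ => p ≤ z), (K : ℝ) * (1 / (p : ℝ)) := by
        conv_rhs => rw [sum_filter]
        refine sum_congr rfl fun p _ => ?_
        split_ifs
        · ring
        · rw [zero_div]
      rw [e1]
      have h9 := (abs_le.1 (h2 z hz)).2
      rw [one_mul] at h9
      calc ∑ p ∈ (PR X).filter (fun p : ℕ => p ≤ z), (K : ℝ) * (1 / (p : ℝ))
          ≤ ∑ p ∈ PR z, (K : ℝ) * (1 / (p : ℝ)) := by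
            refine sum_le_sum_of_subset_of_nonneg ?_ fun _ _ _ => by positivity
            intro p hp
            obtain ⟨h8, h9⟩ := mem_filter.1 hp
            exact mem_PR.2 ⟨(mem_PR.1 h8).1, h9⟩
        _ = K * ∑ p ∈ PR z, 1 / (p : ℝ) := by rw [mul_sum]
        _ ≤ K * (Real.log (Real.log z) + C2) :=
            mul_le_mul_of_nonneg_left (by linarith) (Nat.cast_nonneg K)
        _ = _ := by ring
    linarith
  have h6 : Real.exp (∑ p ∈ PR X, H p / p) ≤
      Real.log X ^ (3 / 4 : ℝ) * Real.log z ^ K * Real.exp (C0 + C1 + K * C2) := by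
    refine (Real.exp_le_exp.2 h5).trans (le_of_eq ?_)
    rw [Real.exp_add, Real.exp_add]
    congr 2
    · rw [Real.rpow_def_of_pos hlX0, mul_comm]
    · rw [Real.exp_nat_mul, Real.exp_log hlz0]
  refine h3.trans ((mul_le_mul_of_nonneg_left h6 (by positivity)).trans (le_of_eq ?_))
  have h7 : Real.log X ^ (-(1 / 4) : ℝ) = Real.log X ^ (3 / 4 : ℝ) / Real.log X := by
    rw [show (-(1 / 4) : ℝ) = 3 / 4 - 1 by norm_num, Real.rpow_sub hlX0, Real.rpow_one]
  rw [h7]
  ring

/-- **The bound for the character sum.** -/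
theorem sum_FF_le (hr : 2 ≤ r) (hirr : ∀ j, ¬ IsSquare (q.disc j))
    (hcop : ∀ j k, j ≠ k → q.res j k ≠ 0) {η : ℝ} (hη : 0 < η) :
    ∃ C : ℝ, 0 < C ∧ ∀ (ψ : Fin r → ℕ → ℤ), (∀ i n, ψ i n = 1 ∨ ψ i n = -1) →
      ∀ X : ℕ, 3 ≤ X → ∑ e ∈ TX (VV r) X, FF (al q ψ) ka e ≤
        C * (X * Real.log X ^ (-(1 / 4) + η : ℝ)) := by
  classical
  obtain ⟨Cl, hCl, hlink⟩ := linked_case q hr
  have hex : ∀ L : Finset (VV r), ∃ C : ℝ, 0 < C ∧ (Unlinked L → (∀ v ∈ L, v.1 ∉ v.2) →
      ∀ X z : ℕ, 3 ≤ X → 3 ≤ z → ∑ n ∈ Icc 1 X, hf (fun p => ∑ v, gg q z L v p) n ≤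
        C * (X * Real.log X ^ (-(1 / 4) : ℝ)) * Real.log z ^ Fintype.card (VV r)) := by
    intro L
    by_cases h : Unlinked L ∧ ∀ v ∈ L, v.1 ∉ v.2
    · obtain ⟨C, hC, h'⟩ := unlinked_case q hr hirr hcop h.1 h.2
      exact ⟨C, hC, fun _ _ => h'⟩
    · exact ⟨1, one_pos, fun h1 h2 => absurd ⟨h1, h2⟩ h⟩
  choose CL hCL hunl using hex
  set K := Fintype.card (VV r) with hK
  set B : ℕ := 16 * (34 + K) with hB
  have hK0 : (0 : ℝ) < K := by
    have : 0 < K := by
      rw [hK]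
      have : Nonempty (VV r) := ⟨(⟨0, by omega⟩, ∅)⟩
      exact Fintype.card_pos
    exact_mod_cast this
  set δ : ℝ := η / K with hδ
  have hδ0 : 0 < δ := div_pos hη hK0
  refine ⟨∑ L : Finset (VV r), (Cl * 2 ^ (33 + K) + CL L * (2 + B / δ) ^ K), ?_,
    fun ψ hψ X hX => ?_⟩
  · refine sum_pos (fun L _ => ?_) univ_nonempty
    have := hCL L
    positivity
  have hlX := one_le_log hX
  set l := Real.log X with hl
  have hl0 : 0 < l := by linarith
  set z : ℕ := ⌊l ^ B⌋₊ + 2 with hz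
  have hlB : 1 ≤ l ^ B := one_le_pow₀ hlX
  have hz3 : 3 ≤ z := by
    have : 1 ≤ ⌊l ^ B⌋₊ := by rwa [Nat.one_le_floor_iff]
    omega
  have hzl : l ^ B ≤ z := by
    rw [hz]
    push_cast
    linarith [(Nat.lt_floor_add_one (l ^ B)).le]
  have hzu : (z : ℝ) ≤ 3 * l ^ B := by
    rw [hz]
    push_cast
    linarith [Nat.floor_le (show 0 ≤ l ^ B by positivity)]
  have hz0 : (0 : ℝ) < z := by linarith
  -- the linked part
  have hlpow : (z : ℝ) ^ (-(1 / 16) : ℝ) ≤ (l ^ (34 + K))⁻¹ := by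
    have h1 : (z : ℝ) ^ (-(1 / 16) : ℝ) ≤ (l ^ B) ^ (-(1 / 16) : ℝ) :=
      Real.rpow_le_rpow_of_nonpos (by positivity) hzl (by norm_num)
    refine h1.trans (le_of_eq ?_)
    rw [← Real.rpow_natCast, ← Real.rpow_mul hl0.le, ← Real.rpow_natCast, ← Real.rpow_neg hl0.le]
    congr 1
    rw [hB]
    push_cast
    ring
  have hl1 : 1 + l ≤ 2 * l := by linarith
  have hlinv : l⁻¹ ≤ l ^ (-(1 / 4) + η : ℝ) := by
    rw [← Real.rpow_neg_one]
    exact Real.rpow_le_rpow_of_exponent_le hlX (by linarith)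
  have hlinked : ∀ L : Finset (VV r), ¬ Unlinked L →
      |∑ e ∈ TX (VV r) X, FF (thr (al q ψ) z L) ka e| ≤
        Cl * 2 ^ (33 + K) * (X * l ^ (-(1 / 4) + η : ℝ)) := by
    intro L hL
    refine (hlink ψ hψ X z (by omega) (by omega) L hL).trans ?_
    calc Cl * X * (z : ℝ) ^ (-(1 / 16) : ℝ) * (1 + l) ^ (33 + K)
        ≤ Cl * X * (l ^ (34 + K))⁻¹ * (2 * l) ^ (33 + K) := by gcongr
      _ = Cl * 2 ^ (33 + K) * (X * l⁻¹) := by
          have : l ^ (34 + K) = l ^ (33 + K) * l := by rw [← pow_succ]; congr 1; omega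
          rw [this, mul_pow]
          field_simp
      _ ≤ _ := by gcongr
  -- the unlinked part
  have hlogz : Real.log z ≤ 2 + B * Real.log l := by
    have h1 : Real.log z ≤ Real.log (3 * l ^ B) := Real.log_le_log hz0 hzu
    rw [Real.log_mul (by norm_num) (by positivity), Real.log_pow] at h1
    have h2 : Real.log 3 ≤ 2 := by
      have := Real.log_le_sub_one_of_pos (show (0 : ℝ) < 3 by norm_num)
      linarith
    linarith
  have hlogl : Real.log l ≤ l ^ δ / δ := Real.log_le_rpow_div hl0.le hδ0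
  have hlδ : 1 ≤ l ^ δ := Real.one_le_rpow hlX hδ0.le
  have hlogz2 : Real.log z ≤ (2 + B / δ) * l ^ δ := by
    calc Real.log z ≤ 2 + B * Real.log l := hlogz
      _ ≤ 2 * l ^ δ + B * (l ^ δ / δ) := by
          refine add_le_add (by linarith) (mul_le_mul_of_nonneg_left hlogl (Nat.cast_nonneg B))
      _ = _ := by ring
  have hlogz3 : Real.log z ^ K ≤ (2 + B / δ) ^ K * l ^ η := by
    calc Real.log z ^ K ≤ ((2 + B / δ) * l ^ δ) ^ K :=
          pow_le_pow_left₀ (by linarith [one_le_log hz3]) hlogz2 K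
      _ = (2 + B / δ) ^ K * l ^ η := by
          rw [mul_pow, ← Real.rpow_natCast (l ^ δ), ← Real.rpow_mul hl0.le]
          congr 2
          rw [hδ]
          field_simp
  have hunlinked : ∀ L : Finset (VV r), Unlinked L → (∀ v ∈ L, v.1 ∉ v.2) →
      |∑ e ∈ TX (VV r) X, FF (thr (al q ψ) z L) ka e| ≤
        CL L * (2 + B / δ) ^ K * (X * l ^ (-(1 / 4) + η : ℝ)) := by
    intro L h1 h2
    refine (trivial_bound q hψ z L X).trans ((hunl L h1 h2 X z hX hz3).trans ?_)
    have := hCL L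
    calc CL L * (X * l ^ (-(1 / 4) : ℝ)) * Real.log z ^ K
        ≤ CL L * (X * l ^ (-(1 / 4) : ℝ)) * ((2 + B / δ) ^ K * l ^ η) := by gcongr
      _ = _ := by rw [Real.rpow_add hl0]; ring
  have hall : ∀ L : Finset (VV r), |∑ e ∈ TX (VV r) X, FF (thr (al q ψ) z L) ka e| ≤
      (Cl * 2 ^ (33 + K) + CL L * (2 + B / δ) ^ K) * (X * l ^ (-(1 / 4) + η : ℝ)) := by
    intro L
    have h1 : 0 ≤ Cl * 2 ^ (33 + K) * (X * l ^ (-(1 / 4) + η : ℝ)) := by positivity
    have h2 : 0 ≤ CL L * (2 + B / δ) ^ K * (X * l ^ (-(1 / 4) + η : ℝ)) := by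
      have := hCL L
      positivity
    rw [add_mul]
    by_cases hL : Unlinked L
    · by_cases hs : ∀ v ∈ L, v.1 ∉ v.2
      · linarith [hunlinked L hL hs]
      · push Not at hs
        obtain ⟨v, hv, hvv⟩ := hs
        rw [sum_eq_zero fun e _ => self_zero q z (by omega) L hv hvv e, abs_zero]
        linarith
    · linarith [hlinked L hL]
  calc ∑ e ∈ TX (VV r) X, FF (al q ψ) ka e
      = ∑ L : Finset (VV r), ∑ e ∈ TX (VV r) X, FF (thr (al q ψ) z L) ka e := by
        rw [sum_comm]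
        exact sum_congr rfl fun e _ => FF_split _ _ z e
    _ ≤ ∑ L : Finset (VV r), |∑ e ∈ TX (VV r) X, FF (thr (al q ψ) z L) ka e| :=
        sum_le_sum fun L _ => le_abs_self _
    _ ≤ ∑ L : Finset (VV r), (Cl * 2 ^ (33 + K) + CL L * (2 + B / δ) ^ K) *
        (X * l ^ (-(1 / 4) + η : ℝ)) := sum_le_sum fun L _ => hall L
    _ = _ := by rw [← sum_mul]

end Stoll308
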