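import Mathlib
import Pool.Agent.Work.MP_308fa9_nt.Local

set_option autoImplicit false

/-!
Local analysis of a point of `C_t` over `ℚ_p` at a good prime `p`.
-/

namespace Stoll308

open Finset PadicInt

variable {r : ℕ} {q : Forms r} {t : ℤ}

lemma val_smul {R : Type*} [CommRing R] (j : Fin r) (l x z : R) :
    q.val j (l * x) (l * z) = l ^ 2 * q.val j x z := by
  unfold Forms.val; ring

lemma map_val {R S : Type*} [CommRing R] [CommRing S] (f : R →+* S) (j : Fin r) (x z : R) :
    f (q.val j x z) = q.val j (f x) (f z) := by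
  unfold Forms.val; simp

/-- The resultant vanishes at a common zero. -/
lemma res_eq_zero {F : Type*} [Field F] {j k : Fin r} {x z : F} (hxz : x ≠ 0 ∨ z ≠ 0)
    (hj : q.val j x z = 0) (hk : q.val k x z = 0) : ((q.res j k : ℤ) : F) = 0 := by
  unfold Forms.val at hj hk
  unfold Forms.res
  push_cast
  set a := (q.a j : F)
  set b := (q.b j : F)
  set c := (q.c j : F)
  set a' := (q.a k : F)
  set b' := (q.b k : F)
  set c' := (q.c k : F)
  have h1 : z * ((a * b' - a' * b) * x + (a * c' - a' * c) * z) = 0 := by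
    linear_combination a * hk - a' * hj
  have h2 : x * ((a * c' - a' * c) * x + (b * c' - b' * c) * z) = 0 := by
    linear_combination c' * hj - c * hk
  by_cases hx : x = 0
  · have hz : z ≠ 0 := by tauto
    subst hx
    have h3 : (a * c' - a' * c) = 0 := by
      have : z ^ 2 * (a * c' - a' * c) = 0 := by linear_combination h1
      rcases mul_eq_zero.1 this with h | h
      · exact absurd (pow_eq_zero_iff two_ne_zero |>.1 h) hz
      · exact h
    have h4 : c = 0 := by
      have : z ^ 2 * c = 0 := by linear_combination hj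
      rcases mul_eq_zero.1 this with h | h
      · exact absurd (pow_eq_zero_iff two_ne_zero |>.1 h) hz
      · exact h
    have h5 : c' = 0 := by
      have : z ^ 2 * c' = 0 := by linear_combination hk
      rcases mul_eq_zero.1 this with h | h
      · exact absurd (pow_eq_zero_iff two_ne_zero |>.1 h) hz
      · exact h
    rw [h3, h4, h5]; ring
  · by_cases hz : z = 0
    · subst hz
      have h4 : a = 0 := by
        have : x ^ 2 * a = 0 := by linear_combination hj
        rcases mul_eq_zero.1 this with h | h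
        · exact absurd (pow_eq_zero_iff two_ne_zero |>.1 h) hx
        · exact h
      have h5 : a' = 0 := by
        have : x ^ 2 * a' = 0 := by linear_combination hk
        rcases mul_eq_zero.1 this with h | h
        · exact absurd (pow_eq_zero_iff two_ne_zero |>.1 h) hx
        · exact h
      rw [h4, h5]; ring
    · have h3 : (a * b' - a' * b) * x + (a * c' - a' * c) * z = 0 :=
        (mul_eq_zero.1 h1).resolve_left hz
      have h4 : (a * c' - a' * c) * x + (b * c' - b' * c) * z = 0 :=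
        (mul_eq_zero.1 h2).resolve_left hx
      have h5 : x * ((a * c' - a' * c) ^ 2 - (a * b' - a' * b) * (b * c' - b' * c)) = 0 := by
        linear_combination (a * c' - a' * c) * h4 - (b * c' - b' * c) * h3
      exact (mul_eq_zero.1 h5).resolve_left hx

section bad

lemma two_dvd_bad : (2 : ℤ) ∣ q.bad := by
  unfold Forms.bad
  rw [mul_assoc, mul_assoc]
  exact dvd_mul_right _ _

lemma a_dvd_bad (j : Fin r) : q.a j ∣ q.bad := by
  unfold Forms.bad
  apply Dvd.dvd.mul_right
  apply Dvd.dvd.mul_right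
  apply Dvd.dvd.mul_left
  exact Finset.dvd_prod_of_mem _ (mem_univ j)

lemma disc_dvd_bad (j : Fin r) : q.disc j ∣ q.bad := by
  unfold Forms.bad
  apply Dvd.dvd.mul_right
  apply Dvd.dvd.mul_left
  exact Finset.dvd_prod_of_mem _ (mem_univ j)

lemma res_dvd_bad {j k : Fin r} (h : j ≠ k) : q.res j k ∣ q.bad := by
  unfold Forms.bad
  apply Dvd.dvd.mul_left
  refine dvd_trans ?_ (Finset.dvd_prod_of_mem _ (mem_univ j))
  exact Finset.dvd_prod_of_mem _ (mem_erase.2 ⟨h.symm, mem_univ k⟩)

lemma bad_ne_zero (hirr : ∀ j, ¬ IsSquare (q.disc j)) (hcop : ∀ j k, j ≠ k → q.res j k ≠ 0) :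
    q.bad ≠ 0 := by
  unfold Forms.bad
  have h1 : ∏ j, q.a j ≠ 0 := by
    rw [prod_ne_zero_iff]
    intro j _ h0
    apply hirr j
    unfold Forms.disc
    rw [h0]
    exact ⟨q.b j, by ring⟩
  have h2 : ∏ j, q.disc j ≠ 0 := by
    rw [prod_ne_zero_iff]
    intro j _ h0
    apply hirr j
    rw [h0]
    exact ⟨0, by ring⟩
  have h3 : ∏ j, ∏ k ∈ univ.erase j, q.res j k ≠ 0 := by
    rw [prod_ne_zero_iff]
    intro j _
    rw [prod_ne_zero_iff]
    intro k hk
    exact hcop j k (mem_erase.1 hk).1.symm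
  positivity

end bad

section point

variable {p : ℕ} [hp : Fact p.Prime]

lemma exists_primitive {x z : ℚ_[p]} (h : x ≠ 0 ∨ z ≠ 0) : ∃ (l : ℚ_[p]) (x' z' : ℤ_[p]),
    l ≠ 0 ∧ x = l * x' ∧ z = l * z' ∧ (toZMod x' ≠ 0 ∨ toZMod z' ≠ 0) := by
  rcases le_total ‖z‖ ‖x‖ with hle | hle
  · have hx : x ≠ 0 := by
      rintro rfl
      have : z = 0 := by simpa using hle
      tauto
    have h1 : ‖z / x‖ ≤ 1 := by
      rw [norm_div]; exact div_le_one_of_le₀ hle (norm_nonneg _)
    refine ⟨x, 1, ⟨z / x, h1⟩, hx, by simp, ?_, Or.inl (by simp)⟩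
    change z = x * (z / x)
    field_simp
  · have hz : z ≠ 0 := by
      rintro rfl
      have : x = 0 := by simpa using hle
      tauto
    have h1 : ‖x / z‖ ≤ 1 := by
      rw [norm_div]; exact div_le_one_of_le₀ hle (norm_nonneg _)
    refine ⟨z, ⟨x / z, h1⟩, 1, hz, ?_, by simp, Or.inr (by simp)⟩
    change x = z * (x / z)
    field_simp

lemma coe_val (j : Fin r) (x z : ℤ_[p]) :
    ((q.val j x z : ℤ_[p]) : ℚ_[p]) = q.val j (x : ℚ_[p]) (z : ℚ_[p]) :=
  map_val (PadicInt.Coe.ringHom) j x z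

lemma coe_prod_int {ι : Type*} (s : Finset ι) (f : ι → ℤ_[p]) :
    ((∏ k ∈ s, f k : ℤ_[p]) : ℚ_[p]) = ∏ k ∈ s, (f k : ℚ_[p]) :=
  map_prod (PadicInt.Coe.ringHom) f s

/-- Up to squares the value of the `j`-th algebra is `t` times the product of the other forms. -/
lemma eval_eq_of_ne {F : Type*} [Field F] (P : q.Point t F) (j : Fin r)
    (h : ∀ k, k ≠ j → q.val k P.x P.z ≠ 0) (ht : (t : F) ≠ 0) :
    ∃ w : F, w ≠ 0 ∧ P.eval j = ((t : F) * ∏ k ∈ univ.erase j, q.val k P.x P.z) * w ^ 2 := by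
  classical
  unfold Forms.Point.eval
  have hne : ∏ k ∈ univ.erase j, q.val k P.x P.z ≠ 0 := by
    rw [prod_ne_zero_iff]
    intro k hk
    exact h k (mem_erase.1 hk).1
  have heq := P.eq
  rw [← mul_prod_erase univ _ (mem_univ j)] at heq
  split_ifs with h0
  · have hy : P.y ≠ 0 := by
      intro hy
      rw [hy] at heq
      have : q.val j P.x P.z * ∏ k ∈ univ.erase j, q.val k P.x P.z = 0 := by
        rw [← heq]; ring
      rcases mul_eq_zero.1 this with h | h
      · exact h0 h
      · exact hne h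
    refine ⟨P.y / ∏ k ∈ univ.erase j, q.val k P.x P.z, div_ne_zero hy hne, ?_⟩
    field_simp
    rw [heq]
  · exact ⟨1, one_ne_zero, by ring⟩

/-- Local analysis at a good prime not dividing `t`. -/
lemma local_unram (hbad : ¬ (p : ℤ) ∣ q.bad) (ht : ¬ (p : ℤ) ∣ t) (P : q.Point t ℚ_[p])
    (j : Fin r) : ∃ (e : ℤ_[p]) (w : ℚ_[p]), ‖e‖ = 1 ∧ w ≠ 0 ∧ P.eval j = e * w ^ 2 := by
  obtain ⟨l, x', z', hl, hx, hz, hprim⟩ := exists_primitive P.ne
  have hval : ∀ k, q.val k P.x P.z = l ^ 2 * ((q.val k x' z' : ℤ_[p]) : ℚ_[p]) := by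
    intro k
    rw [hx, hz, val_smul, coe_val]
  have htu : ‖(t : ℤ_[p])‖ = 1 := by
    rw [PadicInt.norm_intCast_eq_one_iff]
    exact (Int.isCoprime_iff_gcd_eq_one.2 (by
      rw [Int.gcd_comm]
      exact (Int.isCoprime_iff_gcd_eq_one.1
        ((Nat.prime_iff_prime_int.1 hp.out).coprime_iff_not_dvd.2 ht))))
  -- at most one value is not a unit
  by_cases hj : toZMod (q.val j x' z') = 0
  · have hothers : ∀ k, k ≠ j → ‖q.val k x' z'‖ = 1 := by
      intro k hk
      rw [norm_eq_one_iff_toZMod]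
      intro h0
      rw [map_val] at hj h0
      have := res_eq_zero hprim hj h0
      rw [ZMod.intCast_zmod_eq_zero_iff_dvd] at this
      exact hbad (this.trans (res_dvd_bad hk.symm))
    have hne : ∀ k, k ≠ j → q.val k P.x P.z ≠ 0 := by
      intro k hk
      rw [hval]
      refine mul_ne_zero (pow_ne_zero _ hl) ?_
      intro h0
      have := hothers k hk
      rw [PadicInt.norm_def, h0, norm_zero] at this
      exact zero_ne_one this
    obtain ⟨w, hw, hew⟩ := eval_eq_of_ne P j hne (by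
      intro h0
      rw [PadicInt.norm_def] at htu
      push_cast at htu
      rw [h0, norm_zero] at htu
      exact zero_ne_one htu)
    refine ⟨(t : ℤ_[p]) * ∏ k ∈ univ.erase j, q.val k x' z', l ^ ((univ.erase j).card) * w, ?_,
      mul_ne_zero (pow_ne_zero _ hl) hw, ?_⟩
    · rw [norm_mul, htu, one_mul, norm_prod]
      exact prod_eq_one fun k hk => hothers k (mem_erase.1 hk).1
    · rw [hew, prod_congr rfl fun k _ => hval k, prod_mul_distrib, prod_const]
      push_cast
      rw [coe_prod_int]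
      ring
  · have h1 : ‖q.val j x' z'‖ = 1 := norm_eq_one_iff_toZMod.2 hj
    refine ⟨q.val j x' z', l, h1, hl, ?_⟩
    have h2 : q.val j P.x P.z ≠ 0 := by
      rw [hval]
      refine mul_ne_zero (pow_ne_zero _ hl) ?_
      intro h0
      rw [PadicInt.norm_def, h0, norm_zero] at h1
      exact zero_ne_one h1
    unfold Forms.Point.eval
    rw [if_pos h2, hval]
    ring

/-- Local analysis at a good prime dividing `t`. -/
lemma local_ram (hbad : ¬ (p : ℤ) ∣ q.bad) (hsq : Squarefree t) (ht : (p : ℤ) ∣ t)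
    (P : q.Point t ℚ_[p]) :
    ∃ (j : Fin r) (θ : ZMod p), q.val j θ 1 = 0 ∧
      (∃ (e : ℤ_[p]) (w : ℚ_[p]), ‖e‖ = 1 ∧ w ≠ 0 ∧ P.eval j = (p : ℚ_[p]) * e * w ^ 2) ∧
      ∀ k, k ≠ j → ∃ (e : ℤ_[p]) (w : ℚ_[p]), ‖e‖ = 1 ∧ w ≠ 0 ∧ P.eval k = e * w ^ 2 ∧
        (IsSquare (toZMod e) ↔ IsSquare (q.val k θ 1)) := by
  obtain ⟨l, x', z', hl, hx, hz, hprim⟩ := exists_primitive P.ne
  have hval : ∀ k, q.val k P.x P.z = l ^ 2 * ((q.val k x' z' : ℤ_[p]) : ℚ_[p]) := by
    intro k
    rw [hx, hz, val_smul, coe_val]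
  obtain ⟨t', ht'⟩ := ht
  have ht'p : ¬ (p : ℤ) ∣ t' := by
    rintro ⟨s, hs⟩
    have : (p : ℤ) * p ∣ t := ⟨s, by rw [ht', hs]; ring⟩
    have h2 := hsq _ this
    exact (Nat.prime_iff_prime_int.1 hp.out).not_isUnit h2
  have ht'u : ‖(t' : ℤ_[p])‖ = 1 := by
    rw [PadicInt.norm_intCast_eq_one_iff]
    exact (Int.isCoprime_iff_gcd_eq_one.2 (by
      rw [Int.gcd_comm]
      exact (Int.isCoprime_iff_gcd_eq_one.1
        ((Nat.prime_iff_prime_int.1 hp.out).coprime_iff_not_dvd.2 ht'p))))
  have ht0 : (t : ℚ_[p]) ≠ 0 := by exact_mod_cast hsq.ne_zero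
  have htc : (t : ℚ_[p]) = (p : ℚ_[p]) * (t' : ℚ_[p]) := by
    have := congrArg (Int.cast : ℤ → ℚ_[p]) ht'
    push_cast at this
    exact this
  -- some value is not a unit
  obtain ⟨j, hj⟩ : ∃ j, toZMod (q.val j x' z') = 0 := by
    by_contra hcon
    push Not at hcon
    have h1 : ∀ j, ‖q.val j x' z'‖ = 1 := fun j => norm_eq_one_iff_toZMod.2 (hcon j)
    have h2 := P.eq
    rw [prod_congr rfl fun k _ => hval k, prod_mul_distrib, prod_const] at h2
    have h3 := congrArg norm h2
    rw [norm_mul, norm_mul, norm_pow, norm_pow, norm_pow, norm_prod,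
      prod_eq_one fun k _ => (show ‖((q.val k x' z' : ℤ_[p]) : ℚ_[p])‖ = 1 from h1 k), mul_one,
      htc] at h3
    rw [norm_mul, Padic.norm_p] at h3
    have h4 : ‖(t' : ℚ_[p])‖ = 1 := by
      have := ht'u
      rw [PadicInt.norm_def] at this
      push_cast at this
      exact this
    rw [h4, mul_one] at h3
    have hy : P.y ≠ 0 := by
      intro h0
      rw [h0, norm_zero] at h3
      have : (‖l‖ ^ 2) ^ (univ : Finset (Fin r)).card ≠ 0 :=
        pow_ne_zero _ (pow_ne_zero _ (norm_ne_zero_iff.2 hl))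
      apply this
      rw [← h3]; ring
    rw [Padic.norm_eq_zpow_neg_valuation hy, Padic.norm_eq_zpow_neg_valuation hl] at h3
    have hp1 : (1 : ℝ) < p := by exact_mod_cast hp.out.one_lt
    have hp0 : (p : ℝ) ≠ 0 := by positivity
    have h5 : (p : ℝ) ^ (-1 - 2 * P.y.valuation) =
        (p : ℝ) ^ (-2 * l.valuation * (univ : Finset (Fin r)).card) := by
      rw [show (-1 - 2 * P.y.valuation : ℤ) = -1 + (-P.y.valuation) * 2 by ring,
        zpow_add₀ hp0, zpow_mul, zpow_neg_one,
        show (-2 * l.valuation * (univ : Finset (Fin r)).card : ℤ) =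
          (-l.valuation) * 2 * (univ : Finset (Fin r)).card by ring, zpow_mul, zpow_mul]
      exact_mod_cast h3
    have h6 := zpow_right_injective₀ (by positivity) hp1.ne' h5
    have h7 : -1 - 2 * P.y.valuation = 2 * (-l.valuation * (univ : Finset (Fin r)).card) := by
      rw [h6]; ring
    omega
  have hothers : ∀ k, k ≠ j → ‖q.val k x' z'‖ = 1 := by
    intro k hk
    rw [norm_eq_one_iff_toZMod]
    intro h0
    rw [map_val] at hj h0
    have := res_eq_zero hprim hj h0
    rw [ZMod.intCast_zmod_eq_zero_iff_dvd] at this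
    exact hbad (this.trans (res_dvd_bad hk.symm))
  have hne : ∀ k, k ≠ j → q.val k P.x P.z ≠ 0 := by
    intro k hk
    rw [hval]
    refine mul_ne_zero (pow_ne_zero _ hl) ?_
    intro h0
    have := hothers k hk
    rw [PadicInt.norm_def, h0, norm_zero] at this
    exact zero_ne_one this
  have hz0 : toZMod z' ≠ 0 := by
    intro h0
    rw [map_val, h0] at hj
    have hx0 : toZMod x' ≠ 0 := by tauto
    unfold Forms.val at hj
    have h1 : ((q.a j : ℤ) : ZMod p) * (toZMod x') ^ 2 = 0 := by linear_combination hj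
    rcases mul_eq_zero.1 h1 with h | h
    · rw [ZMod.intCast_zmod_eq_zero_iff_dvd] at h
      exact hbad (h.trans (a_dvd_bad j))
    · exact hx0 (pow_eq_zero_iff two_ne_zero |>.1 h)
  have hθ : ∀ k, toZMod (q.val k x' z') = (toZMod z') ^ 2 * q.val k (toZMod x' / toZMod z') 1 := by
    intro k
    rw [map_val, ← val_smul]
    congr 1
    · field_simp
    · ring
  refine ⟨j, toZMod x' / toZMod z', ?_, ?_, ?_⟩
  · rw [hθ] at hj
    rcases mul_eq_zero.1 hj with h | h
    · exact absurd (pow_eq_zero_iff two_ne_zero |>.1 h) hz0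
    · exact h
  · obtain ⟨w, hw, hew⟩ := eval_eq_of_ne P j hne ht0
    refine ⟨(t' : ℤ_[p]) * ∏ k ∈ univ.erase j, q.val k x' z', l ^ ((univ.erase j).card) * w, ?_,
      mul_ne_zero (pow_ne_zero _ hl) hw, ?_⟩
    · rw [norm_mul, ht'u, one_mul, norm_prod]
      exact prod_eq_one fun k hk => hothers k (mem_erase.1 hk).1
    · rw [hew, prod_congr rfl fun k _ => hval k, prod_mul_distrib, prod_const, htc]
      push_cast
      rw [coe_prod_int]
      ring
  · intro k hk
    refine ⟨q.val k x' z', l, hothers k hk, hl, ?_, ?_⟩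
    · unfold Forms.Point.eval
      rw [if_pos (hne k hk), hval]
      ring
    · rw [hθ]
      constructor
      · rintro ⟨s, hs⟩
        refine ⟨s / toZMod z', ?_⟩
        field_simp
        linear_combination hs
      · rintro ⟨s, hs⟩
        exact ⟨toZMod z' * s, by rw [hs]; ring⟩

end point

end Stoll308
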