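import Mathlib
import Pool.Agent.Work.MP_308fa9_nt.LocalPoint

set_option autoImplicit false

/-!
An adelic point orthogonal to all the quaternion algebras `(q_j, c)` gives descent data.
-/

namespace Stoll308

open Finset PadicInt

variable {r : ℕ} {q : Forms r} {t : ℤ}

/-- Natural numbers prime to `l` that are congruent modulo `8 l` are equal up to squares. -/
lemma sq_ratio {l : ℕ} [hl : Fact l.Prime] {m n Q : ℕ} (hQ : 8 * l ∣ Q) (hmn : n % Q = m % Q)
    (hm : Nat.Coprime m l) : ∃ w : ℚ_[l], w ≠ 0 ∧ (n : ℚ_[l]) = m * w ^ 2 := by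
  have hmu : ‖(m : ℤ_[l])‖ = 1 := PadicInt.norm_natCast_eq_one_iff.2 hm.symm
  obtain ⟨v, hv⟩ : ∃ v : ℤ_[l], (m : ℤ_[l]) * v = 1 :=
    (PadicInt.isUnit_iff.2 hmu).exists_right_inv
  have hvn : ‖v‖ = 1 := by
    have := congrArg norm hv
    rw [norm_mul, hmu, one_mul, norm_one] at this
    exact this
  -- the norm of the difference
  have hd : ((8 * l : ℕ) : ℤ) ∣ (n : ℤ) - m := by
    have h1 : (n : ℤ) ≡ m [ZMOD Q] := by exact_mod_cast (show n ≡ m [MOD Q] from hmn)
    have h2 := (Int.modEq_iff_dvd.1 h1.symm)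
    exact (Int.natCast_dvd_natCast.2 hQ).trans h2
  have hnorm : ‖((n : ℤ_[l]) - m)‖ ≤ ‖((8 * l : ℕ) : ℤ_[l])‖ := by
    obtain ⟨s, hs⟩ := hd
    have : (n : ℤ_[l]) - m = ((8 * l : ℕ) : ℤ_[l]) * (s : ℤ_[l]) := by exact_mod_cast hs
    rw [this, norm_mul]
    exact mul_le_of_le_one_right (norm_nonneg _) (PadicInt.norm_le_one _)
  have h4 : ‖((8 * l : ℕ) : ℤ_[l])‖ < ‖(2 : ℤ_[l])‖ ^ 2 := by
    have h5 : ((8 * l : ℕ) : ℤ_[l]) = 2 ^ 2 * (2 * (l : ℤ_[l])) := by push_cast; ring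
    rw [h5, norm_mul, norm_pow]
    have h6 : ‖(2 : ℤ_[l]) * (l : ℤ_[l])‖ < 1 := by
      rw [norm_mul]
      have h7 : ‖(l : ℤ_[l])‖ < 1 := by
        rw [PadicInt.norm_p]
        exact inv_lt_one_of_one_lt₀ (by exact_mod_cast hl.out.one_lt)
      calc ‖(2 : ℤ_[l])‖ * ‖(l : ℤ_[l])‖ ≤ 1 * ‖(l : ℤ_[l])‖ :=
            mul_le_mul_of_nonneg_right (PadicInt.norm_le_one _) (norm_nonneg _)
        _ < 1 := by rw [one_mul]; exact h7
    have h8 : 0 < ‖(2 : ℤ_[l])‖ ^ 2 := by
      have : (2 : ℤ_[l]) ≠ 0 := two_ne_zero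
      have := norm_pos_iff.2 this
      positivity
    calc ‖(2 : ℤ_[l])‖ ^ 2 * ‖(2 : ℤ_[l]) * (l : ℤ_[l])‖ < ‖(2 : ℤ_[l])‖ ^ 2 * 1 :=
          mul_lt_mul_of_pos_left h6 h8
      _ = _ := mul_one _
  set u : ℤ_[l] := (n : ℤ_[l]) * v with hu
  have hu1 : ‖(1 : ℤ_[l]) ^ 2 - u‖ < ‖(2 : ℤ_[l])‖ ^ 2 := by
    have : (1 : ℤ_[l]) ^ 2 - u = -(((n : ℤ_[l]) - m) * v) := by
      rw [hu, sub_mul, hv]; ring
    rw [this, norm_neg, norm_mul, hvn, mul_one]
    exact lt_of_le_of_lt hnorm h4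
  obtain ⟨z, hz, -⟩ := hensels_lemma (F := (Polynomial.X ^ 2 - Polynomial.C u : Polynomial ℤ_[l]))
    (a := 1) (by
      simp only [map_sub, map_pow, Polynomial.aeval_X, Polynomial.aeval_C,
        Polynomial.derivative_C, sub_zero,
        Polynomial.derivative_X_pow, map_mul]
      simp only [Nat.cast_ofNat, Nat.add_one_sub_one, pow_one, mul_one]
      exact hu1)
  simp only [map_sub, map_pow, Polynomial.aeval_X, Polynomial.aeval_C, Algebra.algebraMap_self,
    RingHom.id_apply, sub_eq_zero] at hz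
  have hm0 : (m : ℚ_[l]) ≠ 0 := by
    intro h
    rw [PadicInt.norm_def] at hmu
    push_cast at hmu
    rw [h, norm_zero] at hmu
    exact zero_ne_one hmu
  have hn : (n : ℤ_[l]) = m * z ^ 2 := by
    rw [hz, hu, mul_left_comm, hv, mul_one]
  have hn' : (n : ℚ_[l]) = m * (z : ℚ_[l]) ^ 2 := by
    have := congrArg (fun x : ℤ_[l] => (x : ℚ_[l])) hn
    push_cast at this
    exact this
  refine ⟨z, ?_, hn'⟩
  intro h0
  -- `n` is a unit
  have : z = 0 := Subtype.ext h0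
  rw [this] at hz
  have h9 : u = 0 := by rw [← hz]; ring
  rw [h9, sub_zero, one_pow, norm_one] at hu1
  have h10 : ‖(2 : ℤ_[l])‖ ^ 2 ≤ 1 := pow_le_one₀ (norm_nonneg _) (PadicInt.norm_le_one _)
  linarith

open Classical in
/-- Sign of a proposition. -/
noncomputable def sg (A : Prop) : ℤ := if A then -1 else 1

lemma sg_eq (A : Prop) : sg A = 1 ∨ sg A = -1 := by
  unfold sg; split_ifs <;> simp

lemma sg_congr {A B : Prop} (h : A ↔ B) : sg A = sg B := by
  rw [propext h]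

lemma ite_eq_sg (A : Prop) [Decidable A] : (if A then (1 : ℤ) else -1) = sg (¬ A) := by
  unfold sg
  by_cases hs : A
  · rw [if_pos hs, if_neg (not_not.2 hs)]
  · rw [if_neg hs, if_pos hs]

lemma sg_mul_self (A : Prop) : sg A * sg A = 1 := by
  rcases sg_eq A with h | h <;> rw [h] <;> norm_num

lemma prod_sg_of_even {R : Set ℕ} (A : Finset ℕ) (hRA : R ⊆ A) (heven : Even R.ncard) :
    ∏ l ∈ A, sg (l ∈ R) = 1 := by
  classical
  have h1 : ∏ l ∈ A, sg (l ∈ R) = ∏ l ∈ A.filter (· ∈ R), (-1 : ℤ) := by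
    rw [prod_filter]
    rfl
  rw [h1, prod_const]
  have h2 : (A.filter (· ∈ R)).card = R.ncard := by
    rw [← Set.ncard_coe_finset]
    congr 1
    ext x
    simp only [coe_filter, Set.mem_ofPred_eq]
    exact ⟨fun h => h.2, fun h => ⟨hRA h, h⟩⟩
  rw [h2]
  exact heven.neg_one_pow

lemma jacobi_eq_sg {p l : ℕ} [hl : Fact l.Prime] (h : ¬ l ∣ p) :
    jacobiSym p l = sg (¬ IsSquare ((p : ℕ) : ZMod l)) := by
  classical
  rw [← jacobiSym.legendreSym.to_jacobiSym]
  have h0 : (((p : ℕ) : ℤ) : ZMod l) ≠ 0 := by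
    rw [Ne, ZMod.intCast_zmod_eq_zero_iff_dvd]
    exact_mod_cast h
  unfold sg
  split_ifs with hs
  · rw [legendreSym.eq_one_iff l h0]
    exact_mod_cast hs
  · rw [legendreSym.eq_neg_one_iff]
    exact_mod_cast hs

set_option maxHeartbeats 2000000 in
/-- **Descent.** -/
theorem desc_of_bm (hr : Nonempty (Fin r)) (hirr : ∀ j, ¬ IsSquare (q.disc j)) (hcop : ∀ j k, j ≠ k → q.res j k ≠ 0)
    (hsq : Squarefree t) (h : q.BMNonempty t) : q.Desc t := by
  classical
  obtain ⟨P, hP⟩ := h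
  have hbad0 := bad_ne_zero hirr hcop
  -- the index of a good prime
  have hram : ∀ (p : ℕ) [Fact p.Prime], ¬ (p : ℤ) ∣ q.bad → (p : ℤ) ∣ t → ∃ (j : Fin r)
      (θ : ZMod p), q.val j θ 1 = 0 ∧
      (∃ (e : ℤ_[p]) (w : ℚ_[p]), ‖e‖ = 1 ∧ w ≠ 0 ∧
        (P.padic p).eval j = (p : ℚ_[p]) * e * w ^ 2) ∧
      ∀ k, k ≠ j → ∃ (e : ℤ_[p]) (w : ℚ_[p]), ‖e‖ = 1 ∧ w ≠ 0 ∧ (P.padic p).eval k = e * w ^ 2 ∧
        (IsSquare (toZMod e) ↔ IsSquare (q.val k θ 1)) :=
    fun p _ hb ht => local_ram hb hsq ht (P.padic p)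
  let good : ℕ → Prop := fun p => ∃ _ : Fact p.Prime, ¬ (p : ℤ) ∣ q.bad ∧ (p : ℤ) ∣ t
  have hex : ∀ p : ℕ, ∃ j : Fin r, good p → ∃ _ : Fact p.Prime, ∃ (θ : ZMod p),
      q.val j θ 1 = 0 ∧
      (∃ (e : ℤ_[p]) (w : ℚ_[p]), ‖e‖ = 1 ∧ w ≠ 0 ∧
        (P.padic p).eval j = (p : ℚ_[p]) * e * w ^ 2) ∧
      ∀ k, k ≠ j → ∃ (e : ℤ_[p]) (w : ℚ_[p]), ‖e‖ = 1 ∧ w ≠ 0 ∧ (P.padic p).eval k = e * w ^ 2 ∧
        (IsSquare (toZMod e) ↔ IsSquare (q.val k θ 1)) := by
    intro p
    by_cases hg : good p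
    · obtain ⟨hp, hb, ht⟩ := hg
      obtain ⟨j, θ, h1, h2, h3⟩ := hram p hb ht
      exact ⟨j, fun _ => ⟨hp, θ, h1, h2, h3⟩⟩
    · exact ⟨hr.some, fun h => absurd h hg⟩
  choose j hj using hex
  -- the contribution of the bad primes
  let ψ : Fin r → ℕ → ℤ := fun i n =>
    ∏ l ∈ q.bad.natAbs.primeFactors, sg (∃ _ : Fact l.Prime,
      ¬ Splits ((P.padic l).eval i) ((n : ℕ) : ℚ_[l]))
  refine ⟨j, ψ, ?_, ?_⟩
  · intro i n
    have : ∀ s : Finset ℕ, (∏ l ∈ s, sg (∃ _ : Fact l.Prime,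
        ¬ Splits ((P.padic l).eval i) ((n : ℕ) : ℚ_[l])) = 1 ∨
        ∏ l ∈ s, sg (∃ _ : Fact l.Prime,
        ¬ Splits ((P.padic l).eval i) ((n : ℕ) : ℚ_[l])) = -1) := by
      intro s
      induction s using Finset.induction_on with
      | empty => left; simp
      | insert a s ha ih =>
        rw [prod_insert ha]
        rcases sg_eq (∃ _ : Fact a.Prime,
          ¬ Splits ((P.padic a).eval i) ((n : ℕ) : ℚ_[a])) with h | h <;>
        rcases ih with h' | h' <;> rw [h, h'] <;> norm_num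
    exact this _
  intro p hpp hb ht
  have hp : Fact p.Prime := ⟨hpp⟩
  obtain ⟨hp', θ, hθ, hjp, hothers⟩ := hj p ⟨hp, hb, ht⟩
  have hp2 : p ≠ 2 := by
    rintro rfl
    exact hb two_dvd_bad
  refine ⟨θ, hθ, fun i hi => ?_⟩
  obtain ⟨hfin, heven⟩ := hP i (p : ℤ) (by exact_mod_cast hpp.ne_zero)
  have hreal : Splits (P.real.eval i) ((p : ℤ) : ℝ) := by
    refine ⟨0, 1, Real.sqrt p, Or.inr (Or.inl one_ne_zero), ?_⟩
    rw [Real.sq_sqrt (Nat.cast_nonneg p)]
    push_cast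
    ring
  have heven' : Even (P.ramified i (p : ℤ)).ncard := heven.2 hreal
  -- the places that may be ramified
  set Dset := t.natAbs.primeFactors.filter (fun l : ℕ => ¬ (l : ℤ) ∣ q.bad ∧ j l = i) with hDset
  have hpD : p ∉ Dset := by
    rw [hDset, mem_filter]
    rintro ⟨-, -, h⟩
    exact hi h.symm
  have hpB : p ∉ q.bad.natAbs.primeFactors := by
    intro h
    exact hb (Int.natCast_dvd.2 (Nat.dvd_of_mem_primeFactors h))
  have hdisj : Disjoint q.bad.natAbs.primeFactors Dset := by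
    rw [disjoint_left]
    intro l hl hlD
    rw [hDset, mem_filter] at hlD
    exact hlD.2.1 (Int.natCast_dvd.2 (Nat.dvd_of_mem_primeFactors hl))
  have hsub : P.ramified i (p : ℤ) ⊆
      ((insert p (q.bad.natAbs.primeFactors ∪ Dset) : Finset ℕ) : Set ℕ) := by
    rintro l ⟨hl, hns⟩
    by_contra hcon
    rw [mem_coe, mem_insert, mem_union, not_or, not_or] at hcon
    obtain ⟨hlp, hlB, hlD⟩ := hcon
    have hlb : ¬ (l : ℤ) ∣ q.bad := by
      intro h
      apply hlB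
      rw [Nat.mem_primeFactors]
      exact ⟨hl.out, Int.natCast_dvd.1 h, by simpa using hbad0⟩
    have hl2 : l ≠ 2 := by
      rintro rfl
      exact hlb two_dvd_bad
    apply hns
    have hpu : ‖((p : ℤ) : ℤ_[l])‖ = 1 := by
      have : Nat.Coprime l p := (Nat.coprime_primes hl.out hpp).2 hlp
      have h2 := PadicInt.norm_natCast_eq_one_iff (p := l) (n := p)
      push_cast
      exact h2.2 this
    have key : ∃ (e : ℤ_[l]) (w : ℚ_[l]), ‖e‖ = 1 ∧ w ≠ 0 ∧ (P.padic l).eval i = e * w ^ 2 := by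
      by_cases hlt : (l : ℤ) ∣ t
      · obtain ⟨_, θ', _, _, h3⟩ := hj l ⟨hl, hlb, hlt⟩
        have hji : i ≠ j l := by
          intro h
          apply hlD
          rw [hDset, mem_filter, Nat.mem_primeFactors]
          exact ⟨⟨hl.out, Int.natCast_dvd.1 hlt, by simpa using hsq.ne_zero⟩, hlb, h.symm⟩
        obtain ⟨e, w, he, hw, hew, -⟩ := h3 i hji
        exact ⟨e, w, he, hw, hew⟩
      · exact local_unram hlb hlt (P.padic l) i
    obtain ⟨e, w, he, hw, hew⟩ := key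
    rw [hew, splits_mul_sq hw]
    have := splits_units hl2 he hpu
    push_cast at this ⊢
    exact this
  have hprod := prod_sg_of_even _ hsub heven'
  rw [prod_insert (by rw [mem_union, not_or]; exact ⟨hpB, hpD⟩), prod_union hdisj] at hprod
  -- the place `p`
  have e1 : sg (p ∈ P.ramified i (p : ℤ)) = sg (¬ IsSquare (q.val i θ 1)) := by
    apply sg_congr
    obtain ⟨e, w, he, hw, hew, hiff⟩ := hothers i hi
    have h1 : Splits ((P.padic p).eval i) ((p : ℤ) : ℚ_[p]) ↔ IsSquare (q.val i θ 1) := by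
      rw [hew, splits_mul_sq hw, splits_comm, ← hiff]
      have := splits_prime_unit hp2 (e := 1) (c := e) (by simp) he
      rw [← this]
      push_cast
      rw [mul_one]
    constructor
    · rintro ⟨_, h⟩
      rwa [h1] at h
    · intro h
      exact ⟨hp, by rwa [h1]⟩
  -- the bad places
  have e2 : ∏ l ∈ q.bad.natAbs.primeFactors, sg (l ∈ P.ramified i (p : ℤ)) = ψ i (p % q.Q) := by
    refine prod_congr rfl fun l hl => ?_
    apply sg_congr
    have hlp := Nat.prime_of_mem_primeFactors hl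
    have hlfact : Fact l.Prime := ⟨hlp⟩
    have hlb := Nat.dvd_of_mem_primeFactors hl
    have hne : l ≠ p := by
      rintro rfl
      exact hpB hl
    have hQ : 8 * l ∣ q.Q := by
      unfold Forms.Q
      exact Nat.mul_dvd_mul_left 8 hlb
    have hcop' : Nat.Coprime p l := (Nat.coprime_primes hpp hlp).2 hne.symm
    obtain ⟨w, hw, hw2⟩ := sq_ratio (l := l) (m := p) (n := p % q.Q) hQ (Nat.mod_mod _ _) hcop'
    have h1 : Splits ((P.padic l).eval i) ((p : ℤ) : ℚ_[l]) ↔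
        Splits ((P.padic l).eval i) ((p % q.Q : ℕ) : ℚ_[l]) := by
      rw [hw2, splits_mul_sq' hw]
      push_cast
      rfl
    constructor
    · rintro ⟨h, hh⟩
      exact ⟨h, by rwa [h1] at hh⟩
    · rintro ⟨h, hh⟩
      exact ⟨h, by rwa [h1]⟩
  -- the primes of `D_i`
  have e3 : ∏ l ∈ Dset, sg (l ∈ P.ramified i (p : ℤ)) = jacobiSym p (q.D t j i) := by
    have h1 : q.D t j i = ∏ l ∈ Dset, l := rfl
    have h2 : ∀ s : Finset ℕ, s ⊆ Dset → ∏ l ∈ s, sg (l ∈ P.ramified i (p : ℤ)) =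
        jacobiSym p (∏ l ∈ s, l) := by
      intro s
      induction s using Finset.induction_on with
      | empty => intro _; simp
      | insert l s hl ih =>
        intro hs
        have hlD := hs (mem_insert_self l s)
        have hsD : s ⊆ Dset := fun x hx => hs (mem_insert_of_mem hx)
        rw [prod_insert hl, prod_insert hl, ih hsD]
        rw [hDset, mem_filter] at hlD
        obtain ⟨hlt, hlb, hlj⟩ := hlD
        have hlp := Nat.prime_of_mem_primeFactors hlt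
        have : Fact l.Prime := ⟨hlp⟩
        have hl2 : l ≠ 2 := by
          rintro rfl
          exact hlb two_dvd_bad
        have hne : l ≠ p := by
          rintro rfl
          exact hi hlj.symm
        have hndvd : ¬ l ∣ p := by
          intro h
          exact hne ((Nat.prime_dvd_prime_iff_eq hlp hpp).1 h)
        rw [jacobiSym.mul_right', jacobi_eq_sg hndvd]
        · congr 1
          apply sg_congr
          obtain ⟨_, θ', _, ⟨e, w, he, hw, hew⟩, _⟩ := hj l ⟨‹Fact l.Prime›, hlb,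
            Int.natCast_dvd.2 (Nat.dvd_of_mem_primeFactors hlt)⟩
          rw [hlj] at hew
          have hpu : ‖((p : ℕ) : ℤ_[l])‖ = 1 :=
            PadicInt.norm_natCast_eq_one_iff.2 ((Nat.coprime_primes hlp hpp).2 hne)
          have h1 : Splits ((P.padic l).eval i) ((p : ℤ) : ℚ_[l]) ↔
              IsSquare ((p : ℕ) : ZMod l) := by
            rw [hew, splits_mul_sq hw]
            have := splits_prime_unit hl2 he hpu
            rw [map_natCast] at this
            rw [← this]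
            push_cast
            rfl
          constructor
          · rintro ⟨_, hh⟩
            rwa [h1] at hh
          · intro hh
            exact ⟨‹Fact l.Prime›, by rwa [h1]⟩
        · exact hlp.ne_zero
        · exact prod_ne_zero_iff.2 fun x hx => (Nat.prime_of_mem_primeFactors
            (mem_filter.1 (hsD hx)).1).ne_zero
    rw [h1, h2 _ subset_rfl]
  rw [e1, e2, e3] at hprod
  rw [ite_eq_sg]
  have h6 := sg_mul_self (¬ IsSquare (q.val i θ 1))
  calc sg (¬ IsSquare (q.val i θ 1)) = sg (¬ IsSquare (q.val i θ 1)) * 1 := by rw [mul_one]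
    _ = sg (¬ IsSquare (q.val i θ 1)) * (sg (¬IsSquare (q.val i θ 1)) *
      (ψ i (p % q.Q) * jacobiSym (↑p) (q.D t j i))) := by rw [hprod]
    _ = _ := by rw [← mul_assoc, h6, one_mul]

end Stoll308
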