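import Mathlib
import Pool.Agent.Work.MP_308fa9_nt.Bound2
import Pool.Agent.Work.MP_308fa9_nt.Descent

/-! The count of the twists that satisfy the descent condition. -/

set_option autoImplicit false

namespace Stoll308

open Finset NumberTheorySymbols Tuples Linked

variable {r : ℕ} (q : Forms r)

/-- signs from Booleans -/
def sgf (f : Fin r → Fin q.Q → Bool) (i : Fin r) (n : ℕ) : ℤ :=
  if h : n < q.Q then (if f i ⟨n, h⟩ then 1 else -1) else 1

lemma sgf_sign (f : Fin r → Fin q.Q → Bool) (i : Fin r) (n : ℕ) :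
    sgf q f i n = 1 ∨ sgf q f i n = -1 := by
  unfold sgf
  split_ifs <;> simp

lemma descN_sgf (hQ : 0 < q.Q) {ψ : Fin r → ℕ → ℤ} (hψ : ∀ i n, ψ i n = 1 ∨ ψ i n = -1) {n : ℕ}
    (h : DescN q ψ n) : ∃ f : Fin r → Fin q.Q → Bool, DescN q (sgf q f) n := by
  classical
  refine ⟨fun i k => decide (ψ i k = 1), ?_⟩
  obtain ⟨j, hj⟩ := h
  refine ⟨j, fun p hp => ?_⟩
  obtain ⟨θ, hθ, hi⟩ := hj p hp
  refine ⟨θ, hθ, fun i hne => ?_⟩
  rw [hi i hne]
  congr 1
  unfold sgf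
  rw [dif_pos (Nat.mod_lt _ hQ)]
  rcases hψ i (p % q.Q) with h | h
  · simp [h]
  · simp [h]

/-- the good part of a number -/
noncomputable def gpart (m : ℕ) : ℕ :=
  open Classical in ∏ p ∈ m.primeFactors.filter (fun p : ℕ => ¬ (p : ℤ) ∣ q.bad), p

/-- the bad part of a number -/
noncomputable def bpart (m : ℕ) : ℕ :=
  open Classical in ∏ p ∈ m.primeFactors.filter (fun p : ℕ => (p : ℤ) ∣ q.bad), p

lemma bpart_mul_gpart {m : ℕ} (hm : Squarefree m) : bpart q m * gpart q m = m := by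
  classical
  unfold bpart gpart
  conv_rhs => rw [← Nat.prod_primeFactors_of_squarefree hm]
  convert prod_filter_mul_prod_filter_not m.primeFactors (fun p : ℕ => (p : ℤ) ∣ q.bad) (fun p => p)

lemma primeFactors_gpart (m : ℕ) : (gpart q m).primeFactors =
    open Classical in m.primeFactors.filter (fun p : ℕ => ¬ (p : ℤ) ∣ q.bad) := by
  unfold gpart
  apply Nat.primeFactors_prod
  intro p hp
  exact Nat.prime_of_mem_primeFactors (mem_filter.1 hp).1

lemma good_gpart {m : ℕ} (hm : Squarefree m) : GoodN q (gpart q m) := by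
  classical
  refine ⟨hm.squarefree_of_dvd (Dvd.intro_left _ (bpart_mul_gpart q hm)), fun p hp => ?_⟩
  rw [primeFactors_gpart] at hp
  exact (mem_filter.1 hp).2

lemma bpart_dvd (m : ℕ) : bpart q m ∣ q.bad.natAbs := by
  unfold bpart
  refine Finset.prod_primes_dvd _ (fun p hp => ?_) fun p hp => ?_
  · exact (Nat.prime_of_mem_primeFactors (mem_filter.1 hp).1).prime
  · exact Int.natCast_dvd.1 (mem_filter.1 hp).2

lemma descN_of_desc {t : ℤ} (h : q.Desc t) :
    ∃ ψ : Fin r → ℕ → ℤ, (∀ i n, ψ i n = 1 ∨ ψ i n = -1) ∧ DescN q ψ (gpart q t.natAbs) := by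
  classical
  obtain ⟨j, ψ, hψ, hp⟩ := h
  refine ⟨ψ, hψ, j, fun p hpm => ?_⟩
  rw [primeFactors_gpart] at hpm
  obtain ⟨h1, h2⟩ := mem_filter.1 hpm
  obtain ⟨θ, hθ, hi⟩ := hp p (Nat.prime_of_mem_primeFactors h1) h2
    (Int.natCast_dvd.2 (Nat.dvd_of_mem_primeFactors h1))
  refine ⟨θ, hθ, fun i hne => ?_⟩
  rw [hi i hne]
  congr 2
  unfold Forms.D
  rw [primeFactors_gpart, filter_filter]

/-- **The number of the twists with the descent condition.** -/
theorem desc_le (hr : 2 ≤ r) (hirr : ∀ j, ¬ IsSquare (q.disc j))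
    (hcop : ∀ j k, j ≠ k → q.res j k ≠ 0) {η : ℝ} (hη : 0 < η) :
    ∃ C : ℝ, 0 < C ∧ ∀ X : ℕ, 3 ≤ X →
      (({t : ℤ | Squarefree t ∧ |t| ≤ X ∧ q.Desc t}.ncard : ℕ) : ℝ) ≤
        C * (X * Real.log X ^ (-(1 / 4) + η : ℝ)) := by
  classical
  obtain ⟨C, hC, hle⟩ := sum_FF_le q hr hirr hcop hη
  have hbad : q.bad ≠ 0 := bad_ne_zero0 q (fun j => a_ne_zero q (hirr j))
    (fun j => disc_ne_zero q (hirr j)) hcop
  have hQ : 0 < q.Q := by
    unfold Forms.Q
    have := Int.natAbs_pos.2 hbad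
    omega
  set M : ℕ := Fintype.card (Fin r → Fin q.Q → Bool) with hM
  set dv := q.bad.natAbs.divisors with hdv
  refine ⟨2 * dv.card * M * C + 1, by positivity, fun X hX => ?_⟩
  have hlX := one_le_log hX
  set N : Finset ℕ := (Icc 1 X).filter (fun n => ∃ f : Fin r → Fin q.Q → Bool,
    GoodN q n ∧ DescN q (sgf q f) n) with hN
  set W : Finset ℤ := (({1, -1} : Finset ℤ) ×ˢ (dv ×ˢ N)).image
    (fun x => x.1 * ((x.2.1 : ℤ) * (x.2.2 : ℤ))) with hW
  have h1 : {t : ℤ | Squarefree t ∧ |t| ≤ X ∧ q.Desc t} ⊆ (W : Set ℤ) := by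
    rintro t ⟨ht, htX, hd⟩
    have hts : Squarefree t.natAbs := Int.squarefree_natAbs.2 ht
    have ht0 : t ≠ 0 := ht.ne_zero
    obtain ⟨ψ, hψ, hN1⟩ := descN_of_desc q hd
    obtain ⟨f, hf⟩ := descN_sgf q hQ hψ hN1
    have hmul := bpart_mul_gpart q hts
    have hpos : 0 < t.natAbs := Int.natAbs_pos.2 ht0
    have hgpos : 0 < gpart q t.natAbs := by
      rcases Nat.eq_zero_or_pos (gpart q t.natAbs) with h | h
      · rw [h, mul_zero] at hmul; omega
      · exact h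
    have hle' : gpart q t.natAbs ≤ X := by
      have h2 : gpart q t.natAbs ≤ t.natAbs :=
        Nat.le_of_dvd hpos (Dvd.intro_left _ hmul)
      have h3 : (t.natAbs : ℤ) ≤ X := by rw [Int.natCast_natAbs]; exact htX
      exact h2.trans (by exact_mod_cast h3)
    rw [mem_coe, hW, mem_image]
    refine ⟨(t.sign, (bpart q t.natAbs, gpart q t.natAbs)), ?_, ?_⟩
    · rw [mem_product, mem_product]
      refine ⟨?_, ?_, ?_⟩
      · rcases lt_or_gt_of_ne ht0 with h | h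
        · simp [Int.sign_eq_neg_one_of_neg h]
        · simp [Int.sign_eq_one_of_pos h]
      · exact Nat.mem_divisors.2 ⟨bpart_dvd q _, Int.natAbs_ne_zero.2 hbad⟩
      · rw [hN, mem_filter, mem_Icc]
        exact ⟨⟨hgpos, hle'⟩, f, good_gpart q hts, hf⟩
    · have : ((bpart q t.natAbs : ℕ) : ℤ) * ((gpart q t.natAbs : ℕ) : ℤ) = (t.natAbs : ℤ) := by
        rw [← Nat.cast_mul, hmul]
      change t.sign * (((bpart q t.natAbs : ℕ) : ℤ) * ((gpart q t.natAbs : ℕ) : ℤ)) = t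
      rw [this, Int.sign_mul_natAbs]
  have h2 : ({t : ℤ | Squarefree t ∧ |t| ≤ X ∧ q.Desc t}.ncard : ℕ) ≤ 2 * (dv.card * N.card) := by
    refine (Set.ncard_le_ncard h1 (finite_toSet W)).trans ?_
    rw [Set.ncard_coe_finset]
    refine card_image_le.trans ?_
    rw [card_product, card_product]
    exact Nat.mul_le_mul_right _ card_le_two
  have h3 : (N.card : ℝ) ≤ M * (C * (X * Real.log X ^ (-(1 / 4) + η : ℝ))) := by
    have h4 : N ⊆ univ.biUnion (fun f : Fin r → Fin q.Q → Bool =>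
        (Icc 1 X).filter (fun n => GoodN q n ∧ DescN q (sgf q f) n)) := by
      intro n hn
      obtain ⟨h5, f, h6⟩ := mem_filter.1 hn
      exact mem_biUnion.2 ⟨f, mem_univ f, mem_filter.2 ⟨h5, h6⟩⟩
    have h5 : (N.card : ℝ) ≤ ∑ f : Fin r → Fin q.Q → Bool,
        (((Icc 1 X).filter (fun n => GoodN q n ∧ DescN q (sgf q f) n)).card : ℝ) := by
      exact_mod_cast (card_le_card h4).trans card_biUnion_le
    refine h5.trans ?_
    calc ∑ f : Fin r → Fin q.Q → Bool,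
        (((Icc 1 X).filter (fun n => GoodN q n ∧ DescN q (sgf q f) n)).card : ℝ)
        ≤ ∑ f : Fin r → Fin q.Q → Bool, C * (X * Real.log X ^ (-(1 / 4) + η : ℝ)) := by
          refine sum_le_sum fun f _ => ?_
          refine le_trans (le_of_eq ?_) ((card_le_sum q (sgf q f) (sgf_sign q f) X).trans
            (hle (sgf q f) (sgf_sign q f) X hX))
          congr 2
      _ = _ := by rw [sum_const, card_univ, nsmul_eq_mul]
  have h4 : 0 ≤ (X : ℝ) * Real.log X ^ (-(1 / 4) + η : ℝ) := by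
    have : 0 ≤ Real.log X := by linarith
    positivity
  calc (({t : ℤ | Squarefree t ∧ |t| ≤ X ∧ q.Desc t}.ncard : ℕ) : ℝ)
      ≤ 2 * (dv.card * N.card) := by exact_mod_cast h2
    _ ≤ 2 * (dv.card * (M * (C * (X * Real.log X ^ (-(1 / 4) + η : ℝ))))) := by gcongr
    _ = (2 * dv.card * M * C) * (X * Real.log X ^ (-(1 / 4) + η : ℝ)) := by ring
    _ ≤ _ := by nlinarith

/-- **The number of the twists whose Brauer–Manin set may be nonempty.** -/
theorem bm_le (hr : 2 ≤ r) (hirr : ∀ j, ¬ IsSquare (q.disc j))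
    (hcop : ∀ j k, j ≠ k → q.res j k ≠ 0) {η : ℝ} (hη : 0 < η) :
    ∃ C : ℝ, 0 < C ∧ ∀ X : ℕ, 3 ≤ X →
      ((q.bmSet X).ncard : ℝ) ≤ C * (X * Real.log X ^ (-(1 / 4) + η : ℝ)) := by
  obtain ⟨C, hC, h⟩ := desc_le q hr hirr hcop hη
  refine ⟨C, hC, fun X hX => le_trans ?_ (h X hX)⟩
  have hfin : {t : ℤ | Squarefree t ∧ |t| ≤ X ∧ q.Desc t}.Finite := by
    refine (Set.finite_Icc (-(X : ℤ)) X).subset ?_
    rintro t ⟨_, ht, _⟩
    exact ⟨(abs_le.1 ht).1, (abs_le.1 ht).2⟩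
  have hne : Nonempty (Fin r) := ⟨⟨0, by omega⟩⟩
  have hsub : q.bmSet X ⊆ {t : ℤ | Squarefree t ∧ |t| ≤ X ∧ q.Desc t} := fun t ht =>
    ⟨ht.1, ht.2.1, desc_of_bm hne hirr hcop ht.1 ht.2.2⟩
  exact_mod_cast Set.ncard_le_ncard hsub hfin

end Stoll308
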