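import Mathlib
import Pool.Agent.Work.MP_308fa9_nt.ChebA
import Pool.Agent.Work.MP_2b9663_nt.MV

set_option autoImplicit false

/-! The Dirichlet series of the number of primes of degree one of a number field. -/

namespace Stoll308.Cheb

open Filter Topology NumberField Ideal Finset
open Pool.Agent.Work.MP_2b9663_nt

variable (K : Type*) [Field K] [NumberField K]

/-- the terms of the Dedekind zeta function -/
noncomputable def tK (ε : ℝ) (n : ℕ) : ℝ := (aK K n : ℝ) * (n : ℝ) ^ (-(1 + ε))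

lemma tK_zero {ε : ℝ} (hε : 0 < ε) : tK K ε 0 = 0 := by
  unfold tK
  rw [Nat.cast_zero, Real.zero_rpow (by linarith), mul_zero]

lemma tK_one (ε : ℝ) : tK K ε 1 = 1 := by
  unfold tK
  rw [aK_one, Nat.cast_one, Real.one_rpow, mul_one]

lemma tK_nonneg (ε : ℝ) (n : ℕ) : 0 ≤ tK K ε n := by
  unfold tK; positivity

lemma tK_mul {ε : ℝ} (hε : 0 < ε) {m n : ℕ} (h : Nat.Coprime m n) :
    tK K ε (m * n) = tK K ε m * tK K ε n := by
  rcases Nat.eq_zero_or_pos m with rfl | hm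
  · rw [zero_mul, tK_zero K hε, zero_mul]
  rcases Nat.eq_zero_or_pos n with rfl | hn
  · rw [mul_zero, tK_zero K hε, mul_zero]
  unfold tK
  rw [aK_mul K h hm.ne' hn.ne']
  push_cast
  rw [Real.mul_rpow (Nat.cast_nonneg _) (Nat.cast_nonneg _)]
  ring

lemma term_eq (ε : ℝ) (n : ℕ) : LSeries.term (fun n ↦ (Nat.card {I : Ideal (𝓞 K) // absNorm I = n} : ℂ))
    ((1 + ε : ℝ) : ℂ) n = if n = 0 then 0 else ((tK K ε n : ℝ) : ℂ) := by
  rw [LSeries.term_def]
  split_ifs with h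
  · rfl
  · unfold tK aK
    push_cast
    rw [Complex.ofReal_cpow (Nat.cast_nonneg _)]
    push_cast
    rw [Complex.cpow_neg, div_eq_mul_inv]

lemma hasSum_iff {ε : ℝ} (hε : 0 < ε) : LSeries.term (fun n ↦ (Nat.card {I : Ideal (𝓞 K) // absNorm I = n} : ℂ))
    ((1 + ε : ℝ) : ℂ) = fun n => ((tK K ε n : ℝ) : ℂ) := by
  funext n
  rw [term_eq]
  split_ifs with h
  · rw [h, tK_zero K hε, Complex.ofReal_zero]
  · rfl

lemma dedekind_eq {ε : ℝ} (hε : 0 < ε) :
    dedekindZeta K ((1 + ε : ℝ) : ℂ) = ((∑' n, tK K ε n : ℝ) : ℂ) := by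
  unfold dedekindZeta LSeries
  rw [hasSum_iff K hε, Complex.ofReal_tsum]

lemma tendsto_res : Tendsto (fun ε : ℝ => ε * ∑' n, tK K ε n) (𝓝[>] 0) (𝓝 (dedekindZeta_residue K)) := by
  have h1 := tendsto_sub_one_mul_dedekindZeta_nhdsGT K
  have h2 : Tendsto (fun ε : ℝ => 1 + ε) (𝓝[>] 0) (𝓝[>] 1) := by
    rw [tendsto_nhdsWithin_iff]
    refine ⟨?_, ?_⟩
    · have : Tendsto (fun ε : ℝ => 1 + ε) (𝓝 0) (𝓝 (1 + 0)) := tendsto_const_nhds.add tendsto_id
      rw [add_zero] at this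
      exact this.mono_left nhdsWithin_le_nhds
    · filter_upwards [self_mem_nhdsWithin] with ε hε
      have : (0 : ℝ) < ε := hε
      change (1 : ℝ) < 1 + ε
      linarith
  have h3 := h1.comp h2
  have h4 := (Complex.continuous_re.tendsto _).comp h3
  rw [Complex.ofReal_re] at h4
  refine h4.congr' ?_
  filter_upwards [self_mem_nhdsWithin] with ε hε
  have hε' : (0 : ℝ) < ε := hε
  simp only [Function.comp]
  rw [dedekind_eq K hε']
  rw [← Complex.ofReal_one, ← Complex.ofReal_sub, ← Complex.ofReal_mul, Complex.ofReal_re]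
  ring

lemma ev_summable : ∀ᶠ ε in 𝓝[>] (0 : ℝ), Summable (tK K ε) := by
  have h1 := (tendsto_res K).eventually (lt_mem_nhds (dedekindZeta_residue_pos K))
  filter_upwards [h1] with ε h2
  by_contra h
  rw [tsum_eq_zero_of_not_summable h, mul_zero] at h2
  exact lt_irrefl _ h2


/-- the degree -/
noncomputable abbrev dK : ℕ := Module.finrank ℤ (𝓞 K)

/-- a constant -/
noncomputable def AK : ℝ := ∑' e : ℕ, ((e : ℝ) + 3) ^ dK K * (1 / 2) ^ e

lemma AK_summable : Summable (fun e : ℕ => ((e : ℝ) + 3) ^ dK K * (1 / 2) ^ e) := by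
  have h1 : Summable (fun e : ℕ => ((e : ℝ)) ^ dK K * (1 / 2 : ℝ) ^ e) :=
    summable_pow_mul_geometric_of_norm_lt_one _ (by norm_num)
  have h2 := (summable_nat_add_iff 3).2 h1
  have h3 := h2.mul_left (8 : ℝ)
  refine h3.congr fun e => ?_
  push_cast
  rw [pow_add]
  ring

lemma AK_nonneg : 0 ≤ AK K := tsum_nonneg fun e => by positivity

/-- the power of `p` -/
noncomputable def xp (ε : ℝ) (p : Nat.Primes) : ℝ := ((p : ℕ) : ℝ) ^ (-(1 + ε))

lemma xp_pos (ε : ℝ) (p : Nat.Primes) : 0 < xp ε p := by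
  unfold xp
  exact Real.rpow_pos_of_pos (by exact_mod_cast p.2.pos) _

lemma xp_le {ε : ℝ} (hε : 0 < ε) (p : Nat.Primes) : xp ε p ≤ ((p : ℕ) : ℝ) ^ (-1 : ℝ) :=
  Real.rpow_le_rpow_of_exponent_le (by exact_mod_cast p.2.one_le) (by linarith)

lemma xp_le_half {ε : ℝ} (hε : 0 < ε) (p : Nat.Primes) : xp ε p ≤ 1 / 2 := by
  refine (xp_le hε p).trans ?_
  rw [Real.rpow_neg_one, one_div]
  have : (2 : ℝ) ≤ ((p : ℕ) : ℝ) := by exact_mod_cast p.2.two_le
  exact inv_anti₀ (by norm_num) this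

lemma xp_sq_le {ε : ℝ} (hε : 0 < ε) (p : Nat.Primes) : xp ε p ^ 2 ≤ ((p : ℕ) : ℝ) ^ (-2 : ℝ) := by
  calc xp ε p ^ 2 ≤ (((p : ℕ) : ℝ) ^ (-1 : ℝ)) ^ 2 :=
        pow_le_pow_left₀ (xp_pos ε p).le (xp_le hε p) 2
    _ = ((p : ℕ) : ℝ) ^ (-2 : ℝ) := by
        rw [← Real.rpow_natCast, ← Real.rpow_mul (Nat.cast_nonneg _)]
        norm_num

lemma tK_pow (ε : ℝ) (p : Nat.Primes) (e : ℕ) :
    tK K ε ((p : ℕ) ^ e) = (aK K ((p : ℕ) ^ e) : ℝ) * xp ε p ^ e := by
  unfold tK xp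
  rw [Nat.cast_pow, ← Real.rpow_natCast, ← Real.rpow_natCast, ← Real.rpow_mul (Nat.cast_nonneg _),
    ← Real.rpow_mul (Nat.cast_nonneg _)]
  congr 2
  ring

lemma aK_pow_le' (p : Nat.Primes) (e : ℕ) : (aK K ((p : ℕ) ^ e) : ℝ) ≤ ((e : ℝ) + 1) ^ dK K := by
  exact_mod_cast aK_pow_le K p.2 e

/-- the tail of the local factor -/
noncomputable def RK (ε : ℝ) (p : Nat.Primes) : ℝ := ∑' e : ℕ, tK K ε ((p : ℕ) ^ (e + 2))

lemma tail_le {ε : ℝ} (hε : 0 < ε) (p : Nat.Primes) (e : ℕ) :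
    tK K ε ((p : ℕ) ^ (e + 2)) ≤ xp ε p ^ 2 * (((e : ℝ) + 3) ^ dK K * (1 / 2) ^ e) := by
  rw [tK_pow]
  have h1 := aK_pow_le' K p (e + 2)
  have h2 : xp ε p ^ (e + 2) ≤ xp ε p ^ 2 * (1 / 2) ^ e := by
    rw [pow_add, mul_comm]
    exact mul_le_mul_of_nonneg_left (pow_le_pow_left₀ (xp_pos ε p).le (xp_le_half hε p) e) (by positivity)
  calc (aK K ((p : ℕ) ^ (e + 2)) : ℝ) * xp ε p ^ (e + 2)
      ≤ ((((e + 2 : ℕ) : ℝ)) + 1) ^ dK K * (xp ε p ^ 2 * (1 / 2) ^ e) :=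
        mul_le_mul h1 h2 (pow_nonneg (xp_pos ε p).le _) (by positivity)
    _ = xp ε p ^ 2 * (((e : ℝ) + 3) ^ dK K * (1 / 2) ^ e) := by
        push_cast
        rw [show (e : ℝ) + 2 + 1 = (e : ℝ) + 3 by ring]
        ring

lemma tail_summable {ε : ℝ} (hε : 0 < ε) (p : Nat.Primes) :
    Summable (fun e : ℕ => tK K ε ((p : ℕ) ^ (e + 2))) :=
  Summable.of_nonneg_of_le (fun e => tK_nonneg K ε _) (tail_le K hε p) ((AK_summable K).mul_left _)

lemma RK_nonneg (ε : ℝ) (p : Nat.Primes) : 0 ≤ RK K ε p := tsum_nonneg fun e => tK_nonneg K ε _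

lemma RK_le {ε : ℝ} (hε : 0 < ε) (p : Nat.Primes) : RK K ε p ≤ AK K * xp ε p ^ 2 := by
  unfold RK AK
  rw [mul_comm, ← tsum_mul_left]
  exact (tail_summable K hε p).tsum_le_tsum (tail_le K hε p) ((AK_summable K).mul_left _)

lemma local_eq {ε : ℝ} (hε : 0 < ε) (p : Nat.Primes) :
    ∑' e : ℕ, tK K ε ((p : ℕ) ^ e) = 1 + ((aK K p : ℝ) * xp ε p + RK K ε p) := by
  have h1 : Summable (fun e : ℕ => tK K ε ((p : ℕ) ^ e)) :=
    (summable_nat_add_iff 2).1 (tail_summable K hε p)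
  rw [← h1.sum_add_tsum_nat_add 2]
  unfold RK
  rw [sum_range_succ, sum_range_succ, sum_range_zero, pow_zero, tK_one]
  have := tK_pow K ε p 1
  rw [pow_one, pow_one] at this
  rw [pow_one, this]
  ring

/-- the constant -/
noncomputable def CK : ℝ := AK K + (2 ^ dK K + AK K) ^ 2

lemma aK_le (p : Nat.Primes) : (aK K p : ℝ) ≤ 2 ^ dK K := by
  have := aK_pow_le' K p 1
  rw [pow_one] at this
  refine this.trans (le_of_eq ?_)
  norm_num

lemma y_le {ε : ℝ} (hε : 0 < ε) (p : Nat.Primes) :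
    (aK K p : ℝ) * xp ε p + RK K ε p ≤ (2 ^ dK K + AK K) * xp ε p := by
  have h1 := mul_le_mul_of_nonneg_right (aK_le K p) (xp_pos ε p).le
  have h2 := RK_le K hε p
  have h3 := xp_le_half hε p
  have h4 : AK K * xp ε p ^ 2 ≤ AK K * xp ε p := by
    refine mul_le_mul_of_nonneg_left ?_ (AK_nonneg K)
    have := xp_pos ε p
    nlinarith
  linarith

lemma y_nonneg (ε : ℝ) (p : Nat.Primes) : 0 ≤ (aK K p : ℝ) * xp ε p + RK K ε p :=
  add_nonneg (mul_nonneg (Nat.cast_nonneg _) (xp_pos ε p).le) (RK_nonneg K ε p)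

lemma log_local {ε : ℝ} (hε : 0 < ε) (p : Nat.Primes) :
    |Real.log (∑' e : ℕ, tK K ε ((p : ℕ) ^ e)) - (aK K p : ℝ) * xp ε p| ≤
      CK K * ((p : ℕ) : ℝ) ^ (-2 : ℝ) := by
  rw [local_eq K hε p]
  set y := (aK K p : ℝ) * xp ε p + RK K ε p with hy
  have h0 : 0 ≤ y := y_nonneg K ε p
  have h1 : Real.log (1 + y) ≤ y := by
    have := Real.log_le_sub_one_of_pos (show 0 < 1 + y by linarith)
    linarith
  have h2 : y - y ^ 2 ≤ Real.log (1 + y) := by
    have h3 := Real.one_sub_inv_le_log_of_pos (show 0 < 1 + y by linarith)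
    refine le_trans ?_ h3
    have h4 : 1 - (1 + y)⁻¹ = y / (1 + y) := by field_simp; ring
    rw [h4, le_div_iff₀ (by linarith)]
    nlinarith [mul_nonneg h0 (mul_nonneg h0 h0)]
  have h5 : y ≤ (2 ^ dK K + AK K) * xp ε p := y_le K hε p
  have h6 : y ^ 2 ≤ (2 ^ dK K + AK K) ^ 2 * xp ε p ^ 2 := by
    rw [← mul_pow]; exact pow_le_pow_left₀ h0 h5 2
  have h7 := RK_le K hε p
  have h8 := RK_nonneg K ε p
  have h9 := xp_sq_le hε p
  have h10 : CK K * xp ε p ^ 2 ≤ CK K * ((p : ℕ) : ℝ) ^ (-2 : ℝ) :=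
    mul_le_mul_of_nonneg_left h9 (add_nonneg (AK_nonneg K) (sq_nonneg _))
  have h11 : CK K * xp ε p ^ 2 = AK K * xp ε p ^ 2 + (2 ^ dK K + AK K) ^ 2 * xp ε p ^ 2 := by
    unfold CK; ring
  have h12 : 0 ≤ AK K * xp ε p ^ 2 := mul_nonneg (AK_nonneg K) (sq_nonneg _)
  have h13 : 0 ≤ (2 ^ dK K + AK K) ^ 2 * xp ε p ^ 2 := by positivity
  rw [abs_le]
  constructor <;> linarith

lemma log_summable {ε : ℝ} (hε : 0 < ε) :
    Summable (fun p : Nat.Primes => Real.log (∑' e : ℕ, tK K ε ((p : ℕ) ^ e))) := by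
  have h1 : Summable (fun p : Nat.Primes => xp ε p) := Nat.Primes.summable_rpow.mpr (by linarith)
  refine Summable.of_nonneg_of_le (fun p => ?_) (fun p => ?_) (h1.mul_left (2 ^ dK K + AK K))
  · rw [local_eq K hε p]
    exact Real.log_nonneg (by linarith [y_nonneg K ε p])
  · rw [local_eq K hε p]
    have h2 := Real.log_le_sub_one_of_pos (show 0 < 1 + ((aK K p : ℝ) * xp ε p + RK K ε p) by
      linarith [y_nonneg K ε p])
    have := y_le K hε p
    linarith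

lemma log_zeta {ε : ℝ} (hε : 0 < ε) (hs : Summable (tK K ε)) :
    ∑' p : Nat.Primes, Real.log (∑' e : ℕ, tK K ε ((p : ℕ) ^ e)) = Real.log (∑' n, tK K ε n) := by
  have h1 : HasProd (fun p : Nat.Primes => ∑' e, tK K ε ((p : ℕ) ^ e)) (∑' n, tK K ε n) := by
    refine EulerProduct.eulerProduct_hasProd (tK_one K ε) (fun {m n} h => tK_mul K hε h) ?_
      (tK_zero K hε)
    refine hs.congr fun n => ?_
    rw [Real.norm_of_nonneg (tK_nonneg K ε n)]
  have h2 := Real.rexp_tsum_eq_tprod (f := fun p : Nat.Primes => ∑' e, tK K ε ((p : ℕ) ^ e))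
    (fun p => by rw [local_eq K hε p]; linarith [y_nonneg K ε p]) (log_summable K hε)
  rw [h1.tprod_eq] at h2
  rw [← h2, Real.log_exp]

/-- **The primes of degree one have the expected Dirichlet density.** -/
theorem LA_aK : LA (PS (fun p => (aK K p : ℝ))) 1 := by
  have hres := dedekindZeta_residue_pos K
  have h1 := tendsto_res K
  have h2 : Tendsto (fun ε : ℝ => Real.log (ε * ∑' n, tK K ε n)) (𝓝[>] 0)
      (𝓝 (Real.log (dedekindZeta_residue K))) := h1.log hres.ne'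
  have h3 := h2.abs.eventually (gt_mem_nhds (lt_add_one |Real.log (dedekindZeta_residue K)|))
  refine ⟨CK K * P2 + (|Real.log (dedekindZeta_residue K)| + 1), ?_⟩
  filter_upwards [h3, ev_summable K, self_mem_nhdsWithin, h1.eventually (lt_mem_nhds hres)]
    with ε h4 hs hε hpos
  have hε' : (0 : ℝ) < ε := hε
  have hz : 0 < ∑' n, tK K ε n := by
    by_contra hc
    push Not at hc
    have := mul_nonpos_of_nonneg_of_nonpos hε'.le hc
    linarith
  have h5 : Real.log (ε * ∑' n, tK K ε n) = Real.log ε + Real.log (∑' n, tK K ε n) :=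
    Real.log_mul hε'.ne' hz.ne'
  have hx : Summable (fun p : Nat.Primes => (aK K p : ℝ) * xp ε p) := by
    have := PS_summable (c := fun p => (aK K p : ℝ)) (B := 2 ^ dK K)
      (fun p => by rw [abs_of_nonneg (Nat.cast_nonneg _)]; exact aK_le K p) hε'
    exact this
  have h6 : |∑' p : Nat.Primes, Real.log (∑' e : ℕ, tK K ε ((p : ℕ) ^ e)) -
      PS (fun p => (aK K p : ℝ)) ε| ≤ CK K * P2 := by
    have h7 : PS (fun p => (aK K p : ℝ)) ε = ∑' p : Nat.Primes, (aK K p : ℝ) * xp ε p := rfl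
    rw [h7, ← (log_summable K hε').tsum_sub hx]
    have hd : Summable (fun p : Nat.Primes => CK K * ((p : ℕ) : ℝ) ^ (-2 : ℝ)) :=
      P2_summable.mul_left _
    have h8 : Summable (fun p : Nat.Primes => |Real.log (∑' e : ℕ, tK K ε ((p : ℕ) ^ e)) -
        (aK K p : ℝ) * xp ε p|) :=
      Summable.of_nonneg_of_le (fun p => abs_nonneg _) (log_local K hε') hd
    calc |∑' p : Nat.Primes, (Real.log (∑' e : ℕ, tK K ε ((p : ℕ) ^ e)) - (aK K p : ℝ) * xp ε p)|
        ≤ ∑' p : Nat.Primes, |Real.log (∑' e : ℕ, tK K ε ((p : ℕ) ^ e)) - (aK K p : ℝ) * xp ε p| := by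
          have := norm_tsum_le_tsum_norm (f := fun p : Nat.Primes =>
            Real.log (∑' e : ℕ, tK K ε ((p : ℕ) ^ e)) - (aK K p : ℝ) * xp ε p) (by simpa using h8)
          simpa using this
      _ ≤ ∑' p : Nat.Primes, CK K * ((p : ℕ) : ℝ) ^ (-2 : ℝ) := h8.tsum_le_tsum (log_local K hε') hd
      _ = CK K * P2 := by rw [tsum_mul_left]; rfl
  rw [log_zeta K hε' hs] at h6
  have h9 : PS (fun p => (aK K p : ℝ)) ε + 1 * Real.log ε =
      -(Real.log (∑' n, tK K ε n) - PS (fun p => (aK K p : ℝ)) ε) +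
        Real.log (ε * ∑' n, tK K ε n) := by rw [h5]; ring
  rw [h9]
  refine (abs_add_le _ _).trans (add_le_add ?_ h4.le)
  rw [abs_neg]
  exact h6

/-- the mean value of the number of primes of degree one -/
theorem MV_aK : MV (fun p => (aK K p : ℝ)) 1 :=
  ⟨⟨2 ^ dK K, fun p => by rw [abs_of_nonneg (Nat.cast_nonneg _)]; exact aK_le K p⟩, LA_aK K⟩

end Stoll308.Cheb
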