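import Mathlib
import Pool.Agent.Work.MP_308fa9_nt.ChebB

set_option autoImplicit false

/-! The number of primes of degree one above `p` as a number of roots, Frobenius elements. -/

namespace Stoll308.Cheb

open Ideal NumberField Polynomial

section homs

variable (K : Type*) [Field K] [NumberField K]

lemma absNorm_ker {p : ℕ} [hp : Fact p.Prime] (φ : 𝓞 K →+* ZMod p) :
    absNorm (RingHom.ker φ) = p := by
  rw [Ideal.absNorm_apply, Submodule.cardQuot_apply]
  have e := RingHom.quotientKerEquivOfSurjective (ZMod.ringHom_surjective φ)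
  exact (Nat.card_congr e.toEquiv).trans (Nat.card_zmod p)

theorem aK_eq_homs (p : ℕ) [hp : Fact p.Prime] : aK K p = Nat.card (𝓞 K →+* ZMod p) := by
  unfold aK
  symm
  refine Nat.card_congr (Equiv.ofBijective
    (fun φ : 𝓞 K →+* ZMod p => (⟨RingHom.ker φ, absNorm_ker K φ⟩ :
      {I : Ideal (𝓞 K) // absNorm I = p})) ⟨?_, ?_⟩)
  · intro φ ψ h
    simp only [Subtype.mk.injEq] at h
    ext x
    obtain ⟨n, hn⟩ := ZMod.intCast_surjective (φ x)
    have h1 : x - (n : 𝓞 K) ∈ RingHom.ker φ := by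
      rw [RingHom.mem_ker, map_sub, map_intCast, hn, sub_self]
    rw [h, RingHom.mem_ker, map_sub, map_intCast, hn] at h1
    exact (sub_eq_zero.1 h1).symm
  · rintro ⟨I, hI⟩
    have h1 : Nat.card (𝓞 K ⧸ I) = p := by
      rw [← hI, Ideal.absNorm_apply, Submodule.cardQuot_apply]
    have hfin : Finite (𝓞 K ⧸ I) := Nat.finite_of_card_ne_zero (by rw [h1]; exact hp.out.ne_zero)
    have := Fintype.ofFinite (𝓞 K ⧸ I)
    rw [Nat.card_eq_fintype_card] at h1
    let e := ZMod.ringEquivOfPrime (𝓞 K ⧸ I) hp.out h1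
    refine ⟨(e.symm : (𝓞 K ⧸ I) →+* ZMod p).comp (Ideal.Quotient.mk I), ?_⟩
    apply Subtype.ext
    ext x
    simp only [RingHom.mem_ker, RingHom.comp_apply]
    rw [RingHom.coe_coe, map_eq_zero_iff _ e.symm.injective, Ideal.Quotient.eq_zero_iff_mem]

end homs

section roots

variable {K : Type*} [Field K] [NumberField K]

/-- the number of roots of `f` modulo `p` -/
noncomputable def nroots (f : ℤ[X]) (p : ℕ) : ℕ :=
  Nat.card {r : ZMod p // (f.map (Int.castRingHom (ZMod p))).IsRoot r}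

open RingOfIntegers in
theorem homs_eq_roots (θ : 𝓞 K) (p : ℕ) [hp : Fact p.Prime] (hpe : ¬ p ∣ exponent θ) :
    Nat.card (𝓞 K →+* ZMod p) = nroots (minpoly ℤ θ) p := by
  unfold nroots
  have hroot : ∀ φ : 𝓞 K →+* ZMod p,
      ((minpoly ℤ θ).map (Int.castRingHom (ZMod p))).IsRoot (φ θ) := by
    intro φ
    rw [IsRoot.def, eval_map]
    have h1 : (Int.castRingHom (ZMod p)) = φ.comp (Int.castRingHom (𝓞 K)) := RingHom.ext_int _ _
    rw [h1, ← hom_eval₂]
    have h2 : eval₂ (Int.castRingHom (𝓞 K)) θ (minpoly ℤ θ) = 0 := minpoly.aeval ℤ θ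
    rw [h2, map_zero]
  refine Nat.card_congr (Equiv.ofBijective
    (fun φ : 𝓞 K →+* ZMod p => (⟨φ θ, hroot φ⟩ :
      {r : ZMod p // ((minpoly ℤ θ).map (Int.castRingHom (ZMod p))).IsRoot r})) ⟨?_, ?_⟩)
  · intro φ ψ h
    simp only [Subtype.mk.injEq] at h
    ext x
    obtain ⟨y, hy⟩ := Ideal.Quotient.mk_surjective
      ((ZModXQuotSpanEquivQuotSpan hpe).symm (Ideal.Quotient.mk _ x))
    obtain ⟨Q, hQ⟩ := map_surjective _ (ZMod.ringHom_surjective (Int.castRingHom (ZMod p))) y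
    rw [← hQ] at hy
    have h1 := congrArg (ZModXQuotSpanEquivQuotSpan hpe) hy
    rw [ZModXQuotSpanEquivQuotSpan_mk_apply, RingEquiv.apply_symm_apply] at h1
    have h2 : aeval θ Q - x ∈ span {(p : 𝓞 K)} := (Ideal.Quotient.eq.1 h1)
    rw [mem_span_singleton'] at h2
    obtain ⟨z, hz⟩ := h2
    have h3 : x = aeval θ Q - z * p := by rw [hz]; ring
    have h4 : ∀ χ : 𝓞 K →+* ZMod p, χ x = eval₂ (Int.castRingHom (ZMod p)) (χ θ) Q := by
      intro χ
      have h5 : (Int.castRingHom (ZMod p)) = χ.comp (Int.castRingHom (𝓞 K)) :=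
        RingHom.ext_int _ _
      rw [h3, map_sub, map_mul, map_natCast, CharP.cast_eq_zero, mul_zero, sub_zero, h5,
        ← hom_eval₂]
      rfl
    rw [h4, h4, h]
  · rintro ⟨r, hr⟩
    have h0 : ∀ a ∈ span {(minpoly ℤ θ).map (Int.castRingHom (ZMod p))}, evalRingHom r a = 0 := by
      intro a ha
      rw [mem_span_singleton'] at ha
      obtain ⟨b, hb⟩ := ha
      rw [← hb, map_mul, coe_evalRingHom]
      rw [IsRoot.def] at hr
      simp [hr]
    let ψ : (ZMod p)[X] ⧸ span {(minpoly ℤ θ).map (Int.castRingHom (ZMod p))} →+* ZMod p :=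
      Ideal.Quotient.lift _ (evalRingHom r) h0
    refine ⟨(ψ.comp ((ZModXQuotSpanEquivQuotSpan hpe).symm.toRingHom)).comp
      (Ideal.Quotient.mk (span {(p : 𝓞 K)})), ?_⟩
    apply Subtype.ext
    have h1 := ZModXQuotSpanEquivQuotSpan_mk_apply hpe X
    rw [aeval_X, Polynomial.map_X] at h1
    change ψ ((ZModXQuotSpanEquivQuotSpan hpe).symm (Ideal.Quotient.mk (span {(p : 𝓞 K)}) θ)) = r
    rw [← h1, RingEquiv.symm_apply_apply]
    simp [ψ]

/-- The exponent of a primitive element is not zero. -/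
theorem exponent_ne_zero (θ : 𝓞 K) (h : Algebra.adjoin ℚ {(θ : K)} = ⊤) :
    RingOfIntegers.exponent θ ≠ 0 := by
  have hint : IsIntegral ℚ (θ : K) := IsIntegral.of_finite ℚ _
  let B : PowerBasis ℚ K := PowerBasis.ofAdjoinEqTop hint h
  have hgen : B.gen = (θ : K) := PowerBasis.ofAdjoinEqTop_gen hint h
  have hgi : IsIntegral ℤ B.gen := by rw [hgen]; exact θ.isIntegral_coe
  have hd : IsIntegral ℤ (Algebra.discr ℚ B.basis) := by
    apply Algebra.discr_isIntegral
    intro i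
    rw [B.coe_basis]
    exact hgi.pow _
  obtain ⟨d, hd⟩ := IsIntegrallyClosed.isIntegral_iff.1 hd
  have hd0 : d ≠ 0 := by
    rintro rfl
    have := Algebra.discr_not_zero_of_basis ℚ B.basis
    rw [← hd] at this
    simp at this
  rw [RingOfIntegers.exponent_eq_sInf]
  have hmem : ∀ x : 𝓞 K, ((d.natAbs : 𝓞 K)) * x ∈ Algebra.adjoin ℤ {θ} := by
    intro x
    have h1 := Algebra.discr_mul_isIntegral_mem_adjoin ℚ (B := B) hgi (z := (x : K))
      x.isIntegral_coe
    rw [← hd, hgen] at h1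
    have h2 : Algebra.adjoin ℤ {(θ : K)} =
        (Algebra.adjoin ℤ {θ}).map (IsScalarTower.toAlgHom ℤ (𝓞 K) K) := by
      rw [AlgHom.map_adjoin, Set.image_singleton]
      rfl
    rw [h2, Subalgebra.mem_map] at h1
    obtain ⟨y, hy, hyx⟩ := h1
    have h3 : y = (d : 𝓞 K) * x := by
      apply RingOfIntegers.ext
      refine hyx.trans ?_
      simp [Algebra.smul_def]
    rw [h3] at hy
    clear hd
    rcases d.eq_nat_or_neg with ⟨n, h4 | h4⟩
    · subst h4
      rw [Int.cast_natCast] at hy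
      rw [Int.natAbs_natCast]
      exact hy
    · subst h4
      rw [Int.cast_neg, Int.cast_natCast, neg_mul] at hy
      have := (Algebra.adjoin ℤ {θ}).neg_mem hy
      rw [neg_neg] at this
      rw [Int.natAbs_neg, Int.natAbs_natCast]
      exact this
  have hne : {e : ℕ | 0 < e ∧ (e : 𝓞 K) ∈ conductor ℤ θ}.Nonempty := by
    refine ⟨d.natAbs, Int.natAbs_pos.2 hd0, ?_⟩
    intro x
    exact hmem x
  have := Nat.sInf_mem hne
  exact this.1.ne'

end roots

section frob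

variable (L : Type*) [Field L] [NumberField L]

/-- `σ` is a Frobenius element at the prime `P` of `L` above `p`. -/
structure IsFrob (p : ℕ) (P : Ideal (𝓞 L)) (σ : L ≃ₐ[ℚ] L) : Prop where
  prime : P.IsPrime
  mem : (p : 𝓞 L) ∈ P
  spec : ∀ x : 𝓞 L, σ • x - x ^ p ∈ P

theorem exists_frob [IsGalois ℚ L] (p : ℕ) [hp : Fact p.Prime] :
    ∃ (P : Ideal (𝓞 L)) (σ : L ≃ₐ[ℚ] L), IsFrob L p P σ := by
  have hne : span {(p : 𝓞 L)} ≠ ⊤ := by
    intro h
    have h1 : absNorm (span {(p : 𝓞 L)}) = 1 := by rw [h, absNorm_top]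
    rw [absNorm_span_natCast] at h1
    have h2 : 0 < Module.finrank ℤ (𝓞 L) := Module.finrank_pos
    exact absurd h1 (Nat.one_lt_pow h2.ne' hp.out.one_lt).ne'
  obtain ⟨P, hP, hle⟩ := Ideal.exists_le_maximal _ hne
  have hmem : (p : 𝓞 L) ∈ P := hle (mem_span_singleton_self _)
  have hP0 : P ≠ ⊥ := by
    rintro rfl
    rw [Ideal.mem_bot] at hmem
    exact hp.out.ne_zero (by exact_mod_cast hmem)
  have hfin : Finite (𝓞 L ⧸ P) := Ideal.finiteQuotientOfFreeOfNeBot P hP0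
  have hunder : P.under ℤ = span {(p : ℤ)} := by
    have h1 : (span {(p : ℤ)}).IsMaximal := Int.ideal_span_isMaximal_of_prime p
    symm
    apply h1.eq_of_le
    · exact (Ideal.IsPrime.under ℤ P).ne_top
    · rw [span_singleton_le_iff_mem, Ideal.mem_comap]
      simpa using hmem
  have hcard : Nat.card (ℤ ⧸ P.under ℤ) = p := by
    rw [hunder]
    exact (Nat.card_congr (Int.quotientSpanNatEquivZMod p).toEquiv).trans (Nat.card_zmod p)
  have : IsGaloisGroup (L ≃ₐ[ℚ] L) ℤ (𝓞 L) := IsGaloisGroup.of_isFractionRing _ ℤ (𝓞 L) ℚ L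
  obtain ⟨σ, hσ⟩ := IsArithFrobAt.exists_of_isInvariant ℤ (L ≃ₐ[ℚ] L) P
  refine ⟨P, σ, hP.isPrime, hmem, fun x => ?_⟩
  have := hσ x
  rw [hcard] at this
  exact this

end frob

section count

variable {L : Type*} [Field L] [NumberField L] {p : ℕ} [hp : Fact p.Prime] {P : Ideal (𝓞 L)}
  {σ : L ≃ₐ[ℚ] L}

lemma IsFrob.int_mem (h : IsFrob L p P σ) (n : ℤ) : (n : 𝓞 L) ∈ P ↔ (p : ℤ) ∣ n := by
  constructor
  · intro hn
    by_contra hcon
    have h1 : IsCoprime (p : ℤ) n := (Nat.prime_iff_prime_int.1 hp.out).coprime_iff_not_dvd.2 hcon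
    obtain ⟨a, b, hab⟩ := h1
    have h2 : (1 : 𝓞 L) = (a : 𝓞 L) * (p : 𝓞 L) + (b : 𝓞 L) * (n : 𝓞 L) := by
      have := congrArg (fun z : ℤ => (z : 𝓞 L)) hab
      push_cast at this
      exact this.symm
    have h3 : (1 : 𝓞 L) ∈ P := by
      rw [h2]
      exact P.add_mem (P.mul_mem_left _ h.mem) (P.mul_mem_left _ hn)
    exact h.prime.ne_top ((Ideal.eq_top_iff_one P).2 h3)
  · rintro ⟨k, rfl⟩
    push_cast
    exact P.mul_mem_right _ h.mem

/-- an element fixed by Frobenius modulo `P` is congruent to an integer -/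
lemma IsFrob.exists_int (h : IsFrob L p P σ) {x : 𝓞 L} (hx : x ^ p - x ∈ P) :
    ∃ n : ℤ, x - n ∈ P := by
  have hP0 : P ≠ ⊥ := by
    rintro rfl
    have := h.mem
    rw [Ideal.mem_bot] at this
    exact hp.out.ne_zero (by exact_mod_cast this)
  have hpr := h.prime
  have hmax : P.IsMaximal := hpr.isMaximal hP0
  let _ := Ideal.Quotient.field P
  have hchar : CharP (𝓞 L ⧸ P) p := by
    refine ⟨fun k => ?_⟩
    have h1 := h.int_mem (k : ℤ)
    rw [Int.natCast_dvd_natCast] at h1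
    rw [← h1, ← Ideal.Quotient.eq_zero_iff_mem]
    simp
  have h1 : Ideal.Quotient.mk P x ∈ (⊥ : Subfield (𝓞 L ⧸ P)) := by
    rw [Subfield.mem_bot_iff_pow_eq_self (𝓞 L ⧸ P) p, ← map_pow, Ideal.Quotient.eq]
    exact hx
  rw [mem_bot_iff_intCast p] at h1
  obtain ⟨n, hn⟩ := h1
  refine ⟨n, ?_⟩
  rw [← Ideal.Quotient.eq, ← hn]
  simp

variable {ι : Type*} [Fintype ι] {θ : ι → 𝓞 L} {f : ℤ[X]}

/-- `σ` fixes `θ_i` if and only if `θ_i` is congruent to an integer. -/
lemma IsFrob.fix_iff (h : IsFrob L p P σ) (hfac : f.map (Int.castRingHom (𝓞 L)) =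
    ∏ i, (X - C (θ i))) (hd : ∀ i j, i ≠ j → θ i - θ j ∉ P) (i : ι) :
    σ • θ i = θ i ↔ ∃ n : ℤ, θ i - n ∈ P := by
  constructor
  · intro h1
    apply h.exists_int
    have h2 := h.spec (θ i)
    rw [h1] at h2
    have := P.neg_mem h2
    rwa [neg_sub] at this
  · rintro ⟨n, hn⟩
    -- `σ θ_i` is a root
    have h1 : ∃ j, σ • θ i = θ j := by
      have h2 : eval₂ (Int.castRingHom (𝓞 L)) (σ • θ i) f = 0 := by
        have h3 : eval₂ (Int.castRingHom (𝓞 L)) (θ i) f = 0 := by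
          rw [← eval_map, hfac, eval_prod]
          exact Finset.prod_eq_zero (Finset.mem_univ i) (by simp)
        have h4 := congrArg (MulSemiringAction.toRingHom (L ≃ₐ[ℚ] L) (𝓞 L) σ) h3
        rw [hom_eval₂, map_zero] at h4
        have h5 : (MulSemiringAction.toRingHom (L ≃ₐ[ℚ] L) (𝓞 L) σ).comp
          (Int.castRingHom (𝓞 L)) = Int.castRingHom (𝓞 L) := RingHom.ext_int _ _
        rw [h5] at h4
        exact h4
      rw [← eval_map, hfac, eval_prod, Finset.prod_eq_zero_iff] at h2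
      obtain ⟨j, _, hj⟩ := h2
      refine ⟨j, ?_⟩
      simpa [sub_eq_zero] using hj
    obtain ⟨j, hj⟩ := h1
    by_contra hcon
    have hij : j ≠ i := by
      rintro rfl
      exact hcon hj
    apply hd j i hij
    rw [← hj]
    have hq : Ideal.Quotient.mk P (θ i) = Ideal.Quotient.mk P (n : 𝓞 L) := Ideal.Quotient.eq.2 hn
    have h3 : Ideal.Quotient.mk P (σ • θ i) = Ideal.Quotient.mk P (θ i ^ p) :=
      Ideal.Quotient.eq.2 (h.spec _)
    rw [← Ideal.Quotient.eq, h3, map_pow, hq, ← map_pow, Ideal.Quotient.eq, ← Int.cast_pow,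
      ← Int.cast_sub, h.int_mem]
    have := ZMod.pow_card ((n : ℤ) : ZMod p)
    rw [← sub_eq_zero, ← Int.cast_pow, ← Int.cast_sub, ZMod.intCast_zmod_eq_zero_iff_dvd] at this
    exact this

lemma IsFrob.root_iff (h : IsFrob L p P σ) (hfac : f.map (Int.castRingHom (𝓞 L)) =
    ∏ i, (X - C (θ i))) (n : ℤ) :
    (f.map (Int.castRingHom (ZMod p))).IsRoot (n : ZMod p) ↔ ∃ i, θ i - n ∈ P := by
  have hpr := h.prime
  have h1 : ((f.eval n : ℤ) : 𝓞 L) = ∏ i, ((n : 𝓞 L) - θ i) := by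
    have h2 : eval (n : 𝓞 L) (f.map (Int.castRingHom (𝓞 L))) = ((f.eval n : ℤ) : 𝓞 L) := by
      rw [eval_intCast_map (Int.castRingHom (𝓞 L)) f n, eq_intCast, Int.cast_id]
    rw [← h2, hfac, eval_prod]
    simp
  have h3 : (f.map (Int.castRingHom (ZMod p))).IsRoot (n : ZMod p) ↔ (p : ℤ) ∣ f.eval n := by
    rw [IsRoot.def, ← ZMod.intCast_zmod_eq_zero_iff_dvd]
    have := eval_intCast_map (Int.castRingHom (ZMod p)) f n
    rw [this, eq_intCast, Int.cast_id]
  rw [h3, ← h.int_mem, h1, hpr.prod_mem_iff]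
  constructor
  · rintro ⟨i, _, hi⟩
    refine ⟨i, ?_⟩
    have := P.neg_mem hi
    rwa [neg_sub] at this
  · rintro ⟨i, hi⟩
    refine ⟨i, Finset.mem_univ i, ?_⟩
    have := P.neg_mem hi
    rwa [neg_sub] at this

/-- The number of roots modulo `p` is the number of roots fixed by Frobenius. -/
theorem IsFrob.nroots_eq (h : IsFrob L p P σ) (hfac : f.map (Int.castRingHom (𝓞 L)) =
    ∏ i, (X - C (θ i))) (hd : ∀ i j, i ≠ j → θ i - θ j ∉ P) :
    nroots f p = Nat.card {i // σ • θ i = θ i} := by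
  classical
  unfold nroots
  symm
  have hex : ∀ i : {i // σ • θ i = θ i}, ∃ n : ℤ, θ i.1 - n ∈ P :=
    fun i => (h.fix_iff hfac hd i.1).1 i.2
  choose n hn using hex
  refine Nat.card_congr (Equiv.ofBijective (fun i : {i // σ • θ i = θ i} =>
    (⟨(n i : ZMod p), (h.root_iff hfac (n i)).2 ⟨i.1, hn i⟩⟩ :
      {r : ZMod p // (f.map (Int.castRingHom (ZMod p))).IsRoot r})) ⟨?_, ?_⟩)
  · intro i j hij
    simp only [Subtype.mk.injEq] at hij
    rw [← sub_eq_zero, ← Int.cast_sub, ZMod.intCast_zmod_eq_zero_iff_dvd, ← h.int_mem] at hij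
    by_contra hne
    apply hd i.1 j.1 (fun h => hne (Subtype.ext h))
    have : θ i.1 - θ j.1 = (θ i.1 - n i) + ((n i - n j : ℤ) : 𝓞 L) - (θ j.1 - n j) := by
      push_cast; ring
    rw [this]
    exact P.sub_mem (P.add_mem (hn i) hij) (hn j)
  · rintro ⟨r, hr⟩
    obtain ⟨m, rfl⟩ := ZMod.intCast_surjective r
    obtain ⟨i, hi⟩ := (h.root_iff hfac m).1 hr
    refine ⟨⟨i, (h.fix_iff hfac hd i).2 ⟨m, hi⟩⟩, ?_⟩
    apply Subtype.ext
    simp only
    rw [← sub_eq_zero, ← Int.cast_sub, ZMod.intCast_zmod_eq_zero_iff_dvd, ← h.int_mem]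
    have : ((n ⟨i, (h.fix_iff hfac hd i).2 ⟨m, hi⟩⟩ - m : ℤ) : 𝓞 L) = (θ i - m) -
        (θ i - n ⟨i, (h.fix_iff hfac hd i).2 ⟨m, hi⟩⟩) := by push_cast; ring
    rw [this]
    exact P.sub_mem hi (hn ⟨i, (h.fix_iff hfac hd i).2 ⟨m, hi⟩⟩)

end count

section orbit

variable {L : Type*} [Field L] [NumberField L]

lemma IsFrob.not_mem {p : ℕ} [hp : Fact p.Prime] {P : Ideal (𝓞 L)} {σ : L ≃ₐ[ℚ] L}
    (h : IsFrob L p P σ) {x : 𝓞 L} (hx : ¬ p ∣ absNorm (span {x})) : x ∉ P := by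
  intro hmem
  apply hx
  have h1 : absNorm P ∣ absNorm (span {x}) := absNorm_dvd_absNorm_of_le (by
    rwa [span_singleton_le_iff_mem])
  exact (p_dvd_absNorm L hp.out h.prime h.mem).trans h1

variable [IsGalois ℚ L]

/-- The minimal polynomial is the product over the orbit. -/
theorem minpoly_factor (α : 𝓞 L) (s : Finset (𝓞 L))
    (hs : ∀ x, x ∈ s ↔ x ∈ MulAction.orbit (L ≃ₐ[ℚ] L) α) :
    (minpoly ℤ α).map (Int.castRingHom (𝓞 L)) = ∏ x : s, (X - C x.1) := by
  rw [Finset.prod_coe_sort s (fun x => X - C x)]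
  apply Polynomial.map_injective (algebraMap (𝓞 L) L) RingOfIntegers.coe_injective
  have h1 : (algebraMap (𝓞 L) L).comp (Int.castRingHom (𝓞 L)) =
      (algebraMap ℚ L).comp (algebraMap ℤ ℚ) := RingHom.ext_int _ _
  rw [Polynomial.map_map, h1, ← Polynomial.map_map,
    ← minpoly.isIntegrallyClosed_eq_field_fractions ℚ L α.isIntegral]
  have hint : IsIntegral ℚ (algebraMap (𝓞 L) L α) := IsIntegral.of_finite ℚ _
  have hmon : ((minpoly ℚ (algebraMap (𝓞 L) L α)).map (algebraMap ℚ L)).Monic :=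
    (minpoly.monic hint).map _
  have hsep : ((minpoly ℚ (algebraMap (𝓞 L) L α)).map (algebraMap ℚ L)).Separable :=
    Polynomial.Separable.map (IsGalois.separable ℚ (algebraMap (𝓞 L) L α))
  rw [(IsGalois.splits ℚ (algebraMap (𝓞 L) L α)).eq_prod_roots_of_monic hmon, Polynomial.map_prod]
  have hroots : ((minpoly ℚ (algebraMap (𝓞 L) L α)).map (algebraMap ℚ L)).roots =
      (s.map ⟨algebraMap (𝓞 L) L, RingOfIntegers.coe_injective⟩).val := by
    rw [Multiset.Nodup.ext (nodup_roots hsep) (Finset.nodup _)]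
    intro a
    rw [mem_roots hmon.ne_zero, IsRoot.def, eval_map, Finset.mem_val, Finset.mem_map]
    constructor
    · intro ha
      have h2 : minpoly ℚ a = minpoly ℚ (algebraMap (𝓞 L) L α) :=
        (minpoly.eq_of_irreducible_of_monic (minpoly.irreducible hint) ha
          (minpoly.monic hint)).symm
      rw [Normal.minpoly_eq_iff_mem_orbit] at h2
      obtain ⟨g, hg⟩ := h2
      refine ⟨g • α, (hs _).2 ⟨g, rfl⟩, ?_⟩
      rw [← hg]
      rfl
    · rintro ⟨x, hx, rfl⟩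
      obtain ⟨g, rfl⟩ := (hs x).1 hx
      have h2 : minpoly ℚ (g (algebraMap (𝓞 L) L α)) = minpoly ℚ (algebraMap (𝓞 L) L α) :=
        minpoly.algEquiv_eq g _
      rw [← h2]
      exact minpoly.aeval ℚ (g (algebraMap (𝓞 L) L α))
  rw [hroots, Finset.map_val, Multiset.map_map]
  calc (Multiset.map ((fun a => X - C a) ∘ _) s.val).prod
      = ∏ x ∈ s, (X - C (algebraMap (𝓞 L) L x)) := rfl
    _ = ∏ x ∈ s, Polynomial.map (algebraMap (𝓞 L) L) (X - C x) :=
        Finset.prod_congr rfl fun x _ => by simp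

lemma exists_integral_primitive (K : Type*) [Field K] [NumberField K] :
    ∃ α : 𝓞 K, Algebra.adjoin ℚ {(α : K)} = ⊤ := by
  obtain ⟨a, ha⟩ := Field.exists_primitive_element ℚ K
  have halg : IsAlgebraic ℤ a :=
    (IsFractionRing.isAlgebraic_iff ℤ ℚ K).2 (Algebra.IsAlgebraic.isAlgebraic a)
  obtain ⟨y, hy, hint⟩ := halg.exists_integral_multiple
  refine ⟨⟨y • a, hint⟩, ?_⟩
  change Algebra.adjoin ℚ {y • a} = ⊤
  have h1 : Algebra.adjoin ℚ {a} = ⊤ := by
    rw [← IntermediateField.adjoin_simple_toSubalgebra_of_isAlgebraic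
      (Algebra.IsAlgebraic.isAlgebraic a), ha]
    exact IntermediateField.top_toSubalgebra
  rw [eq_top_iff, ← h1]
  apply Algebra.adjoin_le
  rw [Set.singleton_subset_iff, SetLike.mem_coe]
  have h2 : a = (y : ℚ)⁻¹ • (y • a) := by
    rw [← Int.cast_smul_eq_zsmul ℚ y a, smul_smul, inv_mul_cancel₀ (by exact_mod_cast hy), one_smul]
  have h3 := (Algebra.adjoin ℚ {y • a}).smul_mem
    (Algebra.self_mem_adjoin_singleton ℚ (y • a)) ((y : ℚ)⁻¹)
  rwa [← h2] at h3

/-- **Degree one primes in the fixed field of `H`** -/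
theorem aK_fixed (H : Subgroup (L ≃ₐ[ℚ] L)) : ∃ N : ℕ, N ≠ 0 ∧ ∀ (p : ℕ) [Fact p.Prime],
    ¬ p ∣ N → ∀ (P : Ideal (𝓞 L)) (σ : L ≃ₐ[ℚ] L), IsFrob L p P σ →
      aK (IntermediateField.fixedField H) p = Nat.card {x : (L ≃ₐ[ℚ] L) ⧸ H // σ • x = x} := by
  classical
  set K := IntermediateField.fixedField H with hK
  obtain ⟨α₀, hα₀⟩ := exists_integral_primitive K
  set α : 𝓞 L := algebraMap (𝓞 K) (𝓞 L) α₀ with hα
  have hfin : (MulAction.orbit (L ≃ₐ[ℚ] L) α).Finite := Set.finite_range _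
  set s := hfin.toFinset with hs
  have hmem : ∀ x, x ∈ s ↔ x ∈ MulAction.orbit (L ≃ₐ[ℚ] L) α := fun x => by
    rw [hs, Set.Finite.mem_toFinset]
  have hcoe : (algebraMap (𝓞 L) L α) = algebraMap K L (α₀ : K) := by
    rw [hα, ← IsScalarTower.algebraMap_apply (𝓞 K) (𝓞 L) L]
    exact IsScalarTower.algebraMap_apply (𝓞 K) K L α₀
  have hstab : MulAction.stabilizer (L ≃ₐ[ℚ] L) α = H := by
    ext g
    rw [MulAction.mem_stabilizer_iff, ← IntermediateField.fixingSubgroup_fixedField H, ← hK,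
      IntermediateField.mem_fixingSubgroup_iff]
    constructor
    · intro hg x hx
      have h1 : (⟨x, hx⟩ : K) ∈ Algebra.adjoin ℚ {(α₀ : K)} := by rw [hα₀]; trivial
      have h2 : ∀ z ∈ Algebra.adjoin ℚ {(α₀ : K)}, g (algebraMap K L z) = algebraMap K L z := by
        intro z hz
        induction hz using Algebra.adjoin_induction with
        | mem z hz =>
          rw [Set.mem_singleton_iff] at hz
          rw [hz, ← hcoe]
          exact congrArg (algebraMap (𝓞 L) L) hg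
        | algebraMap r => simp
        | add a b _ _ ha hb => rw [map_add, map_add, ha, hb]
        | mul a b _ _ ha hb => rw [map_mul, map_mul, ha, hb]
      exact h2 _ h1
    · intro hg
      apply RingOfIntegers.ext
      have h1 : ((g • α : 𝓞 L) : L) = g (algebraMap (𝓞 L) L α) := rfl
      rw [h1, hcoe]
      exact hg _ (α₀ : K).2
  have hmin : minpoly ℤ α = minpoly ℤ α₀ :=
    minpoly.algebraMap_eq (FaithfulSMul.algebraMap_injective (𝓞 K) (𝓞 L)) α₀
  refine ⟨RingOfIntegers.exponent α₀ * ∏ x ∈ s, ∏ y ∈ s.erase x, absNorm (span {x - y}),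
    mul_ne_zero (exponent_ne_zero α₀ hα₀) ?_, ?_⟩
  · rw [Finset.prod_ne_zero_iff]
    intro x _
    rw [Finset.prod_ne_zero_iff]
    intro y hy
    rw [Finset.mem_erase] at hy
    rw [absNorm_ne_zero_iff_mem_nonZeroDivisors, mem_nonZeroDivisors_iff_ne_zero, Ne,
      Ideal.zero_eq_bot, span_singleton_eq_bot, sub_eq_zero]
    exact fun h => hy.1 h.symm
  · intro p hp hpN P σ h
    rw [aK_eq_homs, homs_eq_roots α₀ p fun hd => hpN (hd.mul_right _), ← hmin,
      h.nroots_eq (minpoly_factor α s hmem)]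
    · have h1 : Nat.card {x : (L ≃ₐ[ℚ] L) ⧸ H // σ • x = x} =
          Nat.card {x : (L ≃ₐ[ℚ] L) ⧸ MulAction.stabilizer (L ≃ₐ[ℚ] L) α // σ • x = x} := by
        rw [hstab]
      rw [h1]
      let e : (L ≃ₐ[ℚ] L) ⧸ MulAction.stabilizer (L ≃ₐ[ℚ] L) α ≃ s :=
        (MulAction.orbitEquivQuotientStabilizer (L ≃ₐ[ℚ] L) α).symm.trans
          (Equiv.subtypeEquivRight hmem).symm
      have he : ∀ g : L ≃ₐ[ℚ] L, ((e (QuotientGroup.mk g)).1 : 𝓞 L) = g • α := by
        intro g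
        exact MulAction.orbitEquivQuotientStabilizer_symm_apply (L ≃ₐ[ℚ] L) α g
      symm
      refine Nat.card_congr (Equiv.subtypeEquiv e ?_)
      intro q
      obtain ⟨g, rfl⟩ := QuotientGroup.mk_surjective q
      rw [← e.injective.eq_iff, Subtype.ext_iff, he]
      have h2 : σ • (QuotientGroup.mk g : (L ≃ₐ[ℚ] L) ⧸ MulAction.stabilizer (L ≃ₐ[ℚ] L) α) =
        QuotientGroup.mk (σ * g) := rfl
      rw [h2, he, mul_smul]
    · rintro ⟨x, hx⟩ ⟨y, hy⟩ hxy
      apply h.not_mem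
      intro hd
      apply hpN
      apply Dvd.dvd.mul_left
      refine hd.trans (dvd_trans ?_ (Finset.dvd_prod_of_mem _ hx))
      exact Finset.dvd_prod_of_mem (fun y => absNorm (span {x - y}))
        (Finset.mem_erase.2 ⟨fun h => hxy (Subtype.ext h.symm), hy⟩)

end orbit

end Stoll308.Cheb
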