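import Mathlib
import Pool.Agent.Work.MP_308fa9_nt.ChebC

set_option autoImplicit false

/-! Mean values of class functions at Frobenius elements. -/

namespace Stoll308.Cheb

open Finset

section group

variable {G : Type*} [Group G]

/-- fixed points of `σ` on `G/H` -/
noncomputable def fx (H : Subgroup G) (σ : G) : ℝ := (Nat.card {x : G ⧸ H // σ • x = x} : ℝ)

lemma fx_nonneg (H : Subgroup G) (σ : G) : 0 ≤ fx H σ := by unfold fx; positivity

lemma fx_conj (H : Subgroup G) (g σ : G) : fx H (g * σ * g⁻¹) = fx H σ := by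
  unfold fx
  norm_cast
  refine Nat.card_congr (Equiv.subtypeEquiv (MulAction.toPerm g⁻¹) ?_)
  intro x
  rw [MulAction.toPerm_apply]
  constructor
  · intro h
    calc σ • g⁻¹ • x = g⁻¹ • ((g * σ * g⁻¹) • x) := by
          rw [smul_smul, smul_smul]; group
      _ = g⁻¹ • x := by rw [h]
  · intro h
    calc (g * σ * g⁻¹) • x = g • (σ • g⁻¹ • x) := by rw [smul_smul, smul_smul, mul_assoc]
      _ = x := by rw [h, smul_inv_smul]

lemma fx_div (H : Subgroup G) {σ τ : G} (h : Subgroup.zpowers σ = Subgroup.zpowers τ) :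
    fx H σ = fx H τ := by
  unfold fx
  norm_cast
  have key : ∀ {σ τ : G}, Subgroup.zpowers σ = Subgroup.zpowers τ → ∀ x : G ⧸ H,
      σ • x = x → τ • x = x := by
    intro σ τ h x hx
    have h1 : τ ∈ Subgroup.zpowers σ := h ▸ Subgroup.mem_zpowers τ
    obtain ⟨k, rfl⟩ := Subgroup.mem_zpowers_iff.1 h1
    have h2 : σ ∈ MulAction.stabilizer G x := hx
    exact (MulAction.stabilizer G x).zpow_mem h2 k
  exact Nat.card_congr (Equiv.subtypeEquivRight fun x => ⟨key h x, key h.symm x⟩)

lemma fx_ne_zero {τ σ : G} (h : fx (Subgroup.zpowers τ) σ ≠ 0) :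
    ∃ g : G, g⁻¹ * σ * g ∈ Subgroup.zpowers τ := by
  unfold fx at h
  have h := Nat.card_ne_zero.1 (Nat.cast_ne_zero.1 h)
  obtain ⟨⟨x, hx⟩⟩ := h.1
  obtain ⟨g, rfl⟩ := QuotientGroup.mk_surjective x
  refine ⟨g, ?_⟩
  have h2 : (QuotientGroup.mk (σ * g) : G ⧸ Subgroup.zpowers τ) = QuotientGroup.mk g := hx
  have h3 := QuotientGroup.eq.1 h2.symm
  rwa [← mul_assoc] at h3

variable [Fintype G]

lemma fx_self_pos (τ : G) : 0 < fx (Subgroup.zpowers τ) τ := by
  unfold fx
  have : 0 < Nat.card {x : G ⧸ Subgroup.zpowers τ // τ • x = x} := by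
    rw [Nat.card_pos_iff]
    refine ⟨⟨⟨QuotientGroup.mk 1, ?_⟩⟩, inferInstance⟩
    have h2 : τ • (QuotientGroup.mk 1 : G ⧸ Subgroup.zpowers τ) = QuotientGroup.mk (τ * 1) := rfl
    rw [h2, QuotientGroup.eq]
    simp
  exact_mod_cast this

theorem class_induction (V : (G → ℝ) → Prop) (hadd : ∀ f g, V f → V g → V (f + g))
    (hsmul : ∀ (c : ℝ) f, V f → V (c • f)) (h0 : V 0)
    (hfix : ∀ τ, V (fx (Subgroup.zpowers τ))) (φ : G → ℝ)
    (hconj : ∀ g σ, φ (g * σ * g⁻¹) = φ σ)
    (hdiv : ∀ σ τ, Subgroup.zpowers σ = Subgroup.zpowers τ → φ σ = φ τ) : V φ := by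
  classical
  have hsum : ∀ (s : Finset G) (f : G → G → ℝ), (∀ τ ∈ s, V (f τ)) → V (∑ τ ∈ s, f τ) := by
    intro s f
    induction s using Finset.induction_on with
    | empty => intro _; simpa using h0
    | insert a s ha ih =>
      intro h
      rw [Finset.sum_insert ha]
      exact hadd _ _ (h a (Finset.mem_insert_self _ _))
        (ih fun τ hτ => h τ (Finset.mem_insert_of_mem hτ))
  have claim : ∀ n : ℕ, ∀ φ : G → ℝ, (∀ g σ, φ (g * σ * g⁻¹) = φ σ) →
      (∀ σ τ, Subgroup.zpowers σ = Subgroup.zpowers τ → φ σ = φ τ) →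
      (∀ σ, n ≤ orderOf σ → φ σ = 0) → V φ := by
    intro n
    induction n with
    | zero =>
      intro φ _ _ h
      have : φ = 0 := funext fun σ => h σ (Nat.zero_le _)
      rw [this]; exact h0
    | succ n ih =>
      intro φ hc hd h
      set s := (univ : Finset G).filter (fun τ => orderOf τ = n) with hs
      set w : G → ℝ := fun σ => ∑ τ ∈ s, fx (Subgroup.zpowers τ) σ with hw
      set ψ : G → ℝ := ∑ τ ∈ s, (φ τ / w τ) • fx (Subgroup.zpowers τ) with hψ
      have hψa : ∀ σ, ψ σ = ∑ τ ∈ s, (φ τ / w τ) * fx (Subgroup.zpowers τ) σ := by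
        intro σ
        rw [hψ, Finset.sum_apply]
        rfl
      have hψV : V ψ := hsum _ _ fun τ _ => hsmul _ _ (hfix τ)
      have hwc : ∀ g σ, w (g * σ * g⁻¹) = w σ := fun g σ => by
        simp only [hw, fx_conj]
      have hwd : ∀ σ τ, Subgroup.zpowers σ = Subgroup.zpowers τ → w σ = w τ := fun σ τ h => by
        simp only [hw]
        exact Finset.sum_congr rfl fun _ _ => fx_div _ h
      have hψc : ∀ g σ, ψ (g * σ * g⁻¹) = ψ σ := fun g σ => by
        simp only [hψa, fx_conj]
      have hψd : ∀ σ τ, Subgroup.zpowers σ = Subgroup.zpowers τ → ψ σ = ψ τ := fun σ τ h => by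
        simp only [hψa]
        exact Finset.sum_congr rfl fun _ _ => by rw [fx_div _ h]
      have hkey : ∀ σ, n ≤ orderOf σ → φ σ - ψ σ = 0 := by
        intro σ hσ
        rcases hσ.eq_or_lt with h1 | h1
        · have hσs : σ ∈ s := by rw [hs, mem_filter]; exact ⟨mem_univ _, h1.symm⟩
          have hwpos : 0 < w σ := by
            refine lt_of_lt_of_le (fx_self_pos σ) ?_
            exact Finset.single_le_sum (f := fun τ => fx (Subgroup.zpowers τ) σ)
              (fun τ _ => fx_nonneg _ _) hσs
          have h2 : ∀ τ ∈ s, (φ τ / w τ) * fx (Subgroup.zpowers τ) σ =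
              (φ σ / w σ) * fx (Subgroup.zpowers τ) σ := by
            intro τ hτ
            by_cases h3 : fx (Subgroup.zpowers τ) σ = 0
            · rw [h3, mul_zero, mul_zero]
            · obtain ⟨g, hg⟩ := fx_ne_zero h3
              have h4 : Subgroup.zpowers (g⁻¹ * σ * g) = Subgroup.zpowers τ := by
                apply Subgroup.eq_of_le_of_card_ge
                · rwa [Subgroup.zpowers_le]
                · rw [Nat.card_zpowers, Nat.card_zpowers]
                  have h5 : orderOf (g⁻¹ * σ * g) = orderOf σ := by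
                    have := orderOf_injective (MulAut.conj g⁻¹).toMonoidHom
                      (MulAut.conj g⁻¹).injective σ
                    simpa using this
                  rw [h5, ← h1]
                  rw [hs, mem_filter] at hτ
                  exact hτ.2.le
              have h6 : φ τ = φ σ := by
                rw [← hd _ _ h4]
                have := hc g⁻¹ σ
                rwa [inv_inv] at this
              have h7 : w τ = w σ := by
                rw [← hwd _ _ h4]
                have := hwc g⁻¹ σ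
                rwa [inv_inv] at this
              rw [h6, h7]
          rw [hψa, Finset.sum_congr rfl h2, ← Finset.mul_sum]
          change φ σ - φ σ / w σ * w σ = 0
          rw [div_mul_cancel₀ _ hwpos.ne', sub_self]
        · rw [h σ h1, hψa, Finset.sum_eq_zero, sub_zero]
          intro τ hτ
          have h3 : fx (Subgroup.zpowers τ) σ = 0 := by
            by_contra h3
            obtain ⟨g, hg⟩ := fx_ne_zero h3
            have h5 : orderOf (g⁻¹ * σ * g) = orderOf σ := by
              have := orderOf_injective (MulAut.conj g⁻¹).toMonoidHom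
                (MulAut.conj g⁻¹).injective σ
              simpa using this
            have h6 := orderOf_dvd_of_mem_zpowers hg
            rw [h5] at h6
            rw [hs, mem_filter] at hτ
            rw [hτ.2] at h6
            have hn : 0 < n := by
              rw [← hτ.2]; exact orderOf_pos τ
            exact absurd (Nat.le_of_dvd hn h6) (by omega)
          rw [h3, mul_zero]
      have hfin := ih (φ - ψ) (fun g σ => by
          simp only [Pi.sub_apply]
          rw [hc, hψc]) (fun σ τ h => by
          simp only [Pi.sub_apply]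
          rw [hd _ _ h, hψd _ _ h]) hkey
      have := hadd _ _ hfin hψV
      rwa [sub_add_cancel] at this
  refine claim (Fintype.card G + 1) φ hconj hdiv fun σ hσ => ?_
  have := orderOf_le_card_univ (x := σ)
  omega

lemma sum_fx (H : Subgroup G) : ∑ σ, fx H σ = Fintype.card G := by
  classical
  have h := MulAction.sum_card_fixedBy_eq_card_orbits_mul_card_group G (G ⧸ H)
  have h1 : Fintype.card (Quotient (MulAction.orbitRel G (G ⧸ H))) = 1 := by
    rw [Fintype.card_eq_one_iff_nonempty_unique]
    have hs : Subsingleton (Quotient (MulAction.orbitRel G (G ⧸ H))) :=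
      (MulAction.pretransitive_iff_subsingleton_quotient G (G ⧸ H)).1 inferInstance
    exact ⟨⟨Quotient.mk _ (QuotientGroup.mk 1)⟩, fun a => Subsingleton.elim _ _⟩
  rw [h1, one_mul] at h
  rw [← h]
  push_cast
  refine Finset.sum_congr rfl fun σ _ => ?_
  unfold fx
  rw [← Nat.card_eq_fintype_card]
  rfl

end group

section mean

open NumberField Pool.Agent.Work.MP_2b9663_nt

variable (L : Type*) [Field L] [NumberField L] [IsGalois ℚ L]

/-- A Frobenius element and a prime ideal of `L` above `p`, chosen once and for all. -/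
theorem exists_frob' (p : Nat.Primes) : ∃ (σ : L ≃ₐ[ℚ] L) (P : Ideal (𝓞 L)), IsFrob L p P σ := by
  have : Fact (p : ℕ).Prime := ⟨p.2⟩
  obtain ⟨P, σ, h⟩ := exists_frob L (p : ℕ)
  exact ⟨σ, P, h⟩

/-- the chosen Frobenius element -/
noncomputable def frob (p : Nat.Primes) : L ≃ₐ[ℚ] L := (exists_frob' L p).choose

/-- the chosen prime ideal -/
noncomputable def frobP (p : Nat.Primes) : Ideal (𝓞 L) := (exists_frob' L p).choose_spec.choose

lemma frob_spec (p : Nat.Primes) : IsFrob L p (frobP L p) (frob L p) :=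
  (exists_frob' L p).choose_spec.choose_spec

lemma finite_dvd {N : ℕ} (hN : N ≠ 0) : ∃ T : Finset Nat.Primes, ∀ p : Nat.Primes,
    (p : ℕ) ∣ N → p ∈ T := by
  have h : {p : Nat.Primes | (p : ℕ) ∣ N}.Finite := by
    apply Set.Finite.of_finite_image (f := fun p : Nat.Primes => (p : ℕ))
    · refine (Nat.divisors N).finite_toSet.subset ?_
      rintro _ ⟨p, hp, rfl⟩
      rw [Finset.mem_coe, Nat.mem_divisors]
      exact ⟨hp, hN⟩
    · exact fun p _ q _ h => Subtype.ext h
  exact ⟨h.toFinset, fun p hp => by rw [Set.Finite.mem_toFinset]; exact hp⟩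

lemma BD_class {G : Type*} [Finite G] (φ : G → ℝ) (F : Nat.Primes → G) :
    BD (fun p => φ (F p)) := by
  have := Fintype.ofFinite G
  refine ⟨∑ g, |φ g|, fun p => ?_⟩
  exact Finset.single_le_sum (f := fun g => |φ g|) (fun g _ => abs_nonneg _) (Finset.mem_univ _)

theorem MV_fx (H : Subgroup (L ≃ₐ[ℚ] L)) : MV (fun p => fx H (frob L p)) 1 := by
  obtain ⟨N, hN, h⟩ := aK_fixed (L := L) H
  obtain ⟨T, hT⟩ := finite_dvd hN
  refine (MV_aK (IntermediateField.fixedField H)).congr (BD_class _ _) T ?_
  intro p hp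
  have : Fact (p : ℕ).Prime := ⟨p.2⟩
  have := h p (fun hd => hp (hT p hd)) (frobP L p) (frob L p) (frob_spec L p)
  unfold fx
  exact_mod_cast this

/-- **Mean value of a function of the Frobenius which is constant on divisions.** -/
theorem MV_class (φ : (L ≃ₐ[ℚ] L) → ℝ) (hconj : ∀ g σ, φ (g * σ * g⁻¹) = φ σ)
    (hdiv : ∀ σ τ, Subgroup.zpowers σ = Subgroup.zpowers τ → φ σ = φ τ) :
    MV (fun p => φ (frob L p)) ((∑ σ, φ σ) / Fintype.card (L ≃ₐ[ℚ] L)) := by
  have hc : (Fintype.card (L ≃ₐ[ℚ] L) : ℝ) ≠ 0 := by exact_mod_cast Fintype.card_ne_zero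
  refine class_induction (fun φ => MV (fun p => φ (frob L p))
    ((∑ σ, φ σ) / Fintype.card (L ≃ₐ[ℚ] L))) ?_ ?_ ?_ ?_ φ hconj hdiv
  · intro f g hf hg
    have := hf.add hg
    simp only [Pi.add_apply, Finset.sum_add_distrib, add_div]
    exact this
  · intro c f hf
    have := hf.const_mul c
    simp only [Pi.smul_apply, smul_eq_mul, ← Finset.mul_sum, mul_div_assoc]
    exact this
  · simp only [Pi.zero_apply, Finset.sum_const_zero, zero_div]
    exact MV.zero
  · intro τ
    rw [sum_fx, div_self hc]
    exact MV_fx L _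

end mean

end Stoll308.Cheb
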