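import Mathlib
import Pool.Agent.Work.MP_308fa9_nt.ChebD
import Pool.Agent.Work.MP_308fa9_nt.MeanSum
import Pool.Agent.Work.MP_308fa9_nt.Gen.Defs

set_option autoImplicit false

/-! Mertens for the primes modulo which a polynomial splits completely. -/

namespace Stoll308.Cheb

open Finset NumberField Polynomial Pool.Agent.Work.MP_2b9663_nt Stoll308.MeanSum

open Classical in
/-- a function of the primes as a function on `ℕ` -/
noncomputable def ex (c : Nat.Primes → ℝ) (n : ℕ) : ℝ := if h : n.Prime then c ⟨n, h⟩ else 0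

lemma ex_apply (c : Nat.Primes → ℝ) (p : Nat.Primes) : ex c (p : ℕ) = c p := by
  unfold ex
  rw [dif_pos p.2]
  rfl

theorem mertens {c : Nat.Primes → ℝ} {κ : ℝ} (h : MV c κ) :
    ∃ C : ℝ, 0 < C ∧ ∀ X : ℕ, 3 ≤ X →
      |∑ p ∈ PR X, ex c p / p - κ * Real.log (Real.log X)| ≤ C := by
  apply mv_sum
  simp only [ex_apply]
  exact h

section split

variable {L : Type*} [Field L]

/-- A monic polynomial which splits into distinct factors over `L`. -/
theorem factor_of_splits {f : ℤ[X]} (hf : f.Monic) (hs : (f.map (Int.castRingHom L)).Splits)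
    (hsep : (f.map (Int.castRingHom L)).Separable) (s : Finset (𝓞 L))
    (hmem : ∀ x, x ∈ s ↔ eval₂ (Int.castRingHom (𝓞 L)) x f = 0) :
    f.map (Int.castRingHom (𝓞 L)) = ∏ x : s, (X - C x.1) := by
  rw [Finset.prod_coe_sort s (fun x => X - C x)]
  apply Polynomial.map_injective (algebraMap (𝓞 L) L) RingOfIntegers.coe_injective
  have h1 : (algebraMap (𝓞 L) L).comp (Int.castRingHom (𝓞 L)) = Int.castRingHom L :=
    RingHom.ext_int _ _
  have hmon : (f.map (Int.castRingHom L)).Monic := hf.map _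
  rw [Polynomial.map_map, h1, hs.eq_prod_roots_of_monic hmon, Polynomial.map_prod]
  have hroots : (f.map (Int.castRingHom L)).roots =
      (s.map ⟨algebraMap (𝓞 L) L, RingOfIntegers.coe_injective⟩).val := by
    rw [Multiset.Nodup.ext (nodup_roots hsep) (Finset.nodup _)]
    intro a
    rw [mem_roots hmon.ne_zero, IsRoot.def, eval_map, Finset.mem_val, Finset.mem_map]
    constructor
    · intro ha
      have hint : IsIntegral ℤ a := ⟨f, hf, ha⟩
      obtain ⟨x, hx⟩ : ∃ x : 𝓞 L, algebraMap (𝓞 L) L x = a := ⟨⟨a, hint⟩, rfl⟩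
      refine ⟨x, (hmem _).2 ?_, hx⟩
      apply RingOfIntegers.coe_injective (K := L)
      rw [map_zero, hom_eval₂, h1, hx]
      exact ha
    · rintro ⟨x, hx, rfl⟩
      have h2 := (hmem x).1 hx
      have h3 := congrArg (algebraMap (𝓞 L) L) h2
      rw [hom_eval₂, h1, map_zero] at h3
      exact h3
  rw [hroots, Finset.map_val, Multiset.map_map]
  calc (Multiset.map ((fun a => X - C a) ∘ _) s.val).prod
      = ∏ x ∈ s, (X - C (algebraMap (𝓞 L) L x)) := rfl
    _ = ∏ x ∈ s, Polynomial.map (algebraMap (𝓞 L) L) (X - C x) :=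
        Finset.prod_congr rfl fun x _ => by simp

end split

/-- the bad number of a family of distinct algebraic integers -/
theorem exists_bad {L : Type*} [Field L] [NumberField L] {ι : Type*} [Fintype ι] {θ : ι → 𝓞 L}
    (hinj : Function.Injective θ) : ∃ N : ℕ, N ≠ 0 ∧ ∀ (p : ℕ) [Fact p.Prime], ¬ p ∣ N →
      ∀ (P : Ideal (𝓞 L)) (σ : L ≃ₐ[ℚ] L), IsFrob L p P σ → ∀ i j, i ≠ j → θ i - θ j ∉ P := by
  classical
  refine ⟨∏ i, ∏ j ∈ univ.erase i, Ideal.absNorm (Ideal.span {θ i - θ j}), ?_, ?_⟩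
  · rw [Finset.prod_ne_zero_iff]
    intro i _
    rw [Finset.prod_ne_zero_iff]
    intro j hj
    rw [Finset.mem_erase] at hj
    rw [Ideal.absNorm_ne_zero_iff_mem_nonZeroDivisors, mem_nonZeroDivisors_iff_ne_zero, Ne,
      Ideal.zero_eq_bot, Ideal.span_singleton_eq_bot, sub_eq_zero]
    exact fun h => hj.1 (hinj h.symm)
  · intro p hp hpN P σ h i j hij
    apply h.not_mem
    intro hd
    apply hpN
    refine hd.trans (dvd_trans ?_ (Finset.dvd_prod_of_mem _ (mem_univ i)))
    exact Finset.dvd_prod_of_mem (fun j => Ideal.absNorm (Ideal.span {θ i - θ j}))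
      (Finset.mem_erase.2 ⟨hij.symm, mem_univ j⟩)

lemma card_R (f : ℤ[X]) (p : ℕ) [hp : Fact p.Prime] : (Gen.R f p).card = nroots f p := by
  classical
  have hNe : NeZero p := ⟨hp.out.ne_zero⟩
  have key : ∀ n : ℤ, (f.map (Int.castRingHom (ZMod p))).IsRoot (n : ZMod p) ↔
      (p : ℤ) ∣ f.eval n := by
    intro n
    rw [IsRoot.def, ← ZMod.intCast_zmod_eq_zero_iff_dvd,
      eval_intCast_map (Int.castRingHom (ZMod p)) f n, eq_intCast, Int.cast_id]
  unfold nroots Gen.R
  rw [Nat.card_eq_fintype_card, Fintype.card_subtype]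
  refine Finset.card_bij (fun a _ => (a : ZMod p)) ?_ ?_ ?_
  · intro a ha
    rw [mem_filter] at ha ⊢
    refine ⟨mem_univ _, ?_⟩
    have := (key (a : ℤ)).2 ha.2
    rwa [Int.cast_natCast] at this
  · intro a ha b hb hab
    rw [mem_filter, mem_range] at ha hb
    rw [ZMod.natCast_eq_natCast_iff] at hab
    exact Nat.ModEq.eq_of_lt_of_lt hab ha.1 hb.1
  · intro b hb
    rw [mem_filter] at hb
    refine ⟨b.val, ?_, ZMod.natCast_zmod_val b⟩
    rw [mem_filter, mem_range]
    refine ⟨ZMod.val_lt b, ?_⟩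
    rw [← key, Int.cast_natCast, ZMod.natCast_zmod_val]
    exact hb.2

theorem exists_splitting_aux (F : ℚ[X]) (hsep : F.Separable) (L : Type) [Field L]
    [inst : Algebra ℚ L] [IsSplittingField ℚ L F] : ∃ (_ : NumberField L),
      @IsGalois ℚ _ L _ DivisionRing.toRatAlgebra ∧
      (F.map (@algebraMap ℚ L _ _ DivisionRing.toRatAlgebra)).Splits := by
  have hG : @IsGalois ℚ _ L _ inst := IsGalois.of_separable_splitting_field hsep
  have hs := IsSplittingField.splits L F
  have hfd : FiniteDimensional ℚ L := IsSplittingField.finiteDimensional L F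
  have hc : CharZero L := algebraRat.charZero L
  have e : inst = DivisionRing.toRatAlgebra := Subsingleton.elim _ _
  subst e
  exact ⟨⟨⟩, hG, hs⟩

theorem exists_splitting (F : ℚ[X]) (hsep : F.Separable) : ∃ (L : Type) (_ : Field L)
    (_ : NumberField L) (_ : IsGalois ℚ L), (F.map (algebraMap ℚ L)).Splits := by
  obtain ⟨h1, h2, h3⟩ := @exists_splitting_aux F hsep F.SplittingField _ _
    (IsSplittingField.splittingField F)
  exact ⟨F.SplittingField, inferInstance, h1, h2, h3⟩

/-- A Galois number field over which `f` splits. -/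
theorem exists_factor (f : ℤ[X]) (hf : f.Monic)
    (hsepQ : (f.map (Int.castRingHom ℚ)).Separable) : ∃ (L : Type) (_ : Field L)
    (_ : NumberField L) (_ : IsGalois ℚ L) (s : Finset (𝓞 L)),
      f.map (Int.castRingHom (𝓞 L)) = ∏ x : s, (X - C x.1) ∧ s.card = f.natDegree := by
  classical
  obtain ⟨L, _, _, hG, hs0⟩ := exists_splitting (f.map (Int.castRingHom ℚ)) hsepQ
  have h1 : f.map (Int.castRingHom L) = (f.map (Int.castRingHom ℚ)).map (algebraMap ℚ L) := by
    rw [Polynomial.map_map]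
    congr 1
    exact RingHom.ext_int _ _
  have hs : (f.map (Int.castRingHom L)).Splits := by
    rw [h1]
    exact hs0
  have hsep : (f.map (Int.castRingHom L)).Separable := by
    rw [h1]
    exact Polynomial.Separable.map hsepQ
  set f' := f.map (Int.castRingHom (𝓞 L)) with hf'
  have hmon' : f'.Monic := hf.map _
  set s := f'.roots.toFinset with hsdef
  have hmem : ∀ x, x ∈ s ↔ eval₂ (Int.castRingHom (𝓞 L)) x f = 0 := by
    intro x
    rw [hsdef, Multiset.mem_toFinset, mem_roots hmon'.ne_zero, IsRoot.def, hf', eval_map]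
  have hfac := factor_of_splits hf hs hsep s hmem
  refine ⟨L, inferInstance, inferInstance, hG, s, hfac, ?_⟩
  have h2 : (f.map (Int.castRingHom (𝓞 L))).natDegree = f.natDegree := hf.natDegree_map _
  rw [← h2, hfac, natDegree_prod_of_monic _ _ fun i _ => monic_X_sub_C _]
  simp

/-- **Mertens for the primes modulo which `f` splits completely.** -/
theorem splitMert (f : ℤ[X]) (hf : f.Monic)
    (hsepQ : (f.map (Int.castRingHom ℚ)).Separable) : Gen.SplitMert f := by
  classical
  obtain ⟨L, _, _, hG, s, hfac, hcard⟩ := exists_factor f hf hsepQ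
  obtain ⟨N, hN, hbad⟩ := exists_bad (L := L) (ι := s) (θ := fun x => x.1)
    Subtype.val_injective
  have hgood : ∀ p : Nat.Primes, ¬ (p : ℕ) ∣ N → frob L p = 1 → (Gen.R f p).card = f.natDegree := by
    intro p hp h1
    have : Fact (p : ℕ).Prime := ⟨p.2⟩
    rw [card_R, (frob_spec L p).nroots_eq hfac (hbad p hp _ _ (frob_spec L p)), h1, ← hcard]
    rw [Nat.card_congr (Equiv.subtypeUnivEquiv fun x : s => one_smul _ x.1)]
    simp
  have hMV := MV_class L (fun σ => if σ = 1 then (1 : ℝ) else 0) (by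
      intro g σ
      have : g * σ * g⁻¹ = 1 ↔ σ = 1 := by simp [mul_inv_eq_one]
      simp only [this]) (by
      intro σ τ h
      have : σ = 1 ↔ τ = 1 := by
        rw [← Subgroup.zpowers_eq_bot, h, Subgroup.zpowers_eq_bot]
      simp only [this])
  obtain ⟨C, hC, hM⟩ := mertens hMV
  rw [sum_ite_eq' univ 1, if_pos (mem_univ _)] at hM
  set κ : ℝ := 1 / (Fintype.card (L ≃ₐ[ℚ] L)) with hκ
  have hκ0 : 0 < κ := by
    rw [hκ]
    have : 0 < Fintype.card (L ≃ₐ[ℚ] L) := Fintype.card_pos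
    positivity
  set c := fun p : Nat.Primes => if frob L p = 1 then (1 : ℝ) else 0 with hc
  refine ⟨κ, 2 * C + ∑ p ∈ N.primeFactors, 1 / (p : ℝ) + 1 + κ, hκ0, fun x y hx hxy => ?_⟩
  have hy : 3 ≤ y := hx.trans hxy
  have hX3 : 3 ≤ ⌊x⌋₊ := Nat.le_floor (by exact_mod_cast hx)
  have hY3 : 3 ≤ ⌊y⌋₊ := Nat.le_floor (by exact_mod_cast hy)
  have h1 := (abs_le.1 (hM ⌊x⌋₊ hX3)).2
  have h2 := (abs_le.1 (hM ⌊y⌋₊ hY3)).1
  have hXY : ⌊x⌋₊ ≤ ⌊y⌋₊ := Nat.floor_mono hxy
  -- the sum over the interval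
  have h3 : ∑ p ∈ PR ⌊y⌋₊, ex c p / p - ∑ p ∈ PR ⌊x⌋₊, ex c p / p =
      ∑ p ∈ (PR ⌊y⌋₊) \ (PR ⌊x⌋₊), ex c p / p := by
    rw [sum_sdiff_eq_sub]
    intro p hp
    rw [mem_PR] at hp ⊢
    exact ⟨hp.1, hp.2.trans hXY⟩
  have h4 : ∑ p ∈ (PR ⌊y⌋₊) \ (PR ⌊x⌋₊), ex c p / p ≤
      (∑ p ∈ (Icc 1 ⌊y⌋₊).filter (fun p : ℕ => p.Prime ∧ x < (p : ℝ) ∧
        (Gen.R f p).card = f.natDegree), 1 / (p : ℝ)) + ∑ p ∈ N.primeFactors, 1 / (p : ℝ) := by
    rw [← sum_filter_add_sum_filter_not ((PR ⌊y⌋₊) \ (PR ⌊x⌋₊)) (fun p : ℕ => ¬ p ∣ N)]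
    apply add_le_add
    · have h5 : ∀ p ∈ ((PR ⌊y⌋₊) \ (PR ⌊x⌋₊)).filter (fun p : ℕ => ¬ p ∣ N),
          ex c p / p ≤ if (Gen.R f p).card = f.natDegree then 1 / (p : ℝ) else 0 := by
        intro p hp
        rw [mem_filter, mem_sdiff, mem_PR] at hp
        have hpp := hp.1.1.1
        have h6 : ex c p = c ⟨p, hpp⟩ := ex_apply c ⟨p, hpp⟩
        rw [h6]
        simp only [hc]
        split_ifs with h7 h8 h8
        · exact le_rfl
        · exact absurd (hgood ⟨p, hpp⟩ hp.2 h7) h8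
        · rw [zero_div]; positivity
        · rw [zero_div]
      refine (sum_le_sum h5).trans ?_
      rw [← sum_filter]
      apply sum_le_sum_of_subset_of_nonneg
      · intro p hp
        rw [mem_filter, mem_filter, mem_sdiff, mem_PR, mem_PR] at hp
        obtain ⟨⟨⟨⟨hpp, hpy⟩, hpx⟩, _⟩, hR⟩ := hp
        rw [mem_filter, mem_Icc]
        refine ⟨⟨hpp.one_le, hpy⟩, hpp, ?_, hR⟩
        by_contra hcon
        push Not at hcon
        exact hpx ⟨hpp, Nat.le_floor hcon⟩
      · intro p _ _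
        positivity
    · have h5 : ∀ p ∈ ((PR ⌊y⌋₊) \ (PR ⌊x⌋₊)).filter (fun p : ℕ => ¬ ¬ p ∣ N),
          ex c p / p ≤ 1 / (p : ℝ) := by
        intro p hp
        rw [mem_filter, mem_sdiff, mem_PR] at hp
        have hpp := hp.1.1.1
        have h6 : ex c p = c ⟨p, hpp⟩ := ex_apply c ⟨p, hpp⟩
        rw [h6]
        have h7 : c ⟨p, hpp⟩ ≤ 1 := by
          simp only [hc]
          split_ifs <;> norm_num
        exact div_le_div_of_nonneg_right h7 (Nat.cast_nonneg p)
      refine (sum_le_sum h5).trans ?_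
      apply sum_le_sum_of_subset_of_nonneg
      · intro p hp
        rw [mem_filter, mem_sdiff, mem_PR, not_not] at hp
        rw [Nat.mem_primeFactors]
        exact ⟨hp.1.1.1, hp.2, hN⟩
      · intro p _ _
        positivity
  -- comparison of the double logarithms
  have hx1 : (3 : ℝ) ≤ ⌊x⌋₊ := by exact_mod_cast hX3
  have hy1 : (3 : ℝ) ≤ ⌊y⌋₊ := by exact_mod_cast hY3
  have hlog3 : 1 ≤ Real.log 3 := by
    have : Real.log (Real.exp 1) ≤ Real.log 3 :=
      Real.log_le_log (Real.exp_pos 1) (Real.exp_one_lt_d9.le.trans (by norm_num))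
    rwa [Real.log_exp] at this
  have h5 : Real.log (Real.log ⌊x⌋₊) ≤ Real.log (Real.log x) := by
    apply Real.log_le_log
    · exact Real.log_pos (by linarith)
    · exact Real.log_le_log (by linarith) (Nat.floor_le (by linarith))
  have h6 : Real.log (Real.log y) - 1 ≤ Real.log (Real.log ⌊y⌋₊) := by
    have h7 : y ≤ 2 * ⌊y⌋₊ := by
      have := Nat.lt_floor_add_one y
      linarith
    have h8 : 1 ≤ Real.log ⌊y⌋₊ := hlog3.trans (Real.log_le_log (by norm_num) hy1)
    have h9 : Real.log y ≤ 2 * Real.log ⌊y⌋₊ := by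
      have h10 : Real.log y ≤ Real.log (2 * ⌊y⌋₊) := Real.log_le_log (by linarith) h7
      rw [Real.log_mul (by norm_num) (by linarith)] at h10
      have h11 : Real.log 2 ≤ 1 := by
        have := Real.log_two_lt_d9
        linarith
      linarith
    have h12 : Real.log (Real.log y) ≤ Real.log (2 * Real.log ⌊y⌋₊) :=
      Real.log_le_log (Real.log_pos (by linarith)) h9
    rw [Real.log_mul (by norm_num) (by linarith)] at h12
    have h11 : Real.log 2 ≤ 1 := by
      have := Real.log_two_lt_d9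
      linarith
    linarith
  have h13 := mul_le_mul_of_nonneg_left h5 hκ0.le
  have h14 := mul_le_mul_of_nonneg_left h6 hκ0.le
  have h15 : κ * (Real.log (Real.log y) - 1) = κ * Real.log (Real.log y) - κ := by ring
  have h16 : κ * (Real.log (Real.log y) - Real.log (Real.log x)) =
    κ * Real.log (Real.log y) - κ * Real.log (Real.log x) := by ring
  rw [h16]
  linarith

lemma separable_of_irreducible {f : ℤ[X]} (hf : f.Monic) (hirr : Irreducible f) :
    (f.map (Int.castRingHom ℚ)).Separable := by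
  have h1 : Irreducible (f.map (algebraMap ℤ ℚ)) :=
    (Monic.irreducible_iff_irreducible_map_fraction_map (K := ℚ) hf).1 hirr
  exact h1.separable

theorem splitMert_of_irreducible (f : ℤ[X]) (hf : f.Monic) (hirr : Irreducible f) :
    Gen.SplitMert f :=
  splitMert f hf (separable_of_irreducible hf hirr)

end Stoll308.Cheb
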