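import Pool.Agent.Work.MP_308fa9_nt.Rankin

set_option autoImplicit false

/-! Lower bound for the number of squarefree `u ≤ X`, `u ≡ 1 mod Q`, all of whose primes split in
one of three quadratic fields. -/

namespace Stoll308.AP

open Finset NumberTheorySymbols

/-- some `D_i` has Jacobi symbol `1` modulo `n` -/
def Res (D : Fin 3 → ℤ) (n : ℕ) : Prop := ∃ i, J(D i | n) = 1

lemma gcd_eq_one_of_lt {a : ℤ} (h0 : a ≠ 0) {p : ℕ} (hp : p.Prime) (hlt : a.natAbs < p) :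
    a.gcd (p : ℤ) = 1 := by
  rw [← Int.isCoprime_iff_gcd_eq_one, isCoprime_comm]
  rw [Prime.coprime_iff_not_dvd (Nat.prime_iff_prime_int.mp hp)]
  intro hd
  have := Nat.le_of_dvd (Int.natAbs_pos.mpr h0) (Int.natCast_dvd.mp hd)
  omega

open Classical in
lemma mert_res {D : Fin 3 → ℤ} (h0 : ∀ i, D i ≠ 0) (h1 : ∀ i, ¬ IsSquare (D i))
    (h01 : ¬ IsSquare (D 0 * D 1)) (h02 : ¬ IsSquare (D 0 * D 2)) (h12 : ¬ IsSquare (D 1 * D 2)) :
    ∃ κ : ℝ, 7 / 8 ≤ κ ∧ ∀ B : ℕ, Mert (fun p => if (B < p ∧ Res D p) then 1 else 0) κ := by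
  obtain ⟨κ', hκ', h012⟩ := Mert.jacobi_nonneg (mul_ne_zero (mul_ne_zero (h0 0) (h0 1)) (h0 2))
  refine ⟨7 / 8 + κ' / 8, by linarith, fun B => ?_⟩
  have hj : ∀ i, Mert (fun p => (1 / 8 : ℝ) * ((J(D i | p) : ℤ) : ℝ)) ((1 / 8) * 0) := fun i =>
    (Mert.jacobi (h0 i) (h1 i)).const_mul _
  have hjj : ∀ i j, ¬ IsSquare (D i * D j) →
      Mert (fun p => (-1 / 8 : ℝ) * ((J(D i * D j | p) : ℤ) : ℝ)) ((-1 / 8) * 0) := fun i j h =>
    (Mert.jacobi (mul_ne_zero (h0 i) (h0 j)) h).const_mul _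
  have hm := (((((((Mert.const (7 / 8)).add (hj 0)).add (hj 1)).add (hj 2)).add
    (hjj 0 1 h01)).add (hjj 0 2 h02)).add (hjj 1 2 h12)).add (h012.const_mul (1 / 8))
  have hm' := hm.congr (h := fun p => if (B < p ∧ Res D p) then 1 else 0)
    (B + ((D 0).natAbs + (D 1).natAbs + (D 2).natAbs)) ?_
  · convert! hm' using 1
    ring
  · intro p hp hlt
    have hg : ∀ i, J(D i | p) = 1 ∨ J(D i | p) = -1 := by
      intro i
      refine jacobiSym.eq_one_or_neg_one (gcd_eq_one_of_lt (h0 i) hp ?_)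
      fin_cases i <;> simp only [Fin.zero_eta, Fin.mk_one, Fin.reduceFinMk] <;> omega
    simp only [jacobiSym.mul_left]
    have hres : Res D p ↔ (J(D 0 | p) = 1 ∨ J(D 1 | p) = 1 ∨ J(D 2 | p) = 1) := by
      unfold Res
      rw [Fin.exists_fin_succ, Fin.exists_fin_succ, Fin.exists_fin_succ]
      simp
    have hB : B < p := by omega
    simp only [hB, true_and, hres]
    rcases hg 0 with e0 | e0 <;> rcases hg 1 with e1 | e1 <;> rcases hg 2 with e2 | e2 <;>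
      simp only [e0, e1, e2] <;> norm_num

/-- Chebyshev's lower bound in all residue classes. -/
lemma count_residue (k : ℕ) [NeZero k] : ∃ K : ℕ, 0 < K ∧ ∀ a : ZMod k, IsUnit a → ∀ y : ℕ, K < y →
    (y : ℝ) / (K * Real.log y) ≤
      (((Ioc (y / K) y).filter (fun p : ℕ => p.Prime ∧ (p : ZMod k) = a)).card : ℝ) := by
  classical
  have hφ : (0 : ℝ) < 1 / Nat.totient k := by
    have : 0 < Nat.totient k := Nat.totient_pos.2 (Nat.pos_of_ne_zero (NeZero.ne k))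
    positivity
  have hr : ∀ a : (ZMod k)ˣ, ∃ C : ℝ, 0 ≤ C ∧ ∀ N : ℕ, |∑ p ∈ (Icc 0 N).filter Nat.Prime,
      (if (p : ZMod k) = a then (1 : ℝ) else 0) * (Real.log p / p) -
        1 / Nat.totient k * Real.log N| ≤ C := by
    intro a
    obtain ⟨C, hC⟩ := Mert.residue a.isUnit
    exact ⟨C, (abs_nonneg _).trans (hC 0), hC⟩
  choose C hC0 hC using hr
  obtain ⟨K, hK0, hK⟩ := count_unif (∑ a : (ZMod k)ˣ, C a) (sum_nonneg fun a _ => hC0 a) hφ
  refine ⟨K, hK0, fun a ha y hy => ?_⟩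
  obtain ⟨u, rfl⟩ := ha
  have := hK (fun p => if (p : ZMod k) = u then (1 : ℝ) else 0) (fun N => (hC u N).trans
    (single_le_sum (f := C) (fun a _ => hC0 a) (mem_univ u))) (fun p => by positivity) y hy
  refine this.trans (le_of_eq ?_)
  rw [← filter_filter, card_filter (fun p : ℕ => (p : ZMod k) = u)]
  push_cast
  rfl

end Stoll308.AP
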