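import Pool.Agent.Work.MP_308fa9_nt.Count

set_option autoImplicit false

/-! Lower bound for the number of squarefree `u ≤ X`, `u ≡ 1 mod Q`, all of whose primes split in
one of three quadratic fields. -/

namespace Stoll308.AP

open Finset NumberTheorySymbols

lemma squarefree_prod {s : Finset ℕ} (hs : ∀ p ∈ s, p.Prime) : Squarefree (∏ p ∈ s, p) := by
  refine Finset.squarefree_prod_of_pairwise_isCoprime (fun _ hp _ hq hpq => ?_)
    fun _ hp => (hs _ hp).prime.squarefree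
  simp only [Function.onFun, ← Nat.coprime_iff_isRelPrime]
  exact (Nat.coprime_primes (hs _ hp) (hs _ hq)).mpr hpq

open Classical in
/-- adding the auxiliary prime if necessary -/
noncomputable def adj (D : Fin 3 → ℤ) (p₁ : ℕ) (T : Finset ℕ) : Finset ℕ :=
  if Res D (∏ p ∈ T, p) then T else insert p₁ T

section adj
variable {D : Fin 3 → ℤ} {p₁ z : ℕ} {T : Finset ℕ}

lemma notMem_of_T (hT : T ⊆ PP (fun p => p₁ < p ∧ Res D p) z) : p₁ ∉ T := by
  intro h
  have := (mem_PP.1 (hT h)).2.2.1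
  omega

lemma adj_erase (hT : T ⊆ PP (fun p => p₁ < p ∧ Res D p) z) : (adj D p₁ T).erase p₁ = T := by
  unfold adj
  split_ifs
  · exact erase_eq_of_notMem (notMem_of_T hT)
  · exact erase_insert (notMem_of_T hT)

lemma mem_adj {p : ℕ} (hp : p ∈ adj D p₁ T) : p = p₁ ∨ p ∈ T := by
  unfold adj at hp
  split_ifs at hp
  · exact Or.inr hp
  · exact mem_insert.1 hp

lemma adj_prime (hp₁ : p₁.Prime) (hT : T ⊆ PP (fun p => p₁ < p ∧ Res D p) z) {p : ℕ}
    (hp : p ∈ adj D p₁ T) : p.Prime := by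
  rcases mem_adj hp with rfl | h
  · exact hp₁
  · exact (mem_PP.1 (hT h)).2.1

lemma adj_le (hp₁z : p₁ ≤ z) (hT : T ⊆ PP (fun p => p₁ < p ∧ Res D p) z) {p : ℕ}
    (hp : p ∈ adj D p₁ T) : p ≤ z := by
  rcases mem_adj hp with rfl | h
  · exact hp₁z
  · exact (mem_PP.1 (hT h)).1

lemma adj_ge (hT : T ⊆ PP (fun p => p₁ < p ∧ Res D p) z) {p : ℕ}
    (hp : p ∈ adj D p₁ T) : p₁ ≤ p := by
  rcases mem_adj hp with rfl | h
  · exact le_rfl
  · exact (mem_PP.1 (hT h)).2.2.1.le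

lemma adj_res_mem (h : Res D p₁) (hT : T ⊆ PP (fun p => p₁ < p ∧ Res D p) z) {p : ℕ}
    (hp : p ∈ adj D p₁ T) : Res D p := by
  rcases mem_adj hp with rfl | h
  · exact h
  · exact (mem_PP.1 (hT h)).2.2.2

lemma adj_prod_le (hp₁ : p₁.Prime) (hT : T ⊆ PP (fun p => p₁ < p ∧ Res D p) z) :
    ∏ p ∈ adj D p₁ T, p ≤ p₁ * ∏ p ∈ T, p := by
  unfold adj
  split_ifs
  · exact Nat.le_mul_of_pos_left _ hp₁.pos
  · rw [prod_insert (notMem_of_T hT)]

lemma prod_ne_zero_T (hT : T ⊆ PP (fun p => p₁ < p ∧ Res D p) z) : ∏ p ∈ T, p ≠ 0 :=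
  prod_ne_zero_iff.2 fun _ hp => (mem_PP.1 (hT hp)).2.1.ne_zero

lemma adj_res (h0 : ∀ i, D i ≠ 0) (hp₁ : p₁.Prime) (hlt : ∀ i, (D i).natAbs < p₁)
    (hneg : J(D 1 | p₁) = -1)
    (hT : T ⊆ PP (fun p => p₁ < p ∧ Res D p) z) : Res D (∏ p ∈ adj D p₁ T, p) := by
  unfold adj
  split_ifs with h
  · exact h
  · rw [prod_insert (notMem_of_T hT)]
    refine ⟨1, ?_⟩
    rw [jacobiSym.mul_right' _ hp₁.ne_zero (prod_ne_zero_T hT), hneg]
    have hg : (D 1).gcd ((∏ p ∈ T, p : ℕ) : ℤ) = 1 := by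
      rw [← Int.isCoprime_iff_gcd_eq_one]
      push_cast
      refine IsCoprime.prod_right fun p hp => ?_
      rw [Int.isCoprime_iff_gcd_eq_one]
      have hpT := mem_PP.1 (hT hp)
      exact gcd_eq_one_of_lt (h0 1) hpT.2.1 ((hlt 1).trans hpT.2.2.1)
    rcases jacobiSym.eq_one_or_neg_one hg with h1 | h1
    · exact absurd ⟨1, h1⟩ h
    · rw [h1]; norm_num

end adj

/-- the set that is counted -/
def U (D : Fin 3 → ℤ) (Q u : ℕ) : Prop :=
  Squarefree u ∧ u % Q = 1 % Q ∧ ∀ p : ℕ, p.Prime → p ∣ u → Res D p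

/-- the numbers produced -/
lemma mem_U {D : Fin 3 → ℤ} (h0 : ∀ i, D i ≠ 0) {p₁ z k Q : ℕ} (hk0 : 0 < k)
    (hk : ∀ i, 4 * (D i).natAbs ∣ k) (hQk : Q ∣ k) (hkp : k < p₁)
    (hp₁ : p₁.Prime) (hp₁z : p₁ ≤ z) (hpos : J(D 0 | p₁) = 1) (hneg : J(D 1 | p₁) = -1)
    {T : Finset ℕ} (hT : T ⊆ PP (fun p => p₁ < p ∧ Res D p) z) {p : ℕ} (hp : p.Prime)
    (hzp : z < p) (hpk : (p : ZMod k) = ((∏ r ∈ adj D p₁ T, r : ℕ) : ZMod k)⁻¹) :
    U D Q ((∏ r ∈ adj D p₁ T, r) * p) := by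
  have hDlt : ∀ i, (D i).natAbs < p₁ := by
    intro i
    have h1 := Nat.le_of_dvd hk0 (hk i)
    omega
  set m := ∏ r ∈ adj D p₁ T, r with hm
  have hcop : Nat.Coprime m k := by
    rw [hm]
    refine Nat.Coprime.prod_left fun r hr => ?_
    have hrp := adj_prime hp₁ hT hr
    have := adj_ge hT hr
    exact (Nat.Prime.coprime_iff_not_dvd hrp).2 fun hd =>
      absurd (Nat.le_of_dvd hk0 hd) (by omega)
  have hpm : p ∉ adj D p₁ T := fun h => absurd (adj_le hp₁z hT h) (by omega)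
  have hins : m * p = ∏ r ∈ insert p (adj D p₁ T), r := by
    rw [prod_insert hpm, mul_comm]
  have hprime : ∀ r ∈ insert p (adj D p₁ T), r.Prime := by
    intro r hr
    rcases mem_insert.1 hr with rfl | h
    · exact hp
    · exact adj_prime hp₁ hT h
  have hu1 : ((m * p : ℕ) : ZMod k) = 1 := by
    push_cast
    rw [hpk]
    exact ZMod.mul_inv_of_unit _ ((ZMod.isUnit_iff_coprime m k).2 hcop)
  have hmod : m * p ≡ 1 [MOD k] := by
    rw [← ZMod.natCast_eq_natCast_iff, hu1, Nat.cast_one]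
  have h4k : 4 ∣ k := (Dvd.intro _ rfl : 4 ∣ 4 * (D 0).natAbs).trans (hk 0)
  have hodd : Odd (m * p) := by
    have h2 : m * p ≡ 1 [MOD 2] := hmod.of_dvd ((by norm_num : 2 ∣ 4).trans h4k)
    rw [Nat.odd_iff]
    exact h2
  have hresp : Res D p := by
    obtain ⟨i, hi⟩ := adj_res h0 hp₁ hDlt hneg hT
    refine ⟨i, ?_⟩
    have h1 : J(D i | m * p) = 1 := by
      rw [← jacobi_mod (hk i) hodd]
      have : m * p % k = 1 := by
        have h2 : 1 < k := by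
          have := Nat.le_of_dvd hk0 h4k
          omega
        rw [hmod, Nat.mod_eq_of_lt h2]
      rw [this, jacobiSym.one_right]
    have hm0 : m ≠ 0 := prod_ne_zero_iff.2 fun r hr => (adj_prime hp₁ hT hr).ne_zero
    rw [jacobiSym.mul_right' _ hm0 hp.ne_zero, hi, one_mul] at h1
    exact h1
  refine ⟨?_, ?_, ?_⟩
  · rw [hins]
    exact squarefree_prod hprime
  · exact hmod.of_dvd hQk
  · intro r hr hdvd
    rw [hins, Prime.dvd_finsetProd_iff hr.prime] at hdvd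
    obtain ⟨s, hs, hrs⟩ := hdvd
    have : r = s := (Nat.prime_dvd_prime_iff_eq hr (hprime s hs)).1 hrs
    subst this
    rcases mem_insert.1 hs with rfl | h
    · exact hresp
    · exact adj_res_mem ⟨0, hpos⟩ hT h

/-- the numbers produced are different -/
lemma inj_U {D : Fin 3 → ℤ} {p₁ z : ℕ} (hp₁ : p₁.Prime) (hp₁z : p₁ ≤ z)
    {T S : Finset ℕ} (hT : T ⊆ PP (fun p => p₁ < p ∧ Res D p) z)
    (hS : S ⊆ PP (fun p => p₁ < p ∧ Res D p) z) {p p' : ℕ} (hp : p.Prime) (hp' : p'.Prime)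
    (hzp : z < p) (heq : (∏ r ∈ adj D p₁ T, r) * p = (∏ r ∈ adj D p₁ S, r) * p') :
    T = S ∧ p = p' := by
  have h1 : p ∣ (∏ r ∈ adj D p₁ S, r) * p' := by rw [← heq]; exact dvd_mul_left _ _
  have hpp : p = p' := by
    rcases (Nat.Prime.dvd_mul hp).1 h1 with h | h
    · exfalso
      rw [Prime.dvd_finsetProd_iff hp.prime] at h
      obtain ⟨s, hs, hrs⟩ := h
      have : p = s := (Nat.prime_dvd_prime_iff_eq hp (adj_prime hp₁ hS hs)).1 hrs
      subst this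
      exact absurd (adj_le hp₁z hS hs) (by omega)
    · exact (Nat.prime_dvd_prime_iff_eq hp hp').1 h
  subst hpp
  refine ⟨?_, rfl⟩
  have h2 := Nat.eq_of_mul_eq_mul_right hp.pos heq
  have h3 : adj D p₁ T = adj D p₁ S := by
    rw [← Nat.primeFactors_prod (fun r hr => adj_prime hp₁ hT hr), h2,
      Nat.primeFactors_prod (fun r hr => adj_prime hp₁ hS hr)]
  rw [← adj_erase hT, h3, adj_erase hS]

end Stoll308.AP
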