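import Pool.Agent.Work.MP_308fa9_nt.Count2

set_option autoImplicit false

/-! Lower bound for the number of squarefree `u ≤ X`, `u ≡ 1 mod Q`, all of whose primes split in
one of three quadratic fields. -/

namespace Stoll308.AP

open Finset NumberTheorySymbols

lemma exists_root (E X : ℕ) (hE : 0 < E) : ∃ z : ℕ, z ^ E ≤ X ∧ X < (z + 1) ^ E := by
  have h : ∃ n, X < (n + 1) ^ E := ⟨X, by
    calc X < X + 1 := Nat.lt_succ_self X
      _ ≤ (X + 1) ^ E := Nat.le_self_pow hE.ne' _⟩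
  classical
  refine ⟨Nat.find h, ?_, Nat.find_spec h⟩
  rcases Nat.eq_zero_or_pos (Nat.find h) with h0 | hpos
  · rw [h0, zero_pow hE.ne']; exact Nat.zero_le _
  · have := Nat.find_min h (m := Nat.find h - 1) (by omega)
    rw [show Nat.find h - 1 + 1 = Nat.find h by omega] at this
    exact not_lt.1 this

open Classical in
theorem count_lower {D : Fin 3 → ℤ} (h0 : ∀ i, D i ≠ 0) (h1 : ∀ i, ¬ IsSquare (D i))
    (h01 : ¬ IsSquare (D 0 * D 1)) (h02 : ¬ IsSquare (D 0 * D 2)) (h12 : ¬ IsSquare (D 1 * D 2))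
    {Q : ℕ} (hQ : 0 < Q) :
    ∃ c : ℝ, 0 < c ∧ ∃ X0 : ℕ, ∀ X : ℕ, X0 ≤ X →
      c * X / (Real.log X) ^ ((1 : ℝ) / 8) ≤
        (((Icc 1 X).filter (fun u => U D Q u)).card : ℝ) := by
  set k := Q * ∏ i, 4 * (D i).natAbs with hkdef
  have hk0 : 0 < k := Nat.mul_pos hQ (prod_pos fun i _ =>
    Nat.mul_pos (by norm_num) (Int.natAbs_pos.2 (h0 i)))
  have : NeZero k := ⟨hk0.ne'⟩
  have hk : ∀ i, 4 * (D i).natAbs ∣ k := fun i =>
    (dvd_prod_of_mem (fun i => 4 * (D i).natAbs) (mem_univ i)).mul_left Q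
  have hQk : Q ∣ k := dvd_mul_right _ _
  obtain ⟨p₁, hp₁, hkp, hpos, hneg⟩ := exists_jacobi_pos_neg (h0 0) (h0 1) (h1 0) (h1 1) h01 k
  obtain ⟨κ, hκ, hM⟩ := mert_res h0 h1 h01 h02 h12
  have hM' : Mert (fun p => @ite ℝ (p₁ < p ∧ Res D p) (Classical.propDecidable _) 1 0) κ := by
    convert hM p₁
  obtain ⟨c₁, hc₁, hV⟩ := V_lower (P := fun p => p₁ < p ∧ Res D p) hM'
  obtain ⟨K₁, hK₁⟩ := rankin (fun p => p₁ < p ∧ Res D p)
  obtain ⟨K₂, hK₂0, hK₂⟩ := count_residue k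
  have hp₁0 : (0 : ℝ) < p₁ := by exact_mod_cast hp₁.pos
  have hK₂r : (0 : ℝ) < K₂ := by exact_mod_cast hK₂0
  set E := K₁ + 2 with hE
  have hEr : (0 : ℝ) < E := by positivity
  refine ⟨c₁ / (4 * p₁ * K₂) * (1 / (2 * E)) ^ ((7 : ℝ) / 8), by positivity,
    (K₂ * p₁ + 3) ^ E, fun X hX => ?_⟩
  obtain ⟨z, hzX, hXz⟩ := exists_root E X (by omega)
  have hZz : K₂ * p₁ + 3 ≤ z := by
    by_contra hlt
    have : (z + 1) ^ E ≤ (K₂ * p₁ + 3) ^ E := Nat.pow_le_pow_left (by omega) E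
    omega
  have hp₁z : p₁ ≤ z := by
    have : p₁ ≤ K₂ * p₁ := Nat.le_mul_of_pos_left _ hK₂0
    omega
  have hz3 : 3 ≤ z := by omega
  have hz1 : 1 ≤ z := by omega
  have hzX' : z ≤ X := (Nat.le_self_pow (by omega) z).trans hzX
  have hX0 : 0 < X := by omega
  have hXr : (0 : ℝ) < X := by exact_mod_cast hX0
  have hlX : 0 < Real.log X := log_nat_pos (by omega)
  have hz0r : (0 : ℝ) < z := by exact_mod_cast (by omega : 0 < z)
  have hlz1 : 1 ≤ Real.log z := by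
    rw [Real.le_log_iff_exp_le hz0r]
    have h3 : (3 : ℝ) ≤ z := by exact_mod_cast hz3
    have := Real.exp_one_lt_d9
    linarith
  set P : ℕ → Prop := fun p => p₁ < p ∧ Res D p with hP
  set M := (PP P z).powerset.filter (fun T => ∏ p ∈ T, p ≤ z ^ K₁) with hMdef
  set m : Finset ℕ → ℕ := fun T => ∏ r ∈ adj D p₁ T, r with hm
  have hMsub : ∀ T ∈ M, T ⊆ PP P z := fun T hT => mem_powerset.1 (mem_filter.1 hT).1
  have hm0 : ∀ T ∈ M, 0 < m T := fun T hT => prod_pos fun r hr =>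
    (adj_prime hp₁ (hMsub T hT) hr).pos
  have hmle : ∀ T ∈ M, m T ≤ p₁ * ∏ p ∈ T, p := fun T hT => adj_prod_le hp₁ (hMsub T hT)
  have hzK : ∀ T ∈ M, z * K₂ ≤ X / m T := by
    intro T hT
    rw [Nat.le_div_iff_mul_le (hm0 T hT)]
    calc z * K₂ * m T ≤ z * K₂ * (p₁ * z ^ K₁) :=
          Nat.mul_le_mul_left _ ((hmle T hT).trans (Nat.mul_le_mul_left _ (mem_filter.1 hT).2))
      _ = z * (K₂ * p₁) * z ^ K₁ := by ring
      _ ≤ z * z * z ^ K₁ := by
          gcongr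
          omega
      _ = z ^ E := by rw [hE]; ring
      _ ≤ X := hzX
  set R : Finset ℕ → Finset ℕ := fun T => (Ioc (X / m T / K₂) (X / m T)).filter
    (fun p : ℕ => p.Prime ∧ (p : ZMod k) = ((m T : ℕ) : ZMod k)⁻¹) with hR
  have hRz : ∀ T ∈ M, ∀ p ∈ R T, z < p := by
    intro T hT p hp
    rw [hR, mem_filter, mem_Ioc] at hp
    have : z ≤ X / m T / K₂ := by
      rw [Nat.le_div_iff_mul_le hK₂0]
      exact hzK T hT
    omega
  -- the count
  have hcard : ∑ T ∈ M, (R T).card ≤ ((Icc 1 X).filter (fun u => U D Q u)).card := by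
    rw [← card_sigma]
    refine card_le_card_of_injOn (fun x => m x.1 * x.2) ?_ ?_
    · rintro ⟨T, p⟩ hx
      rw [mem_coe, mem_sigma] at hx
      obtain ⟨hT, hp⟩ := hx
      simp only at hT hp ⊢
      have hzp := hRz T hT p hp
      rw [hR, mem_filter, mem_Ioc] at hp
      rw [mem_coe, mem_filter, mem_Icc]
      refine ⟨⟨Nat.mul_pos (hm0 T hT) hp.2.1.pos, ?_⟩, ?_⟩
      · calc m T * p ≤ m T * (X / m T) := Nat.mul_le_mul_left _ hp.1.2
          _ ≤ X := Nat.mul_div_le _ _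
      · exact mem_U h0 hk0 hk hQk hkp hp₁ hp₁z hpos hneg (hMsub T hT) hp.2.1 hzp hp.2.2
    · rintro ⟨T, p⟩ hx ⟨S, p'⟩ hy heq
      rw [mem_coe, mem_sigma] at hx hy
      obtain ⟨hT, hp⟩ := hx
      obtain ⟨hS, hp'⟩ := hy
      simp only at hT hp hS hp' heq
      have hzp := hRz T hT p hp
      rw [hR, mem_filter] at hp hp'
      obtain ⟨e1, e2⟩ := inj_U hp₁ hp₁z (hMsub T hT) (hMsub S hS) hp.2.1 hp'.2.1 hzp heq
      subst e1
      subst e2
      rfl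
  have hlow : ∀ T ∈ M, X / (2 * p₁ * K₂ * Real.log X) * (1 / ((∏ p ∈ T, p : ℕ) : ℝ)) ≤
      ((R T).card : ℝ) := by
    intro T hT
    have hcop : Nat.Coprime (m T) k := by
      refine Nat.Coprime.prod_left fun r hr => ?_
      have hrp := adj_prime hp₁ (hMsub T hT) hr
      have := adj_ge (hMsub T hT) hr
      exact (Nat.Prime.coprime_iff_not_dvd hrp).2 fun hd =>
        absurd (Nat.le_of_dvd hk0 hd) (by omega)
    have hunit : IsUnit (((m T : ℕ) : ZMod k)⁻¹) := by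
      rw [isUnit_iff_exists_inv]
      exact ⟨(m T : ZMod k), ZMod.inv_mul_of_unit _ ((ZMod.isUnit_iff_coprime (m T) k).2 hcop)⟩
    have hy : K₂ < X / m T := by
      have := hzK T hT
      have h2 : K₂ * 3 ≤ z * K₂ := by rw [mul_comm]; exact Nat.mul_le_mul_right _ hz3
      omega
    have hcount := hK₂ _ hunit (X / m T) hy
    refine le_trans ?_ hcount
    have hmT0 := hm0 T hT
    have hmr : (0 : ℝ) < m T := by exact_mod_cast hmT0
    have hT0 : 0 < ∏ p ∈ T, p := prod_pos fun p hp => (mem_PP.1 (hMsub T hT hp)).2.1.pos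
    have hTr : (0 : ℝ) < ((∏ p ∈ T, p : ℕ) : ℝ) := by exact_mod_cast hT0
    have hyr : (0 : ℝ) < ((X / m T : ℕ) : ℝ) := by exact_mod_cast (by omega : 0 < X / m T)
    have hly : 0 < Real.log ((X / m T : ℕ) : ℝ) := log_nat_pos (by omega)
    have hlyX : Real.log ((X / m T : ℕ) : ℝ) ≤ Real.log X :=
      Real.log_le_log hyr (by exact_mod_cast Nat.div_le_self X (m T))
    have e1 : (X : ℝ) ≤ 2 * (p₁ * ((∏ p ∈ T, p : ℕ) : ℝ)) * ((X / m T : ℕ) : ℝ) := by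
      have f1 : X < m T * (X / m T + 1) := Nat.lt_mul_div_succ X hmT0
      have f2 : m T * (X / m T + 1) ≤ 2 * (p₁ * ∏ p ∈ T, p) * (X / m T) := by
        calc m T * (X / m T + 1) ≤ m T * (2 * (X / m T)) := Nat.mul_le_mul_left _ (by omega)
          _ ≤ (p₁ * ∏ p ∈ T, p) * (2 * (X / m T)) := Nat.mul_le_mul_right _ (hmle T hT)
          _ = _ := by ring
      exact_mod_cast (f1.le.trans f2)
    calc X / (2 * p₁ * K₂ * Real.log X) * (1 / ((∏ p ∈ T, p : ℕ) : ℝ))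
        = (X / (2 * (p₁ * ((∏ p ∈ T, p : ℕ) : ℝ)))) / (K₂ * Real.log X) := by
          field_simp
      _ ≤ ((X / m T : ℕ) : ℝ) / (K₂ * Real.log X) := by
          gcongr
          rw [div_le_iff₀ (by positivity)]
          linarith
      _ ≤ ((X / m T : ℕ) : ℝ) / (K₂ * Real.log ((X / m T : ℕ) : ℝ)) := by
          gcongr
  have hsum : X / (2 * p₁ * K₂ * Real.log X) * (c₁ * Real.log z ^ κ / 2) ≤
      ∑ T ∈ M, ((R T).card : ℝ) := by
    calc X / (2 * p₁ * K₂ * Real.log X) * (c₁ * Real.log z ^ κ / 2)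
        ≤ X / (2 * p₁ * K₂ * Real.log X) * ∑ T ∈ M, 1 / ((∏ p ∈ T, p : ℕ) : ℝ) := by
          gcongr
          have := hV z (by omega)
          have h2 := hK₁ z hz3
          linarith
      _ = ∑ T ∈ M, X / (2 * p₁ * K₂ * Real.log X) * (1 / ((∏ p ∈ T, p : ℕ) : ℝ)) := by
          rw [mul_sum]
      _ ≤ _ := sum_le_sum hlow
  have hlogz : (1 / (2 * (E : ℝ))) * Real.log X ≤ Real.log z := by
    have f1 : X ≤ z ^ (2 * E) := by
      calc X ≤ (z + 1) ^ E := hXz.le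
        _ ≤ (z ^ 2) ^ E := Nat.pow_le_pow_left (by nlinarith) E
        _ = z ^ (2 * E) := by rw [← pow_mul]
    have f2 : Real.log X ≤ (2 * E) * Real.log z := by
      have := Real.log_le_log hXr (by exact_mod_cast f1 : (X : ℝ) ≤ (z : ℝ) ^ (2 * E))
      rw [Real.log_pow] at this
      push_cast at this
      exact this
    rw [one_div, inv_mul_le_iff₀ (by positivity)]
    exact f2
  have hpow : (1 / (2 * (E : ℝ))) ^ ((7 : ℝ) / 8) * Real.log X ^ ((7 : ℝ) / 8) ≤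
      Real.log z ^ κ := by
    rw [← Real.mul_rpow (by positivity) hlX.le]
    calc (1 / (2 * (E : ℝ)) * Real.log X) ^ ((7 : ℝ) / 8) ≤ Real.log z ^ ((7 : ℝ) / 8) := by
          gcongr
      _ ≤ Real.log z ^ κ := Real.rpow_le_rpow_of_exponent_le hlz1 hκ
  have hfin : c₁ / (4 * p₁ * K₂) * (1 / (2 * (E : ℝ))) ^ ((7 : ℝ) / 8) * X /
      Real.log X ^ ((1 : ℝ) / 8) =
      X / (2 * p₁ * K₂ * Real.log X) *
        (c₁ * ((1 / (2 * (E : ℝ))) ^ ((7 : ℝ) / 8) * Real.log X ^ ((7 : ℝ) / 8)) / 2) := by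
    have e1 : Real.log X = Real.log X ^ ((7 : ℝ) / 8) * Real.log X ^ ((1 : ℝ) / 8) := by
      rw [← Real.rpow_add hlX]; norm_num
    have e2 : Real.log X ^ ((7 : ℝ) / 8) / Real.log X = 1 / Real.log X ^ ((1 : ℝ) / 8) := by
      have g1 : 0 < Real.log X ^ ((7 : ℝ) / 8) := by positivity
      have g2 : 0 < Real.log X ^ ((1 : ℝ) / 8) := by positivity
      rw [div_eq_div_iff hlX.ne' g2.ne', one_mul, ← e1]
    have e3 : X / (2 * p₁ * K₂ * Real.log X) *
        (c₁ * ((1 / (2 * (E : ℝ))) ^ ((7 : ℝ) / 8) * Real.log X ^ ((7 : ℝ) / 8)) / 2) =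
        c₁ / (4 * p₁ * K₂) * (1 / (2 * (E : ℝ))) ^ ((7 : ℝ) / 8) * X *
          (Real.log X ^ ((7 : ℝ) / 8) / Real.log X) := by
      field_simp
      ring
    rw [e3, e2]
    ring
  rw [hfin]
  calc X / (2 * p₁ * K₂ * Real.log X) *
        (c₁ * ((1 / (2 * (E : ℝ))) ^ ((7 : ℝ) / 8) * Real.log X ^ ((7 : ℝ) / 8)) / 2)
      ≤ X / (2 * p₁ * K₂ * Real.log X) * (c₁ * Real.log z ^ κ / 2) := by
        gcongr
    _ ≤ ∑ T ∈ M, ((R T).card : ℝ) := hsum
    _ = ((∑ T ∈ M, (R T).card : ℕ) : ℝ) := by push_cast; rfl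
    _ ≤ _ := by exact_mod_cast hcard

end Stoll308.AP
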