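import Mathlib
import Pool.Agent.Work.MP_308fa9_nt.LocalPoint
import Pool.Agent.Work.MP_2b9663_nt.Weil

set_option autoImplicit false

/-!
Points on `t y² = ∏ q_j(x,1)` modulo large primes.
-/

namespace Stoll308

open Finset Polynomial

variable {r : ℕ} {q : Forms r}

/-- The polynomial `q_j(X,1)` modulo `p`. -/
noncomputable def qp (q : Forms r) (K : Type*) [Field K] (j : Fin r) : K[X] :=
  C (q.a j : K) * X ^ 2 + C (q.b j : K) * X + C (q.c j : K)

lemma qp_eval {K : Type*} [Field K] (j : Fin r) (x : K) : (qp q K j).eval x = q.val j x 1 := by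
  unfold qp Forms.val
  simp

lemma qp_aeval {K L : Type*} [Field K] [Field L] [Algebra K L] (j : Fin r) (x : L) :
    aeval x (qp q K j) = q.val j x 1 := by
  unfold qp Forms.val
  simp

variable {p : ℕ} [hp : Fact p.Prime]

omit hp in
lemma cast_ne_zero_of_dvd_bad (hbad : ¬ (p : ℤ) ∣ q.bad) {n : ℤ} (h : n ∣ q.bad) {K : Type*}
    [Field K] [CharP K p] : (n : K) ≠ 0 := by
  intro h0
  rw [CharP.intCast_eq_zero_iff K p] at h0
  exact hbad (h0.trans h)

lemma qp_natDegree (hbad : ¬ (p : ℤ) ∣ q.bad) (j : Fin r) :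
    (qp q (ZMod p) j).natDegree = 2 := by
  unfold qp
  exact natDegree_quadratic (cast_ne_zero_of_dvd_bad hbad (a_dvd_bad j))

lemma qp_separable (hbad : ¬ (p : ℤ) ∣ q.bad) (j : Fin r) :
    (qp q (ZMod p) j).Separable := by
  have hd : ((q.disc j : ℤ) : ZMod p) ≠ 0 := cast_ne_zero_of_dvd_bad hbad (disc_dvd_bad j)
  have hder : derivative (qp q (ZMod p) j) = C (2 * (q.a j : ZMod p)) * X + C (q.b j : ZMod p) := by
    unfold qp
    simp only [derivative_add, derivative_mul, derivative_C, zero_mul, zero_add, derivative_X_pow,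
      derivative_X, mul_one, add_zero, C_mul]
    simp only [Nat.cast_ofNat, map_ofNat, Nat.add_one_sub_one, pow_one]
    ring
  refine ⟨C (-4 * (q.a j : ZMod p) / (q.disc j : ℤ)),
    C (1 / ((q.disc j : ℤ) : ZMod p)) * (C (2 * (q.a j : ZMod p)) * X + C (q.b j : ZMod p)), ?_⟩
  rw [hder]
  have h1 : (1 : (ZMod p)[X]) = C (1 / ((q.disc j : ℤ) : ZMod p)) * C ((q.disc j : ℤ) : ZMod p) := by
    rw [← C_mul, one_div, inv_mul_cancel₀ hd, C_1]
  have h2 : C (-4 * (q.a j : ZMod p) / (q.disc j : ℤ)) =
      C (1 / ((q.disc j : ℤ) : ZMod p)) * C (-4 * (q.a j : ZMod p)) := by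
    rw [← C_mul]; congr 1; ring
  have h3 : ((q.disc j : ℤ) : ZMod p) = (q.b j : ZMod p) ^ 2 - 4 * q.a j * q.c j := by
    unfold Forms.disc; push_cast; ring
  rw [h2, h1, mul_assoc, mul_assoc, ← mul_add]
  congr 1
  rw [h3]
  unfold qp
  simp only [C_mul, C_sub, C_pow, C_neg, map_ofNat]
  ring

lemma qp_coprime (hbad : ¬ (p : ℤ) ∣ q.bad) {j k : Fin r} (hjk : j ≠ k) :
    IsCoprime (qp q (ZMod p) j) (qp q (ZMod p) k) := by
  rw [Polynomial.isCoprime_iff_aeval_ne_zero_of_isAlgClosed (ZMod p) (AlgebraicClosure (ZMod p))]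
  intro x
  by_contra hcon
  push Not at hcon
  rw [qp_aeval, qp_aeval] at hcon
  have := res_eq_zero (q := q) (j := j) (k := k) (x := x) (z := 1) (Or.inr one_ne_zero)
    hcon.1 hcon.2
  have hch : CharP (AlgebraicClosure (ZMod p)) p := by
    exact charP_of_injective_algebraMap (algebraMap (ZMod p) _).injective p
  exact cast_ne_zero_of_dvd_bad hbad (res_dvd_bad hjk) this

lemma fp_separable (hbad : ¬ (p : ℤ) ∣ q.bad) : (∏ j, qp q (ZMod p) j).Separable :=
  separable_prod' (fun _ _ _ _ h => qp_coprime hbad h) fun j _ => qp_separable hbad j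

lemma fp_natDegree (hbad : ¬ (p : ℤ) ∣ q.bad) : (∏ j, qp q (ZMod p) j).natDegree = 2 * r := by
  rw [natDegree_prod _ _ fun j _ => ?_]
  · rw [sum_congr rfl fun j _ => qp_natDegree hbad j]
    simp [mul_comm]
  · intro h0
    have := qp_natDegree hbad j
    rw [h0] at this
    simp at this

open Pool.Agent.Work.MP_2b9663_nt in
/-- For a large good prime the product of the forms takes values of both quadratic characters. -/
theorem exists_value (hr : 0 < r) (hbad : ¬ (p : ℤ) ∣ q.bad) (hbig : (4 * r + 2) ^ 2 ≤ p)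
    {ε : ℤ} (hε : ε = 1 ∨ ε = -1) :
    ∃ x : ZMod p, quadraticChar (ZMod p) (∏ j, q.val j x 1) = ε := by
  classical
  have hp2 : ringChar (ZMod p) ≠ 2 := by
    rw [ZMod.ringChar_zmod_n]
    rintro rfl
    exact hbad two_dvd_bad
  set f := ∏ j, qp q (ZMod p) j with hf
  have hdeg := fp_natDegree (q := q) hbad
  rw [← hf] at hdeg
  have hw := weil_bound hp2 (fp_separable hbad).squarefree (by rw [← hf, hdeg]; omega)
  rw [← hf, hdeg, ZMod.card] at hw
  by_contra hcon
  push Not at hcon
  have heval : ∀ x, f.eval x = ∏ j, q.val j x 1 := by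
    intro x
    rw [hf, eval_prod]
    exact prod_congr rfl fun j _ => qp_eval j x
  have hf0 : f ≠ 0 := by
    intro h
    rw [h] at hdeg
    simp at hdeg
    omega
  -- the values of the character
  have hval : ∀ x, quadraticChar (ZMod p) (f.eval x) = if f.eval x = 0 then 0 else -ε := by
    intro x
    split_ifs with h0
    · rw [h0]; simp
    · have h1 := hcon x
      rw [← heval] at h1
      rcases quadraticChar_dichotomy h0 with h | h <;> rcases hε with h' | h'
      · exact absurd (h.trans h'.symm) h1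
      · rw [h, h']; norm_num
      · rw [h, h']
      · exact absurd (h.trans h'.symm) h1
  have hsum : charSum (ZMod p) f = -ε * ((univ.filter fun x => f.eval x ≠ 0).card : ℤ) := by
    unfold charSum
    rw [sum_congr rfl fun x _ => hval x, card_filter]
    push_cast
    rw [mul_sum]
    refine sum_congr rfl fun x _ => ?_
    by_cases h : eval x f = 0
    · simp [h]
    · simp [h]
  have hcard : p ≤ (univ.filter fun x => f.eval x ≠ 0).card + 2 * r := by
    have h1 : (univ.filter fun x : ZMod p => f.eval x = 0).card ≤ 2 * r := by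
      rw [← hdeg]
      refine le_trans ?_ (card_roots' f)
      refine le_trans ?_ (Multiset.toFinset_card_le _)
      apply card_le_card
      intro x hx
      rw [mem_filter] at hx
      rw [Multiset.mem_toFinset, mem_roots hf0]
      exact hx.2
    have h2 := card_filter_add_card_filter_not (s := (univ : Finset (ZMod p)))
      (fun x : ZMod p => f.eval x = 0)
    rw [card_univ, ZMod.card] at h2
    have h3 : (univ.filter fun x : ZMod p => ¬ f.eval x = 0) =
        univ.filter fun x : ZMod p => f.eval x ≠ 0 := rfl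
    rw [h3] at h2
    omega
  have habs : |(charSum (ZMod p) f : ℝ)| = ((univ.filter fun x => f.eval x ≠ 0).card : ℝ) := by
    rw [hsum]
    push_cast
    rw [abs_mul, abs_neg]
    have : |(ε : ℝ)| = 1 := by rcases hε with h | h <;> rw [h] <;> simp
    rw [this, one_mul, abs_of_nonneg (Nat.cast_nonneg _)]
  rw [habs] at hw
  have h4 : ((2 * r - 1 : ℕ) : ℝ) = 2 * r - 1 := by
    rw [Nat.cast_sub (by omega)]; push_cast; ring
  rw [h4] at hw
  have h5 : (p : ℝ) ≤ ((univ.filter fun x => f.eval x ≠ 0).card : ℝ) + 2 * r := by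
    exact_mod_cast hcard
  have h6 : (4 * (r : ℝ) + 2) ≤ Real.sqrt p := by
    apply Real.le_sqrt_of_sq_le
    exact_mod_cast hbig
  have h7 : Real.sqrt p * Real.sqrt p = p := Real.mul_self_sqrt (Nat.cast_nonneg p)
  have h8 : (1 : ℝ) ≤ r := by exact_mod_cast hr
  nlinarith

end Stoll308
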