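import Mathlib
import Pool.Agent.Work.MP_308fa9_nt.WeilPt
import Pool.Agent.Work.MP_308fa9_nt.Descent

set_option autoImplicit false

/-!
Many twists have points everywhere locally.
-/

namespace Stoll308

open Finset PadicInt

variable {r : ℕ} {q : Forms r} {t : ℤ}

section local_points

variable {p : ℕ} [hp : Fact p.Prime]

lemma good_ne_two (hbad : ¬ (p : ℤ) ∣ q.bad) : p ≠ 2 := by
  rintro rfl
  exact hbad two_dvd_bad

lemma norm_int_eq_one {n : ℤ} (h : ¬ (p : ℤ) ∣ n) : ‖(n : ℤ_[p])‖ = 1 := by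
  rw [PadicInt.norm_intCast_eq_one_iff]
  exact (Int.isCoprime_iff_gcd_eq_one.2 (by
    rw [Int.gcd_comm]
    exact (Int.isCoprime_iff_gcd_eq_one.1
      ((Nat.prime_iff_prime_int.1 hp.out).coprime_iff_not_dvd.2 h))))

/-- A point at a large good prime not dividing `t`. -/
lemma point_unram (hr : 0 < r) (hbad : ¬ (p : ℤ) ∣ q.bad) (hbig : (4 * r + 2) ^ 2 ≤ p)
    (ht : ¬ (p : ℤ) ∣ t) : Nonempty (q.Point t ℚ_[p]) := by
  have hp2 := good_ne_two hbad
  have htu := norm_int_eq_one ht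
  have ht0 : (t : ZMod p) ≠ 0 := by
    rwa [Ne, ZMod.intCast_zmod_eq_zero_iff_dvd]
  obtain ⟨x, hx⟩ := exists_value hr hbad hbig (quadraticChar_dichotomy ht0)
  obtain ⟨X, hX⟩ := ZMod.ringHom_surjective (toZMod : ℤ_[p] →+* ZMod p) x
  have hv : toZMod ((t : ℤ_[p]) * ∏ j, q.val j X 1) = (t : ZMod p) * ∏ j, q.val j x 1 := by
    rw [map_mul, map_prod, map_intCast]
    congr 1
    refine prod_congr rfl fun j _ => ?_
    rw [map_val, hX, map_one]
  have hchar : quadraticChar (ZMod p) ((t : ZMod p) * ∏ j, q.val j x 1) = 1 := by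
    rw [map_mul, hx, ← sq]
    exact quadraticChar_sq_one ht0
  have hne : (t : ZMod p) * ∏ j, q.val j x 1 ≠ 0 := by
    intro h
    rw [h] at hchar
    simp at hchar
  obtain ⟨w, hw1, hw⟩ := sq_of_residue hp2 (e := (t : ℤ_[p]) * ∏ j, q.val j X 1)
    (norm_eq_one_iff_toZMod.2 (by rw [hv]; exact hne))
    (by rw [hv]; exact (quadraticChar_one_iff_isSquare hne).1 hchar)
  have htq : (t : ℚ_[p]) ≠ 0 := by
    intro h
    rw [PadicInt.norm_def] at htu
    push_cast at htu
    rw [h, norm_zero] at htu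
    exact zero_ne_one htu
  have hw' := congrArg (fun x : ℤ_[p] => (x : ℚ_[p])) hw
  simp only [PadicInt.coe_mul, PadicInt.coe_pow, coe_prod_int, PadicInt.coe_intCast] at hw'
  refine ⟨⟨X, w / t, 1, Or.inr one_ne_zero, ?_⟩⟩
  have h1 : ∀ j, q.val j (X : ℚ_[p]) 1 = ((q.val j X 1 : ℤ_[p]) : ℚ_[p]) := by
    intro j
    rw [coe_val]; simp
  rw [prod_congr rfl fun j _ => h1 j]
  field_simp
  rw [← hw']

/-- A point at a good prime dividing `t` at which one of the forms has a zero. -/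
lemma point_ram (hbad : ¬ (p : ℤ) ∣ q.bad) (ht : (p : ℤ) ∣ t)
    (hsplit : ∃ j, IsSquare ((q.disc j : ℤ) : ZMod p)) : Nonempty (q.Point t ℚ_[p]) := by
  have hp2 := good_ne_two hbad
  obtain ⟨j, s, hs⟩ := hsplit
  have ha : ((q.a j : ℤ) : ZMod p) ≠ 0 := cast_ne_zero_of_dvd_bad hbad (a_dvd_bad j)
  have hd : ((q.disc j : ℤ) : ZMod p) ≠ 0 := cast_ne_zero_of_dvd_bad hbad (disc_dvd_bad j)
  have h2 : (2 : ZMod p) ≠ 0 := by
    have := cast_ne_zero_of_dvd_bad (K := ZMod p) hbad two_dvd_bad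
    exact_mod_cast this
  have hdisc : ((q.disc j : ℤ) : ZMod p) = (q.b j : ZMod p) ^ 2 - 4 * q.a j * q.c j := by
    unfold Forms.disc; push_cast; ring
  set θ : ZMod p := (s - q.b j) / (2 * q.a j) with hθ
  have hθ' : 2 * (q.a j : ZMod p) * θ + q.b j = s := by
    rw [hθ]
    field_simp
    ring
  have hroot : q.val j θ 1 = 0 := by
    unfold Forms.val
    have h4 : 4 * (q.a j : ZMod p) * (q.a j * θ ^ 2 + q.b j * θ * 1 + q.c j * 1 ^ 2) = 0 := by
      have : 4 * (q.a j : ZMod p) * (q.a j * θ ^ 2 + q.b j * θ * 1 + q.c j * 1 ^ 2) =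
          (2 * (q.a j : ZMod p) * θ + q.b j) ^ 2 - ((q.b j : ZMod p) ^ 2 - 4 * q.a j * q.c j) := by
        ring
      rw [this, hθ', ← hdisc, hs]; ring
    have h5 : (4 : ZMod p) * q.a j ≠ 0 := by
      have : (4 : ZMod p) = 2 * 2 := by norm_num
      rw [this]
      exact mul_ne_zero (mul_ne_zero h2 h2) ha
    exact (mul_eq_zero.1 h4).resolve_left h5
  have hs0 : s ≠ 0 := by
    rintro rfl
    rw [mul_zero] at hs
    exact hd hs
  have hothers : ∀ k, k ≠ j → q.val k θ 1 ≠ 0 := by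
    intro k hk h0
    have := res_eq_zero (q := q) (x := θ) (z := 1) (Or.inr one_ne_zero) hroot h0
    exact cast_ne_zero_of_dvd_bad hbad (res_dvd_bad hk.symm) this
  obtain ⟨X, hX⟩ := ZMod.ringHom_surjective (toZMod : ℤ_[p] →+* ZMod p) θ
  -- Hensel for `∏ q_k(X,1) - t`
  let g : Fin r → Polynomial ℤ_[p] := fun k => Polynomial.C (q.a k : ℤ_[p]) * Polynomial.X ^ 2 +
    Polynomial.C (q.b k : ℤ_[p]) * Polynomial.X + Polynomial.C (q.c k : ℤ_[p])
  have hg : ∀ k (y : ℤ_[p]), Polynomial.aeval y (g k) = q.val k y 1 := by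
    intro k y
    simp only [g, Forms.val]
    simp
  have hg' : ∀ k (y : ℤ_[p]), Polynomial.aeval y (Polynomial.derivative (g k)) =
      2 * (q.a k : ℤ_[p]) * y + q.b k := by
    intro k y
    simp only [g]
    simp
    ring
  have hF : Polynomial.aeval X ((∏ k, g k) - Polynomial.C (t : ℤ_[p])) =
      ∏ k, q.val k X 1 - (t : ℤ_[p]) := by
    rw [map_sub, map_prod, prod_congr rfl fun k _ => hg k X]
    simp
  have hF0 : toZMod (∏ k, q.val k X 1 - (t : ℤ_[p])) = 0 := by
    rw [map_sub, map_prod, map_intCast]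
    have h1 : ∏ k, toZMod (q.val k X 1) = 0 := by
      apply prod_eq_zero (mem_univ j)
      rw [map_val, hX, map_one]
      exact hroot
    rw [h1, zero_sub, neg_eq_zero, ZMod.intCast_zmod_eq_zero_iff_dvd]
    exact ht
  have hF' : ‖Polynomial.aeval X (Polynomial.derivative ((∏ k, g k) -
      Polynomial.C (t : ℤ_[p])))‖ = 1 := by
    rw [norm_eq_one_iff_toZMod, Polynomial.derivative_sub, Polynomial.derivative_C, sub_zero,
      Polynomial.derivative_prod_finset, map_sum, map_sum]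
    rw [sum_eq_single j]
    · rw [map_mul, map_mul, map_prod, map_prod, hg', map_add, map_mul, map_mul, map_intCast,
        map_intCast, hX, map_ofNat, hθ']
      refine mul_ne_zero ?_ hs0
      rw [prod_ne_zero_iff]
      intro k hk
      rw [hg, map_val, hX, map_one]
      exact hothers k (mem_erase.1 hk).1
    · intro k _ hk
      rw [map_mul, map_mul, map_prod, map_prod]
      apply mul_eq_zero_of_left
      apply prod_eq_zero (mem_erase.2 ⟨hk.symm, mem_univ j⟩)
      rw [hg, map_val, hX, map_one]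
      exact hroot
    · intro h; exact absurd (mem_univ j) h
  obtain ⟨Z, hZ, -⟩ := hensels_lemma (F := (∏ k, g k) - Polynomial.C (t : ℤ_[p])) (a := X) (by
    rw [hF', one_pow, hF, lt_iff_le_and_ne]
    refine ⟨PadicInt.norm_le_one _, fun h => ?_⟩
    exact norm_eq_one_iff_toZMod.1 h hF0)
  have hZ' : ∏ k, q.val k Z 1 = (t : ℤ_[p]) := by
    rw [map_sub, map_prod, prod_congr rfl fun k _ => hg k Z, sub_eq_zero] at hZ
    rw [hZ]
    simp
  refine ⟨⟨Z, 1, 1, Or.inr one_ne_zero, ?_⟩⟩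
  have h1 : ∀ j, q.val j (Z : ℚ_[p]) 1 = ((q.val j Z 1 : ℤ_[p]) : ℚ_[p]) := by
    intro j
    rw [coe_val]; simp
  rw [prod_congr rfl fun j _ => h1 j, ← coe_prod_int, hZ']
  simp

end local_points

/-- Squarefree part of a nonzero integer. -/
lemma exists_sqfree_part {n : ℤ} (hn : n ≠ 0) : ∃ (t : ℤ) (y : ℤ), Squarefree t ∧ y ≠ 0 ∧
    t * y ^ 2 = n := by
  obtain ⟨a, b, hab, hsq⟩ := Nat.sq_mul_squarefree n.natAbs
  have hn' : n.natAbs ≠ 0 := Int.natAbs_ne_zero.2 hn
  have hb : b ≠ 0 := by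
    rintro rfl
    apply hn'
    rw [← hab]; ring
  refine ⟨n.sign * a, b, ?_, by exact_mod_cast hb, ?_⟩
  · rw [← Int.squarefree_natAbs, Int.natAbs_mul, Int.natAbs_sign_of_ne_zero hn, one_mul,
      Int.natAbs_natCast]
    exact hsq
  · have h1 : (n.natAbs : ℤ) = (b : ℤ) ^ 2 * a := by exact_mod_cast hab.symm
    calc n.sign * (a : ℤ) * (b : ℤ) ^ 2 = n.sign * ((b : ℤ) ^ 2 * a) := by ring
      _ = n.sign * (n.natAbs : ℤ) := by rw [h1]
      _ = n := Int.sign_mul_natAbs n

/-- **Many twists have points everywhere locally.** -/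
theorem els_of (hr : Nonempty (Fin r)) (hirr : ∀ j, ¬ IsSquare (q.disc j))
    (hcop : ∀ j k, j ≠ k → q.res j k ≠ 0) :
    ∃ (t₀ : ℤ) (Q : ℕ), t₀ ≠ 0 ∧ 0 < Q ∧ ∀ u : ℕ, Squarefree u → u % Q = 1 % Q →
      (∀ p : ℕ, p.Prime → p ∣ u → ∃ j, IsSquare ((q.disc j : ℤ) : ZMod p)) →
      Squarefree (t₀ * (u : ℤ)) ∧ q.ELS (t₀ * (u : ℤ)) := by
  have hc : ∏ j, q.c j ≠ 0 := by
    rw [prod_ne_zero_iff]
    intro j _ h0
    apply hirr j
    unfold Forms.disc
    rw [h0]
    exact ⟨q.b j, by ring⟩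
  have hr' : 0 < r := Fin.pos_iff_nonempty.2 hr
  have hbad0 := bad_ne_zero hirr hcop
  obtain ⟨t₀, y, hsq, hy, hty⟩ := exists_sqfree_part hc
  have ht0 : t₀ ≠ 0 := hsq.ne_zero
  set N : ℕ := 2 * ((4 * r + 2) ^ 2).factorial * q.bad.natAbs * t₀.natAbs with hN
  have hNpos : 0 < N := by
    have h1 := Int.natAbs_pos.2 hbad0
    have h2 := Int.natAbs_pos.2 ht0
    positivity
  refine ⟨t₀, 8 * N, ht0, by omega, fun u hu hu1 hsplit => ?_⟩
  have hupos : 0 < u := Nat.pos_of_ne_zero hu.ne_zero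
  have hcopN : Nat.Coprime u (8 * N) := by
    have h1 : Nat.gcd u (8 * N) = Nat.gcd 1 (8 * N) := Nat.ModEq.gcd_eq hu1
    rw [Nat.coprime_iff_gcd_eq_one, h1, Nat.gcd_one_left]
  have hval0 : ∀ {F : Type} [Field F] (j : Fin r), q.val j (0 : F) 1 = (q.c j : F) := by
    intro F _ j
    unfold Forms.val
    ring
  have hprod0 : ∀ {F : Type} [Field F], ∏ j, q.val j (0 : F) 1 = (t₀ : F) * (y : F) ^ 2 := by
    intro F _
    rw [prod_congr rfl fun j _ => hval0 j]
    have := congrArg (Int.cast : ℤ → F) hty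
    push_cast at this
    exact this.symm
  -- a point when `u` is a square in the field
  have hpt : ∀ {F : Type} [Field F] (w : F), w ≠ 0 → (u : F) = w ^ 2 →
      Nonempty (q.Point (t₀ * (u : ℤ)) F) := by
    intro F _ w hw huw
    refine ⟨⟨0, y / w, 1, Or.inr one_ne_zero, ?_⟩⟩
    rw [hprod0]
    push_cast
    rw [huw]
    field_simp
  constructor
  · rw [← Int.squarefree_natAbs, Int.natAbs_mul, Int.natAbs_natCast]
    rw [Nat.squarefree_mul]
    · exact ⟨Int.squarefree_natAbs.2 hsq, hu⟩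
    · apply Nat.Coprime.symm
      refine Nat.Coprime.coprime_dvd_right ?_ hcopN
      exact Dvd.dvd.mul_left (Dvd.intro_left _ rfl) _
  · have hreal : Nonempty (q.Point (t₀ * (u : ℤ)) ℝ) := by
      refine hpt (Real.sqrt u) ?_ ?_
      · exact (Real.sqrt_pos.2 (by exact_mod_cast hupos)).ne'
      · rw [Real.sq_sqrt (Nat.cast_nonneg u)]
    have hpadic : ∀ (p : ℕ) [Fact p.Prime], Nonempty (q.Point (t₀ * (u : ℤ)) ℚ_[p]) := by
      intro p hp
      by_cases hpN : p ∣ N
      · obtain ⟨w, hw, huw⟩ := sq_ratio (l := p) (m := 1) (n := u) (Q := 8 * N)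
          (Nat.mul_dvd_mul_left 8 hpN) hu1 (Nat.coprime_one_left p)
        refine hpt w hw ?_
        rw [huw]; simp
      · have hpbad : ¬ (p : ℤ) ∣ q.bad := by
          intro h
          apply hpN
          rw [hN]
          exact Dvd.dvd.mul_right (Dvd.dvd.mul_left (Int.natCast_dvd.1 h) _) _
        have hpt0 : ¬ (p : ℤ) ∣ t₀ := by
          intro h
          apply hpN
          rw [hN]
          exact Dvd.dvd.mul_left (Int.natCast_dvd.1 h) _
        have hbig : (4 * r + 2) ^ 2 ≤ p := by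
          by_contra hlt
          push Not at hlt
          apply hpN
          rw [hN]
          apply Dvd.dvd.mul_right
          apply Dvd.dvd.mul_right
          apply Dvd.dvd.mul_left
          exact hp.out.dvd_factorial.2 hlt.le
        by_cases hpu : p ∣ u
        · exact point_ram hpbad (Dvd.dvd.mul_left (by exact_mod_cast hpu) _)
            (hsplit p hp.out hpu)
        · refine point_unram hr' hpbad hbig ?_
          intro h
          rcases (Nat.prime_iff_prime_int.1 hp.out).dvd_or_dvd h with h | h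
          · exact hpt0 h
          · exact hpu (by exact_mod_cast h)
    exact ⟨⟨hreal.some, fun p _ => (hpadic p).some⟩⟩

end Stoll308
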