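import Pool.Agent.Work.MP_308fa9_nt.Count3
import Pool.Agent.Work.MP_308fa9_nt.ElsOf

set_option autoImplicit false

/-! The number of everywhere locally soluble twists is at least `c X / (log X)^(1/8)`. -/

namespace Stoll308

open Finset NumberTheorySymbols

namespace Forms

variable {r : ℕ} {q : Forms r}

lemma disc_ne_zero (h : q.Good) (j : Fin r) : q.disc j ≠ 0 := by
  intro h0
  exact h.irr j ⟨0, by rw [h0]; simp⟩

theorem finite_elsSet (q : Forms r) (X : ℕ) : (q.elsSet X).Finite := by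
  refine (Set.finite_Icc (-(X : ℤ)) X).subset fun t ht => ?_
  exact abs_le.1 ht.2.1

theorem els_lower (h : q.Good) : ∃ c : ℝ, 0 < c ∧ ∃ X0 : ℕ, ∀ X : ℕ, X0 ≤ X →
    c * X / (Real.log X) ^ ((1 : ℝ) / 8) ≤ ((q.elsSet X).ncard : ℝ) := by
  classical
  obtain ⟨j₁, j₂, j₃, h12, h13, h23⟩ := h.three
  obtain ⟨t₀, Q, ht₀, hQ, hels⟩ := els_of (q := q) ⟨j₁⟩ h.irr h.cop
  set D : Fin 3 → ℤ := ![q.disc j₁, q.disc j₂, q.disc j₃] with hD
  have hD' : ∀ i, ∃ j, D i = q.disc j := by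
    intro i
    fin_cases i
    · exact ⟨j₁, rfl⟩
    · exact ⟨j₂, rfl⟩
    · exact ⟨j₃, rfl⟩
  have h0 : ∀ i, D i ≠ 0 := by
    intro i
    obtain ⟨j, hj⟩ := hD' i
    rw [hj]; exact disc_ne_zero h j
  have h1 : ∀ i, ¬ IsSquare (D i) := by
    intro i
    obtain ⟨j, hj⟩ := hD' i
    rw [hj]; exact h.irr j
  obtain ⟨c, hc, X0, hX0⟩ := AP.count_lower h0 h1 (by simpa [hD] using h12)
    (by simpa [hD] using h13) (by simpa [hD] using h23) hQ
  have ht0 : 0 < t₀.natAbs := Int.natAbs_pos.2 ht₀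
  have ht0r : (0 : ℝ) < t₀.natAbs := by exact_mod_cast ht0
  refine ⟨c / (2 * t₀.natAbs), by positivity, t₀.natAbs * (X0 + 2), fun X hX => ?_⟩
  set Y := X / t₀.natAbs with hY
  have hYX0 : X0 + 2 ≤ Y := by
    rw [hY, Nat.le_div_iff_mul_le ht0, mul_comm]
    exact hX
  have hYX : Y ≤ X := Nat.div_le_self _ _
  have hXr : (0 : ℝ) < X := by exact_mod_cast (by omega : 0 < X)
  have hYr : (0 : ℝ) < Y := by exact_mod_cast (by omega : 0 < Y)
  have hlY : 0 < Real.log Y := AP.log_nat_pos (by omega)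
  have hlXY : Real.log Y ≤ Real.log X := Real.log_le_log hYr (by exact_mod_cast hYX)
  have hlX : 0 < Real.log X := by linarith
  have hcount := hX0 Y (by omega)
  have hinj : (((Icc 1 Y).filter (fun u => AP.U D Q u)).image (fun u : ℕ => t₀ * (u : ℤ)) : Set ℤ) ⊆
      q.elsSet X := by
    intro t ht
    rw [mem_coe, mem_image] at ht
    obtain ⟨u, hu, rfl⟩ := ht
    rw [mem_filter, mem_Icc] at hu
    obtain ⟨hu1, hu2, hu3, hu4⟩ := hu
    obtain ⟨e1, e2⟩ := hels u hu2 hu3 fun p hp hpu => by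
      obtain ⟨i, hi⟩ := hu4 p hp hpu
      obtain ⟨j, hj⟩ := hD' i
      have : Fact p.Prime := ⟨hp⟩
      refine ⟨j, ?_⟩
      rw [← hj]
      exact ZMod.isSquare_of_jacobiSym_eq_one hi
    refine ⟨e1, ?_, e2⟩
    rw [abs_mul, Int.abs_eq_natAbs t₀, Nat.abs_cast]
    have : t₀.natAbs * u ≤ X := by
      calc t₀.natAbs * u ≤ t₀.natAbs * Y := Nat.mul_le_mul_left _ hu1.2
        _ ≤ X := Nat.mul_div_le _ _
    exact_mod_cast this
  have hcard : (((Icc 1 Y).filter (fun u => AP.U D Q u)).card : ℝ) ≤ ((q.elsSet X).ncard : ℝ) := by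
    have e1 := Set.ncard_le_ncard hinj (finite_elsSet q X)
    rw [Set.ncard_coe_finset, card_image_of_injective _ (fun a b hab => by
      simpa [ht₀] using hab)] at e1
    exact_mod_cast e1
  have hY2 : (X : ℝ) / (2 * t₀.natAbs) ≤ Y := by
    rw [div_le_iff₀ (by positivity)]
    have : X < t₀.natAbs * (Y + 1) := Nat.lt_mul_div_succ X ht0
    have h2 : t₀.natAbs * (Y + 1) ≤ Y * (2 * t₀.natAbs) := by
      calc t₀.natAbs * (Y + 1) ≤ t₀.natAbs * (2 * Y) := Nat.mul_le_mul_left _ (by omega)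
        _ = Y * (2 * t₀.natAbs) := by ring
    exact_mod_cast this.le.trans h2
  calc c / (2 * t₀.natAbs) * X / Real.log X ^ ((1 : ℝ) / 8)
      = c * (X / (2 * t₀.natAbs)) / Real.log X ^ ((1 : ℝ) / 8) := by ring
    _ ≤ c * Y / Real.log X ^ ((1 : ℝ) / 8) := by gcongr
    _ ≤ c * Y / Real.log Y ^ ((1 : ℝ) / 8) := by gcongr
    _ ≤ _ := hcount
    _ ≤ _ := hcard

end Forms

end Stoll308
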