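import Mathlib
import Pool.Agent.Work.MP_308fa9_nt.Bound

set_option autoImplicit false

/-!
Sums over tuples of integers of products of multiplicative weights and Jacobi symbols, for
arbitrary weights on the primes.
-/

namespace Stoll308.Core

open Finset NumberTheorySymbols Tuples Linked HT MeanSum

set_option linter.unusedSectionVars false

variable {V : Type} [Fintype V] [DecidableEq V]

/-- multiplicative weights on odd squarefree numbers -/
noncomputable def mw (w : V → ℕ → ℝ) (v : V) (m : ℕ) : ℝ :=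
  open Classical in
  if Squarefree m ∧ Odd m then ∏ p ∈ m.primeFactors, w v p else 0

lemma abs_mw {w : V → ℕ → ℝ} {m : ℕ} (hm : Squarefree m) (ho : Odd m) (v : V) :
    |mw w v m| = ∏ p ∈ m.primeFactors, |w v p| := by
  unfold mw
  rw [if_pos ⟨hm, ho⟩, abs_prod]

lemma abs_mw_le {w : V → ℕ → ℝ} (hw : ∀ v p, p.Prime → |w v p| ≤ 1) (v : V) (m : ℕ) :
    |mw w v m| ≤ 1 := by
  by_cases h : Squarefree m ∧ Odd m
  · rw [abs_mw h.1 h.2]
    exact prod_le_one (fun _ _ => abs_nonneg _) fun p hp => hw v p (Nat.prime_of_mem_primeFactors hp)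
  · unfold mw
    rw [if_neg h, abs_zero]
    exact zero_le_one

lemma of_mw_ne {w : V → ℕ → ℝ} {v : V} {m : ℕ} (h : mw w v m ≠ 0) : Squarefree m ∧ Odd m := by
  by_contra hn
  apply h
  unfold mw
  rw [if_neg hn]

lemma thr_ne {a : V → ℕ → ℝ} {z : ℕ} {L : Finset V} {v : V} {m : ℕ} (h : thr a z L v m ≠ 0) :
    a v m ≠ 0 := by
  intro h0
  have := abs_thr_le a z L v m
  rw [h0, abs_zero] at this
  exact h (abs_eq_zero.1 (le_antisymm this (abs_nonneg _)))

lemma mem_TX {X : ℕ} {e : V → ℕ} : e ∈ TX V X ↔ (∀ v, 1 ≤ e v) ∧ ∏ v, e v ≤ X := by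
  unfold TX
  rw [mem_filter, Fintype.mem_piFinset]
  constructor
  · rintro ⟨h1, h2⟩
    exact ⟨fun v => (mem_Icc.1 (h1 v)).1, h2⟩
  · rintro ⟨h1, h2⟩
    refine ⟨fun v => mem_Icc.2 ⟨h1 v, le_trans ?_ h2⟩, h2⟩
    exact Nat.le_of_dvd (prod_pos fun v _ => h1 v) (dvd_prod_of_mem e (mem_univ v))

lemma sum_TX (X : ℕ) (F : (V → ℕ) → ℝ) :
    ∑ e ∈ TX V X, F e = ∑ n ∈ Icc 1 X, ∑ e ∈ tup V n, F e := by
  classical
  rw [← sum_fiberwise_of_maps_to (s := TX V X) (t := Icc 1 X) (g := fun e => ∏ v, e v)]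
  · refine sum_congr rfl fun n hn => sum_congr ?_ fun _ _ => rfl
    have hn' := mem_Icc.1 hn
    ext e
    rw [mem_filter, mem_TX, mem_tup (by omega)]
    constructor
    · rintro ⟨_, h⟩; exact h
    · intro h
      refine ⟨⟨fun v => ?_, by omega⟩, h⟩
      rcases Nat.eq_zero_or_pos (e v) with h0 | h0
      · rw [prod_eq_zero (mem_univ v) h0] at h
        omega
      · exact h0
  · intro e he
    rw [mem_TX] at he
    exact mem_Icc.2 ⟨Nat.succ_le_of_lt (prod_pos fun v _ => he.1 v), he.2⟩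

/-- the weights over an index set -/
noncomputable def gw (w : V → ℕ → ℝ) (z : ℕ) (L : Finset V) (v : V) (p : ℕ) : ℝ :=
  open Classical in
  if v ∈ L ∨ p ≤ z then |w v p| else 0

lemma gw_nonneg (w : V → ℕ → ℝ) (z : ℕ) (L : Finset V) (v : V) (p : ℕ) : 0 ≤ gw w z L v p := by
  unfold gw
  split_ifs
  · exact abs_nonneg _
  · exact le_rfl

lemma gw_le_one {w : V → ℕ → ℝ} (hw : ∀ v p, p.Prime → |w v p| ≤ 1) (z : ℕ) (L : Finset V) (v : V)
    {p : ℕ} (hp : p.Prime) : gw w z L v p ≤ 1 := by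
  unfold gw
  split_ifs
  · exact hw v p hp
  · exact zero_le_one

lemma abs_thr_mw (w : V → ℕ → ℝ) (z : ℕ) (L : Finset V) (v : V) {m : ℕ} (hm : Squarefree m)
    (ho : Odd m) : |thr (mw w) z L v m| ≤ ∏ p ∈ m.primeFactors, gw w z L v p := by
  have h0 : 0 ≤ ∏ p ∈ m.primeFactors, gw w z L v p := prod_nonneg fun p _ => gw_nonneg w z L v p
  by_cases hv : v ∈ L
  · refine (abs_thr_le _ _ _ _ _).trans ?_
    rw [abs_mw hm ho]
    refine le_of_eq (prod_congr rfl fun p hp => ?_)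
    unfold gw
    rw [if_pos (Or.inl hv)]
  · by_cases hz : z < m
    · unfold thr
      rw [if_neg hv, if_pos hz, abs_zero]
      exact h0
    · refine (abs_thr_le _ _ _ _ _).trans ?_
      rw [abs_mw hm ho]
      refine le_of_eq (prod_congr rfl fun p hp => ?_)
      have hpz : p ≤ z := (Nat.le_of_dvd (Nat.pos_of_ne_zero hm.ne_zero)
        (Nat.dvd_of_mem_primeFactors hp)).trans (not_lt.1 hz)
      unfold gw
      rw [if_pos (Or.inr hpz)]

/-- kernels bounded by `1` and supported on coprime pairs -/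
structure Ker (κ : V → V → ℕ → ℕ → ℝ) : Prop where
  le : ∀ v u m n, |κ v u m n| ≤ 1
  cop : ∀ v u m n, v ≠ u → ¬ Nat.Coprime m n → κ v u m n * κ u v n m = 0

lemma sq_of_FF {a : V → ℕ → ℝ} {κ : V → V → ℕ → ℕ → ℝ} (hκ : Ker κ)
    (ha : ∀ v m, a v m ≠ 0 → Squarefree m ∧ Odd m) {e : V → ℕ} (h : FF a κ e ≠ 0) :
    Squarefree (∏ v, e v) ∧ Odd (∏ v, e v) := by
  unfold FF at h
  have h1 : ∀ v, Squarefree (e v) ∧ Odd (e v) := by
    intro v
    apply ha v
    intro h0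
    apply h
    rw [prod_eq_zero (mem_univ v) h0, zero_mul]
  have h2 : ∀ v u, v ≠ u → Nat.Coprime (e v) (e u) := by
    intro v u hvu
    by_contra hc
    apply h
    have h3 := hκ.cop v u _ _ hvu hc
    rcases mul_eq_zero.1 h3 with h4 | h4
    · rw [prod_eq_zero (s := univ) (f := fun v => ∏ u ∈ univ.erase v, κ v u (e v) (e u))
        (mem_univ v), mul_zero]
      exact prod_eq_zero (mem_erase.2 ⟨hvu.symm, mem_univ u⟩) h4
    · rw [prod_eq_zero (s := univ) (f := fun v => ∏ u ∈ univ.erase v, κ v u (e v) (e u))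
        (mem_univ u), mul_zero]
      exact prod_eq_zero (mem_erase.2 ⟨hvu, mem_univ v⟩) h4
  refine ⟨?_, ?_⟩
  · refine Finset.squarefree_prod_of_pairwise_isCoprime (fun v _ u _ hvu => ?_) fun v _ => (h1 v).1
    exact Nat.coprime_iff_isRelPrime.1 (h2 v u hvu)
  · exact Finset.prod_induction e Odd (fun _ _ => Odd.mul) odd_one fun v _ => (h1 v).2

/-- the trivial bound -/
lemma trivial_bound (w : V → ℕ → ℝ) {κ : V → V → ℕ → ℕ → ℝ} (hκ : Ker κ) (z : ℕ) (L : Finset V)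
    (X : ℕ) : |∑ e ∈ TX V X, FF (thr (mw w) z L) κ e| ≤
      ∑ n ∈ Icc 1 X, hf (fun p => ∑ v, gw w z L v p) n := by
  classical
  refine (abs_sum_le_sum_abs _ _).trans ?_
  rw [sum_TX]
  refine sum_le_sum fun n hn => ?_
  have hn' := mem_Icc.1 hn
  have hnn : 0 ≤ hf (fun p => ∑ v, gw w z L v p) n :=
    hf_nonneg (fun p _ => sum_nonneg fun v _ => gw_nonneg w z L v p) n
  by_cases hg : Squarefree n ∧ Odd n
  · unfold hf
    rw [if_pos hg.1, prod_sum_eq_sum_tup hg.1]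
    refine sum_le_sum fun e he => ?_
    rw [mem_tup hg.1.ne_zero] at he
    unfold FF
    rw [abs_mul]
    have h1 : |∏ v : V, ∏ u ∈ univ.erase v, κ v u (e v) (e u)| ≤ 1 :=
      abs_prod_le_one _ fun v _ => abs_prod_le_one _ fun u _ => hκ.le _ _ _ _
    refine (mul_le_of_le_one_right (abs_nonneg _) h1).trans ?_
    rw [abs_prod]
    refine prod_le_prod (fun _ _ => abs_nonneg _) fun v _ => ?_
    have hd : e v ∣ n := he ▸ dvd_prod_of_mem e (mem_univ v)
    exact abs_thr_mw w z L v (hg.1.squarefree_of_dvd hd) (hg.2.of_dvd_nat hd)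
  · refine le_trans (le_of_eq (sum_eq_zero fun e he => ?_)) hnn
    rw [mem_tup (by omega)] at he
    rw [abs_eq_zero]
    by_contra hne
    exact hg (he ▸ sq_of_FF hκ (fun v m h => of_mw_ne (thr_ne h)) hne)

/-- the bound for unlinked sets -/
lemma unlinked_case {w : V → ℕ → ℝ} (hw : ∀ v p, p.Prime → |w v p| ≤ 1) {L : Finset V}
    {κ₀ C₀ : ℝ} (hL : ∀ X : ℕ, 3 ≤ X →
      ∑ p ∈ PR X, (∑ v ∈ L, |w v p|) / p ≤ κ₀ * Real.log (Real.log X) + C₀) :
    ∃ C : ℝ, 0 < C ∧ ∀ X z : ℕ, 3 ≤ X → 3 ≤ z →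
      ∑ n ∈ Icc 1 X, hf (fun p => ∑ v, gw w z L v p) n ≤
        C * (X * Real.log X ^ (κ₀ - 1)) * Real.log z ^ Fintype.card V := by
  classical
  obtain ⟨C2, hC2, h2⟩ := mv_sum (c := fun _ => 1) (κ := 1) Pool.Agent.Work.MP_2b9663_nt.MV.one
  set K := Fintype.card V with hK
  refine ⟨(2 * K + 1) * Real.exp (C₀ + K * C2), by positivity, fun X z hX hz => ?_⟩
  have hlog3 : ∀ X : ℕ, 3 ≤ X → 1 ≤ Real.log X := by
    intro X hX
    have h1 : (3 : ℝ) ≤ X := by exact_mod_cast hX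
    have : Real.log (Real.exp 1) ≤ Real.log X :=
      Real.log_le_log (Real.exp_pos 1) ((Real.exp_one_lt_d9.le.trans (by norm_num)).trans h1)
    rwa [Real.log_exp] at this
  have hlX := hlog3 X hX
  have hlz := hlog3 z hz
  have hlX0 : 0 < Real.log X := by linarith
  have hlz0 : 0 < Real.log z := by linarith
  set H : ℕ → ℝ := fun p => ∑ v, gw w z L v p with hH
  have hH0 : ∀ p, p.Prime → 0 ≤ H p := fun p _ => sum_nonneg fun v _ => gw_nonneg w z L v p
  have hHK : ∀ p, p.Prime → H p ≤ K := by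
    intro p hp
    calc H p ≤ ∑ v : V, (1 : ℝ) := sum_le_sum fun v _ => gw_le_one hw z L v hp
      _ = K := by rw [sum_const, card_univ, nsmul_eq_mul, mul_one]
  have h3 := sum_hf_le hH0 hHK (X := X) (by omega)
  have h4 : ∀ p ∈ PR X, H p / p ≤ (∑ v ∈ L, |w v p|) / p + (if p ≤ z then (K : ℝ) else 0) / p := by
    intro p hp
    obtain ⟨hpp, _⟩ := mem_PR.1 hp
    rw [← add_div]
    refine div_le_div_of_nonneg_right ?_ (Nat.cast_nonneg p)
    have h5 : 0 ≤ ∑ v ∈ L, |w v p| := sum_nonneg fun _ _ => abs_nonneg _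
    by_cases hpz : p ≤ z
    · rw [if_pos hpz]
      linarith [hHK p hpp]
    · rw [if_neg hpz, add_zero, hH]
      beta_reduce
      rw [← sum_filter_add_sum_filter_not univ (fun v => v ∈ L)]
      have e1 : ∑ v ∈ univ.filter (fun v => v ∉ L), gw w z L v p = 0 := by
        refine sum_eq_zero fun v hv => ?_
        unfold gw
        rw [if_neg]
        rintro (h | h)
        · exact (mem_filter.1 hv).2 h
        · exact hpz h
      rw [e1, add_zero]
      have e2 : univ.filter (fun v => v ∈ L) = L := by ext v; simp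
      rw [e2]
      refine sum_le_sum fun v hv => ?_
      unfold gw
      rw [if_pos (Or.inl hv)]
  have h5 : ∑ p ∈ PR X, H p / p ≤ κ₀ * Real.log (Real.log X) + K * Real.log (Real.log z) +
      (C₀ + K * C2) := by
    refine (sum_le_sum h4).trans ?_
    rw [sum_add_distrib]
    have h6 := hL X hX
    have h8 : ∑ p ∈ PR X, (if p ≤ z then (K : ℝ) else 0) / (p : ℝ) ≤
        K * Real.log (Real.log z) + K * C2 := by
      have e1 : ∑ p ∈ PR X, (if p ≤ z then (K : ℝ) else 0) / (p : ℝ) =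
          ∑ p ∈ (PR X).filter (fun p : ℕ => p ≤ z), (K : ℝ) * (1 / (p : ℝ)) := by
        conv_rhs => rw [sum_filter]
        refine sum_congr rfl fun p _ => ?_
        split_ifs
        · ring
        · rw [zero_div]
      rw [e1]
      have h9 := (abs_le.1 (h2 z hz)).2
      rw [one_mul] at h9
      calc ∑ p ∈ (PR X).filter (fun p : ℕ => p ≤ z), (K : ℝ) * (1 / (p : ℝ))
          ≤ ∑ p ∈ PR z, (K : ℝ) * (1 / (p : ℝ)) := by
            refine sum_le_sum_of_subset_of_nonneg ?_ fun _ _ _ => by positivity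
            intro p hp
            obtain ⟨h8, h9⟩ := mem_filter.1 hp
            exact mem_PR.2 ⟨(mem_PR.1 h8).1, h9⟩
        _ = K * ∑ p ∈ PR z, 1 / (p : ℝ) := by rw [mul_sum]
        _ ≤ K * (Real.log (Real.log z) + C2) :=
            mul_le_mul_of_nonneg_left (by linarith) (Nat.cast_nonneg K)
        _ = _ := by ring
    linarith
  have h6 : Real.exp (∑ p ∈ PR X, H p / p) ≤
      Real.log X ^ κ₀ * Real.log z ^ K * Real.exp (C₀ + K * C2) := by
    refine (Real.exp_le_exp.2 h5).trans (le_of_eq ?_)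
    rw [Real.exp_add, Real.exp_add]
    congr 2
    · rw [Real.rpow_def_of_pos hlX0, mul_comm]
    · rw [Real.exp_nat_mul, Real.exp_log hlz0]
  refine h3.trans ((mul_le_mul_of_nonneg_left h6 (by positivity)).trans (le_of_eq ?_))
  rw [Real.rpow_sub hlX0, Real.rpow_one]
  ring

/-- the power of the logarithm used as a threshold -/
def BB (V : Type) [Fintype V] : ℕ := 16 * (34 + Fintype.card V)

/-- the threshold -/
noncomputable def zz (V : Type) [Fintype V] (X : ℕ) : ℕ := ⌊Real.log X ^ BB V⌋₊ + 2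

/-- **The core bound.** Every index set `L` is linked, or does not contribute, or has weights of
mean at most `κ₀`. -/
theorem core {w : V → ℕ → ℝ} (hw : ∀ v p, p.Prime → |w v p| ≤ 1)
    {κ : ℕ → V → V → ℕ → ℕ → ℝ} (hκ : ∀ z, Ker (κ z)) {κ₀ : ℝ} (hκ₀ : 0 ≤ κ₀)
    (hL : ∀ L : Finset V,
      (∃ v ∈ L, ∃ u ∈ L, v ≠ u ∧ ∀ z m n, 1 ≤ m → 1 ≤ n →
        κ z v u m n * κ z u v n m = ((J(m | n) : ℤ) : ℝ)) ∨
      (∀ z, 1 ≤ z → ∀ e, FF (thr (mw w) z L) (κ z) e = 0) ∨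
      ∃ C₀ : ℝ, ∀ X : ℕ, 3 ≤ X →
        ∑ p ∈ PR X, (∑ v ∈ L, |w v p|) / p ≤ κ₀ * Real.log (Real.log X) + C₀)
    {η : ℝ} (hη : 0 < η) :
    ∃ C : ℝ, 0 < C ∧ ∀ X : ℕ, 3 ≤ X → |∑ e ∈ TX V X, FF (mw w) (κ (zz V X)) e| ≤
      C * (X * Real.log X ^ (κ₀ - 1 + η)) := by
  classical
  obtain ⟨Cl, hCl, hlink⟩ := linked_bound
  have hex : ∀ L : Finset V, ∃ C : ℝ, 0 < C ∧ ((∃ C₀ : ℝ, ∀ X : ℕ, 3 ≤ X →
        ∑ p ∈ PR X, (∑ v ∈ L, |w v p|) / p ≤ κ₀ * Real.log (Real.log X) + C₀) →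
      ∀ X z : ℕ, 3 ≤ X → 3 ≤ z → ∑ n ∈ Icc 1 X, hf (fun p => ∑ v, gw w z L v p) n ≤
        C * (X * Real.log X ^ (κ₀ - 1)) * Real.log z ^ Fintype.card V) := by
    intro L
    by_cases h : ∃ C₀ : ℝ, ∀ X : ℕ, 3 ≤ X →
        ∑ p ∈ PR X, (∑ v ∈ L, |w v p|) / p ≤ κ₀ * Real.log (Real.log X) + C₀
    · obtain ⟨C₀, hC₀⟩ := h
      obtain ⟨C, hC, h'⟩ := unlinked_case hw hC₀
      exact ⟨C, hC, fun _ => h'⟩
    · exact ⟨1, one_pos, fun h' => absurd h' h⟩
  choose CL hCL hunl using hex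
  set K := Fintype.card V with hK
  set B : ℕ := 16 * (34 + K) with hB
  set δ : ℝ := η / (K + 1) with hδ
  have hδ0 : 0 < δ := div_pos hη (by positivity)
  have hδK : δ * K ≤ η := by
    rw [hδ, div_mul_eq_mul_div, div_le_iff₀ (by positivity)]
    nlinarith
  refine ⟨∑ L : Finset V, (Cl * 2 ^ (33 + K) + CL L * (2 + B / δ) ^ K), ?_, fun X hX => ?_⟩
  · refine sum_pos (fun L _ => ?_) univ_nonempty
    have := hCL L
    positivity
  have hlX : 1 ≤ Real.log X := by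
    have h1 : (3 : ℝ) ≤ X := by exact_mod_cast hX
    have : Real.log (Real.exp 1) ≤ Real.log X :=
      Real.log_le_log (Real.exp_pos 1) ((Real.exp_one_lt_d9.le.trans (by norm_num)).trans h1)
    rwa [Real.log_exp] at this
  set l := Real.log X with hl
  have hl0 : 0 < l := by linarith
  have hzz : zz V X = ⌊l ^ B⌋₊ + 2 := rfl
  rw [hzz]
  set z : ℕ := ⌊l ^ B⌋₊ + 2 with hz
  have hlB : 1 ≤ l ^ B := one_le_pow₀ hlX
  have hz3 : 3 ≤ z := by
    have : 1 ≤ ⌊l ^ B⌋₊ := by rwa [Nat.one_le_floor_iff]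
    omega
  have hzl : l ^ B ≤ z := by
    rw [hz]
    push_cast
    linarith [(Nat.lt_floor_add_one (l ^ B)).le]
  have hzu : (z : ℝ) ≤ 3 * l ^ B := by
    rw [hz]
    push_cast
    linarith [Nat.floor_le (show 0 ≤ l ^ B by positivity)]
  have hz0 : (0 : ℝ) < z := by linarith
  have hz3' : (3 : ℝ) ≤ z := by exact_mod_cast hz3
  -- the linked part
  have hlpow : (z : ℝ) ^ (-(1 / 16) : ℝ) ≤ (l ^ (34 + K))⁻¹ := by
    have h1 : (z : ℝ) ^ (-(1 / 16) : ℝ) ≤ (l ^ B) ^ (-(1 / 16) : ℝ) :=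
      Real.rpow_le_rpow_of_nonpos (by positivity) hzl (by norm_num)
    refine h1.trans (le_of_eq ?_)
    rw [← Real.rpow_natCast, ← Real.rpow_mul hl0.le, ← Real.rpow_natCast, ← Real.rpow_neg hl0.le]
    congr 1
    rw [hB]
    push_cast
    ring
  have hl1 : 1 + l ≤ 2 * l := by linarith
  have hlinv : l⁻¹ ≤ l ^ (κ₀ - 1 + η : ℝ) := by
    rw [← Real.rpow_neg_one]
    exact Real.rpow_le_rpow_of_exponent_le hlX (by linarith)
  have hlinked : ∀ L : Finset V, (∃ v ∈ L, ∃ u ∈ L, v ≠ u ∧ ∀ z m n, 1 ≤ m → 1 ≤ n →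
        κ z v u m n * κ z u v n m = ((J(m | n) : ℤ) : ℝ)) →
      |∑ e ∈ TX V X, FF (thr (mw w) z L) (κ z) e| ≤
        Cl * 2 ^ (33 + K) * (X * l ^ (κ₀ - 1 + η : ℝ)) := by
    rintro L ⟨v, hv, u, hu, hvu, hJ⟩
    have h1 := hlink V X z (by omega) (by omega) (thr (mw w) z L) (κ z) v u hvu
      (fun x m => (abs_thr_le _ _ _ _ _).trans (abs_mw_le hw x m)) (fun x y m n => (hκ z).le x y m n)
      (fun x m hm => (of_mw_ne (thr_ne hm)).symm) (fun m hm => ?_) (fun m hm => ?_) (hJ z)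
    · refine h1.trans ?_
      calc Cl * X * (z : ℝ) ^ (-(1 / 16) : ℝ) * (1 + l) ^ (33 + K)
          ≤ Cl * X * (l ^ (34 + K))⁻¹ * (2 * l) ^ (33 + K) := by gcongr
        _ = Cl * 2 ^ (33 + K) * (X * l⁻¹) := by
            have : l ^ (34 + K) = l ^ (33 + K) * l := by rw [← pow_succ]; congr 1; omega
            rw [this, mul_pow]
            field_simp
        _ ≤ _ := by gcongr
    · by_contra hzm
      apply hm
      unfold thr
      rw [if_pos hv, if_neg hzm]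
    · by_contra hzm
      apply hm
      unfold thr
      rw [if_pos hu, if_neg hzm]
  -- the unlinked part
  have hlogz : Real.log z ≤ 2 + B * Real.log l := by
    have h1 : Real.log z ≤ Real.log (3 * l ^ B) := Real.log_le_log hz0 hzu
    rw [Real.log_mul (by norm_num) (by positivity), Real.log_pow] at h1
    have h2 : Real.log 3 ≤ 2 := by
      have := Real.log_le_sub_one_of_pos (show (0 : ℝ) < 3 by norm_num)
      linarith
    linarith
  have hlogz0 : 0 ≤ Real.log z := Real.log_nonneg (by linarith)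
  have hlogl : Real.log l ≤ l ^ δ / δ := Real.log_le_rpow_div hl0.le hδ0
  have hlδ : 1 ≤ l ^ δ := Real.one_le_rpow hlX hδ0.le
  have hlogz2 : Real.log z ≤ (2 + B / δ) * l ^ δ := by
    calc Real.log z ≤ 2 + B * Real.log l := hlogz
      _ ≤ 2 * l ^ δ + B * (l ^ δ / δ) := by
          refine add_le_add (by linarith) (mul_le_mul_of_nonneg_left hlogl (Nat.cast_nonneg B))
      _ = _ := by ring
  have hlogz3 : Real.log z ^ K ≤ (2 + B / δ) ^ K * l ^ η := by
    calc Real.log z ^ K ≤ ((2 + B / δ) * l ^ δ) ^ K :=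
          pow_le_pow_left₀ hlogz0 hlogz2 K
      _ = (2 + B / δ) ^ K * l ^ (δ * K) := by
          rw [mul_pow, ← Real.rpow_natCast (l ^ δ), ← Real.rpow_mul hl0.le]
      _ ≤ (2 + B / δ) ^ K * l ^ η := by
          refine mul_le_mul_of_nonneg_left ?_ (by positivity)
          exact Real.rpow_le_rpow_of_exponent_le hlX hδK
  have hunlinked : ∀ L : Finset V, (∃ C₀ : ℝ, ∀ X : ℕ, 3 ≤ X →
        ∑ p ∈ PR X, (∑ v ∈ L, |w v p|) / p ≤ κ₀ * Real.log (Real.log X) + C₀) →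
      |∑ e ∈ TX V X, FF (thr (mw w) z L) (κ z) e| ≤
        CL L * (2 + B / δ) ^ K * (X * l ^ (κ₀ - 1 + η : ℝ)) := by
    intro L h1
    refine (trivial_bound w (hκ z) z L X).trans ((hunl L h1 X z hX hz3).trans ?_)
    have := hCL L
    calc CL L * (X * l ^ (κ₀ - 1 : ℝ)) * Real.log z ^ K
        ≤ CL L * (X * l ^ (κ₀ - 1 : ℝ)) * ((2 + B / δ) ^ K * l ^ η) := by gcongr
      _ = _ := by rw [Real.rpow_add hl0]; ring
  have hall : ∀ L : Finset V, |∑ e ∈ TX V X, FF (thr (mw w) z L) (κ z) e| ≤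
      (Cl * 2 ^ (33 + K) + CL L * (2 + B / δ) ^ K) * (X * l ^ (κ₀ - 1 + η : ℝ)) := by
    intro L
    have h1 : 0 ≤ Cl * 2 ^ (33 + K) * (X * l ^ (κ₀ - 1 + η : ℝ)) := by positivity
    have h2 : 0 ≤ CL L * (2 + B / δ) ^ K * (X * l ^ (κ₀ - 1 + η : ℝ)) := by
      have := hCL L
      positivity
    rw [add_mul]
    rcases hL L with h | h | h
    · linarith [hlinked L h]
    · rw [sum_eq_zero fun e _ => h z (by omega) e, abs_zero]
      linarith
    · linarith [hunlinked L h]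
  calc |∑ e ∈ TX V X, FF (mw w) (κ z) e|
      = |∑ L : Finset V, ∑ e ∈ TX V X, FF (thr (mw w) z L) (κ z) e| := by
        rw [sum_comm]
        congr 1
        exact sum_congr rfl fun e _ => FF_split _ _ z e
    _ ≤ ∑ L : Finset V, |∑ e ∈ TX V X, FF (thr (mw w) z L) (κ z) e| :=
        abs_sum_le_sum_abs _ _
    _ ≤ ∑ L : Finset V, (Cl * 2 ^ (33 + K) + CL L * (2 + B / δ) ^ K) *
        (X * l ^ (κ₀ - 1 + η : ℝ)) := sum_le_sum fun L _ => hall L
    _ = _ := by rw [← sum_mul]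

end Stoll308.Core
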