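import Mathlib
import Pool.Agent.Work.MP_308fa9_nt.FCore

set_option autoImplicit false

/-!
The core bound for pairs `(D, E)` of coprime odd squarefree integers linked by conditions on the
symbols `J(E | p)`, `p ∣ D`, and `J(D | p)`, `p ∣ E`.
-/

namespace Stoll308.Core

open Finset NumberTheorySymbols Tuples Linked HT MeanSum

/-- the kernels -/
noncomputable def kp (z : ℕ) (v u : Bool × Bool) (m n : ℕ) : ℝ :=
  if Nat.Coprime m n then
    (if v.1 = u.1 then (if z ^ 2 < m * n then 1 else 0)
      else (if u.2 then ((J(m | n) : ℤ) : ℝ) else 1))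
  else 0

lemma ker_kp (z : ℕ) : Ker (kp z) := by
  constructor
  · intro v u m n
    unfold kp
    split_ifs
    · simp
    · simp
    · exact Bilin.abs_jacobi_le_one _ _
    · simp
    · simp
  · intro v u m n _ h
    unfold kp
    rw [if_neg h, zero_mul]

lemma kp_same {z m n : ℕ} {a i j : Bool} (h : ¬ z ^ 2 < m * n) : kp z (a, i) (a, j) m n = 0 := by
  unfold kp
  simp [h]

/-- the weight of a pair -/
noncomputable def WW (w : Bool × Bool → ℕ → ℝ) (D E : ℕ) : ℝ :=
  open Classical in
  if Squarefree (D * E) ∧ Odd (D * E) then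
    (∏ p ∈ D.primeFactors, (w (false, false) p + w (false, true) p * ((J(E | p) : ℤ) : ℝ))) *
    ∏ p ∈ E.primeFactors, (w (true, false) p + w (true, true) p * ((J(D | p) : ℤ) : ℝ))
  else 0

lemma prod_erase_eq {M : Type*} [CommMonoid M] {V : Type*} [Fintype V] [DecidableEq V] (v : V)
    (f : V → M) : ∏ u ∈ univ.erase v, f u = ∏ u, if u = v then 1 else f u := by
  have h := Finset.prod_erase univ (f := fun u => if u = v then (1 : M) else f u) (a := v)
    (if_pos rfl)
  rw [← h]
  refine prod_congr rfl fun u hu => ?_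
  rw [if_neg (ne_of_mem_erase hu)]

/-- glue two pairs -/
def glue (g h : Bool → ℕ) : Bool × Bool → ℕ := fun v => if v.1 then h v.2 else g v.2

lemma jacobi_sq_prod {m : ℕ} (hm : Squarefree m) (a : ℤ) :
    J(a | m) = ∏ p ∈ m.primeFactors, J(a | p) := by
  conv_lhs => rw [← Nat.prod_primeFactors_of_squarefree hm]
  exact Stoll308.jacobi_prod_right _ a (fun p => p) fun p hp => (Nat.prime_of_mem_primeFactors hp).ne_zero

/-- the fibre identity -/
lemma fiber_eq (w : Bool × Bool → ℕ → ℝ) (z : ℕ) {D E : ℕ} (hsq : Squarefree (D * E))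
    (ho : Odd (D * E)) (hD : z ^ 2 < D) (hE : z ^ 2 < E) {g h : Bool → ℕ}
    (hg : g ∈ tup Bool D) (hh : h ∈ tup Bool E) :
    FF (mw w) (kp z) (glue g h) =
      (∏ i, ∏ p ∈ (g i).primeFactors, (if i then w (false, true) p * ((J(E | p) : ℤ) : ℝ)
        else w (false, false) p)) *
      ∏ i, ∏ p ∈ (h i).primeFactors, (if i then w (true, true) p * ((J(D | p) : ℤ) : ℝ)
        else w (true, false) p) := by
  have hD0 : D ≠ 0 := by omega
  have hE0 : E ≠ 0 := by omega
  rw [mem_tup hD0, Fintype.prod_bool] at hg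
  rw [mem_tup hE0, Fintype.prod_bool] at hh
  have hcop : Nat.Coprime D E := Nat.coprime_of_squarefree_mul hsq
  have hDsq : Squarefree D := hsq.squarefree_of_dvd (dvd_mul_right _ _)
  have hEsq : Squarefree E := hsq.squarefree_of_dvd (dvd_mul_left _ _)
  have hDo : Odd D := (Nat.odd_mul.1 ho).1
  have hEo : Odd E := (Nat.odd_mul.1 ho).2
  set g0 := g false with hg0
  set g1 := g true with hg1
  set h0 := h false with hh0
  set h1 := h true with hh1
  have dg0 : g0 ∣ D := hg ▸ dvd_mul_left _ _
  have dg1 : g1 ∣ D := hg ▸ dvd_mul_right _ _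
  have dh0 : h0 ∣ E := hh ▸ dvd_mul_left _ _
  have dh1 : h1 ∣ E := hh ▸ dvd_mul_right _ _
  have cg : Nat.Coprime g1 g0 := Nat.coprime_of_squarefree_mul (by rw [hg]; exact hDsq)
  have ch : Nat.Coprime h1 h0 := Nat.coprime_of_squarefree_mul (by rw [hh]; exact hEsq)
  have c00 : Nat.Coprime g0 h0 := Nat.Coprime.of_dvd dg0 dh0 hcop
  have c01 : Nat.Coprime g0 h1 := Nat.Coprime.of_dvd dg0 dh1 hcop
  have c10 : Nat.Coprime g1 h0 := Nat.Coprime.of_dvd dg1 dh0 hcop
  have c11 : Nat.Coprime g1 h1 := Nat.Coprime.of_dvd dg1 dh1 hcop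
  have e00 : glue g h (false, false) = g0 := rfl
  have e01 : glue g h (false, true) = g1 := rfl
  have e10 : glue g h (true, false) = h0 := rfl
  have e11 : glue g h (true, true) = h1 := rfl
  have sg0 := hDsq.squarefree_of_dvd dg0
  have sg1 := hDsq.squarefree_of_dvd dg1
  have sh0 := hEsq.squarefree_of_dvd dh0
  have sh1 := hEsq.squarefree_of_dvd dh1
  have m00 : mw w (false, false) g0 = ∏ p ∈ g0.primeFactors, w (false, false) p := by
    unfold mw; rw [if_pos ⟨sg0, hDo.of_dvd_nat dg0⟩]
  have m01 : mw w (false, true) g1 = ∏ p ∈ g1.primeFactors, w (false, true) p := by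
    unfold mw; rw [if_pos ⟨sg1, hDo.of_dvd_nat dg1⟩]
  have m10 : mw w (true, false) h0 = ∏ p ∈ h0.primeFactors, w (true, false) p := by
    unfold mw; rw [if_pos ⟨sh0, hEo.of_dvd_nat dh0⟩]
  have m11 : mw w (true, true) h1 = ∏ p ∈ h1.primeFactors, w (true, true) p := by
    unfold mw; rw [if_pos ⟨sh1, hEo.of_dvd_nat dh1⟩]
  have jE : J(E | g1) = J(h1 | g1) * J(h0 | g1) := by
    rw [← hh]; push_cast; rw [jacobiSym.mul_left]
  have jD : J(D | h1) = J(g1 | h1) * J(g0 | h1) := by
    rw [← hg]; push_cast; rw [jacobiSym.mul_left]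
  have pE : ∏ p ∈ g1.primeFactors, (w (false, true) p * ((J(E | p) : ℤ) : ℝ)) =
      (∏ p ∈ g1.primeFactors, w (false, true) p) * ((J(h1 | g1) : ℤ) : ℝ) * ((J(h0 | g1) : ℤ) : ℝ) := by
    rw [prod_mul_distrib, mul_assoc]
    congr 1
    have := congrArg (Int.cast : ℤ → ℝ) jE
    push_cast at this
    rw [← this, jacobi_sq_prod sg1]
    push_cast
    rfl
  have pD : ∏ p ∈ h1.primeFactors, (w (true, true) p * ((J(D | p) : ℤ) : ℝ)) =
      (∏ p ∈ h1.primeFactors, w (true, true) p) * ((J(g1 | h1) : ℤ) : ℝ) * ((J(g0 | h1) : ℤ) : ℝ) := by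
    rw [prod_mul_distrib, mul_assoc]
    congr 1
    have := congrArg (Int.cast : ℤ → ℝ) jD
    push_cast at this
    rw [← this, jacobi_sq_prod sh1]
    push_cast
    rfl
  unfold FF
  simp only [prod_erase_eq, Fintype.prod_prod_type, Fintype.prod_bool, e00, e01, e10, e11]
  have k1 : kp z (false, false) (false, true) g0 g1 = 1 := by
    unfold kp; rw [if_pos cg.symm, if_pos rfl, if_pos (by rw [mul_comm, hg]; exact hD)]
  have k2 : kp z (false, true) (false, false) g1 g0 = 1 := by
    unfold kp; rw [if_pos cg, if_pos rfl, if_pos (by rw [hg]; exact hD)]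
  have k3 : kp z (true, false) (true, true) h0 h1 = 1 := by
    unfold kp; rw [if_pos ch.symm, if_pos rfl, if_pos (by rw [mul_comm, hh]; exact hE)]
  have k4 : kp z (true, true) (true, false) h1 h0 = 1 := by
    unfold kp; rw [if_pos ch, if_pos rfl, if_pos (by rw [hh]; exact hE)]
  have k5 : kp z (false, false) (true, false) g0 h0 = 1 := by
    unfold kp; rw [if_pos c00]; simp
  have k6 : kp z (true, false) (false, false) h0 g0 = 1 := by
    unfold kp; rw [if_pos c00.symm]; simp
  have k7 : kp z (false, false) (true, true) g0 h1 = ((J(g0 | h1) : ℤ) : ℝ) := by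
    unfold kp; rw [if_pos c01]; simp
  have k8 : kp z (true, true) (false, false) h1 g0 = 1 := by
    unfold kp; rw [if_pos c01.symm]; simp
  have k9 : kp z (false, true) (true, false) g1 h0 = 1 := by
    unfold kp; rw [if_pos c10]; simp
  have k10 : kp z (true, false) (false, true) h0 g1 = ((J(h0 | g1) : ℤ) : ℝ) := by
    unfold kp; rw [if_pos c10.symm]; simp
  have k11 : kp z (false, true) (true, true) g1 h1 = ((J(g1 | h1) : ℤ) : ℝ) := by
    unfold kp; rw [if_pos c11]; simp
  have k12 : kp z (true, true) (false, true) h1 g1 = ((J(h1 | g1) : ℤ) : ℝ) := by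
    unfold kp; rw [if_pos c11.symm]; simp
  simp only [← hg0, ← hg1, ← hh0, ← hh1, Prod.mk.injEq, reduceCtorEq, and_true, and_false,
    and_self, if_true, if_false, k1, k2, k3, k4, k5, k6, k7, k8, k9, k10,
    k11, k12, m00, m01, m10, m11, pE, pD]
  simp only [mul_one, one_mul]
  ring

/-- the pair attached to a quadruple -/
def proj (e : Bool × Bool → ℕ) : Bool → ℕ := fun a => e (a, true) * e (a, false)

/-- **The sum over quadruples as a sum over pairs.** -/
theorem sum_FF_eq (w : Bool × Bool → ℕ → ℝ) (z X : ℕ) :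
    ∑ e ∈ TX (Bool × Bool) X, FF (mw w) (kp z) e =
      ∑ f ∈ TX Bool X, if z ^ 2 < f false ∧ z ^ 2 < f true then WW w (f false) (f true) else 0 := by
  classical
  have hmaps : ∀ e ∈ TX (Bool × Bool) X, proj e ∈ TX Bool X := by
    intro e he
    rw [mem_TX] at he ⊢
    refine ⟨fun a => Nat.mul_pos (he.1 _) (he.1 _), ?_⟩
    have h2 := he.2
    rw [Fintype.prod_prod_type] at h2
    simp only [Fintype.prod_bool] at h2 ⊢
    exact h2
  rw [← sum_fiberwise_of_maps_to hmaps]
  refine sum_congr rfl fun f hf => ?_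
  rw [mem_TX, Fintype.prod_bool] at hf
  have hf0 := hf.1 false
  have hf1 := hf.1 true
  by_cases hcase : (z ^ 2 < f false ∧ z ^ 2 < f true) ∧ Squarefree (f false * f true) ∧
      Odd (f false * f true)
  · obtain ⟨hz, hsq, ho⟩ := hcase
    rw [if_pos hz]
    unfold WW
    rw [if_pos ⟨hsq, ho⟩]
    have hDsq : Squarefree (f false) := hsq.squarefree_of_dvd (dvd_mul_right _ _)
    have hEsq : Squarefree (f true) := hsq.squarefree_of_dvd (dvd_mul_left _ _)
    have hD := prod_sum_eq_sum_tup (V := Bool) hDsq (fun i p => if i then w (false, true) p *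
      ((J(f true | p) : ℤ) : ℝ) else w (false, false) p)
    have hE := prod_sum_eq_sum_tup (V := Bool) hEsq (fun i p => if i then w (true, true) p *
      ((J(f false | p) : ℤ) : ℝ) else w (true, false) p)
    have hD' : ∏ p ∈ (f false).primeFactors, (w (false, false) p + w (false, true) p *
        ((J(f true | p) : ℤ) : ℝ)) = ∏ p ∈ (f false).primeFactors, ∑ i : Bool,
        (if i then w (false, true) p * ((J(f true | p) : ℤ) : ℝ) else w (false, false) p) := by
      refine prod_congr rfl fun p _ => ?_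
      rw [Fintype.sum_bool]
      simp only [if_true, Bool.false_eq_true, if_false]
      ring
    have hE' : ∏ p ∈ (f true).primeFactors, (w (true, false) p + w (true, true) p *
        ((J(f false | p) : ℤ) : ℝ)) = ∏ p ∈ (f true).primeFactors, ∑ i : Bool,
        (if i then w (true, true) p * ((J(f false | p) : ℤ) : ℝ) else w (true, false) p) := by
      refine prod_congr rfl fun p _ => ?_
      rw [Fintype.sum_bool]
      simp only [if_true, Bool.false_eq_true, if_false]
      ring
    rw [hD', hE', hD, hE, sum_mul_sum, ← sum_product']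
    refine sum_bij' (fun e _ => ((fun i => e (false, i)), fun i => e (true, i)))
      (fun gh _ => glue gh.1 gh.2) ?_ ?_ ?_ ?_ ?_
    · intro e he
      obtain ⟨he1, he2⟩ := mem_filter.1 he
      rw [mem_product, mem_tup (by omega), mem_tup (by omega), Fintype.prod_bool,
        Fintype.prod_bool, ← he2]
      exact ⟨rfl, rfl⟩
    · rintro ⟨g, h⟩ hgh
      rw [mem_product, mem_tup (by omega), mem_tup (by omega), Fintype.prod_bool,
        Fintype.prod_bool] at hgh
      obtain ⟨hg, hh⟩ := hgh
      simp only at hg hh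
      have hpr : proj (glue g h) = f := by
        funext a
        cases a
        · exact hg
        · exact hh
      rw [mem_filter]
      refine ⟨?_, hpr⟩
      rw [mem_TX]
      have hpos : ∀ x y : ℕ, 0 < x * y → 1 ≤ x ∧ 1 ≤ y := by
        intro x y hxy
        refine ⟨Nat.one_le_iff_ne_zero.2 ?_, Nat.one_le_iff_ne_zero.2 ?_⟩ <;> rintro rfl <;> simp at hxy
      have p1 := hpos _ _ (by rw [hg]; exact hf0)
      have p2 := hpos _ _ (by rw [hh]; exact hf1)
      refine ⟨?_, ?_⟩
      · rintro ⟨a, i⟩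
        cases a <;> cases i
        · exact p1.2
        · exact p1.1
        · exact p2.2
        · exact p2.1
      · rw [Fintype.prod_prod_type]
        simp only [Fintype.prod_bool]
        have e1 : glue g h (true, true) * glue g h (true, false) = f true := hh
        have e2 : glue g h (false, true) * glue g h (false, false) = f false := hg
        rw [e1, e2]
        exact hf.2
    · intro e _
      funext v
      obtain ⟨a, i⟩ := v
      cases a <;> rfl
    · rintro ⟨g, h⟩ _
      rfl
    · intro e he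
      obtain ⟨he1, he2⟩ := mem_filter.1 he
      have hge : e = glue (fun i => e (false, i)) (fun i => e (true, i)) := by
        funext v
        obtain ⟨a, i⟩ := v
        cases a <;> rfl
      conv_lhs => rw [hge]
      have hg : (fun i => e (false, i)) ∈ tup Bool (f false) := by
        rw [mem_tup (by omega), Fintype.prod_bool, ← he2]; rfl
      have hh : (fun i => e (true, i)) ∈ tup Bool (f true) := by
        rw [mem_tup (by omega), Fintype.prod_bool, ← he2]; rfl
      exact fiber_eq w z hsq ho hz.1 hz.2 hg hh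
  · have hz0 : (if z ^ 2 < f false ∧ z ^ 2 < f true then WW w (f false) (f true) else 0) = 0 := by
      split_ifs with hz
      · unfold WW
        rw [if_neg (fun h => hcase ⟨hz, h⟩)]
      · rfl
    rw [hz0]
    refine sum_eq_zero fun e he => ?_
    obtain ⟨he1, he2⟩ := mem_filter.1 he
    by_contra hne
    apply hcase
    have h1 := sq_of_FF (ker_kp z) (fun v m h => of_mw_ne h) hne
    have h2 : ∏ v, e v = f false * f true := by
      rw [Fintype.prod_prod_type]
      simp only [Fintype.prod_bool]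
      rw [← he2]
      unfold proj
      ring
    rw [h2] at h1
    refine ⟨?_, h1⟩
    have hk : ∀ v u : Bool × Bool, v ≠ u → kp z v u (e v) (e u) ≠ 0 := by
      intro v u hvu h0
      apply hne
      unfold FF
      rw [prod_eq_zero (s := univ) (f := fun v => ∏ u ∈ univ.erase v, kp z v u (e v) (e u))
        (mem_univ v), mul_zero]
      exact prod_eq_zero (mem_erase.2 ⟨hvu.symm, mem_univ u⟩) h0
    have hk2 : ∀ a : Bool, z ^ 2 < f a := by
      intro a
      by_contra hcon
      apply hk (a, true) (a, false) (by simp)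
      have : f a = e (a, true) * e (a, false) := by rw [← he2]; rfl
      exact kp_same (by rw [← this]; exact hcon)
    exact ⟨hk2 false, hk2 true⟩

/-- index sets without a variable of one of the two types do not contribute -/
lemma dead {w : Bool × Bool → ℕ → ℝ} {z : ℕ} {L : Finset (Bool × Bool)} {a : Bool}
    (h : ∀ i, (a, i) ∉ L) (e : Bool × Bool → ℕ) : FF (thr (mw w) z L) (kp z) e = 0 := by
  by_contra hne
  have hle : ∀ i, e (a, i) ≤ z := by
    intro i
    by_contra hcon
    apply hne
    unfold FF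
    rw [prod_eq_zero (mem_univ (a, i)), zero_mul]
    unfold thr
    rw [if_neg (h i), if_pos (not_le.1 hcon)]
  have h0 : kp z (a, true) (a, false) (e (a, true)) (e (a, false)) = 0 := by
    have : e (a, true) * e (a, false) ≤ z ^ 2 := by
      rw [sq]; exact Nat.mul_le_mul (hle true) (hle false)
    exact kp_same (not_lt.2 this)
  apply hne
  unfold FF
  rw [prod_eq_zero (s := univ) (f := fun v => ∏ u ∈ univ.erase v, kp z v u (e v) (e u))
    (mem_univ (a, true)), mul_zero]
  exact prod_eq_zero (mem_erase.2 ⟨by simp, mem_univ (a, false)⟩) h0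

lemma kp_linked {a b : Bool} (hab : a ≠ b) (z m n : ℕ) (hn : 1 ≤ n) :
    kp z (a, false) (b, true) m n * kp z (b, true) (a, false) n m = ((J(m | n) : ℤ) : ℝ) := by
  unfold kp
  by_cases h : Nat.Coprime m n
  · rw [if_pos h, if_pos h.symm]
    simp [hab, hab.symm]
  · rw [if_neg h, zero_mul]
    have : NeZero n := ⟨by omega⟩
    have h0 : J((m : ℤ) | n) = 0 := by
      rw [jacobiSym.eq_zero_iff_not_coprime, Int.gcd_natCast_natCast]
      exact h
    rw [h0]
    norm_num

/-- **The bound for pairs.** -/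
theorem pair_bound {w : Bool × Bool → ℕ → ℝ} (hw : ∀ v p, p.Prime → |w v p| ≤ 1)
    {κ₀ : ℝ} (hκ₀ : 0 ≤ κ₀)
    (h1 : ∃ C₀ : ℝ, ∀ X : ℕ, 3 ≤ X → ∑ p ∈ PR X, (|w (false, false) p| + |w (true, false) p|) / p ≤
      κ₀ * Real.log (Real.log X) + C₀)
    (h2 : ∃ C₀ : ℝ, ∀ X : ℕ, 3 ≤ X → ∑ p ∈ PR X, (|w (false, true) p| + |w (true, true) p|) / p ≤
      κ₀ * Real.log (Real.log X) + C₀)
    {η : ℝ} (hη : 0 < η) :
    ∃ C : ℝ, 0 < C ∧ ∀ X : ℕ, 3 ≤ X →
      ∑ f ∈ TX Bool X, (if (zz (Bool × Bool) X) ^ 2 < f false ∧ (zz (Bool × Bool) X) ^ 2 < f true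
        then WW w (f false) (f true) else 0) ≤ C * (X * Real.log X ^ (κ₀ - 1 + η)) := by
  classical
  have hL : ∀ L : Finset (Bool × Bool),
      (∃ v ∈ L, ∃ u ∈ L, v ≠ u ∧ ∀ z m n, 1 ≤ m → 1 ≤ n →
        kp z v u m n * kp z u v n m = ((J(m | n) : ℤ) : ℝ)) ∨
      (∀ z, 1 ≤ z → ∀ e, FF (thr (mw w) z L) (kp z) e = 0) ∨
      ∃ C₀ : ℝ, ∀ X : ℕ, 3 ≤ X →
        ∑ p ∈ PR X, (∑ v ∈ L, |w v p|) / p ≤ κ₀ * Real.log (Real.log X) + C₀ := by
    intro L
    by_cases hf : ∀ i, (false, i) ∉ L
    · exact Or.inr (Or.inl fun z _ e => dead hf e)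
    by_cases ht : ∀ i, (true, i) ∉ L
    · exact Or.inr (Or.inl fun z _ e => dead ht e)
    by_cases l1 : (false, false) ∈ L ∧ (true, true) ∈ L
    · exact Or.inl ⟨_, l1.1, _, l1.2, by simp, fun z m n _ hn => kp_linked (by simp) z m n hn⟩
    by_cases l2 : (true, false) ∈ L ∧ (false, true) ∈ L
    · exact Or.inl ⟨_, l2.1, _, l2.2, by simp, fun z m n _ hn => kp_linked (by simp) z m n hn⟩
    right
    right
    rw [Bool.forall_bool] at hf ht
    by_cases h00 : (false, false) ∈ L
    · have h11 : (true, true) ∉ L := fun h => l1 ⟨h00, h⟩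
      have h10 : (true, false) ∈ L := by tauto
      have h01 : (false, true) ∉ L := fun h => l2 ⟨h10, h⟩
      have hL : L = {(false, false), (true, false)} := by
        ext ⟨a, i⟩
        cases a <;> cases i <;> simp [h00, h10, h01, h11]
      obtain ⟨C₀, hC₀⟩ := h1
      refine ⟨C₀, fun X hX => ?_⟩
      rw [hL]
      simp only [sum_pair (show ((false, false) : Bool × Bool) ≠ (true, false) by simp)]
      exact hC₀ X hX
    · have h01 : (false, true) ∈ L := by tauto
      have h10 : (true, false) ∉ L := fun h => l2 ⟨h, h01⟩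
      have h11 : (true, true) ∈ L := by tauto
      have hL : L = {(false, true), (true, true)} := by
        ext ⟨a, i⟩
        cases a <;> cases i <;> simp [h00, h10, h01, h11]
      obtain ⟨C₀, hC₀⟩ := h2
      refine ⟨C₀, fun X hX => ?_⟩
      rw [hL]
      simp only [sum_pair (show ((false, true) : Bool × Bool) ≠ (true, true) by simp)]
      exact hC₀ X hX

  obtain ⟨C, hC, h⟩ := core hw ker_kp hκ₀ hL hη
  refine ⟨C, hC, fun X hX => ?_⟩
  rw [← sum_FF_eq]
  exact (le_abs_self _).trans (h X hX)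

end Stoll308.Core
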