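import Pool.Agent.Work.MP_308fa9_nt.Mert2
import Pool.Agent.Work.MP_308fa9_nt.MeanSum
import Pool.Agent.Work.MP_308fa9_nt.Bilin
import Pool.Agent.Work.MP_2b9663_nt.Quad

set_option autoImplicit false

/-! A uniform upper bound for sums of a Jacobi symbol over primes in a residue class. -/

namespace Stoll308.AP

open Finset Filter Topology NumberTheorySymbols
open Pool.Agent.Work.MP_2b9663_nt (PS P2 LA LA_one log_euler quadDir quadDir_apply PS_summable)
open Stoll308.MeanSum (PR mem_PR)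

section char

variable {q : ℕ} [NeZero q] (χ : DirichletCharacter ℂ q)

omit [NeZero q] in
lemma term_eq {ε : ℝ} {n : ℕ} (hn : n ≠ 0) :
    LSeries.term (fun n => χ (n : ZMod q)) ((1 + ε : ℝ) : ℂ) n =
      χ (n : ZMod q) * ((((n : ℝ) ^ (-(1 + ε)) : ℝ)) : ℂ) := by
  rw [LSeries.term_of_ne_zero hn, div_eq_mul_inv, ← Complex.cpow_neg]
  congr 1
  rw [Complex.ofReal_cpow (Nat.cast_nonneg _)]
  push_cast
  rfl

/-- A nonprincipal `L`-series to the right of `1`. -/
lemma norm_LSeries_le (hχ : χ ≠ 1) {ε : ℝ} (hε : 0 < ε) :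
    ‖LSeries (fun n => χ (n : ZMod q)) ((1 + ε : ℝ) : ℂ)‖ ≤ 3 + Real.log q := by
  have hs : 1 < ((1 + ε : ℝ) : ℂ).re := by rw [Complex.ofReal_re]; linarith
  have hsum := (DirichletCharacter.LSeriesSummable_of_one_lt_re χ hs).hasSum.tendsto_sum_nat
  have hq1 : 1 ≤ q := Nat.one_le_iff_ne_zero.2 (NeZero.ne q)
  have hpart : ∀ N : ℕ, ‖∑ n ∈ range (N + 1),
      LSeries.term (fun n => χ (n : ZMod q)) ((1 + ε : ℝ) : ℂ) n‖ ≤ 3 + Real.log q := by
    intro N
    have h1 : ∑ n ∈ range (N + 1), LSeries.term (fun n => χ (n : ZMod q)) ((1 + ε : ℝ) : ℂ) n =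
        ∑ n ∈ Ioc 0 N, χ (n : ZMod q) * ((((n : ℝ) ^ (-(1 + ε)) : ℝ)) : ℂ) := by
      rw [range_eq_Ico, sum_eq_sum_Ico_succ_bot (by omega), LSeries.term_zero, zero_add]
      refine sum_congr ?_ fun n hn => term_eq χ (by have := mem_Ioc.1 hn; omega)
      ext x
      rw [mem_Ico, mem_Ioc]
      omega
    rw [h1]
    have hf : ∀ n : ℕ, 1 ≤ n → (n : ℝ) ^ (-(1 + ε)) ≤ 1 / n := by
      intro n hn
      have hn1 : (1 : ℝ) ≤ n := by exact_mod_cast hn
      rw [one_div, ← Real.rpow_neg_one]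
      exact Real.rpow_le_rpow_of_exponent_le hn1 (by linarith)
    have hsmall : ∀ N : ℕ, 1 ≤ N → ‖∑ n ∈ Ioc 0 N, χ (n : ZMod q) *
        ((((n : ℝ) ^ (-(1 + ε)) : ℝ)) : ℂ)‖ ≤ 1 + Real.log N := by
      intro N hN
      refine (norm_sum_le _ _).trans (le_trans ?_ (Bilin.harm_le hN))
      have e : Ioc 0 N = Icc 1 N := by ext x; rw [mem_Ioc, mem_Icc]; omega
      rw [e]
      refine sum_le_sum fun n hn => ?_
      have hn1 := (mem_Icc.1 hn).1
      rw [norm_mul, Complex.norm_real, Real.norm_of_nonneg (Real.rpow_nonneg (Nat.cast_nonneg _) _)]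
      calc ‖χ (n : ZMod q)‖ * (n : ℝ) ^ (-(1 + ε)) ≤ 1 * (1 / n) :=
            mul_le_mul (χ.norm_le_one _) (hf n hn1) (Real.rpow_nonneg (Nat.cast_nonneg _) _)
              zero_le_one
        _ = 1 / n := one_mul _
    rcases Nat.eq_zero_or_pos N with rfl | hN
    · simp only [Ioc_self, sum_empty, norm_zero]
      have := Real.log_nonneg (show (1 : ℝ) ≤ q by exact_mod_cast hq1)
      linarith
    rcases le_or_gt N q with hNq | hNq
    · have h2 := hsmall N hN
      have h3 : Real.log N ≤ Real.log q :=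
        Real.log_le_log (by exact_mod_cast hN) (by exact_mod_cast hNq)
      linarith
    · rw [← sum_Ioc_consecutive _ (Nat.zero_le q) hNq.le]
      refine (norm_add_le _ _).trans ?_
      have h2 := hsmall q hq1
      have h3 := abel_bound χ hχ (fun n => (n : ℝ) ^ (-(1 + ε))) q N hNq.le
        (fun n _ => Real.rpow_nonneg (Nat.cast_nonneg _) _) (fun n hn => by
          have hn0 : (0 : ℝ) < n := by exact_mod_cast (by omega : 0 < n)
          exact Real.rpow_le_rpow_of_nonpos hn0 (by push_cast; linarith) (by linarith))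
      have h4 := hf (q + 1) (by omega)
      have hq0 : (0 : ℝ) < q := by exact_mod_cast hq1
      have h5 : 2 * (q : ℝ) * ((q + 1 : ℕ) : ℝ) ^ (-(1 + ε)) ≤ 2 := by
        calc 2 * (q : ℝ) * ((q + 1 : ℕ) : ℝ) ^ (-(1 + ε)) ≤ 2 * q * (1 / ((q + 1 : ℕ) : ℝ)) :=
              mul_le_mul_of_nonneg_left h4 (by positivity)
          _ ≤ 2 := by
              push_cast
              rw [mul_one_div, div_le_iff₀ (by positivity)]
              linarith
      linarith
  have htend := (hsum.comp (tendsto_add_atTop_nat 1)).norm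
  exact le_of_tendsto' htend fun N => hpart N

/-- The prime sum of a nonprincipal character is at most `log log q + O(1)`. -/
lemma PS_char_le (hχ : χ ≠ 1) {ε : ℝ} (hε : 0 < ε) :
    PS (fun p => (χ ((p : ℕ) : ZMod q)).re) ε ≤ Real.log (3 + Real.log q) + P2 := by
  have hs : 1 < ((1 + ε : ℝ) : ℂ).re := by rw [Complex.ofReal_re]; linarith
  have h6 := DirichletCharacter.LSeries_eulerProduct_exp_log χ hs
  have h7 := log_euler (a := fun p => χ ((p : ℕ) : ZMod q)) (fun p => χ.norm_le_one _) hε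
  have h8 := norm_LSeries_le χ hχ hε
  rw [← h6, Complex.norm_exp] at h8
  have h9 := Real.log_le_log (Real.exp_pos _) h8
  rw [Real.log_exp] at h9
  have h10 := (abs_le.1 h7).1
  linarith

end char

/-- A number congruent to `1` modulo `M` for which the Jacobi symbol is `-1`. -/
lemma exists_neg {M D l : ℕ} (hM4 : 4 ∣ M) (hl : l.Prime) (hl2 : l ≠ 2)
    (hlM : ¬ l ∣ M) (hD : Odd D) (hlD : ¬ l ∣ D) :
    ∃ n : ℕ, n % M = 1 % M ∧ n.Coprime (M * (4 * (D * l))) ∧ Odd n ∧ J((D * l : ℕ) | n) = -1 := by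
  obtain ⟨a, ha⟩ := Bilin.exists_neg_one_prime hl hl2
  have hcop : Nat.Coprime (M * D) l := by
    rw [Nat.coprime_comm]
    exact Nat.Coprime.mul_right ((Nat.Prime.coprime_iff_not_dvd hl).2 hlM)
      ((Nat.Prime.coprime_iff_not_dvd hl).2 hlD)
  obtain ⟨n, hn1, hn2⟩ := Nat.chineseRemainder hcop 1 a
  have hnM : n ≡ 1 [MOD M] := hn1.of_mul_right D
  have hnD : n ≡ 1 [MOD D] := hn1.of_mul_left M
  have hn4 : n % 4 = 1 := by
    have := hnM.of_dvd hM4
    exact this
  have hnodd : Odd n := Nat.odd_iff.2 (by omega)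
  have hlodd : Odd l := hl.odd_of_ne_two hl2
  have hnl : J(n | l) = -1 := by
    rw [← ha, jacobiSym.mod_left (n : ℤ), jacobiSym.mod_left (a : ℤ)]
    congr 1
    exact_mod_cast hn2
  have hnl' : Nat.Coprime n l := by
    by_contra hne
    have h1 : J((n : ℤ) | l) = 0 := by
      have : NeZero l := ⟨hl.ne_zero⟩
      rw [jacobiSym.eq_zero_iff_not_coprime, Int.gcd_natCast_natCast]
      exact hne
    rw [hnl] at h1
    norm_num at h1
  have hcM : Nat.Coprime n M := by
    rw [Nat.Coprime, hnM.gcd_eq, Nat.gcd_one_left]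
  have hcD : Nat.Coprime n D := by
    rw [Nat.Coprime, hnD.gcd_eq, Nat.gcd_one_left]
  refine ⟨n, hnM, ?_, hnodd, ?_⟩
  · refine Nat.Coprime.mul_right hcM (Nat.Coprime.mul_right ?_ (Nat.Coprime.mul_right hcD hnl'))
    exact hcM.coprime_dvd_right hM4
  · have h1 : J((D * l : ℕ) | n) = J((n : ℤ) | D * l) :=
      (jacobiSym.quadratic_reciprocity_one_mod_four hn4 (hD.mul hlodd)).symm
    have hD0 : NeZero D := ⟨hD.pos.ne'⟩
    have hl0 : NeZero l := ⟨hl.ne_zero⟩
    rw [h1, jacobiSym.mul_right, hnl]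
    have : J(n | D) = 1 := by
      rw [← jacobiSym.one_left D, jacobiSym.mod_left (n : ℤ), jacobiSym.mod_left (1 : ℤ)]
      congr 1
      exact_mod_cast hnD
    rw [this]
    norm_num

/-- The Dirichlet series of `J(D l | p)` over the primes `p ≡ 1 mod M`. -/
lemma PS_class_le {M D l : ℕ} (hM4 : 4 ∣ M) (hM : M ≠ 0) (hl : l.Prime) (hl2 : l ≠ 2)
    (hlM : ¬ l ∣ M) (hD : Odd D) (hlD : ¬ l ∣ D) {ε : ℝ} (hε : 0 < ε) :
    PS (fun p => if (p : ℕ) % M = 1 then ((J((D * l : ℕ) | p) : ℤ) : ℝ) else 0) ε ≤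
      Real.log (3 + Real.log (M * (4 * (D * l)) : ℕ)) + P2 := by
  obtain ⟨n₀, hn1, hn2, hn3, hn4⟩ := exists_neg hM4 hl hl2 hlM hD hlD
  set E : ℤ := ((D * l : ℕ) : ℤ) with hE
  have hDl0 : D * l ≠ 0 := mul_ne_zero hD.pos.ne' hl.ne_zero
  have hE0 : E ≠ 0 := by rw [hE]; exact_mod_cast hDl0
  have hEn : E.natAbs = D * l := by rw [hE, Int.natAbs_natCast]
  have hM0 : NeZero M := ⟨hM⟩
  have hN0 : M * (4 * E.natAbs) ≠ 0 := by
    rw [hEn]; exact mul_ne_zero hM (mul_ne_zero (by norm_num) hDl0)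
  have hNN : NeZero (M * (4 * E.natAbs)) := ⟨hN0⟩
  have h1 : M ∣ M * (4 * E.natAbs) := Dvd.intro _ rfl
  have h2 : 4 * E.natAbs ∣ M * (4 * E.natAbs) := Dvd.intro_left _ rfl
  let X : DirichletCharacter ℂ M → DirichletCharacter ℂ (M * (4 * E.natAbs)) := fun ψ =>
    DirichletCharacter.changeLevel h1 ψ * DirichletCharacter.changeLevel h2 (quadDir E)
  have hval : ∀ ψ (n : ℕ), Odd n → n.Coprime (M * (4 * E.natAbs)) →
      X ψ (n : ZMod (M * (4 * E.natAbs))) = ψ (n : ZMod M) * ((J(E | n) : ℤ) : ℂ) := by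
    intro ψ n hno hn
    have hi : IsCoprime (n : ℤ) ((M * (4 * E.natAbs) : ℕ) : ℤ) := Nat.isCoprime_iff_coprime.mpr hn
    have e1 := DirichletCharacter.changeLevel_eq_cast_of_dvd' (χ := ψ) h1 hi
    have e2 := DirichletCharacter.changeLevel_eq_cast_of_dvd' (χ := quadDir E) h2 hi
    simp only [Int.cast_natCast] at e1 e2
    have hc : E.gcd n = 1 := by
      rw [Int.gcd, Int.natAbs_natCast]
      exact (Nat.Coprime.coprime_mul_left_right (Nat.Coprime.coprime_mul_left_right hn)).symm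
    simp only [X]
    rw [MulChar.mul_apply, e1, e2, quadDir_apply hE0 hno hc]
  have hne : ∀ ψ, X ψ ≠ 1 := by
    intro ψ h3
    have h4 := hval ψ n₀ hn3 (by rw [hEn]; exact hn2)
    have hu : IsUnit (n₀ : ZMod (M * (4 * E.natAbs))) :=
      (ZMod.isUnit_iff_coprime n₀ _).mpr (by rw [hEn]; exact hn2)
    have h5 : ((n₀ : ℕ) : ZMod M) = 1 := by
      have : ((n₀ : ℕ) : ZMod M) = ((1 : ℕ) : ZMod M) := (ZMod.natCast_eq_natCast_iff _ _ _).2 hn1
      rw [this, Nat.cast_one]
    rw [h3, MulChar.one_apply hu, h5, map_one, one_mul, hn4] at h4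
    norm_num at h4
  have hφ : (0 : ℝ) < (Nat.totient M : ℝ) := by
    exact_mod_cast Nat.totient_pos.2 (Nat.pos_of_ne_zero hM)
  -- orthogonality
  have horth : ∀ p : Nat.Primes, ∑ ψ : DirichletCharacter ℂ M,
      (X ψ ((p : ℕ) : ZMod (M * (4 * E.natAbs)))).re =
      (Nat.totient M : ℝ) * (if (p : ℕ) % M = 1 then ((J(E | p) : ℤ) : ℝ) else 0) := by
    intro p
    by_cases hp : Nat.Coprime p (M * (4 * E.natAbs))
    · have hpodd : Odd (p : ℕ) := by
        have h4 : Nat.Coprime p 4 :=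
          Nat.Coprime.coprime_mul_right_right (Nat.Coprime.coprime_mul_left_right hp)
        have h5 : Nat.Coprime (p : ℕ) 2 := Nat.Coprime.coprime_dvd_right (by norm_num) h4
        exact Nat.coprime_two_right.mp h5
      have e1 : ∑ ψ : DirichletCharacter ℂ M, (X ψ ((p : ℕ) : ZMod (M * (4 * E.natAbs)))).re =
          (∑ ψ : DirichletCharacter ℂ M, ψ ((p : ℕ) : ZMod M)).re * ((J(E | p) : ℤ) : ℝ) := by
        rw [Complex.re_sum, sum_mul]
        refine sum_congr rfl fun ψ _ => ?_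
        rw [hval ψ p hpodd hp]
        have : (((J(E | p) : ℤ) : ℂ)) = ((((J(E | p) : ℤ) : ℝ)) : ℂ) := by push_cast; rfl
        rw [this, Complex.re_mul_ofReal]
      rw [e1, DirichletCharacter.sum_characters_eq]
      have e2 : ((p : ℕ) : ZMod M) = 1 ↔ (p : ℕ) % M = 1 := by
        have hM1 : 1 % M = 1 := Nat.mod_eq_of_lt (by
          have := Nat.le_of_dvd (Nat.pos_of_ne_zero hM) hM4
          omega)
        rw [← Nat.cast_one, ZMod.natCast_eq_natCast_iff, Nat.ModEq, hM1]
      by_cases h : (p : ℕ) % M = 1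
      · rw [if_pos (e2.2 h), if_pos h, Complex.natCast_re]
      · rw [if_neg (fun h' => h (e2.1 h')), if_neg h]
        simp
    · have e1 : ∀ ψ : DirichletCharacter ℂ M, (X ψ ((p : ℕ) : ZMod (M * (4 * E.natAbs)))).re = 0 := by
        intro ψ
        rw [MulChar.map_nonunit _ (by rwa [ZMod.isUnit_iff_coprime])]
        rfl
      rw [sum_congr rfl fun ψ _ => e1 ψ, sum_const_zero]
      split_ifs with h
      · have hcM : Nat.Coprime p M := by
          rw [Nat.Coprime, Nat.gcd_comm, Nat.gcd_rec, h, Nat.gcd_one_left]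
        have h0 : J(E | p) = 0 := by
          by_contra hne0
          apply hp
          have hp0 : NeZero (p : ℕ) := ⟨p.2.ne_zero⟩
          have h5 : E.gcd (p : ℕ) = 1 := by
            by_contra h6
            exact hne0 ((jacobiSym.eq_zero_iff_not_coprime).2 h6)
          have h6 : Nat.Coprime p E.natAbs := by
            rw [Int.gcd, Int.natAbs_natCast] at h5
            exact (Nat.Coprime.symm h5)
          exact Nat.Coprime.mul_right hcM (Nat.Coprime.mul_right (hcM.coprime_dvd_right hM4) h6)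
        rw [h0]; simp
      · rw [mul_zero]
  have hPS : PS (fun p => if (p : ℕ) % M = 1 then ((J(E | p) : ℤ) : ℝ) else 0) ε =
      (1 / (Nat.totient M : ℝ)) * ∑ ψ : DirichletCharacter ℂ M,
        PS (fun p => (X ψ ((p : ℕ) : ZMod (M * (4 * E.natAbs)))).re) ε := by
    unfold PS
    have hs : ∀ ψ ∈ (univ : Finset (DirichletCharacter ℂ M)), Summable (fun p : Nat.Primes =>
        (X ψ ((p : ℕ) : ZMod (M * (4 * E.natAbs)))).re * ((p : ℕ) : ℝ) ^ (-(1 + ε))) := by
      intro ψ _
      exact PS_summable (B := 1) (fun p =>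
        (Complex.abs_re_le_norm _).trans ((X ψ).norm_le_one _)) hε
    rw [← Summable.tsum_finsetSum hs, ← tsum_mul_left]
    refine tsum_congr fun p => ?_
    rw [← sum_mul, horth p]
    field_simp
  have hsum : ∑ ψ : DirichletCharacter ℂ M,
      PS (fun p => (X ψ ((p : ℕ) : ZMod (M * (4 * E.natAbs)))).re) ε ≤
      (Nat.totient M : ℝ) * (Real.log (3 + Real.log (M * (4 * E.natAbs) : ℕ)) + P2) := by
    have hcard : ((univ : Finset (DirichletCharacter ℂ M)).card : ℝ) = (Nat.totient M : ℝ) := by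
      rw [card_univ, ← Nat.card_eq_fintype_card,
        DirichletCharacter.card_eq_totient_of_hasEnoughRootsOfUnity ℂ M]
    rw [← hcard, ← nsmul_eq_mul]
    exact sum_le_card_nsmul _ _ _ fun ψ _ => PS_char_le (X ψ) (hne ψ) hε
  rw [hPS, one_div, inv_mul_le_iff₀ hφ, ← hEn]
  exact hsum

/-- **The uniform bound.** -/
theorem sum_jacobi_le {M l : ℕ} (hM4 : 4 ∣ M) (hM : M ≠ 0) (hl : l.Prime) (hl2 : l ≠ 2)
    (hlM : ¬ l ∣ M) : ∃ C : ℝ, 0 < C ∧ ∀ D X : ℕ, Odd D → ¬ l ∣ D →
      ∑ p ∈ PR X, (if p % M = 1 then ((J((D * l : ℕ) | p) : ℤ) : ℝ) else 0) / p ≤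
        Real.log (Real.log (D + 3)) + C := by
  obtain ⟨C2, hC2⟩ := LA_one
  have htend : Tendsto (fun X : ℕ => (1 : ℝ) / Real.log X) atTop (𝓝[>] 0) := by
    rw [tendsto_nhdsWithin_iff]
    constructor
    · have h1 : Tendsto (fun X : ℕ => Real.log X) atTop atTop :=
        Real.tendsto_log_atTop.comp tendsto_natCast_atTop_atTop
      simp only [one_div]
      exact h1.inv_tendsto_atTop
    · filter_upwards [eventually_ge_atTop 2] with X hX
      have : (1 : ℝ) < X := by exact_mod_cast hX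
      exact div_pos one_pos (Real.log_pos this)
  obtain ⟨X1, hX1⟩ := eventually_atTop.1 (htend.eventually hC2)
  set X2 := max X1 3 with hX2
  set S1 := ∑ p ∈ PR X2, 1 / (p : ℝ) with hS1
  set K0 : ℝ := 4 + Real.log (4 * M * l : ℕ) with hK0
  have hlog4 : 0 ≤ Real.log 4 := Real.log_nonneg (by norm_num)
  have hS10 : 0 ≤ S1 := sum_nonneg fun p _ => by positivity
  refine ⟨S1 + |Real.log K0| + |P2| + |2 * (1 + Real.log 4) + (C2 + 2)| + 1, by positivity, ?_⟩
  intro D X hD hlD
  have hD1 : (1 : ℝ) ≤ D := by exact_mod_cast hD.pos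
  have hl3 : 1 ≤ Real.log (D + 3) := by
    have h1 : Real.log (Real.exp 1) ≤ Real.log (D + 3) :=
      Real.log_le_log (Real.exp_pos 1) (by have := Real.exp_one_lt_d9; linarith)
    rwa [Real.log_exp] at h1
  have hll : 0 ≤ Real.log (Real.log (D + 3)) := Real.log_nonneg hl3
  set c : ℕ → ℝ := fun p => if p % M = 1 then ((J((D * l : ℕ) | p) : ℤ) : ℝ) else 0 with hc
  have hc1 : ∀ p, |c p| ≤ 1 := by
    intro p
    rw [hc]
    simp only
    split_ifs
    · exact Bilin.abs_jacobi_le_one _ _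
    · simp
  rcases lt_or_ge X X2 with hX | hX
  · have h1 : ∑ p ∈ PR X, c p / p ≤ S1 := by
      refine (sum_le_sum (g := fun p : ℕ => 1 / (p : ℝ)) fun p _ => ?_).trans ?_
      · exact div_le_div_of_nonneg_right ((le_abs_self _).trans (hc1 p)) (Nat.cast_nonneg _)
      · refine sum_le_sum_of_subset_of_nonneg ?_ fun p _ _ => by positivity
        intro p hp
        rw [mem_PR] at hp ⊢
        exact ⟨hp.1, by omega⟩
    have := abs_nonneg (Real.log K0)
    have := abs_nonneg P2
    have := abs_nonneg (2 * (1 + Real.log 4) + (C2 + 2))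
    linarith
  · have hX3 : 3 ≤ X := le_trans (le_max_right _ _) hX
    have hXX1 : X1 ≤ X := le_trans (le_max_left _ _) hX
    have hX3' : (3 : ℝ) ≤ X := by exact_mod_cast hX3
    have hlog : 1 ≤ Real.log X := by
      have : Real.log (Real.exp 1) ≤ Real.log X :=
        Real.log_le_log (Real.exp_pos 1) ((Real.exp_one_lt_d9.le.trans (by norm_num)).trans hX3')
      rwa [Real.log_exp] at this
    have hlog0 : 0 < Real.log X := by linarith
    have hε : 0 < 1 / Real.log X := div_pos one_pos hlog0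
    have h5 := hX1 X hXX1
    have h7 : Real.log (1 / Real.log X) = -Real.log (Real.log X) := by
      rw [one_div, Real.log_inv]
    rw [h7] at h5
    have h6 := MeanSum.diff_le (c := c) (B := 1) (fun p => hc1 p) hε (X := X) (by omega)
    have h8 := MeanSum.sum_inv_ge (X := X) (by omega)
    have h9 : 1 / Real.log X * (Real.log X + Real.log 4) ≤ 1 + Real.log 4 := by
      have : Real.log 4 ≤ Real.log 4 * Real.log X := le_mul_of_one_le_right hlog4 hlog
      rw [one_div, inv_mul_le_iff₀ hlog0]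
      nlinarith
    have h10 := (abs_le.1 h5).2
    have h11 := (abs_le.1 h6).2
    have h12 := PS_class_le hM4 hM hl hl2 hlM hD hlD hε
    have h13 : Real.log (3 + Real.log (M * (4 * (D * l)) : ℕ)) ≤
        Real.log (Real.log (D + 3)) + Real.log K0 := by
      have hml : (1 : ℝ) ≤ (4 * M * l : ℕ) := by
        have : 0 < 4 * M * l := by have := hl.pos; positivity
        exact_mod_cast this
      have hK : 0 < K0 := by
        have := Real.log_nonneg hml
        rw [hK0]; linarith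
      rw [← Real.log_mul (by linarith) hK.ne']
      have h14 : ((M * (4 * (D * l)) : ℕ) : ℝ) = (4 * M * l : ℕ) * (D : ℝ) := by
        push_cast; ring
      rw [h14, Real.log_mul (by linarith) (by linarith)]
      have h15 : Real.log D ≤ Real.log (D + 3) := Real.log_le_log (by linarith) (by linarith)
      have h16 := Real.log_nonneg hml
      have h17 := Real.log_nonneg hD1
      apply Real.log_le_log (by linarith)
      rw [hK0]
      nlinarith
    have h18 := le_abs_self (Real.log K0)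
    have h19 := le_abs_self P2
    have h20 := le_abs_self (2 * (1 + Real.log 4) + (C2 + 2))
    linarith

end Stoll308.AP
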