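import Mathlib
import Pool.Agent.Work.MP_308fa9_nt.FPair
import Pool.Agent.Work.MP_308fa9_nt.LBound

set_option autoImplicit false

/-!
Counting pairs `(D, E)` one member of which is small.
-/

namespace Stoll308.Core

open Finset NumberTheorySymbols Tuples Linked HT MeanSum

open Classical in
lemma card_le_hf (P : ℕ → Prop) [DecidablePred P] (X : ℕ) :
    (((Icc 1 X).filter (fun n => Squarefree n ∧ ∀ p, p.Prime → p ∣ n → P p)).card : ℝ) ≤
      ∑ n ∈ Icc 1 X, hf (fun p => if P p then (1 : ℝ) else 0) n := by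
  rw [card_filter]
  push_cast
  refine sum_le_sum fun n hn => ?_
  have h0 : 0 ≤ hf (fun p => if P p then (1 : ℝ) else 0) n :=
    hf_nonneg (fun p _ => by split_ifs <;> norm_num) n
  split_ifs with h
  · unfold hf
    rw [if_pos h.1]
    refine le_of_eq (prod_eq_one fun p hp => ?_).symm
    rw [if_pos (h.2 p (Nat.prime_of_mem_primeFactors hp) (Nat.dvd_of_mem_primeFactors hp))]
  · exact h0

lemma one_le_log3 {X : ℕ} (hX : 3 ≤ X) : 1 ≤ Real.log X := by
  have h1 : (3 : ℝ) ≤ X := by exact_mod_cast hX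
  have : Real.log (Real.exp 1) ≤ Real.log X :=
    Real.log_le_log (Real.exp_pos 1) ((Real.exp_one_lt_d9.le.trans (by norm_num)).trans h1)
  rwa [Real.log_exp] at this

open Classical in
/-- Pairs with a small member. -/
lemma strip_bound {κ C₀ : ℝ} (hκ : 0 ≤ κ) (G : ℕ → Prop) [DecidablePred G]
    (P : ℕ → ℕ → Prop) [∀ a, DecidablePred (P a)]
    (hP : ∀ a, 1 ≤ a → G a → ∀ X : ℕ, 3 ≤ X → ∑ p ∈ PR X, (if P a p then (1 : ℝ) else 0) / p ≤
      κ * Real.log (Real.log X) + Real.log (Real.log (a + 3)) + C₀) :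
    ∃ C : ℝ, 0 < C ∧ ∀ Y z : ℕ, 3 ≤ z → z ^ 8 ≤ Y →
      ∑ a ∈ (Icc 1 (z ^ 2)).filter G,
        (((Icc 1 (Y / a)).filter (fun n => Squarefree n ∧ ∀ p, p.Prime → p ∣ n → P a p)).card : ℝ) ≤
      C * (Y * Real.log Y ^ (κ - 1)) * Real.log z ^ 2 := by
  refine ⟨54 * Real.exp C₀, by positivity, fun Y z hz hY => ?_⟩
  have hlz := one_le_log3 hz
  have hz3 : (3 : ℝ) ≤ z := by exact_mod_cast hz
  have hY3 : 3 ≤ Y := by
    calc 3 ≤ z := hz
      _ ≤ z ^ 8 := Nat.le_self_pow (by norm_num) z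
      _ ≤ Y := hY
  have hlY := one_le_log3 hY3
  have hlY0 : 0 < Real.log Y := by linarith
  have hY0 : (0 : ℝ) < Y := by exact_mod_cast (by omega : 0 < Y)
  have hterm : ∀ a ∈ (Icc 1 (z ^ 2)).filter G,
      (((Icc 1 (Y / a)).filter (fun n => Squarefree n ∧ ∀ p, p.Prime → p ∣ n → P a p)).card : ℝ) ≤
      (1 / (a : ℝ)) * (18 * Real.exp C₀ * (Y * Real.log Y ^ (κ - 1)) * Real.log z) := by
    intro a ha
    obtain ⟨ha1, hG⟩ := mem_filter.1 ha
    obtain ⟨ha1, ha2⟩ := mem_Icc.1 ha1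
    have ha0 : (1 : ℝ) ≤ a := by exact_mod_cast ha1
    have ha2' : (a : ℝ) ≤ (z : ℝ) ^ 2 := by exact_mod_cast ha2
    set q := Y / a with hq
    -- `q ^ 2 ≥ Y`
    have hqle : (q : ℝ) ≤ Y / a := Nat.cast_div_le
    have hqge : (Y : ℝ) / a - 1 ≤ q := by
      have h1 : Y < (q + 1) * a := by
        rw [hq, mul_comm]
        exact Nat.lt_mul_div_succ Y (by omega)
      have h2 : (Y : ℝ) < (q + 1) * a := by exact_mod_cast h1
      rw [sub_le_iff_le_add, div_le_iff₀ (by linarith)]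
      linarith
    set s := Real.sqrt Y with hs
    have hss : s ^ 2 = Y := Real.sq_sqrt hY0.le
    have hs0 : 0 ≤ s := Real.sqrt_nonneg _
    have hsz : ((z : ℝ) ^ 2) ^ 2 ≤ s := by
      have h8 : (z : ℝ) ^ 8 ≤ (Y : ℝ) := by exact_mod_cast hY
      have h9 : (z : ℝ) ^ 8 = (((z : ℝ) ^ 2) ^ 2) ^ 2 := by ring
      rw [h9] at h8
      exact Real.le_sqrt_of_sq_le h8
    have hu : (9 : ℝ) ≤ (z : ℝ) ^ 2 := by nlinarith
    have hq1 : s ≤ q := by
      have h1 : (Y : ℝ) / (z : ℝ) ^ 2 ≤ Y / a :=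
        div_le_div_of_nonneg_left hY0.le (by linarith) ha2'
      have h2 : s * (z : ℝ) ^ 2 ≤ Y / (z : ℝ) ^ 2 := by
        rw [le_div_iff₀ (by linarith), ← hss, sq s, mul_assoc]
        refine mul_le_mul_of_nonneg_left ?_ hs0
        rw [← sq]
        exact hsz
      have h3 : 1 ≤ s := by nlinarith
      nlinarith
    have hs81 : (81 : ℝ) ≤ s := by nlinarith
    have hq3 : 3 ≤ q := by
      have : (3 : ℝ) ≤ q := by linarith
      exact_mod_cast this
    have hq0 : (0 : ℝ) < q := by linarith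
    have hlq := one_le_log3 hq3
    have hlq2 : Real.log Y ≤ 2 * Real.log q := by
      rw [← hss, Real.log_pow]
      push_cast
      have := Real.log_le_log (by linarith) hq1
      linarith
    have hqY : (q : ℝ) ≤ Y := hqle.trans (div_le_self hY0.le ha0)
    have hlqY : Real.log q ≤ Real.log Y := Real.log_le_log hq0 hqY
    have hll : Real.log (Real.log q) ≤ Real.log (Real.log Y) :=
      Real.log_le_log (by linarith) hlqY
    have h1 := hP a ha1 hG q hq3
    have h2 := sum_hf_le (H := fun p => if P a p then (1 : ℝ) else 0) (K := 1)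
      (fun p _ => by split_ifs <;> norm_num) (fun p _ => by split_ifs <;> norm_num)
      (X := q) (by omega)
    have hla : Real.log ((a : ℝ) + 3) ≤ 3 * Real.log z := by
      have : (a : ℝ) + 3 ≤ (z : ℝ) ^ 3 := by nlinarith
      have := Real.log_le_log (by linarith) this
      rw [Real.log_pow] at this
      push_cast at this
      exact this
    have hla0 : 0 < Real.log ((a : ℝ) + 3) := Real.log_pos (by linarith)
    have h3 : Real.exp (∑ p ∈ PR q, (if P a p then (1 : ℝ) else 0) / p) ≤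
        Real.log Y ^ κ * (3 * Real.log z) * Real.exp C₀ := by
      have h4 : κ * Real.log (Real.log q) ≤ κ * Real.log (Real.log Y) :=
        mul_le_mul_of_nonneg_left hll hκ
      refine (Real.exp_le_exp.2 (h1.trans (add_le_add_left (add_le_add_left h4 _) _))).trans ?_
      rw [Real.exp_add, Real.exp_add, Real.exp_log hla0]
      refine mul_le_mul_of_nonneg_right ?_ (Real.exp_pos _).le
      refine mul_le_mul (le_of_eq ?_) hla hla0.le (Real.rpow_nonneg hlY0.le _)
      rw [Real.rpow_def_of_pos hlY0, mul_comm]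
    have h5 : (q : ℝ) / Real.log q ≤ (Y / a) * (2 / Real.log Y) := by
      rw [div_eq_mul_inv]
      refine mul_le_mul hqle ?_ (inv_nonneg.2 (by linarith)) (by positivity)
      rw [inv_eq_one_div, div_le_div_iff₀ (by linarith) hlY0]
      linarith
    have h6 : Real.log Y ^ (κ - 1) = Real.log Y ^ κ / Real.log Y := by
      rw [Real.rpow_sub hlY0, Real.rpow_one]
    refine (card_le_hf (P a) q).trans (h2.trans ?_)
    calc (2 * 1 + 1) * ((q : ℝ) / Real.log q) *
          Real.exp (∑ p ∈ PR q, (if P a p then (1 : ℝ) else 0) / p)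
        ≤ (2 * 1 + 1) * ((Y / a) * (2 / Real.log Y)) *
          (Real.log Y ^ κ * (3 * Real.log z) * Real.exp C₀) := by gcongr
      _ = _ := by rw [h6]; field_simp; ring
  refine (sum_le_sum hterm).trans ?_
  rw [← sum_mul]
  have hsum : ∑ a ∈ (Icc 1 (z ^ 2)).filter G, 1 / (a : ℝ) ≤ 3 * Real.log z := by
    refine (sum_le_sum_of_subset_of_nonneg (filter_subset _ _) fun _ _ _ => by positivity).trans ?_
    refine (Bilin.harm_le (K := z ^ 2) (Nat.one_le_pow _ _ (by omega))).trans ?_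
    push_cast
    rw [Real.log_pow]
    push_cast
    linarith
  have hnn : 0 ≤ 18 * Real.exp C₀ * (Y * Real.log Y ^ (κ - 1)) * Real.log z := by positivity
  calc (∑ a ∈ (Icc 1 (z ^ 2)).filter G, 1 / (a : ℝ)) *
        (18 * Real.exp C₀ * (Y * Real.log Y ^ (κ - 1)) * Real.log z)
      ≤ (3 * Real.log z) * (18 * Real.exp C₀ * (Y * Real.log Y ^ (κ - 1)) * Real.log z) :=
        mul_le_mul_of_nonneg_right hsum hnn
    _ = _ := by ring

lemma card_strip (S : Finset (Bool → ℕ)) (w : ℕ) (i : Bool) (G : ℕ → Prop) [DecidablePred G]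
    (T : ℕ → Finset ℕ) (hS : ∀ f ∈ S, 1 ≤ f i ∧ f i ≤ w ∧ G (f i) ∧ f (!i) ∈ T (f i)) :
    S.card ≤ ∑ a ∈ (Icc 1 w).filter G, (T a).card := by
  classical
  rw [← card_sigma]
  refine card_le_card_of_injOn (fun f => (⟨f i, f (!i)⟩ : Σ _ : ℕ, ℕ)) (fun f hf => ?_) ?_
  · obtain ⟨h1, h2, h3, h4⟩ := hS f hf
    exact mem_coe.2 (mem_sigma.2 ⟨mem_filter.2 ⟨mem_Icc.2 ⟨h1, h2⟩, h3⟩, h4⟩)
  · intro f _ g _ hfg
    simp only [Sigma.mk.injEq, heq_eq_eq] at hfg
    funext b
    cases i <;> cases b <;> simp_all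

end Stoll308.Core
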