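import Pool.Agent.Work.MP_308fa9_nt.Defs

set_option autoImplicit false

/-!
The twisted Fermat curves `x^(2n) + y^(2n) = t z^(2m)` (`m ∣ n`), their adelic points and the
pairing with the constant quaternion algebras `(H, c)`, where
`H = (x^(2n) + y^(2n)) / (x^(2n/l) + y^(2n/l))` for an odd prime divisor `l` of `n`.
-/

namespace Stoll308.Fermat

open Finset

/-- The form `x^(2n/l) + y^(2n/l)`. -/
def gval (n l : ℕ) {R : Type*} [CommRing R] (x y : R) : R :=
  x ^ (2 * (n / l)) + y ^ (2 * (n / l))

/-- The form `(x^(2n) + y^(2n)) / (x^(2n/l) + y^(2n/l))`, written as the alternating sum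
`∑_{i < l} (-1)^i x^(2n/l (l - 1 - i)) y^(2n/l i)`. -/
def hval (n l : ℕ) {R : Type*} [CommRing R] (x y : R) : R :=
  ∑ i ∈ range l, (-1) ^ i * (x ^ (2 * (n / l))) ^ (l - 1 - i) * (y ^ (2 * (n / l))) ^ i

/-- A point with coordinates in the field `F` of the smooth projective curve
`x^(2n) + y^(2n) = t z^(2m)` (`m ∣ n`) in the weighted projective space `ℙ(1, 1, n/m)`. -/
structure Point (n m : ℕ) (t : ℤ) (F : Type*) [Field F] where
  x : F
  y : F
  z : F
  ne : x ≠ 0 ∨ y ≠ 0
  eq : x ^ (2 * n) + y ^ (2 * n) = (t : F) * z ^ (2 * m)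

/-- The value at `P`, up to squares, of the function `H(x,y)/y^(2n-2n/l)` of the curve: it is
`H(x,y)` if this is not `0` and otherwise `t (x^(2n/l) + y^(2n/l))`. -/
noncomputable def Point.eval {n m : ℕ} {t : ℤ} {F : Type*} [Field F] (P : Point n m t F)
    (l : ℕ) : F :=
  open Classical in
  if hval n l P.x P.y ≠ 0 then hval n l P.x P.y else (t : F) * gval n l P.x P.y

/-- An adelic point: a point over `ℝ` and a point over `ℚ_p` for every prime `p`. -/
structure AdelicPoint (n m : ℕ) (t : ℤ) where
  real : Point n m t ℝ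
  padic : ∀ (p : ℕ) [Fact p.Prime], Point n m t ℚ_[p]

variable {n m : ℕ} {t : ℤ}

/-- The primes `p` at which the quaternion algebra `(H, c)`, evaluated at the adelic point `P`,
does not split. -/
def AdelicPoint.ramified (P : AdelicPoint n m t) (l : ℕ) (c : ℤ) : Set ℕ :=
  {p : ℕ | ∃ _ : Fact p.Prime, ¬ Splits ((P.padic p).eval l) (c : ℚ_[p])}

/-- The adelic point `P` is orthogonal to the quaternion algebra `(H, c)`: the number of places,
the real one included, at which the algebra evaluated at `P` is not split is finite and even. -/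
def AdelicPoint.Orthogonal (P : AdelicPoint n m t) (l : ℕ) (c : ℤ) : Prop :=
  (P.ramified l c).Finite ∧ (Even (P.ramified l c).ncard ↔ Splits (P.real.eval l) (c : ℝ))

/-- The curve `x^(2n) + y^(2n) = t z^(2m)` has points over every completion of `ℚ`. -/
def ELS (n m : ℕ) (t : ℤ) : Prop := Nonempty (AdelicPoint n m t)

/-- Some adelic point of the curve is orthogonal to all the quaternion algebras `(H, c)`, `c` a
nonzero integer. This holds if the Brauer-Manin set of the curve is nonempty. -/
def BMNonempty (n m l : ℕ) (t : ℤ) : Prop :=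
  ∃ P : AdelicPoint n m t, ∀ c : ℤ, c ≠ 0 → P.Orthogonal l c

/-- The integers `1 ≤ t ≤ X` such that the curve `x^(2n) + y^(2n) = t z^(2m)` has points
everywhere locally. -/
def elsSet (n m X : ℕ) : Set ℤ := {t | 1 ≤ t ∧ t ≤ X ∧ ELS n m t}

/-- Those of them for which some adelic point is orthogonal to all the `(H, c)`. -/
def bmSet (n m l X : ℕ) : Set ℤ := {t | 1 ≤ t ∧ t ≤ X ∧ BMNonempty n m l t}

end Stoll308.Fermat
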