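import Mathlib
import Pool.Agent.Work.MP_308fa9_nt.FDefs
import Pool.Agent.Work.MP_308fa9_nt.LocalPoint

set_option autoImplicit false

/-!
Local analysis of a point of the twisted Fermat curve over `ℚ_p`.
-/

namespace Stoll308.Fermat

open Finset PadicInt

variable {n m l : ℕ} {t : ℤ}

section algebra

variable {R : Type*} [CommRing R]

lemma pow_eq (hln : l ∣ n) (x : R) : (x ^ (2 * (n / l))) ^ l = x ^ (2 * n) := by
  rw [← pow_mul, mul_assoc, Nat.div_mul_cancel hln]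

lemma gval_mul_hval (hln : l ∣ n) (hodd : Odd l) (x y : R) :
    gval n l x y * hval n l x y = x ^ (2 * n) + y ^ (2 * n) := by
  unfold gval hval
  rw [← pow_eq hln x, ← pow_eq hln y]
  set A := x ^ (2 * (n / l))
  set B := y ^ (2 * (n / l))
  have h := (Commute.all (-B) A).geom_sum₂_mul l
  have h2 : ∑ i ∈ range l, (-1 : R) ^ i * A ^ (l - 1 - i) * B ^ i =
      ∑ i ∈ range l, (-B) ^ i * A ^ (l - 1 - i) := by
    refine sum_congr rfl fun i _ => ?_
    rw [neg_pow B i]; ring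
  rw [h2]
  have h3 : (-B) ^ l = - B ^ l := hodd.neg_pow B
  rw [h3] at h
  linear_combination -h

lemma gval_smul (c x y : R) : gval n l (c * x) (c * y) = (c ^ (n / l)) ^ 2 * gval n l x y := by
  unfold gval
  rw [mul_pow, mul_pow, ← pow_mul, mul_comm (n / l) 2]; ring

lemma hval_smul (c x y : R) :
    hval n l (c * x) (c * y) = (c ^ ((n / l) * (l - 1))) ^ 2 * hval n l x y := by
  unfold hval
  rw [mul_sum]
  refine sum_congr rfl fun i hi => ?_
  have hi' : l - 1 = (l - 1 - i) + i := by have := mem_range.1 hi; omega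
  have e : (c ^ ((n / l) * (l - 1))) ^ 2 = (c ^ (2 * (n / l))) ^ (l - 1 - i) *
      (c ^ (2 * (n / l))) ^ i := by
    rw [← pow_add, ← hi', ← pow_mul, ← pow_mul]
    congr 1
    ring
  rw [e, mul_pow c x, mul_pow c y, mul_pow, mul_pow]
  ring

lemma map_gval {S : Type*} [CommRing S] (f : R →+* S) (x y : R) :
    f (gval n l x y) = gval n l (f x) (f y) := by
  unfold gval; simp

lemma map_hval {S : Type*} [CommRing S] (f : R →+* S) (x y : R) :
    f (hval n l x y) = hval n l (f x) (f y) := by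
  unfold hval; simp

lemma hval_of_gval {x y : R} (h : gval n l x y = 0) :
    hval n l x y = (l : R) * ((x ^ (n / l)) ^ (l - 1)) ^ 2 := by
  unfold gval at h
  unfold hval
  have hB : y ^ (2 * (n / l)) = - x ^ (2 * (n / l)) := by linear_combination h
  rw [hB]
  set A := x ^ (2 * (n / l)) with hA
  have h2 : ∀ i ∈ range l, (-1 : R) ^ i * A ^ (l - 1 - i) * (-A) ^ i = A ^ (l - 1) := by
    intro i hi
    have hi' : l - 1 = (l - 1 - i) + i := by have := mem_range.1 hi; omega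
    rw [neg_pow A i]
    have e1 : (-1 : R) ^ i * (-1) ^ i = 1 := by
      rw [← mul_pow]; simp
    have e2 : A ^ (l - 1) = A ^ (l - 1 - i) * A ^ i := by
      rw [← pow_add, ← hi']
    rw [e2]
    linear_combination (A ^ (l - 1 - i) * A ^ i) * e1
  rw [sum_congr rfl h2, sum_const, card_range, nsmul_eq_mul, hA]
  congr 1
  rw [← pow_mul, ← pow_mul, ← pow_mul]
  congr 1
  ring

end algebra

section field

variable {F : Type*} [Field F]

/-- At a primitive zero of `x^(2n/l) + y^(2n/l)` both coordinates are nonzero. -/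
lemma ne_of_gval (hk : n / l ≠ 0) {x y : F} (hxy : x ≠ 0 ∨ y ≠ 0) (h : gval n l x y = 0) :
    x ≠ 0 ∧ y ≠ 0 := by
  unfold gval at h
  have hK : 2 * (n / l) ≠ 0 := by omega
  constructor
  · rintro rfl
    rw [zero_pow hK, zero_add] at h
    have := (pow_eq_zero_iff hK).1 h
    tauto
  · rintro rfl
    rw [zero_pow hK, add_zero] at h
    have := (pow_eq_zero_iff hK).1 h
    tauto

/-- A zero of `H` that is not a zero of `x^(2n/l) + y^(2n/l)` gives a root of unity. -/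
lemma root_of_hval (hn : n ≠ 0) (hln : l ∣ n) (hodd : Odd l) {x y : F} (hxy : x ≠ 0 ∨ y ≠ 0)
    (hh : hval n l x y = 0) (hg : gval n l x y ≠ 0) :
    ∃ ζ : F, ζ ^ l = 1 ∧ ζ ≠ 1 ∧ y ≠ 0 ∧ gval n l x y = (1 - ζ) * (y ^ (n / l)) ^ 2 := by
  have h1 := gval_mul_hval hln hodd x y
  rw [hh, mul_zero] at h1
  have h2n : 2 * n ≠ 0 := by omega
  have hy : y ≠ 0 := by
    rintro rfl
    rw [zero_pow h2n, add_zero] at h1
    have := (pow_eq_zero_iff h2n).1 h1.symm
    tauto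
  have hB : y ^ (2 * (n / l)) ≠ 0 := pow_ne_zero _ hy
  refine ⟨-(x ^ (2 * (n / l)) / y ^ (2 * (n / l))), ?_, ?_, hy, ?_⟩
  · rw [hodd.neg_pow, div_pow, pow_eq hln, pow_eq hln, ← neg_div, div_eq_one_iff_eq (pow_ne_zero _ hy)]
    linear_combination h1
  · intro h
    apply hg
    unfold gval
    rw [neg_eq_iff_eq_neg, div_eq_iff hB] at h
    rw [h]; ring
  · unfold gval
    have e : (y ^ (n / l)) ^ 2 = y ^ (2 * (n / l)) := by rw [← pow_mul, mul_comm]
    rw [e, sub_neg_eq_add, add_mul, div_mul_cancel₀ _ hB]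
    ring

end field

lemma zmod_two : ∀ ζ : ZMod 2, ζ ≠ 1 → ζ = 0 := by decide

section padic

variable {p : ℕ} [hp : Fact p.Prime]

lemma coe_gval (x y : ℤ_[p]) :
    ((gval n l x y : ℤ_[p]) : ℚ_[p]) = gval n l (x : ℚ_[p]) (y : ℚ_[p]) :=
  map_gval (PadicInt.Coe.ringHom) x y

lemma coe_hval (x y : ℤ_[p]) :
    ((hval n l x y : ℤ_[p]) : ℚ_[p]) = hval n l (x : ℚ_[p]) (y : ℚ_[p]) :=
  map_hval (PadicInt.Coe.ringHom) x y

lemma coe_ne_zero_of_norm {e : ℤ_[p]} (h : ‖e‖ = 1) : (e : ℚ_[p]) ≠ 0 := by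
  intro h0
  rw [PadicInt.norm_def, h0, norm_zero] at h
  exact zero_ne_one h

lemma norm_int_eq_one {a : ℤ} (h : ¬ (p : ℤ) ∣ a) : ‖(a : ℤ_[p])‖ = 1 := by
  rw [PadicInt.norm_intCast_eq_one_iff]
  exact (Int.isCoprime_iff_gcd_eq_one.2 (by
    rw [Int.gcd_comm]
    exact (Int.isCoprime_iff_gcd_eq_one.1
      ((Nat.prime_iff_prime_int.1 hp.out).coprime_iff_not_dvd.2 h))))

/-- If `H` is a unit at the reduction, the value is that unit up to squares. -/
lemma eval_h (P : Point n m t ℚ_[p]) {c : ℚ_[p]} {x' y' : ℤ_[p]} (hc : c ≠ 0)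
    (hx : P.x = c * x') (hy : P.y = c * y') (hh : ‖hval n l x' y'‖ = 1) :
    ∃ w : ℚ_[p], w ≠ 0 ∧ P.eval l = (hval n l x' y' : ℤ_[p]) * w ^ 2 := by
  refine ⟨c ^ ((n / l) * (l - 1)), pow_ne_zero _ hc, ?_⟩
  have h1 : hval n l P.x P.y = (hval n l x' y' : ℤ_[p]) * (c ^ ((n / l) * (l - 1))) ^ 2 := by
    rw [hx, hy, hval_smul, coe_hval]; ring
  have h2 : hval n l P.x P.y ≠ 0 := by
    rw [h1]
    exact mul_ne_zero (coe_ne_zero_of_norm hh) (pow_ne_zero _ (pow_ne_zero _ hc))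
  unfold Point.eval
  rw [if_pos h2, h1]

/-- If `G` is a unit at the reduction, the value is `t` times that unit up to squares. -/
lemma eval_g (hln : l ∣ n) (hodd : Odd l) (ht : t ≠ 0) (P : Point n m t ℚ_[p]) {c : ℚ_[p]}
    {x' y' : ℤ_[p]} (hc : c ≠ 0)
    (hx : P.x = c * x') (hy : P.y = c * y') (hg : ‖gval n l x' y'‖ = 1) :
    ∃ w : ℚ_[p], w ≠ 0 ∧ P.eval l = (t : ℚ_[p]) * (gval n l x' y' : ℤ_[p]) * w ^ 2 := by
  have h1 : gval n l P.x P.y = (gval n l x' y' : ℤ_[p]) * (c ^ (n / l)) ^ 2 := by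
    rw [hx, hy, gval_smul, coe_gval]; ring
  have hg0 := coe_ne_zero_of_norm hg
  have hck : c ^ (n / l) ≠ 0 := pow_ne_zero _ hc
  have ht0 : (t : ℚ_[p]) ≠ 0 := by exact_mod_cast ht
  unfold Point.eval
  split_ifs with h0
  · have h3 := gval_mul_hval hln hodd P.x P.y
    rw [P.eq, h1] at h3
    have hz : P.z ^ m ≠ 0 := by
      intro hz
      have : P.z ^ (2 * m) = 0 := by rw [mul_comm, pow_mul, hz]; ring
      rw [this, mul_zero] at h3
      rcases mul_eq_zero.1 h3 with h | h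
      · exact mul_ne_zero hg0 (pow_ne_zero _ hck) h
      · exact h0 h
    refine ⟨P.z ^ m / ((gval n l x' y' : ℤ_[p]) * c ^ (n / l)),
      div_ne_zero hz (mul_ne_zero hg0 hck), ?_⟩
    have e : P.z ^ (2 * m) = (P.z ^ m) ^ 2 := by rw [← pow_mul, mul_comm]
    rw [e] at h3
    field_simp
    linear_combination h3
  · refine ⟨c ^ (n / l), hck, ?_⟩
    rw [h1]; ring

/-- Places at which the value is a unit up to squares. -/
lemma local_unit (hn : n ≠ 0) (hl : l.Prime) (hl2 : l ≠ 2) (hln : l ∣ n)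
    (hneg : ∀ x : ZMod l, x ^ (2 * n) ≠ -1) (ht0 : t ≠ 0)
    (hpt : p = 2 ∨ p = l ∨ ¬ (p : ℤ) ∣ t) (P : Point n m t ℚ_[p]) :
    ∃ (e : ℤ_[p]) (w : ℚ_[p]), ‖e‖ = 1 ∧ w ≠ 0 ∧ P.eval l = e * w ^ 2 := by
  have hodd : Odd l := hl.odd_of_ne_two hl2
  have hk : n / l ≠ 0 := (Nat.div_pos (Nat.le_of_dvd (Nat.pos_of_ne_zero hn) hln) hl.pos).ne'
  obtain ⟨c, x', y', hc, hx, hy, hprim⟩ := exists_primitive P.ne
  by_cases hh : toZMod (hval n l x' y') = 0
  swap
  · have hh1 := norm_eq_one_iff_toZMod.2 hh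
    obtain ⟨w, hw, he⟩ := eval_h P hc hx hy hh1
    exact ⟨_, w, hh1, hw, he⟩
  rw [map_hval] at hh
  have hprod := gval_mul_hval hln hodd (toZMod x' : ZMod p) (toZMod y')
  rw [hh, mul_zero] at hprod
  -- `-1` is a `2n`-th power
  have hpow : ∃ s : ZMod p, s ^ (2 * n) = -1 := by
    have h2n : 2 * n ≠ 0 := by omega
    have hy0 : toZMod y' ≠ 0 := by
      intro h0
      rw [h0, zero_pow h2n, add_zero] at hprod
      have := (pow_eq_zero_iff h2n).1 hprod.symm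
      tauto
    refine ⟨toZMod x' / toZMod y', ?_⟩
    rw [div_pow, div_eq_iff (pow_ne_zero _ hy0)]
    linear_combination -hprod
  -- `p ≠ l`
  have hpl : p ≠ l := by
    rintro rfl
    obtain ⟨s, hs⟩ := hpow
    exact hneg s hs
  have hlp : ((l : ℕ) : ZMod p) ≠ 0 := by
    rw [Ne, ZMod.natCast_eq_zero_iff]
    intro h
    exact hpl ((Nat.prime_dvd_prime_iff_eq hp.out hl).1 h)
  have hg : toZMod (gval n l x' y') ≠ 0 := by
    intro hg
    rw [map_gval] at hg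
    have h1 := hval_of_gval hg
    rw [hh] at h1
    obtain ⟨hx0, -⟩ := ne_of_gval hk hprim hg
    exact mul_ne_zero hlp (pow_ne_zero _ (pow_ne_zero _ (pow_ne_zero _ hx0))) h1.symm
  have hg1 := norm_eq_one_iff_toZMod.2 hg
  rcases hpt with h2 | hpl' | hpt
  · exfalso
    subst h2
    rw [map_gval] at hg
    obtain ⟨ζ, hζ, hζ1, -, -⟩ := root_of_hval hn hln hodd hprim hh hg
    rw [zmod_two ζ hζ1, zero_pow hl.ne_zero] at hζ
    exact zero_ne_one hζ
  · exact absurd hpl' hpl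
  · obtain ⟨w, hw, he⟩ := eval_g hln hodd ht0 P hc hx hy hg1
    refine ⟨(t : ℤ_[p]) * gval n l x' y', w, ?_, hw, ?_⟩
    · rw [norm_mul, norm_int_eq_one hpt, hg1, one_mul]
    · rw [he]; push_cast; ring

/-- Local analysis at an odd prime dividing the squarefree number `t`. -/
lemma local_ram (hn : n ≠ 0) (hl : l.Prime) (hl2 : l ≠ 2) (hln : l ∣ n)
    (hneg : ∀ x : ZMod l, x ^ (2 * n) ≠ -1) (hsq : Squarefree t)
    (ht : (p : ℤ) ∣ t) (P : Point n m t ℚ_[p]) :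
    p ≠ l ∧ (∃ s : ZMod p, s ^ (2 * n) = -1) ∧
    ((∃ (e : ℤ_[p]) (w : ℚ_[p]), ‖e‖ = 1 ∧ w ≠ 0 ∧ P.eval l = e * w ^ 2 ∧
        (IsSquare (toZMod e) ↔ IsSquare ((l : ℕ) : ZMod p))) ∨
      ∃ ζ : ZMod p, ζ ^ l = 1 ∧ ζ ≠ 1 ∧ ∃ (e : ℤ_[p]) (w : ℚ_[p]), ‖e‖ = 1 ∧ w ≠ 0 ∧
        P.eval l = (t : ℚ_[p]) * e * w ^ 2 ∧ (IsSquare (toZMod e) ↔ IsSquare (1 - ζ))) := by
  have hodd : Odd l := hl.odd_of_ne_two hl2
  have hk : n / l ≠ 0 := (Nat.div_pos (Nat.le_of_dvd (Nat.pos_of_ne_zero hn) hln) hl.pos).ne'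
  have ht0 : t ≠ 0 := hsq.ne_zero
  obtain ⟨c, x', y', hc, hx, hy, hprim⟩ := exists_primitive P.ne
  obtain ⟨t', ht'⟩ := ht
  have ht'p : ¬ (p : ℤ) ∣ t' := by
    rintro ⟨s, hs⟩
    have : (p : ℤ) * p ∣ t := ⟨s, by rw [ht', hs]; ring⟩
    have h2 := hsq _ this
    exact (Nat.prime_iff_prime_int.1 hp.out).not_isUnit h2
  have ht'u := norm_int_eq_one ht'p
  have htc : (t : ℚ_[p]) = (p : ℚ_[p]) * (t' : ℚ_[p]) := by
    have := congrArg (Int.cast : ℤ → ℚ_[p]) ht'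
    push_cast at this
    exact this
  -- the sum is not a unit
  have hprod : (toZMod x') ^ (2 * n) + (toZMod y') ^ (2 * n) = (0 : ZMod p) := by
    by_contra hcon
    have h1 : ‖x' ^ (2 * n) + y' ^ (2 * n)‖ = 1 := by
      rw [norm_eq_one_iff_toZMod]
      simpa using hcon
    have h2 := P.eq
    rw [hx, hy, mul_pow, mul_pow, ← mul_add] at h2
    have h3 := congrArg norm h2
    have h1' : ‖((x' : ℚ_[p]) ^ (2 * n) + (y' : ℚ_[p]) ^ (2 * n))‖ = 1 := by
      rw [PadicInt.norm_def] at h1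
      push_cast at h1
      exact h1
    rw [norm_mul, norm_mul, h1', norm_pow, norm_pow, mul_one, htc, norm_mul, Padic.norm_p] at h3
    have h4 : ‖(t' : ℚ_[p])‖ = 1 := by
      have := ht'u
      rw [PadicInt.norm_def] at this
      push_cast at this
      exact this
    rw [h4, mul_one] at h3
    have hz : P.z ^ m ≠ 0 := by
      intro h0
      have e : ‖P.z‖ ^ (2 * m) = 0 := by
        rw [← norm_pow, mul_comm, pow_mul, h0]; simp
      rw [e, mul_zero] at h3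
      exact pow_ne_zero _ (norm_ne_zero_iff.2 hc) h3
    have hcn : c ^ n ≠ 0 := pow_ne_zero _ hc
    have h5 : ‖c ^ n‖ ^ 2 = (p : ℝ)⁻¹ * ‖P.z ^ m‖ ^ 2 := by
      rw [norm_pow, norm_pow, ← pow_mul, ← pow_mul, mul_comm n 2, mul_comm m 2]
      exact h3
    rw [Padic.norm_eq_zpow_neg_valuation hz, Padic.norm_eq_zpow_neg_valuation hcn] at h5
    have hp1 : (1 : ℝ) < p := by exact_mod_cast hp.out.one_lt
    have hp0 : (p : ℝ) ≠ 0 := by positivity
    have h6 : (p : ℝ) ^ (-2 * (c ^ n).valuation) = (p : ℝ) ^ (-1 - 2 * (P.z ^ m).valuation) := by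
      rw [show (-2 * (c ^ n).valuation : ℤ) = (-(c ^ n).valuation) * 2 by ring,
        show (-1 - 2 * (P.z ^ m).valuation : ℤ) = -1 + (-(P.z ^ m).valuation) * 2 by ring,
        zpow_add₀ hp0, zpow_neg_one, zpow_mul, zpow_mul]
      exact_mod_cast h5
    have h7 := zpow_right_injective₀ (by positivity) hp1.ne' h6
    omega
  have hpow : ∃ s : ZMod p, s ^ (2 * n) = -1 := by
    have h2n : 2 * n ≠ 0 := by omega
    have hy0 : toZMod y' ≠ 0 := by
      intro h0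
      rw [h0, zero_pow h2n, add_zero] at hprod
      have := (pow_eq_zero_iff h2n).1 hprod
      tauto
    refine ⟨toZMod x' / toZMod y', ?_⟩
    rw [div_pow, div_eq_iff (pow_ne_zero _ hy0)]
    linear_combination hprod
  have hpl : p ≠ l := by
    rintro rfl
    obtain ⟨s, hs⟩ := hpow
    exact hneg s hs
  have hlp : ((l : ℕ) : ZMod p) ≠ 0 := by
    rw [Ne, ZMod.natCast_eq_zero_iff]
    intro h
    exact hpl ((Nat.prime_dvd_prime_iff_eq hp.out hl).1 h)
  refine ⟨hpl, hpow, ?_⟩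
  by_cases hg : toZMod (gval n l x' y') = 0
  · left
    rw [map_gval] at hg
    have h1 := hval_of_gval hg
    obtain ⟨hx0, -⟩ := ne_of_gval hk hprim hg
    have hsq0 : ((toZMod x') ^ (n / l)) ^ (l - 1) ≠ 0 := pow_ne_zero _ (pow_ne_zero _ hx0)
    have hh1 : ‖hval n l x' y'‖ = 1 := by
      rw [norm_eq_one_iff_toZMod, map_hval, h1]
      exact mul_ne_zero hlp (pow_ne_zero _ hsq0)
    obtain ⟨w, hw, he⟩ := eval_h P hc hx hy hh1
    refine ⟨_, w, hh1, hw, he, ?_⟩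
    rw [map_hval, h1]
    constructor
    · rintro ⟨s, hs⟩
      refine ⟨s / ((toZMod x') ^ (n / l)) ^ (l - 1), ?_⟩
      rw [div_mul_div_comm, eq_div_iff (mul_ne_zero hsq0 hsq0), ← hs]
      ring
    · rintro ⟨s, hs⟩
      exact ⟨s * ((toZMod x') ^ (n / l)) ^ (l - 1), by rw [hs]; ring⟩
  · right
    have hg1 := norm_eq_one_iff_toZMod.2 hg
    rw [map_gval] at hg
    have hh : hval n l (toZMod x') (toZMod y') = (0 : ZMod p) := by
      have h1 := gval_mul_hval hln hodd (toZMod x' : ZMod p) (toZMod y')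
      rw [hprod] at h1
      exact (mul_eq_zero.1 h1).resolve_left hg
    obtain ⟨ζ, hζ, hζ1, hy0, hgζ⟩ := root_of_hval hn hln hodd hprim hh hg
    obtain ⟨w, hw, he⟩ := eval_g hln hodd ht0 P hc hx hy hg1
    refine ⟨ζ, hζ, hζ1, _, w, hg1, hw, he, ?_⟩
    have hyk : (toZMod y') ^ (n / l) ≠ 0 := pow_ne_zero _ hy0
    rw [map_gval, hgζ]
    constructor
    · rintro ⟨s, hs⟩
      refine ⟨s / (toZMod y') ^ (n / l), ?_⟩
      rw [div_mul_div_comm, eq_div_iff (mul_ne_zero hyk hyk), ← hs]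
      ring
    · rintro ⟨s, hs⟩
      exact ⟨s * (toZMod y') ^ (n / l), by rw [hs]; ring⟩

end padic

/-- The primes modulo which `-1` is a `2n`-th power. -/
lemma mod_of_pow {p : ℕ} [hp : Fact p.Prime] (hp2 : p ≠ 2) (hn : n ≠ 0) {s : ZMod p}
    (hs : s ^ (2 * n) = -1) : p % 2 ^ (padicValNat 2 n + 2) = 1 := by
  have h2 : (-1 : ZMod p) ≠ 1 := by
    have : Fact (2 < p) := ⟨lt_of_le_of_ne hp.out.two_le hp2.symm⟩
    exact ZMod.neg_one_ne_one
  have hs0 : s ≠ 0 := by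
    rintro rfl
    rw [zero_pow (by omega)] at hs
    have h3 := congrArg Neg.neg hs
    rw [neg_neg, neg_zero] at h3
    exact zero_ne_one h3
  obtain ⟨k, hk⟩ := pow_padicValNat_dvd (p := 2) (n := n)
  have hkodd : Odd k := by
    rw [← Nat.not_even_iff_odd, even_iff_two_dvd]
    rintro ⟨j, hj⟩
    apply pow_succ_padicValNat_not_dvd (p := 2) hn
    refine ⟨j, ?_⟩
    conv_lhs => rw [hk, hj]
    ring
  set a := padicValNat 2 n with ha
  have h3 : (s ^ k) ^ 2 ^ (a + 1) = -1 := by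
    rw [← pow_mul, ← hs]
    congr 1
    rw [hk]
    ring
  have h4 : orderOf (s ^ k) = 2 ^ (a + 2) := by
    apply orderOf_eq_prime_pow
    · rw [h3]; exact h2
    · rw [pow_succ, pow_mul, h3]; ring
  have h5 : orderOf (s ^ k) ∣ p - 1 := by
    apply orderOf_dvd_of_pow_eq_one
    exact ZMod.pow_card_sub_one_eq_one (pow_ne_zero _ hs0)
  rw [h4] at h5
  obtain ⟨j, hj⟩ := h5
  have hp1 := hp.out.one_lt
  have h6 : p = 1 + 2 ^ (a + 2) * j := by omega
  have h7 : 1 < 2 ^ (a + 2) := Nat.one_lt_two_pow (by omega)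
  rw [h6, Nat.add_mul_mod_self_left, Nat.mod_eq_of_lt h7]

/-- The primes modulo which there is a nontrivial `l`-th root of unity. -/
lemma mod_of_root {p : ℕ} [hp : Fact p.Prime] (hl : l.Prime) {ζ : ZMod p} (h : ζ ^ l = 1)
    (h1 : ζ ≠ 1) : p % l = 1 := by
  have := Fact.mk hl
  have h4 : orderOf ζ = l := orderOf_eq_prime h h1
  have hζ0 : ζ ≠ 0 := by
    rintro rfl
    rw [zero_pow hl.ne_zero] at h
    exact zero_ne_one h
  have h5 : orderOf ζ ∣ p - 1 := by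
    apply orderOf_dvd_of_pow_eq_one
    exact ZMod.pow_card_sub_one_eq_one hζ0
  rw [h4] at h5
  obtain ⟨j, hj⟩ := h5
  have hp1 := hp.out.one_lt
  have h6 : p = 1 + l * j := by omega
  rw [h6, Nat.add_mul_mod_self_left, Nat.mod_eq_of_lt hl.one_lt]

end Stoll308.Fermat
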