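import Mathlib
import Pool.Agent.Work.MP_308fa9_nt.FLocal
import Pool.Agent.Work.MP_308fa9_nt.Descent

set_option autoImplicit false

/-!
An adelic point of a twisted Fermat curve orthogonal to all the `(H, c)` gives descent data.
-/

namespace Stoll308.Fermat

open Finset PadicInt

variable {n m l : ℕ} {t : ℤ}

section two

lemma two_fact : Fact (Nat.Prime 2) := ⟨Nat.prime_two⟩

attribute [local instance] two_fact

/-- `2`-adic integers congruent to `1` modulo `8` are squares. -/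
lemma sq_two {u v : ℤ_[2]} (h : u = 1 + 8 * v) : ∃ w : ℤ_[2], u = w ^ 2 := by
  have h2 : ‖(2 : ℤ_[2])‖ = 2⁻¹ := by
    have := PadicInt.norm_p (p := 2)
    exact_mod_cast this
  have hu1 : ‖(1 : ℤ_[2]) ^ 2 - u‖ < ‖(2 : ℤ_[2])‖ ^ 2 := by
    have e : (1 : ℤ_[2]) ^ 2 - u = -(2 ^ 3 * v) := by rw [h]; ring
    rw [e, norm_neg, norm_mul, norm_pow, h2]
    have := PadicInt.norm_le_one v
    nlinarith [norm_nonneg v]
  obtain ⟨z, hz, -⟩ := hensels_lemma (F := (Polynomial.X ^ 2 - Polynomial.C u : Polynomial ℤ_[2]))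
    (a := 1) (by
      simp only [map_sub, map_pow, Polynomial.aeval_X, Polynomial.aeval_C,
        Polynomial.derivative_C, sub_zero,
        Polynomial.derivative_X_pow, map_mul]
      simp only [Nat.cast_ofNat, Nat.add_one_sub_one, pow_one, mul_one]
      exact hu1)
  simp only [map_sub, map_pow, Polynomial.aeval_X, Polynomial.aeval_C, Algebra.algebraMap_self,
    RingHom.id_apply, sub_eq_zero] at hz
  exact ⟨z, hz.symm⟩

/-- At `2`, a unit against a number congruent to `1` modulo `4`. -/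
lemma splits_two {e : ℤ_[2]} (he : ‖e‖ = 1) {c : ℕ} (hc : c % 4 = 1) :
    Splits (e : ℚ_[2]) (c : ℚ_[2]) := by
  have he1 : toZMod (e - 1) = 0 := by
    have h1 := norm_eq_one_iff_toZMod.1 he
    rw [map_sub, map_one]
    have : ∀ x : ZMod 2, x ≠ 0 → x - 1 = 0 := by decide
    exact this _ h1
  obtain ⟨f, hf⟩ : ∃ f : ℤ_[2], e = 1 + 2 * f := by
    have h2 : e - 1 ∈ RingHom.ker (toZMod : ℤ_[2] →+* ZMod 2) := he1
    rw [ker_toZMod, maximalIdeal_eq_span_p, Ideal.mem_span_singleton] at h2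
    obtain ⟨f, hf⟩ := h2
    refine ⟨f, ?_⟩
    push_cast at hf
    linear_combination hf
  obtain ⟨k, hk | hk⟩ : ∃ k : ℕ, c = 8 * k + 1 ∨ c = 8 * k + 5 := by
    rcases (by omega : c % 8 = 1 ∨ c % 8 = 5) with h | h
    · exact ⟨c / 8, Or.inl (by omega)⟩
    · exact ⟨c / 8, Or.inr (by omega)⟩
  · obtain ⟨w, hw⟩ := sq_two (u := (c : ℤ_[2])) (v := k) (by rw [hk]; push_cast; ring)
    refine ⟨0, 1, w, Or.inr (Or.inl one_ne_zero), ?_⟩
    have := congrArg (fun x : ℤ_[2] => (x : ℚ_[2])) hw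
    push_cast at this
    linear_combination this
  · obtain ⟨w, hw⟩ := sq_two (u := 2 ^ 2 * e + (c : ℤ_[2])) (v := 1 + f + k) (by
      rw [hk, hf]; push_cast; ring)
    refine ⟨((2 : ℤ_[2]) : ℚ_[2]), 1, w, Or.inr (Or.inl one_ne_zero), ?_⟩
    have := congrArg (fun x : ℤ_[2] => (x : ℚ_[2])) hw
    push_cast at this ⊢
    linear_combination this

end two

section chi

variable {p : ℕ} [hp : Fact p.Prime]

lemma sg_eq_char {x : ZMod p} (hx : x ≠ 0) : sg (¬ IsSquare x) = quadraticChar (ZMod p) x := by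
  classical
  unfold sg
  by_cases h : IsSquare x
  · rw [if_neg (not_not.2 h)]
    exact ((quadraticChar_one_iff_isSquare hx).2 h).symm
  · rw [if_pos h]
    exact ((quadraticChar_dichotomy hx).resolve_left fun h1 =>
      h ((quadraticChar_one_iff_isSquare hx).1 h1)).symm

lemma jacobi_eq_char (a : ℤ) : jacobiSym a p = quadraticChar (ZMod p) (a : ZMod p) := by
  rw [← jacobiSym.legendreSym.to_jacobiSym]
  rfl

/-- The sign of `1 - ζ` for a primitive cube root of unity `ζ` modulo `p`. -/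
noncomputable def eps3 (p : ℕ) : ℤ := sg (¬ ∃ ζ : ZMod p, ζ ^ 3 = 1 ∧ ζ ≠ 1 ∧ IsSquare (1 - ζ))

lemma eps3_eq (h4 : p % 4 = 1) {ζ : ZMod p} (h : ζ ^ 3 = 1) (h1 : ζ ≠ 1) :
    sg (¬ IsSquare (1 - ζ)) = eps3 p := by
  unfold eps3
  apply sg_congr
  apply not_congr
  constructor
  · intro hs
    exact ⟨ζ, h, h1, hs⟩
  · rintro ⟨ζ', h', h1', hs⟩
    have e1 : ζ ^ 2 + ζ + 1 = 0 := by
      have : (ζ - 1) * (ζ ^ 2 + ζ + 1) = 0 := by linear_combination h
      exact (mul_eq_zero.1 this).resolve_left (sub_ne_zero.2 h1)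
    have e2 : ζ' ^ 2 + ζ' + 1 = 0 := by
      have : (ζ' - 1) * (ζ' ^ 2 + ζ' + 1) = 0 := by linear_combination h'
      exact (mul_eq_zero.1 this).resolve_left (sub_ne_zero.2 h1')
    have e3 : (ζ' - ζ) * (ζ' + ζ + 1) = 0 := by linear_combination e2 - e1
    rcases mul_eq_zero.1 e3 with e | e
    · rw [sub_eq_zero] at e
      rwa [← e]
    · obtain ⟨i, hi⟩ := (ZMod.exists_sq_eq_neg_one_iff (p := p)).2 (by omega)
      obtain ⟨s, hs⟩ := hs
      have hζ0 : ζ ≠ 0 := by
        rintro rfl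
        rw [zero_pow (by norm_num)] at h
        exact zero_ne_one h
      have hi0 : i ≠ 0 := by
        rintro rfl
        rw [mul_zero] at hi
        exact neg_ne_zero.2 one_ne_zero hi
      have e4 : 1 - ζ' = (i * ζ) ^ 2 * (1 - ζ) := by
        linear_combination -e + (ζ ^ 2 * (1 - ζ)) * hi + e1 - h
      refine ⟨s / (i * ζ), ?_⟩
      have h5 : i * ζ ≠ 0 := mul_ne_zero hi0 hζ0
      rw [div_mul_div_comm, eq_div_iff (mul_ne_zero h5 h5), ← hs, e4]
      ring

end chi

/-- The descent data for `t = s D E`. -/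
def Desc (n l s D E : ℕ) : Prop :=
  (∀ p : ℕ, p.Prime → p ∣ D → p % 2 ^ (padicValNat 2 n + 2) = 1 ∧ p % l = 1 ∧
    (l = 3 → jacobiSym (s * E : ℕ) p = eps3 p)) ∧
  ∀ p : ℕ, p.Prime → p ∣ E → p % 2 ^ (padicValNat 2 n + 2) = 1 ∧ jacobiSym (D * l : ℕ) p = 1

set_option maxHeartbeats 2000000 in
/-- **Descent.** -/
theorem desc_of_bm (hn : n ≠ 0) (hl : l.Prime) (hl2 : l ≠ 2) (hln : l ∣ n)
    (hneg : ∀ x : ZMod l, x ^ (2 * n) ≠ -1) (hsq : Squarefree t) (ht : 0 < t)
    (h : BMNonempty n m l t) :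
    ∃ s D E : ℕ, (s = 1 ∨ s = 2) ∧ t = ((s * (D * E) : ℕ) : ℤ) ∧ Desc n l s D E := by
  classical
  obtain ⟨P, hP⟩ := h
  set N := t.natAbs with hN
  have htN : t = (N : ℤ) := by rw [hN]; omega
  have hN0 : N ≠ 0 := by omega
  have hNsq : Squarefree N := by
    rw [htN, Int.squarefree_natCast] at hsq
    exact hsq
  let typeD : ℕ → Prop := fun p => ∃ _ : Fact p.Prime, ∃ ζ : ZMod p, ζ ^ l = 1 ∧ ζ ≠ 1 ∧
    ∃ (e : ℤ_[p]) (w : ℚ_[p]), ‖e‖ = 1 ∧ w ≠ 0 ∧
      (P.padic p).eval l = (t : ℚ_[p]) * e * w ^ 2 ∧ (IsSquare (toZMod e) ↔ IsSquare (1 - ζ))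
  have htypeE : ∀ (p : ℕ) [Fact p.Prime], p ≠ 2 → (p : ℤ) ∣ t → ¬ typeD p →
      ∃ (e : ℤ_[p]) (w : ℚ_[p]), ‖e‖ = 1 ∧ w ≠ 0 ∧ (P.padic p).eval l = e * w ^ 2 ∧
        (IsSquare (toZMod e) ↔ IsSquare ((l : ℕ) : ZMod p)) := by
    intro p hp hp2 hpt hD
    obtain ⟨-, -, h | h⟩ := local_ram hn hl hl2 hln hneg hsq hpt (P.padic p)
    · exact h
    · exact absurd ⟨hp, h⟩ hD
  have hmod : ∀ p : ℕ, p.Prime → p ≠ 2 → (p : ℤ) ∣ t → p ≠ l ∧
      p % 2 ^ (padicValNat 2 n + 2) = 1 := by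
    intro p hpp hp2 hpt
    have := Fact.mk hpp
    obtain ⟨h1, ⟨s, hs⟩, -⟩ := local_ram hn hl hl2 hln hneg hsq hpt (P.padic p)
    exact ⟨h1, mod_of_pow hp2 hn hs⟩
  have hmod4 : ∀ p : ℕ, p.Prime → p ≠ 2 → (p : ℤ) ∣ t → p % 4 = 1 := by
    intro p hpp hp2 hpt
    have h1 := (hmod p hpp hp2 hpt).2
    have h2 : (4 : ℕ) ∣ 2 ^ (padicValNat 2 n + 2) := by
      rw [pow_add]; exact Dvd.intro_left _ rfl
    rw [← Nat.mod_mod_of_dvd p h2, h1]
  set Dset := N.primeFactors.filter (fun p => p ≠ 2 ∧ typeD p) with hDset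
  set Eset := N.primeFactors.filter (fun p => p ≠ 2 ∧ ¬ typeD p) with hEset
  set Sset := N.primeFactors.filter (fun p => p = 2) with hSset
  have hdvd : ∀ p : ℕ, p ∈ N.primeFactors → (p : ℤ) ∣ t := by
    intro p hp
    rw [htN]
    exact_mod_cast Nat.dvd_of_mem_primeFactors hp
  have hmem : ∀ p : ℕ, p.Prime → (p : ℤ) ∣ t → p ∈ N.primeFactors := by
    intro p hp h
    rw [htN] at h
    rw [Nat.mem_primeFactors]
    exact ⟨hp, by exact_mod_cast h, hN0⟩
  -- the product formula for the algebra `(H, p)`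
  have key : ∀ p : ℕ, p.Prime → p ≠ 2 → (p : ℤ) ∣ t →
      sg (p ∈ P.ramified l (p : ℤ)) * jacobiSym ((∏ q ∈ Dset.erase p, q : ℕ) : ℤ) p = 1 := by
    intro p hpp hp2 hpt
    have hp := Fact.mk hpp
    have hp4 := hmod4 p hpp hp2 hpt
    obtain ⟨hfin, heven⟩ := hP (p : ℤ) (by exact_mod_cast hpp.ne_zero)
    have hreal : Splits (P.real.eval l) ((p : ℤ) : ℝ) := by
      refine ⟨0, 1, Real.sqrt p, Or.inr (Or.inl one_ne_zero), ?_⟩
      rw [Real.sq_sqrt (Nat.cast_nonneg p)]
      push_cast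
      ring
    have heven' : Even (P.ramified l (p : ℤ)).ncard := heven.2 hreal
    have hsub : P.ramified l (p : ℤ) ⊆ ((insert p (Dset.erase p) : Finset ℕ) : Set ℕ) := by
      rintro q ⟨hq, hns⟩
      by_contra hcon
      rw [mem_coe, mem_insert, mem_erase, not_or] at hcon
      obtain ⟨hqp, hqD⟩ := hcon
      have hqD' : q ∉ Dset := fun h => hqD ⟨hqp, h⟩
      have hpu : ‖((p : ℤ) : ℤ_[q])‖ = 1 := by
        have : Nat.Coprime q p := (Nat.coprime_primes hq.out hpp).2 hqp
        have h2 := PadicInt.norm_natCast_eq_one_iff (p := q) (n := p)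
        push_cast
        exact h2.2 this
      apply hns
      have hunit : ∃ (e : ℤ_[q]) (w : ℚ_[q]), ‖e‖ = 1 ∧ w ≠ 0 ∧
          (P.padic q).eval l = e * w ^ 2 := by
        by_cases hcase : q = 2 ∨ q = l ∨ ¬ (q : ℤ) ∣ t
        · exact local_unit hn hl hl2 hln hneg ht.ne' hcase (P.padic q)
        · push Not at hcase
          obtain ⟨hq2, -, hqt⟩ := hcase
          have hnD : ¬ typeD q := by
            intro hD
            apply hqD'
            rw [hDset, mem_filter]
            exact ⟨hmem q hq.out hqt, hq2, hD⟩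
          obtain ⟨e, w, he, hw, hew, -⟩ := htypeE q hq2 hqt hnD
          exact ⟨e, w, he, hw, hew⟩
      obtain ⟨e, w, he, hw, hew⟩ := hunit
      rw [hew, splits_mul_sq hw]
      by_cases hq2 : q = 2
      · subst hq2
        have := splits_two he hp4
        push_cast
        exact this
      · have := splits_units hq2 he hpu
        push_cast at this ⊢
        exact this
    have hprod := prod_sg_of_even _ hsub heven'
    rw [prod_insert (notMem_erase p Dset)] at hprod
    rw [← hprod]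
    congr 1
    have h2 : ∀ s : Finset ℕ, s ⊆ Dset.erase p → ∏ q ∈ s, sg (q ∈ P.ramified l (p : ℤ)) =
        jacobiSym ((∏ q ∈ s, q : ℕ) : ℤ) p := by
      intro s
      induction s using Finset.induction_on with
      | empty => intro _; simp
      | insert q s hqs ih =>
        intro hs
        have hqD := hs (mem_insert_self q s)
        have hsD : s ⊆ Dset.erase p := fun x hx => hs (mem_insert_of_mem hx)
        rw [prod_insert hqs, prod_insert hqs, ih hsD]
        rw [mem_erase, hDset, mem_filter] at hqD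
        obtain ⟨hqp, hqt, hq2, hqD⟩ := hqD
        have hqpr := Nat.prime_of_mem_primeFactors hqt
        have hqF : Fact q.Prime := ⟨hqpr⟩
        have hndvd : ¬ q ∣ p := by
          intro h
          exact hqp ((Nat.prime_dvd_prime_iff_eq hqpr hpp).1 h)
        push_cast
        rw [jacobiSym.mul_left]
        congr 1
        have hodd : Odd q := hqpr.odd_of_ne_two hq2
        rw [← jacobiSym.quadratic_reciprocity_one_mod_four hp4 hodd, jacobi_eq_sg hndvd]
        apply sg_congr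
        obtain ⟨_, ζ, -, -, e, w, he, hw, hew, -⟩ := hqD
        obtain ⟨t', ht'⟩ := hdvd q hqt
        have ht'q : ¬ (q : ℤ) ∣ t' := by
          rintro ⟨s, hs⟩
          have : (q : ℤ) * q ∣ t := ⟨s, by rw [ht', hs]; ring⟩
          have h2 := hsq _ this
          exact (Nat.prime_iff_prime_int.1 hqpr).not_isUnit h2
        have hu : ‖(t' : ℤ_[q]) * e‖ = 1 := by
          rw [norm_mul, norm_int_eq_one ht'q, he, one_mul]
        have hpu : ‖((p : ℕ) : ℤ_[q])‖ = 1 :=
          PadicInt.norm_natCast_eq_one_iff.2 ((Nat.coprime_primes hqpr hpp).2 hqp)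
        have h1 : Splits ((P.padic q).eval l) ((p : ℤ) : ℚ_[q]) ↔
            IsSquare ((p : ℕ) : ZMod q) := by
          have htc : (t : ℚ_[q]) = (q : ℚ_[q]) * (t' : ℚ_[q]) := by
            have := congrArg (Int.cast : ℤ → ℚ_[q]) ht'
            push_cast at this
            exact this
          rw [hew, splits_mul_sq hw, htc]
          have := splits_prime_unit hq2 hu hpu
          rw [map_natCast] at this
          rw [← this]
          push_cast
          rw [mul_assoc]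
        constructor
        · rintro ⟨_, hh⟩
          rwa [h1] at hh
        · intro hh
          exact ⟨‹Fact q.Prime›, by rwa [h1]⟩
    exact (h2 _ subset_rfl).symm
  -- the numbers `s`, `D`, `E`
  have hfac : N = (∏ q ∈ Sset, q) * ((∏ q ∈ Dset, q) * ∏ q ∈ Eset, q) := by
    conv_lhs => rw [← Nat.prod_primeFactors_of_squarefree hNsq]
    rw [← prod_filter_mul_prod_filter_not N.primeFactors (fun p => p = 2)]
    congr 1
    rw [← prod_filter_mul_prod_filter_not (N.primeFactors.filter (fun p => ¬ p = 2)) typeD,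
      filter_filter, filter_filter]
  have hS : ∏ q ∈ Sset, q = 1 ∨ ∏ q ∈ Sset, q = 2 := by
    have : Sset ⊆ {2} := by
      intro x hx
      rw [hSset, mem_filter] at hx
      exact mem_singleton.2 hx.2
    rcases subset_singleton_iff.1 this with h | h
    · left; rw [h]; simp
    · right; rw [h]; simp
  refine ⟨_, _, _, hS, by rw [← hfac]; exact htN, ?_, ?_⟩
  · intro p hpp hpD
    have hpDset : p ∈ Dset := by
      obtain ⟨q, hq, hpq⟩ := (hpp.prime.dvd_finsetProd_iff _).1 hpD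
      have hqp := Nat.prime_of_mem_primeFactors (mem_filter.1 hq).1
      rwa [(Nat.prime_dvd_prime_iff_eq hpp hqp).1 hpq]
    obtain ⟨hpN, hp2, _, ζ, hζ, hζ1, e, w, he, hw, hew, hiff⟩ := mem_filter.1 hpDset
    have hpt := hdvd p hpN
    have hp := Fact.mk hpp
    have hp4 := hmod4 p hpp hp2 hpt
    refine ⟨(hmod p hpp hp2 hpt).2, mod_of_root hl hζ hζ1, ?_⟩
    rintro rfl
    have hkey := key p hpp hp2 hpt
    rw [← eps3_eq hp4 hζ hζ1]
    -- the value at `p`
    set D' := ∏ q ∈ Dset.erase p, q with hD'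
    set s := ∏ q ∈ Sset, q with hs
    set E := ∏ q ∈ Eset, q with hE
    have hDp : ∏ q ∈ Dset, q = p * D' := (mul_prod_erase Dset (fun q => q) hpDset).symm
    have htp : t = (p : ℤ) * ((s * E * D' : ℕ) : ℤ) := by
      rw [htN, hfac, hDp]; push_cast; ring
    have hnd : ¬ p ∣ s * E * D' := by
      rintro ⟨k, hk⟩
      have : (p : ℤ) * p ∣ t := ⟨k, by rw [htp, hk]; push_cast; ring⟩
      have h2 := hsq _ this
      exact (Nat.prime_iff_prime_int.1 hpp).not_isUnit h2
    have hu' : ‖((s * E * D' : ℕ) : ℤ_[p])‖ = 1 :=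
      PadicInt.norm_natCast_eq_one_iff.2 ((Nat.Prime.coprime_iff_not_dvd hpp).2 hnd)
    have hu : ‖-(((s * E * D' : ℕ) : ℤ_[p]) * e)‖ = 1 := by
      rw [norm_neg, norm_mul, hu', he, one_mul]
    have hp0 : (p : ℚ_[p]) ≠ 0 := by exact_mod_cast hpp.ne_zero
    have h1 : Splits ((P.padic p).eval 3) ((p : ℤ) : ℚ_[p]) ↔
        IsSquare (toZMod (-(((s * E * D' : ℕ) : ℤ_[p]) * e))) := by
      rw [hew, splits_mul_sq hw, splits_comm, ← splits_prime_unit hp2 (e := 1) (by simp) hu]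
      have e1 : (t : ℚ_[p]) * e = -((p : ℚ_[p]) * ((-(((s * E * D' : ℕ) : ℤ_[p]) * e) : ℤ_[p]) :
          ℚ_[p])) := by
        have := congrArg (Int.cast : ℤ → ℚ_[p]) htp
        push_cast at this
        push_cast
        rw [this]; ring
      rw [e1]
      have e2 : ((p : ℤ) : ℚ_[p]) = (p : ℚ_[p]) := by push_cast; rfl
      rw [e2, splits_neg_mul hp0]
      simp only [PadicInt.coe_one, mul_one]
    have h2 : sg (p ∈ P.ramified 3 (p : ℤ)) =
        quadraticChar (ZMod p) (toZMod (-(((s * E * D' : ℕ) : ℤ_[p]) * e))) := by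
      rw [← sg_eq_char (norm_eq_one_iff_toZMod.1 hu)]
      apply sg_congr
      constructor
      · rintro ⟨_, hh⟩
        rwa [h1] at hh
      · intro hh
        exact ⟨hp, by rwa [h1]⟩
    have h3 : sg (¬ IsSquare (1 - ζ)) = quadraticChar (ZMod p) (toZMod e) := by
      rw [← sg_eq_char (norm_eq_one_iff_toZMod.1 he)]
      exact sg_congr (not_congr hiff.symm)
    have hneg1 : quadraticChar (ZMod p) (-1) = 1 := by
      rw [quadraticChar_one_iff_isSquare (neg_ne_zero.2 one_ne_zero)]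
      exact (ZMod.exists_sq_eq_neg_one_iff (p := p)).2 (by omega)
    rw [h2] at hkey
    have h4 : toZMod (-(((s * E * D' : ℕ) : ℤ_[p]) * e)) =
        (-1) * ((((s * E : ℕ) : ℤ) : ZMod p) * (((D' : ℕ) : ℤ) : ZMod p)) * toZMod e := by
      rw [map_neg, map_mul, map_natCast]
      push_cast
      ring
    rw [h4, map_mul, map_mul, map_mul, hneg1, ← jacobi_eq_char, ← jacobi_eq_char] at hkey
    have h5 : jacobiSym ((D' : ℕ) : ℤ) p * jacobiSym ((D' : ℕ) : ℤ) p = 1 := by
      have hnd' : ¬ p ∣ D' := fun h => hnd (Dvd.dvd.mul_left h _)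
      have h6 : Nat.Coprime D' p := ((Nat.Prime.coprime_iff_not_dvd hpp).2 hnd').symm
      have := jacobiSym.sq_one (a := ((D' : ℕ) : ℤ)) (b := p) (by
        rw [Int.gcd_natCast_natCast]; exact h6)
      rw [← sq]; exact this
    rw [h3]
    have h7 : quadraticChar (ZMod p) (toZMod e) * quadraticChar (ZMod p) (toZMod e) = 1 := by
      rw [← sq, quadraticChar_sq_one (norm_eq_one_iff_toZMod.1 he)]
    calc jacobiSym ((s * E : ℕ) : ℤ) p = jacobiSym ((s * E : ℕ) : ℤ) p *
        (jacobiSym ((D' : ℕ) : ℤ) p * jacobiSym ((D' : ℕ) : ℤ) p) *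
        (quadraticChar (ZMod p) (toZMod e) * quadraticChar (ZMod p) (toZMod e)) := by
          rw [h5, h7]; ring
      _ = (1 * (jacobiSym ((s * E : ℕ) : ℤ) p * jacobiSym ((D' : ℕ) : ℤ) p) *
        quadraticChar (ZMod p) (toZMod e) * jacobiSym ((D' : ℕ) : ℤ) p) *
          quadraticChar (ZMod p) (toZMod e) := by ring
      _ = _ := by rw [hkey, one_mul]
  · intro p hpp hpE
    have hpEset : p ∈ Eset := by
      obtain ⟨q, hq, hpq⟩ := (hpp.prime.dvd_finsetProd_iff _).1 hpE
      have hqp := Nat.prime_of_mem_primeFactors (mem_filter.1 hq).1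
      rwa [(Nat.prime_dvd_prime_iff_eq hpp hqp).1 hpq]
    obtain ⟨hpN, hp2, hnD⟩ := mem_filter.1 hpEset
    have hpt := hdvd p hpN
    have hp := Fact.mk hpp
    have hp4 := hmod4 p hpp hp2 hpt
    obtain ⟨hpl, hpM⟩ := hmod p hpp hp2 hpt
    refine ⟨hpM, ?_⟩
    have hkey := key p hpp hp2 hpt
    have hpD : p ∉ Dset := by
      intro h
      exact hnD (mem_filter.1 h).2.2
    rw [erase_eq_of_notMem hpD] at hkey
    obtain ⟨e, w, he, hw, hew, hiff⟩ := htypeE p hp2 hpt hnD
    have hlp : ¬ p ∣ l := by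
      intro h
      exact hpl ((Nat.prime_dvd_prime_iff_eq hpp hl).1 h)
    have h1 : sg (p ∈ P.ramified l (p : ℤ)) = jacobiSym (l : ℤ) p := by
      rw [jacobi_eq_sg hlp]
      apply sg_congr
      have h2 : Splits ((P.padic p).eval l) ((p : ℤ) : ℚ_[p]) ↔ IsSquare ((l : ℕ) : ZMod p) := by
        rw [hew, splits_mul_sq hw, splits_comm, ← hiff]
        have := splits_prime_unit hp2 (e := 1) (c := e) (by simp) he
        rw [← this]
        push_cast
        rw [mul_one]
      constructor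
      · rintro ⟨_, hh⟩
        rwa [h2] at hh
      · intro hh
        exact ⟨hp, by rwa [h2]⟩
    rw [h1] at hkey
    push_cast
    push_cast at hkey
    rw [jacobiSym.mul_left, mul_comm]
    exact hkey

end Stoll308.Fermat
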