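import Mathlib
import Pool.Agent.Work.MP_308fa9_nt.FCount
import Pool.Agent.Work.MP_308fa9_nt.FDescent

set_option autoImplicit false

/-!
Counting the pairs `(D, E)` given by the descent on twisted Fermat curves.
-/

namespace Stoll308.Core

open Finset NumberTheorySymbols Tuples Linked HT MeanSum Filter
open scoped Asymptotics

/-- Finitely many small values do not matter. -/
lemma extend_small {N F : ℕ → ℝ} (hF : ∀ Y : ℕ, 3 ≤ Y → 0 < F Y)
    (h : ∃ C : ℝ, 0 < C ∧ ∃ Y₀ : ℕ, ∀ Y : ℕ, Y₀ ≤ Y → 3 ≤ Y → N Y ≤ C * F Y) :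
    ∃ C : ℝ, 0 < C ∧ ∀ Y : ℕ, 3 ≤ Y → N Y ≤ C * F Y := by
  obtain ⟨C, hC, Y₀, h⟩ := h
  have h0 : ∀ Y ∈ Icc 3 Y₀, 0 ≤ |N Y| / F Y := fun Y hY =>
    div_nonneg (abs_nonneg _) (hF Y (mem_Icc.1 hY).1).le
  refine ⟨C + ∑ Y ∈ Icc 3 Y₀, |N Y| / F Y, add_pos_of_pos_of_nonneg hC (sum_nonneg h0), ?_⟩
  intro Y hY
  have hFY := hF Y hY
  rcases le_or_gt Y₀ Y with h1 | h1
  · refine (h Y h1 hY).trans (mul_le_mul_of_nonneg_right ?_ hFY.le)
    linarith [sum_nonneg h0]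
  · have h2 : |N Y| / F Y ≤ ∑ Y ∈ Icc 3 Y₀, |N Y| / F Y :=
      single_le_sum (f := fun Y => |N Y| / F Y) h0 (mem_Icc.2 ⟨hY, h1.le⟩)
    rw [add_mul]
    have h3 := mul_le_mul_of_nonneg_right h2 hFY.le
    rw [div_mul_cancel₀ _ hFY.ne'] at h3
    have := le_abs_self (N Y)
    have := mul_pos hC hFY
    linarith

section zz

variable (V : Type) [Fintype V]

lemma zz_ge {X : ℕ} (hX : 3 ≤ X) : 3 ≤ zz V X := by
  have h1 : (1 : ℝ) ≤ Real.log X ^ BB V := one_le_pow₀ (one_le_log3 hX)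
  have : 1 ≤ ⌊Real.log X ^ BB V⌋₊ := by rwa [Nat.one_le_floor_iff]
  unfold zz
  omega

lemma zz_le {X : ℕ} (hX : 3 ≤ X) : (zz V X : ℝ) ≤ 3 * Real.log X ^ BB V := by
  have h1 : (1 : ℝ) ≤ Real.log X ^ BB V := one_le_pow₀ (one_le_log3 hX)
  unfold zz
  push_cast
  linarith [Nat.floor_le (show 0 ≤ Real.log X ^ BB V by linarith)]

lemma log_zz {η : ℝ} (hη : 0 < η) : ∃ C : ℝ, 0 < C ∧ ∀ X : ℕ, 3 ≤ X →
    Real.log (zz V X) ^ 2 ≤ C * Real.log X ^ η := by
  refine ⟨(2 + BB V / (η / 2)) ^ 2, by positivity, fun X hX => ?_⟩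
  have hl := one_le_log3 hX
  set l := Real.log X with hl'
  have hl0 : 0 < l := by linarith
  have hz3 : (3 : ℝ) ≤ zz V X := by exact_mod_cast zz_ge V hX
  have hlogz : Real.log (zz V X) ≤ 2 + BB V * Real.log l := by
    have h1 := Real.log_le_log (by linarith) (zz_le V hX)
    rw [Real.log_mul (by norm_num) (by positivity), Real.log_pow] at h1
    have h2 : Real.log 3 ≤ 2 := by
      have := Real.log_le_sub_one_of_pos (show (0 : ℝ) < 3 by norm_num)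
      linarith
    linarith
  have hδ : 0 < η / 2 := by linarith
  have hlogl : Real.log l ≤ l ^ (η / 2) / (η / 2) := Real.log_le_rpow_div hl0.le hδ
  have hlδ : 1 ≤ l ^ (η / 2) := Real.one_le_rpow hl hδ.le
  have h3 : Real.log (zz V X) ≤ (2 + BB V / (η / 2)) * l ^ (η / 2) := by
    calc Real.log (zz V X) ≤ 2 + BB V * Real.log l := hlogz
      _ ≤ 2 * l ^ (η / 2) + BB V * (l ^ (η / 2) / (η / 2)) := by
          refine add_le_add (by linarith) (mul_le_mul_of_nonneg_left hlogl (Nat.cast_nonneg _))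
      _ = _ := by ring
  calc Real.log (zz V X) ^ 2 ≤ ((2 + BB V / (η / 2)) * l ^ (η / 2)) ^ 2 :=
        pow_le_pow_left₀ (Real.log_nonneg (by linarith)) h3 2
    _ = _ := by
        rw [mul_pow, ← Real.rpow_natCast (l ^ (η / 2)), ← Real.rpow_mul hl0.le]
        congr 2
        push_cast
        ring

lemma zz_small : ∃ Y₀ : ℕ, ∀ Y : ℕ, Y₀ ≤ Y → 3 ≤ Y → zz V Y ^ 8 ≤ Y := by
  have h2 : (fun x : ℝ => Real.log x ^ (BB V * 8)) =o[atTop] id :=
    Real.isLittleO_pow_log_id_atTop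
  have h3 := (h2.bound (c := 1 / 3 ^ 8) (by norm_num)).and (eventually_ge_atTop (3 : ℝ))
  obtain ⟨Y₀, hY₀⟩ := eventually_atTop.1 (tendsto_natCast_atTop_atTop.eventually h3)
  refine ⟨Y₀, fun Y hY hY3 => ?_⟩
  obtain ⟨h4, h5⟩ := hY₀ Y hY
  have hl := one_le_log3 hY3
  rw [Real.norm_of_nonneg (pow_nonneg (by linarith) _), id, Real.norm_of_nonneg (by linarith)] at h4
  have h6 : ((zz V Y : ℝ)) ^ 8 ≤ Y := by
    calc ((zz V Y : ℝ)) ^ 8 ≤ (3 * Real.log Y ^ BB V) ^ 8 :=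
          pow_le_pow_left₀ (Nat.cast_nonneg _) (zz_le V hY3) 8
      _ = 3 ^ 8 * Real.log Y ^ (BB V * 8) := by rw [mul_pow, ← pow_mul]
      _ ≤ 3 ^ 8 * (1 / 3 ^ 8 * Y) := by gcongr
      _ = Y := by ring
  exact_mod_cast h6

end zz

end Stoll308.Core

namespace Stoll308.Fermat

open Finset NumberTheorySymbols Tuples Linked HT MeanSum Filter Stoll308.Core

variable {n l : ℕ}

/-- the modulus -/
def MM (n : ℕ) : ℕ := 2 ^ (padicValNat 2 n + 2)

lemma MM_four (n : ℕ) : 4 ∣ MM n := by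
  unfold MM; rw [pow_add]; exact Dvd.intro_left _ rfl

lemma MM_pos (n : ℕ) : 0 < MM n := by unfold MM; positivity

lemma MM_one (n : ℕ) : 1 < MM n := by
  have := Nat.le_of_dvd (MM_pos n) (MM_four n); omega

lemma not_dvd_MM (hl : l.Prime) (hl2 : l ≠ 2) : ¬ l ∣ MM n := by
  intro h
  exact hl2 ((Nat.prime_dvd_prime_iff_eq hl Nat.prime_two).1 (hl.dvd_of_dvd_pow h))

/-- the exponent -/
noncomputable def del (n : ℕ) : ℝ := (1 / 2) ^ (padicValNat 2 n + 1)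

lemma del_eq (n : ℕ) : 1 / (Nat.totient (MM n) : ℝ) = del n := by
  unfold MM del
  rw [show padicValNat 2 n + 2 = (padicValNat 2 n + 1) + 1 by ring,
    Nat.totient_prime_pow_succ Nat.prime_two]
  push_cast
  rw [one_div_pow]
  norm_num

lemma del_pos (n : ℕ) : 0 < del n := by unfold del; positivity

lemma sum_PR_eq (X : ℕ) (g : ℕ → ℝ) :
    ∑ p ∈ (Icc 0 X).filter Nat.Prime, g p = ∑ p ∈ PR X, g p := by
  refine sum_congr ?_ fun _ _ => rfl
  ext p
  rw [mem_PR, mem_filter, mem_Icc]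
  exact ⟨fun h => ⟨h.2, h.1.2⟩, fun h => ⟨⟨Nat.zero_le _, h.2⟩, h.1⟩⟩

lemma mean_residue (K : ℕ) (hK : 1 < K) : ∃ C : ℝ, ∀ X : ℕ, 3 ≤ X →
    |∑ p ∈ PR X, (if p % K = 1 then (1 : ℝ) else 0) / p -
      1 / Nat.totient K * Real.log (Real.log X)| ≤ C := by
  classical
  have : NeZero K := ⟨by omega⟩
  obtain ⟨C, hC, h⟩ := (AP.Mert.residue (q := K) (a := 1) isUnit_one).loglog
  refine ⟨C, fun X hX => ?_⟩
  have h1 := h X (by omega)
  rw [sum_PR_eq] at h1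
  have e : ∀ p : ℕ, (if (p : ZMod K) = 1 then (1 : ℝ) else 0) = if p % K = 1 then (1 : ℝ) else 0 := by
    intro p
    have : ((p : ℕ) : ZMod K) = 1 ↔ p % K = 1 := by
      rw [← Nat.cast_one, ZMod.natCast_eq_natCast_iff, Nat.ModEq, Nat.mod_eq_of_lt hK]
    by_cases hp : p % K = 1
    · rw [if_pos hp, if_pos (this.2 hp)]
    · rw [if_neg hp, if_neg (fun h => hp (this.1 h))]
  simp only [e] at h1
  exact h1

/-- the primes that may divide `E` -/
noncomputable def gE (n : ℕ) (p : ℕ) : ℝ := if p % MM n = 1 then 1 else 0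

/-- the primes that may divide `D` -/
noncomputable def gD (n l : ℕ) (p : ℕ) : ℝ := if p % MM n = 1 ∧ p % l = 1 then 1 else 0

lemma gE_nonneg (n p : ℕ) : 0 ≤ gE n p := by unfold gE; split_ifs <;> norm_num
lemma gD_nonneg (n l p : ℕ) : 0 ≤ gD n l p := by unfold gD; split_ifs <;> norm_num
lemma gE_le (n p : ℕ) : gE n p ≤ 1 := by unfold gE; split_ifs <;> norm_num
lemma gD_le (n l p : ℕ) : gD n l p ≤ 1 := by unfold gD; split_ifs <;> norm_num

lemma mean_gE (n : ℕ) : ∃ C : ℝ, ∀ X : ℕ, 3 ≤ X →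
    ∑ p ∈ PR X, gE n p / p ≤ del n * Real.log (Real.log X) + C := by
  obtain ⟨C, hC⟩ := mean_residue (MM n) (MM_one n)
  refine ⟨C, fun X hX => ?_⟩
  have := (abs_le.1 (hC X hX)).2
  rw [del_eq] at this
  unfold gE
  linarith

lemma mean_gD (n : ℕ) (hl : l.Prime) (hl2 : l ≠ 2) : ∃ C : ℝ, ∀ X : ℕ, 3 ≤ X →
    ∑ p ∈ PR X, gD n l p / p ≤ del n / (l - 1) * Real.log (Real.log X) + C := by
  have hcop : Nat.Coprime (MM n) l := ((Nat.Prime.coprime_iff_not_dvd hl).2 (not_dvd_MM hl hl2)).symm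
  have hK : 1 < MM n * l := lt_of_lt_of_le (MM_one n) (Nat.le_mul_of_pos_right _ hl.pos)
  obtain ⟨C, hC⟩ := mean_residue (MM n * l) hK
  refine ⟨C, fun X hX => ?_⟩
  have h1 := (abs_le.1 (hC X hX)).2
  have h2 : 1 / (Nat.totient (MM n * l) : ℝ) = del n / (l - 1) := by
    rw [Nat.totient_mul hcop, Nat.totient_prime hl, ← del_eq]
    push_cast [Nat.cast_sub hl.one_le]
    have : (l : ℝ) - 1 ≠ 0 := by
      have : (1 : ℝ) < l := by exact_mod_cast hl.one_lt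
      linarith
    have h3 : (Nat.totient (MM n) : ℝ) ≠ 0 := by
      exact_mod_cast (Nat.totient_pos.2 (MM_pos n)).ne'
    field_simp
  rw [h2] at h1
  have h3 : ∑ p ∈ PR X, gD n l p / p ≤
      ∑ p ∈ PR X, (if p % (MM n * l) = 1 then (1 : ℝ) else 0) / p := by
    refine sum_le_sum fun p _ => div_le_div_of_nonneg_right ?_ (Nat.cast_nonneg _)
    unfold gD
    by_cases hp : p % MM n = 1 ∧ p % l = 1
    · rw [if_pos hp]
      have e : p % (MM n * l) = 1 := by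
        have e1 : p ≡ 1 [MOD MM n] := by rw [Nat.ModEq, hp.1, Nat.mod_eq_of_lt (MM_one n)]
        have e2 : p ≡ 1 [MOD l] := by rw [Nat.ModEq, hp.2, Nat.mod_eq_of_lt hl.one_lt]
        have e3 := (Nat.modEq_and_modEq_iff_modEq_mul hcop).1 ⟨e1, e2⟩
        rw [Nat.ModEq, Nat.mod_eq_of_lt hK] at e3
        exact e3
      rw [if_pos e]
    · rw [if_neg hp]
      split_ifs <;> norm_num
  linarith

end Stoll308.Fermat
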