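import Mathlib
import Pool.Agent.Work.MP_308fa9_nt.FCount2

set_option autoImplicit false

/-!
The number of pairs `(D, E)` satisfying the descent conditions.
-/

namespace Stoll308.Fermat

open Finset NumberTheorySymbols Tuples Linked HT MeanSum Filter Stoll308.Core

variable {n l : ℕ}

/-- the constant coefficient at the primes dividing `D` -/
noncomputable def cc (l : ℕ) : ℝ := if l = 3 then 1 / 2 else 1

lemma cc_bounds (l : ℕ) : 1 / 2 ≤ cc l ∧ cc l ≤ 1 := by
  unfold cc; split_ifs <;> norm_num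

/-- the weights -/
noncomputable def wF (n l s : ℕ) (v : Bool × Bool) (p : ℕ) : ℝ :=
  match v with
  | (false, false) => cc l * gD n l p
  | (false, true) => (1 - cc l) * ((eps3 p * J(s | p) : ℤ) : ℝ) * gD n l p
  | (true, false) => 1 / 2 * gE n p
  | (true, true) => 1 / 2 * ((J(l | p) : ℤ) : ℝ) * gE n p

lemma abs_eps3 (p : ℕ) : |((eps3 p : ℤ) : ℝ)| ≤ 1 := by
  unfold eps3
  rcases sg_eq (¬ ∃ ζ : ZMod p, ζ ^ 3 = 1 ∧ ζ ≠ 1 ∧ IsSquare (1 - ζ)) with h | h <;> rw [h] <;> simp

lemma abs_wF01 (n l s p : ℕ) : |wF n l s (false, true) p| ≤ (1 - cc l) * gD n l p := by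
  have hc := cc_bounds l
  change |(1 - cc l) * ((eps3 p * J(s | p) : ℤ) : ℝ) * gD n l p| ≤ _
  rw [abs_mul, abs_mul, abs_of_nonneg (gD_nonneg n l p), abs_of_nonneg (by linarith : 0 ≤ 1 - cc l)]
  refine mul_le_mul_of_nonneg_right ?_ (gD_nonneg n l p)
  refine mul_le_of_le_one_right (by linarith) ?_
  push_cast
  rw [abs_mul]
  exact mul_le_one₀ (abs_eps3 p) (abs_nonneg _) (Bilin.abs_jacobi_le_one _ _)

lemma abs_wF11 (n l s p : ℕ) : |wF n l s (true, true) p| ≤ 1 / 2 * gE n p := by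
  change |1 / 2 * ((J(l | p) : ℤ) : ℝ) * gE n p| ≤ _
  rw [abs_mul, abs_mul, abs_of_nonneg (gE_nonneg n p), abs_of_nonneg (by norm_num : (0 : ℝ) ≤ 1 / 2)]
  refine mul_le_mul_of_nonneg_right ?_ (gE_nonneg n p)
  exact mul_le_of_le_one_right (by norm_num) (Bilin.abs_jacobi_le_one _ _)

lemma abs_wF00 (n l s p : ℕ) : |wF n l s (false, false) p| = cc l * gD n l p := by
  have hc := cc_bounds l
  change |cc l * gD n l p| = _
  rw [abs_of_nonneg (mul_nonneg (by linarith) (gD_nonneg n l p))]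

lemma abs_wF10 (n l s p : ℕ) : |wF n l s (true, false) p| = 1 / 2 * gE n p := by
  change |1 / 2 * gE n p| = _
  rw [abs_of_nonneg (mul_nonneg (by norm_num) (gE_nonneg n p))]

lemma abs_wF_le (n l s : ℕ) (v : Bool × Bool) (p : ℕ) : |wF n l s v p| ≤ 1 := by
  have hc := cc_bounds l
  have hD := gD_nonneg n l p
  have hD1 := gD_le n l p
  have hE := gE_nonneg n p
  have hE1 := gE_le n p
  obtain ⟨a, i⟩ := v
  cases a <;> cases i
  · rw [abs_wF00]; nlinarith
  · refine (abs_wF01 n l s p).trans ?_; nlinarith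
  · rw [abs_wF10]; linarith
  · refine (abs_wF11 n l s p).trans ?_; linarith

lemma abs_mul_jac (x : ℝ) (a : ℤ) (b : ℕ) : |x * ((J(a | b) : ℤ) : ℝ)| ≤ |x| := by
  rw [abs_mul]
  exact mul_le_of_le_one_right (abs_nonneg _) (Bilin.abs_jacobi_le_one _ _)

lemma WW_nonneg (n l s D E : ℕ) : 0 ≤ WW (wF n l s) D E := by
  have hc := cc_bounds l
  unfold WW
  split_ifs
  · refine mul_nonneg (prod_nonneg fun p _ => ?_) (prod_nonneg fun p _ => ?_)
    · have h1 := (abs_le.1 (abs_mul_jac (wF n l s (false, true) p) E p)).1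
      have h2 := abs_wF01 n l s p
      have h3 : wF n l s (false, false) p = cc l * gD n l p := rfl
      have hD := gD_nonneg n l p
      rw [h3]
      nlinarith
    · have h1 := (abs_le.1 (abs_mul_jac (wF n l s (true, true) p) D p)).1
      have h2 := abs_wF11 n l s p
      have h3 : wF n l s (true, false) p = 1 / 2 * gE n p := rfl
      rw [h3]
      linarith
  · exact le_rfl

lemma odd_of_mod {p : ℕ} (h : p % MM n = 1) : p ≠ 2 := by
  rintro rfl
  have h4 := Nat.le_of_dvd (MM_pos n) (MM_four n)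
  rw [Nat.mod_eq_of_lt (by omega)] at h
  omega

lemma WW_eq_one {s D E : ℕ} (hsq : Squarefree (D * E)) (h : Desc n l s D E) :
    WW (wF n l s) D E = 1 := by
  obtain ⟨hD, hE⟩ := h
  have h0 : D * E ≠ 0 := hsq.ne_zero
  have hD0 : D ≠ 0 := left_ne_zero_of_mul h0
  have hE0 : E ≠ 0 := right_ne_zero_of_mul h0
  have hodd : Odd (D * E) := by
    rw [← Nat.not_even_iff_odd, even_iff_two_dvd]
    intro h2
    rcases (Nat.Prime.dvd_mul Nat.prime_two).1 h2 with h2 | h2
    · exact odd_of_mod (n := n) (hD 2 Nat.prime_two h2).1 rfl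
    · exact odd_of_mod (n := n) (hE 2 Nat.prime_two h2).1 rfl
  unfold WW
  rw [if_pos ⟨hsq, hodd⟩]
  have e1 : ∏ p ∈ D.primeFactors, (wF n l s (false, false) p + wF n l s (false, true) p *
      ((J(E | p) : ℤ) : ℝ)) = 1 := by
    refine prod_eq_one fun p hp => ?_
    obtain ⟨h1, h2, h3⟩ := hD p (Nat.prime_of_mem_primeFactors hp) (Nat.dvd_of_mem_primeFactors hp)
    have hg : gD n l p = 1 := by unfold gD; exact if_pos ⟨h1, h2⟩
    change cc l * gD n l p + (1 - cc l) * ((eps3 p * J(s | p) : ℤ) : ℝ) * gD n l p *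
      ((J(E | p) : ℤ) : ℝ) = 1
    rw [hg]
    unfold cc
    split_ifs with hl3
    · have h4 := h3 hl3
      push_cast at h4
      rw [jacobiSym.mul_left] at h4
      have h5 : eps3 p * J(s | p) * J(E | p) = 1 := by
        rw [mul_assoc, h4]
        unfold eps3
        exact sg_mul_self _
      have h6 : ((eps3 p * J(s | p) : ℤ) : ℝ) * ((J(E | p) : ℤ) : ℝ) = 1 := by exact_mod_cast h5
      linear_combination (1 / 2) * h6
    · ring
  have e2 : ∏ p ∈ E.primeFactors, (wF n l s (true, false) p + wF n l s (true, true) p *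
      ((J(D | p) : ℤ) : ℝ)) = 1 := by
    refine prod_eq_one fun p hp => ?_
    obtain ⟨h1, h2⟩ := hE p (Nat.prime_of_mem_primeFactors hp) (Nat.dvd_of_mem_primeFactors hp)
    have hg : gE n p = 1 := by unfold gE; exact if_pos h1
    change 1 / 2 * gE n p + 1 / 2 * ((J(l | p) : ℤ) : ℝ) * gE n p * ((J(D | p) : ℤ) : ℝ) = 1
    rw [hg]
    push_cast at h2
    rw [jacobiSym.mul_left] at h2
    have h6 : ((J(D | p) : ℤ) : ℝ) * ((J(l | p) : ℤ) : ℝ) = 1 := by exact_mod_cast h2
    linear_combination (1 / 2) * h6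
  rw [e1, e2, mul_one]

/-- the mean of the weights -/
lemma mean_w (n : ℕ) (hl : l.Prime) (hl2 : l ≠ 2) : ∃ C : ℝ, ∀ X : ℕ, 3 ≤ X →
    ∑ p ∈ PR X, (cc l * gD n l p + 1 / 2 * gE n p) / p ≤
      3 / 4 * del n * Real.log (Real.log X) + C := by
  obtain ⟨C1, h1⟩ := mean_gE n
  obtain ⟨C2, h2⟩ := mean_gD n hl hl2
  have hc := cc_bounds l
  have hd := del_pos n
  refine ⟨1 / 2 * C1 + cc l * C2, fun X hX => ?_⟩
  have hll : 0 ≤ Real.log (Real.log X) := Real.log_nonneg (one_le_log3 hX)
  have e1 : ∑ p ∈ PR X, (cc l * gD n l p + 1 / 2 * gE n p) / p =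
      cc l * ∑ p ∈ PR X, gD n l p / p + 1 / 2 * ∑ p ∈ PR X, gE n p / p := by
    rw [mul_sum, mul_sum, ← sum_add_distrib]
    refine sum_congr rfl fun p _ => ?_
    ring
  have h3 := mul_le_mul_of_nonneg_left (h2 X hX) (by linarith : 0 ≤ cc l)
  have h4 := mul_le_mul_of_nonneg_left (h1 X hX) (by norm_num : (0 : ℝ) ≤ 1 / 2)
  have hkey : cc l * (del n / (l - 1)) ≤ 1 / 4 * del n := by
    unfold cc
    split_ifs with hl3
    · rw [hl3]; push_cast; linarith
    · have hl5 : 5 ≤ l := by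
        have := hl.two_le
        by_contra hcon
        have : l = 4 := by omega
        rw [this] at hl
        exact absurd hl (by norm_num)
      have hl5' : (5 : ℝ) ≤ l := by exact_mod_cast hl5
      rw [one_mul, div_le_iff₀ (by linarith)]
      nlinarith
  have h5 := mul_le_mul_of_nonneg_right hkey hll
  rw [e1]
  linarith

open Classical in
/-- both members large -/
lemma region_C (hl : l.Prime) (hl2 : l ≠ 2) (s : ℕ) {η : ℝ} (hη : 0 < η) :
    ∃ C : ℝ, 0 < C ∧ ∀ Y : ℕ, 3 ≤ Y →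
      (((TX Bool Y).filter (fun f => ((zz (Bool × Bool) Y) ^ 2 < f false ∧
        (zz (Bool × Bool) Y) ^ 2 < f true) ∧ Squarefree (f false * f true) ∧
        Desc n l s (f false) (f true))).card : ℝ) ≤
      C * (Y * Real.log Y ^ (3 / 4 * del n - 1 + η)) := by
  obtain ⟨C0, hC0⟩ := mean_w n hl hl2
  have hc := cc_bounds l
  have hd := del_pos n
  obtain ⟨C, hC, h⟩ := pair_bound (w := wF n l s) (fun v p _ => abs_wF_le n l s v p)
    (κ₀ := 3 / 4 * del n) (by positivity)
    ⟨C0, fun X hX => by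
      refine le_trans (sum_le_sum fun p _ => div_le_div_of_nonneg_right ?_ (Nat.cast_nonneg _))
        (hC0 X hX)
      rw [abs_wF00, abs_wF10]⟩
    ⟨C0, fun X hX => by
      refine le_trans (sum_le_sum fun p _ => div_le_div_of_nonneg_right ?_ (Nat.cast_nonneg _))
        (hC0 X hX)
      have h1 := abs_wF01 n l s p
      have h2 := abs_wF11 n l s p
      have h3 := gD_nonneg n l p
      nlinarith⟩ hη
  refine ⟨C, hC, fun Y hY => le_trans ?_ (h Y hY)⟩
  rw [card_filter]
  push_cast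
  refine sum_le_sum fun f _ => ?_
  by_cases hz : (zz (Bool × Bool) Y) ^ 2 < f false ∧ (zz (Bool × Bool) Y) ^ 2 < f true
  · rw [if_pos hz]
    by_cases hd : Squarefree (f false * f true) ∧ Desc n l s (f false) (f true)
    · rw [if_pos ⟨hz, hd⟩, WW_eq_one hd.1 hd.2]
    · rw [if_neg (fun h => hd h.2)]
      exact WW_nonneg _ _ _ _ _
  · rw [if_neg hz, if_neg (fun h => hz h.1)]

open Classical in
/-- `D` small -/
lemma region_A (hl : l.Prime) (hl2 : l ≠ 2) (s : ℕ) :
    ∃ C : ℝ, 0 < C ∧ ∀ Y z : ℕ, 3 ≤ z → z ^ 8 ≤ Y →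
      (((TX Bool Y).filter (fun f => f false ≤ z ^ 2 ∧ Squarefree (f false * f true) ∧
        Desc n l s (f false) (f true))).card : ℝ) ≤
      C * (Y * Real.log Y ^ (1 / 2 * del n - 1)) * Real.log z ^ 2 := by
  obtain ⟨C1, h1⟩ := mean_gE n
  obtain ⟨C2, hC2, h2⟩ := AP.sum_jacobi_le (M := MM n) (MM_four n) (MM_pos n).ne' hl hl2
    (not_dvd_MM hl hl2)
  have hd := del_pos n
  obtain ⟨C, hC, h⟩ := strip_bound (κ := 1 / 2 * del n) (C₀ := 1 / 2 * C1 + 1 / 2 * C2) (by positivity)
    (fun a => Odd a ∧ ¬ l ∣ a) (fun a p => p % MM n = 1 ∧ J((a * l : ℕ) | p) = 1) (by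
      intro a ha hG X hX
      have h3 := h1 X hX
      have h4 := h2 a X hG.1 hG.2
      have h5 : ∑ p ∈ PR X, (if p % MM n = 1 ∧ J((a * l : ℕ) | p) = 1 then (1 : ℝ) else 0) / p ≤
          1 / 2 * ∑ p ∈ PR X, gE n p / p + 1 / 2 * ∑ p ∈ PR X,
            (if p % MM n = 1 then ((J((a * l : ℕ) | p) : ℤ) : ℝ) else 0) / p := by
        rw [mul_sum, mul_sum, ← sum_add_distrib]
        refine sum_le_sum fun p _ => ?_
        rw [← mul_div_assoc, ← mul_div_assoc, ← add_div]
        refine div_le_div_of_nonneg_right ?_ (Nat.cast_nonneg _)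
        unfold gE
        by_cases hp : p % MM n = 1
        · rw [if_pos hp, if_pos hp]
          rcases jacobiSym.trichotomy ((a * l : ℕ) : ℤ) p with h | h | h
          · rw [h]; norm_num
          · rw [h]; norm_num
            split_ifs <;> norm_num
          · rw [h]; norm_num
        · rw [if_neg hp, if_neg hp, if_neg (fun h => hp h.1)]
          norm_num
      have ha1 : (1 : ℝ) ≤ a := by exact_mod_cast ha
      have hl3 : 1 ≤ Real.log (a + 3) := by
        have h1 : Real.log (Real.exp 1) ≤ Real.log (a + 3) :=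
          Real.log_le_log (Real.exp_pos 1) (by have := Real.exp_one_lt_d9; linarith)
        rwa [Real.log_exp] at h1
      have hll : 0 ≤ Real.log (Real.log (a + 3)) := Real.log_nonneg hl3
      linarith)
  refine ⟨C, hC, fun Y z hz hY => le_trans ?_ (h Y z hz hY)⟩
  rw [← Nat.cast_sum]
  norm_cast
  refine card_strip _ (z ^ 2) false _ _ fun f hf => ?_
  obtain ⟨hf1, hf2, hsq, hD, hE⟩ := mem_filter.1 hf
  rw [Core.mem_TX, Fintype.prod_bool] at hf1
  refine ⟨hf1.1 false, hf2, ⟨?_, ?_⟩, ?_⟩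
  · rw [← Nat.not_even_iff_odd, even_iff_two_dvd]
    intro h2
    exact odd_of_mod (n := n) (hD 2 Nat.prime_two h2).1 rfl
  · intro hl'
    have := (hD l hl hl').2.1
    rw [Nat.mod_self] at this
    exact absurd this (by norm_num)
  · rw [mem_filter, mem_Icc]
    refine ⟨⟨hf1.1 true, ?_⟩, hsq.squarefree_of_dvd (dvd_mul_left _ _), fun p hp hpd => hE p hp hpd⟩
    rw [Nat.le_div_iff_mul_le (hf1.1 false)]
    exact hf1.2

open Classical in
/-- `E` small -/
lemma region_B (hl : l.Prime) (hl2 : l ≠ 2) (s : ℕ) :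
    ∃ C : ℝ, 0 < C ∧ ∀ Y z : ℕ, 3 ≤ z → z ^ 8 ≤ Y →
      (((TX Bool Y).filter (fun f => f true ≤ z ^ 2 ∧ Squarefree (f false * f true) ∧
        Desc n l s (f false) (f true))).card : ℝ) ≤
      C * (Y * Real.log Y ^ (1 / 2 * del n - 1)) * Real.log z ^ 2 := by
  obtain ⟨C1, h1⟩ := mean_gD n hl hl2
  have hd := del_pos n
  obtain ⟨C, hC, h⟩ := strip_bound (κ := 1 / 2 * del n) (C₀ := C1) (by positivity)
    (fun _ => True) (fun _ p => p % MM n = 1 ∧ p % l = 1) (by
      intro a ha _ X hX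
      have h3 := h1 X hX
      have ha1 : (1 : ℝ) ≤ a := by exact_mod_cast ha
      have hl3 : 1 ≤ Real.log (a + 3) := by
        have h1 : Real.log (Real.exp 1) ≤ Real.log (a + 3) :=
          Real.log_le_log (Real.exp_pos 1) (by have := Real.exp_one_lt_d9; linarith)
        rwa [Real.log_exp] at h1
      have hll : 0 ≤ Real.log (Real.log (a + 3)) := Real.log_nonneg hl3
      have hllX : 0 ≤ Real.log (Real.log X) := Real.log_nonneg (one_le_log3 hX)
      have hl3' : (3 : ℝ) ≤ l := by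
        have : 3 ≤ l := by
          have := hl.two_le
          omega
        exact_mod_cast this
      have h5 : del n / (l - 1) ≤ 1 / 2 * del n := by
        rw [div_le_iff₀ (by linarith)]
        nlinarith
      have h6 := mul_le_mul_of_nonneg_right h5 hllX
      unfold gD at h3
      linarith)
  refine ⟨C, hC, fun Y z hz hY => le_trans ?_ (h Y z hz hY)⟩
  rw [← Nat.cast_sum]
  norm_cast
  refine card_strip _ (z ^ 2) true _ _ fun f hf => ?_
  obtain ⟨hf1, hf2, hsq, hD, hE⟩ := mem_filter.1 hf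
  rw [Core.mem_TX, Fintype.prod_bool] at hf1
  refine ⟨hf1.1 true, hf2, trivial, ?_⟩
  rw [mem_filter, mem_Icc]
  refine ⟨⟨hf1.1 false, ?_⟩, hsq.squarefree_of_dvd (dvd_mul_right _ _),
    fun p hp hpd => ⟨(hD p hp hpd).1, (hD p hp hpd).2.1⟩⟩
  rw [Nat.le_div_iff_mul_le (hf1.1 true), mul_comm]
  exact hf1.2

open Classical in
/-- **The number of pairs satisfying the descent conditions.** -/
theorem desc_count (n : ℕ) (hl : l.Prime) (hl2 : l ≠ 2) (s : ℕ) {η : ℝ} (hη : 0 < η) :
    ∃ C : ℝ, 0 < C ∧ ∀ Y : ℕ, 3 ≤ Y →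
      (((TX Bool Y).filter (fun f => Squarefree (f false * f true) ∧
        Desc n l s (f false) (f true))).card : ℝ) ≤
      C * (Y * Real.log Y ^ (3 / 4 * del n - 1 + η)) := by
  obtain ⟨CA, hCA, hA⟩ := region_A (n := n) hl hl2 s
  obtain ⟨CB, hCB, hB⟩ := region_B (n := n) hl hl2 s
  obtain ⟨CC, hCC, hC⟩ := region_C (n := n) hl hl2 s hη
  obtain ⟨Cz, hCz, hz⟩ := log_zz (Bool × Bool) hη
  obtain ⟨Y₀, hY₀⟩ := zz_small (Bool × Bool)
  have hd := del_pos n
  refine extend_small (N := fun Y => (((TX Bool Y).filter (fun f => Squarefree (f false * f true) ∧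
        Desc n l s (f false) (f true))).card : ℝ))
    (F := fun Y => (Y * Real.log Y ^ (3 / 4 * del n - 1 + η))) (fun Y hY => ?_)
    ⟨CA * Cz + CB * Cz + CC, by positivity, Y₀, fun Y hY hY3 => ?_⟩
  · have := one_le_log3 hY
    have h3 : (0 : ℝ) < Y := by exact_mod_cast (by omega : 0 < Y)
    have h4 : 0 < Real.log Y := by linarith
    positivity
  · have hlY := one_le_log3 hY3
    have hlY0 : 0 < Real.log Y := by linarith
    set z := zz (Bool × Bool) Y with hzdef
    have hz3 : 3 ≤ z := zz_ge _ hY3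
    have hz8 : z ^ 8 ≤ Y := hY₀ Y hY hY3
    have h1 := hA Y z hz3 hz8
    have h2 := hB Y z hz3 hz8
    have h3 := hC Y hY3
    have h4 := hz Y hY3
    have hcard : ((TX Bool Y).filter (fun f => Squarefree (f false * f true) ∧
        Desc n l s (f false) (f true))).card ≤
        ((TX Bool Y).filter (fun f => f false ≤ z ^ 2 ∧ Squarefree (f false * f true) ∧
          Desc n l s (f false) (f true))).card +
        ((TX Bool Y).filter (fun f => f true ≤ z ^ 2 ∧ Squarefree (f false * f true) ∧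
          Desc n l s (f false) (f true))).card +
        ((TX Bool Y).filter (fun f => (z ^ 2 < f false ∧ z ^ 2 < f true) ∧
          Squarefree (f false * f true) ∧ Desc n l s (f false) (f true))).card := by
      refine le_trans (card_le_card ?_) ((card_union_le _ _).trans
        (Nat.add_le_add_right (card_union_le _ _) _))
      intro f hf
      rw [mem_filter] at hf
      rw [mem_union, mem_union, mem_filter, mem_filter, mem_filter]
      rcases le_or_gt (f false) (z ^ 2) with h5 | h5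
      · exact Or.inl (Or.inl ⟨hf.1, h5, hf.2⟩)
      rcases le_or_gt (f true) (z ^ 2) with h6 | h6
      · exact Or.inl (Or.inr ⟨hf.1, h6, hf.2⟩)
      · exact Or.inr ⟨hf.1, ⟨h5, h6⟩, hf.2⟩
    have hcard' : (((TX Bool Y).filter (fun f => Squarefree (f false * f true) ∧
        Desc n l s (f false) (f true))).card : ℝ) ≤
        (((TX Bool Y).filter (fun f => f false ≤ z ^ 2 ∧ Squarefree (f false * f true) ∧
          Desc n l s (f false) (f true))).card : ℝ) +
        (((TX Bool Y).filter (fun f => f true ≤ z ^ 2 ∧ Squarefree (f false * f true) ∧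
          Desc n l s (f false) (f true))).card : ℝ) +
        (((TX Bool Y).filter (fun f => (z ^ 2 < f false ∧ z ^ 2 < f true) ∧
          Squarefree (f false * f true) ∧ Desc n l s (f false) (f true))).card : ℝ) := by
      exact_mod_cast hcard
    have h5 : Real.log Y ^ (1 / 2 * del n - 1) * Real.log z ^ 2 ≤
        Cz * Real.log Y ^ (3 / 4 * del n - 1 + η) := by
      calc Real.log Y ^ (1 / 2 * del n - 1) * Real.log z ^ 2
          ≤ Real.log Y ^ (3 / 4 * del n - 1) * (Cz * Real.log Y ^ η) := by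
            refine mul_le_mul ?_ h4 (sq_nonneg _) (Real.rpow_nonneg hlY0.le _)
            exact Real.rpow_le_rpow_of_exponent_le hlY (by linarith)
        _ = _ := by rw [Real.rpow_add hlY0]; ring
    have hY0 : (0 : ℝ) ≤ Y := Nat.cast_nonneg Y
    have h6 : CA * (Y * Real.log Y ^ (1 / 2 * del n - 1)) * Real.log z ^ 2 ≤
        CA * Cz * (Y * Real.log Y ^ (3 / 4 * del n - 1 + η)) := by
      calc CA * (Y * Real.log Y ^ (1 / 2 * del n - 1)) * Real.log z ^ 2
          = CA * Y * (Real.log Y ^ (1 / 2 * del n - 1) * Real.log z ^ 2) := by ring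
        _ ≤ CA * Y * (Cz * Real.log Y ^ (3 / 4 * del n - 1 + η)) :=
            mul_le_mul_of_nonneg_left h5 (by positivity)
        _ = _ := by ring
    have h7 : CB * (Y * Real.log Y ^ (1 / 2 * del n - 1)) * Real.log z ^ 2 ≤
        CB * Cz * (Y * Real.log Y ^ (3 / 4 * del n - 1 + η)) := by
      calc CB * (Y * Real.log Y ^ (1 / 2 * del n - 1)) * Real.log z ^ 2
          = CB * Y * (Real.log Y ^ (1 / 2 * del n - 1) * Real.log z ^ 2) := by ring
        _ ≤ CB * Y * (Cz * Real.log Y ^ (3 / 4 * del n - 1 + η)) :=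
            mul_le_mul_of_nonneg_left h5 (by positivity)
        _ = _ := by ring
    rw [add_mul, add_mul]
    linarith

end Stoll308.Fermat
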