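import Mathlib

set_option autoImplicit false

/-!
Nontrivial zeros of diagonal forms `x^N + y^N - t z^N` over `𝔽_p` for `p` large.
-/

namespace Stoll308.Diag

open Finset ComplexConjugate

variable {p : ℕ} [hp : Fact p.Prime] (N : ℕ)

/-- the exponential sum -/
noncomputable def S (a : ZMod p) : ℂ := ∑ x : ZMod p, ZMod.stdAddChar (a * x ^ N)

lemma card_roots_le (hN : 0 < N) (c : ZMod p) : (univ.filter (fun x : ZMod p => x ^ N = c)).card ≤ N := by
  classical
  refine le_trans (card_le_card (t := (Polynomial.nthRoots N c).toFinset) fun x hx => ?_)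
    ((Multiset.toFinset_card_le _).trans (Polynomial.card_nthRoots N c))
  rw [Multiset.mem_toFinset, Polynomial.mem_nthRoots hN]
  exact (mem_filter.1 hx).2

/-- the second moment -/
lemma sum_sq (hN : 0 < N) : ∑ a : ZMod p, ‖S N a‖ ^ 2 ≤ (N : ℝ) * (p : ℝ) ^ 2 := by
  classical
  have h1 : ((∑ a : ZMod p, ‖S N a‖ ^ 2 : ℝ) : ℂ) =
      ∑ x : ZMod p, ∑ y : ZMod p, (if x ^ N - y ^ N = 0 then ((Fintype.card (ZMod p) : ℕ) : ℂ) else 0) := by
    push_cast
    have h2 : ∀ a : ZMod p, (‖S N a‖ : ℂ) ^ 2 =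
        ∑ x : ZMod p, ∑ y : ZMod p, (ZMod.stdAddChar (a * (x ^ N - y ^ N)) : ℂ) := by
      intro a
      rw [← Complex.mul_conj', S, map_sum, sum_mul_sum]
      refine sum_congr rfl fun x _ => sum_congr rfl fun y _ => ?_
      rw [← AddChar.map_neg_eq_conj, ← AddChar.map_add_eq_mul]
      congr 1
      ring
    rw [sum_congr rfl fun a _ => h2 a, sum_comm]
    refine sum_congr rfl fun x _ => ?_
    rw [sum_comm]
    refine sum_congr rfl fun y _ => ?_
    have := AddChar.sum_mulShift (x ^ N - y ^ N) (ZMod.isPrimitive_stdAddChar p)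
    rw [this]
    split_ifs <;> simp
  have h2 : ∑ x : ZMod p, ∑ y : ZMod p, (if x ^ N - y ^ N = 0 then ((Fintype.card (ZMod p) : ℕ) : ℂ) else 0) =
      (((∑ x : ZMod p, ∑ y : ZMod p, (if x ^ N - y ^ N = 0 then (p : ℝ) else 0)) : ℝ) : ℂ) := by
    push_cast
    refine sum_congr rfl fun x _ => sum_congr rfl fun y _ => ?_
    rw [ZMod.card]
    split_ifs <;> simp
  rw [h2] at h1
  have h3 : ∑ a : ZMod p, ‖S N a‖ ^ 2 =
      ∑ x : ZMod p, ∑ y : ZMod p, (if x ^ N - y ^ N = 0 then (p : ℝ) else 0) := by exact_mod_cast h1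
  rw [h3]
  have hp0 : (0 : ℝ) ≤ p := Nat.cast_nonneg p
  have h4 : ∀ x : ZMod p, ∑ y : ZMod p, (if x ^ N - y ^ N = 0 then (p : ℝ) else 0) ≤ N * p := by
    intro x
    rw [← sum_filter, sum_const, nsmul_eq_mul]
    refine mul_le_mul_of_nonneg_right ?_ hp0
    have : (univ.filter (fun y : ZMod p => x ^ N - y ^ N = 0)).card ≤ N := by
      refine le_trans (le_of_eq ?_) (card_roots_le N hN (x ^ N))
      congr 1
      ext y
      simp only [mem_filter, mem_univ, true_and, sub_eq_zero]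
      exact eq_comm
    exact_mod_cast this
  calc ∑ x : ZMod p, ∑ y : ZMod p, (if x ^ N - y ^ N = 0 then (p : ℝ) else 0)
      ≤ ∑ x : ZMod p, ((N : ℝ) * p) := sum_le_sum fun x _ => h4 x
    _ = N * (p : ℝ) ^ 2 := by
        rw [sum_const, card_univ, ZMod.card, nsmul_eq_mul]; ring

lemma S_mul {a c : ZMod p} (hc : c ≠ 0) : S N (a * c ^ N) = S N a := by
  unfold S
  refine Fintype.sum_equiv (Equiv.mulLeft₀ c hc) _ _ fun x => ?_
  change _ = ZMod.stdAddChar (a * (c * x) ^ N)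
  congr 1
  ring

/-- the individual bound -/
lemma sq_le (hN : 0 < N) {a : ZMod p} (ha : a ≠ 0) : ‖S N a‖ ^ 2 ≤ 2 * (N : ℝ) ^ 2 * p := by
  classical
  have hp2 : 2 ≤ p := hp.out.two_le
  have hp2' : (2 : ℝ) ≤ p := by exact_mod_cast hp2
  have h1 : ((p : ℝ) - 1) * ‖S N a‖ ^ 2 = ∑ c ∈ (univ.erase (0 : ZMod p)), ‖S N (a * c ^ N)‖ ^ 2 := by
    rw [sum_congr rfl fun c hc => by rw [S_mul N (ne_of_mem_erase hc)], sum_const,
      card_erase_of_mem (mem_univ _), card_univ, ZMod.card, nsmul_eq_mul, Nat.cast_sub (by omega)]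
    push_cast
    rfl
  have h2 : ∑ c ∈ (univ.erase (0 : ZMod p)), ‖S N (a * c ^ N)‖ ^ 2 ≤
      N * ∑ b : ZMod p, ‖S N b‖ ^ 2 := by
    rw [← sum_fiberwise_of_maps_to (s := univ.erase (0 : ZMod p)) (t := univ)
      (g := fun c => a * c ^ N) (fun _ _ => mem_univ _), mul_sum]
    refine sum_le_sum fun b _ => ?_
    rw [sum_congr rfl (g := fun _ => ‖S N b‖ ^ 2) (fun c hc => by rw [(mem_filter.1 hc).2]),
      sum_const, nsmul_eq_mul]
    refine mul_le_mul_of_nonneg_right ?_ (by positivity)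
    have : ((univ.erase (0 : ZMod p)).filter (fun c => a * c ^ N = b)).card ≤ N := by
      refine le_trans (card_le_card fun c hc => ?_) (card_roots_le N hN (b / a))
      rw [mem_filter] at hc ⊢
      refine ⟨mem_univ _, ?_⟩
      rw [← hc.2]
      field_simp
    exact_mod_cast this
  have h3 := sum_sq (p := p) N hN
  have hN0 : (0 : ℝ) ≤ N := Nat.cast_nonneg N
  have h4 : ((p : ℝ) - 1) * ‖S N a‖ ^ 2 ≤ N * (N * (p : ℝ) ^ 2) := by
    rw [h1]
    exact h2.trans (mul_le_mul_of_nonneg_left h3 hN0)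
  have h5 : (p : ℝ) / 2 * ‖S N a‖ ^ 2 ≤ N * (N * (p : ℝ) ^ 2) := by
    refine le_trans (mul_le_mul_of_nonneg_right ?_ (by positivity)) h4
    linarith
  have hp0 : (0 : ℝ) < p := by linarith
  have h6 : (p : ℝ) * ‖S N a‖ ^ 2 ≤ p * (2 * (N : ℝ) ^ 2 * p) := by nlinarith
  exact le_of_mul_le_mul_left h6 hp0

/-- **Nontrivial zeros exist.** -/
theorem exists_zero (hN : 0 < N) (hbig : 4 * N ^ 4 < p) {t : ZMod p} (ht : t ≠ 0) :
    ∃ x y z : ZMod p, (x ≠ 0 ∨ y ≠ 0 ∨ z ≠ 0) ∧ x ^ N + y ^ N = t * z ^ N := by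
  classical
  by_contra hcon
  push Not at hcon
  have hzero : ∀ x y z : ZMod p, x ^ N + y ^ N - t * z ^ N = 0 ↔ (x = 0 ∧ y = 0 ∧ z = 0) := by
    intro x y z
    constructor
    · intro h
      by_contra hne
      refine hcon x y z ?_ (sub_eq_zero.1 h)
      by_contra h'
      push Not at h'
      exact hne h'
    · rintro ⟨rfl, rfl, rfl⟩
      rw [zero_pow hN.ne']; ring
  -- the count by exponential sums
  have h1 : ∑ a : ZMod p, S N a * S N a * S N (-(t * a)) = p := by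
    have h2 : ∀ a : ZMod p, S N a * S N a * S N (-(t * a)) =
        ∑ x : ZMod p, ∑ y : ZMod p, ∑ z : ZMod p,
          (ZMod.stdAddChar (a * (x ^ N + y ^ N - t * z ^ N)) : ℂ) := by
      intro a
      unfold S
      rw [sum_mul_sum, sum_mul]
      refine sum_congr rfl fun x _ => ?_
      rw [sum_mul_sum]
      refine sum_congr rfl fun y _ => ?_
      refine sum_congr rfl fun z _ => ?_
      rw [← AddChar.map_add_eq_mul, ← AddChar.map_add_eq_mul]
      congr 1
      ring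
    rw [sum_congr rfl fun a _ => h2 a, sum_comm]
    have h3 : ∀ x : ZMod p, ∑ a : ZMod p, ∑ y : ZMod p, ∑ z : ZMod p,
        (ZMod.stdAddChar (a * (x ^ N + y ^ N - t * z ^ N)) : ℂ) =
        if x = 0 then (p : ℂ) else 0 := by
      intro x
      rw [sum_comm]
      have h4 : ∀ y : ZMod p, ∑ a : ZMod p, ∑ z : ZMod p,
          (ZMod.stdAddChar (a * (x ^ N + y ^ N - t * z ^ N)) : ℂ) =
          if x = 0 ∧ y = 0 then (p : ℂ) else 0 := by
        intro y
        rw [sum_comm]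
        have h5 : ∀ z : ZMod p, ∑ a : ZMod p,
            (ZMod.stdAddChar (a * (x ^ N + y ^ N - t * z ^ N)) : ℂ) =
            if x = 0 ∧ y = 0 ∧ z = 0 then (p : ℂ) else 0 := by
          intro z
          rw [AddChar.sum_mulShift _ (ZMod.isPrimitive_stdAddChar p), ZMod.card]
          by_cases h : x = 0 ∧ y = 0 ∧ z = 0
          · rw [if_pos ((hzero x y z).2 h), if_pos h]
          · rw [if_neg (fun h' => h ((hzero x y z).1 h')), if_neg h]
            simp
        rw [sum_congr rfl fun z _ => h5 z]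
        by_cases h : x = 0 ∧ y = 0
        · rw [if_pos h]
          simp [h.1, h.2]
        · rw [if_neg h]
          refine sum_eq_zero fun z _ => if_neg fun h' => h ⟨h'.1, h'.2.1⟩
      rw [sum_congr rfl fun y _ => h4 y]
      by_cases h : x = 0
      · rw [if_pos h]
        simp [h]
      · rw [if_neg h]
        exact sum_eq_zero fun y _ => if_neg fun h' => h h'.1
    rw [sum_congr rfl fun x _ => h3 x]
    simp
  rw [← add_sum_erase univ _ (mem_univ (0 : ZMod p))] at h1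
  have hS0 : S N (0 : ZMod p) = p := by
    unfold S
    simp only [zero_mul, AddChar.map_zero_eq_one, sum_const, card_univ, ZMod.card, nsmul_eq_mul,
      mul_one]
  rw [mul_zero, neg_zero, hS0] at h1
  have hp2' : (2 : ℝ) ≤ p := by exact_mod_cast hp.out.two_le
  have hE : ‖∑ a ∈ univ.erase (0 : ZMod p), S N a * S N a * S N (-(t * a))‖ = (p : ℝ) ^ 3 - p := by
    have h2 : ∑ a ∈ univ.erase (0 : ZMod p), S N a * S N a * S N (-(t * a)) =
        -(((p : ℝ) ^ 3 - p : ℝ) : ℂ) := by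
      push_cast
      linear_combination h1
    rw [h2, norm_neg, Complex.norm_real, Real.norm_of_nonneg]
    have : (p : ℝ) ≤ (p : ℝ) ^ 3 := by
      have : (1 : ℝ) ≤ (p : ℝ) ^ 2 := by nlinarith
      nlinarith
    linarith
  set K : ℝ := Real.sqrt (2 * (N : ℝ) ^ 2 * p) with hK
  have hK0 : 0 ≤ K := Real.sqrt_nonneg _
  have hKsq : K ^ 2 = 2 * (N : ℝ) ^ 2 * p := Real.sq_sqrt (by positivity)
  have hbound : (p : ℝ) ^ 3 - p ≤ K * (N * (p : ℝ) ^ 2) := by
    rw [← hE]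
    calc ‖∑ a ∈ univ.erase (0 : ZMod p), S N a * S N a * S N (-(t * a))‖
        ≤ ∑ a ∈ univ.erase (0 : ZMod p), ‖S N a * S N a * S N (-(t * a))‖ := norm_sum_le _ _
      _ ≤ ∑ a ∈ univ.erase (0 : ZMod p), ‖S N a‖ ^ 2 * K := by
          refine sum_le_sum fun a ha => ?_
          rw [norm_mul, norm_mul, ← sq]
          refine mul_le_mul_of_nonneg_left ?_ (by positivity)
          apply Real.le_sqrt_of_sq_le
          exact sq_le N hN (neg_ne_zero.2 (mul_ne_zero ht (ne_of_mem_erase ha)))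
      _ ≤ ∑ a : ZMod p, ‖S N a‖ ^ 2 * K :=
          sum_le_sum_of_subset_of_nonneg (erase_subset _ _) fun _ _ _ => by positivity
      _ = K * ∑ a : ZMod p, ‖S N a‖ ^ 2 := by rw [← sum_mul, mul_comm]
      _ ≤ K * (N * (p : ℝ) ^ 2) := mul_le_mul_of_nonneg_left (sum_sq N hN) hK0
  -- contradiction
  have hN1 : (1 : ℝ) ≤ N := by exact_mod_cast hN
  have hbig' : 4 * (N : ℝ) ^ 4 < p := by exact_mod_cast hbig
  have hN4 : (1 : ℝ) ≤ (N : ℝ) ^ 4 := one_le_pow₀ hN1
  have hp4 : (4 : ℝ) < p := by linarith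
  have hlow : (3 / 4 : ℝ) * (p : ℝ) ^ 3 ≤ (p : ℝ) ^ 3 - p := by
    have : (16 : ℝ) ≤ (p : ℝ) ^ 2 := by nlinarith
    nlinarith
  have h5 : (3 / 4 : ℝ) * (p : ℝ) ^ 3 ≤ K * (N * (p : ℝ) ^ 2) := hlow.trans hbound
  have hpp : (0 : ℝ) < (p : ℝ) ^ 2 := by positivity
  have h6 : (3 / 4 : ℝ) * p ≤ K * N := by
    have : (p : ℝ) ^ 2 * ((3 / 4 : ℝ) * p) ≤ (p : ℝ) ^ 2 * (K * N) := by nlinarith
    exact le_of_mul_le_mul_left this hpp
  have h7 : ((3 / 4 : ℝ) * p) ^ 2 ≤ (K * N) ^ 2 := pow_le_pow_left₀ (by positivity) h6 2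
  rw [mul_pow K, hKsq] at h7
  nlinarith

end Stoll308.Diag
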