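import Mathlib
import Pool.Agent.Work.MP_308fa9_nt.FCount2
import Pool.Agent.Work.MP_308fa9_nt.FDiag

set_option autoImplicit false

/-!
Twists of the Fermat curve with points everywhere locally.
-/

namespace Stoll308.Fermat

open Finset PadicInt

variable {n m : ℕ}

section hensel

variable {p : ℕ} [hp : Fact p.Prime]

lemma hensel_pow {N : ℕ} {u a : ℤ_[p]} (ha : ‖a‖ = 1) (h : ‖a ^ N - u‖ < ‖(N : ℤ_[p])‖ ^ 2) :
    ∃ w : ℤ_[p], w ^ N = u ∧ ‖w - a‖ < 1 := by
  obtain ⟨z, hz, hz2, -⟩ := hensels_lemma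
    (F := (Polynomial.X ^ N - Polynomial.C u : Polynomial ℤ_[p])) (a := a) (by
      simp only [map_sub, map_pow, Polynomial.aeval_X, Polynomial.aeval_C,
        Polynomial.derivative_C, sub_zero, Polynomial.derivative_X_pow, map_mul,
        Algebra.algebraMap_self, RingHom.id_apply, norm_mul, norm_pow, ha, one_pow, mul_one]
      exact h)
  simp only [map_sub, map_pow, Polynomial.aeval_X, Polynomial.aeval_C, Algebra.algebraMap_self,
    RingHom.id_apply, sub_eq_zero] at hz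
  refine ⟨z, hz, ?_⟩
  simp only [map_sub, map_pow, Polynomial.aeval_X, Polynomial.aeval_C,
    Polynomial.derivative_C, sub_zero, Polynomial.derivative_X_pow, map_mul,
    Algebra.algebraMap_self, RingHom.id_apply, norm_mul, norm_pow, ha, one_pow, mul_one] at hz2
  exact hz2.trans_le (PadicInt.norm_le_one _)

lemma hensel_pow_mod {N : ℕ} (hpN : ¬ p ∣ N) {u : ℤ_[p]} {s : ZMod p} (hs0 : s ≠ 0)
    (hs : s ^ N = toZMod u) : ∃ w : ℤ_[p], w ^ N = u := by
  obtain ⟨a, ha⟩ := ZMod.ringHom_surjective (toZMod : ℤ_[p] →+* ZMod p) s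
  have hN1 : ‖(N : ℤ_[p])‖ = 1 :=
    PadicInt.norm_natCast_eq_one_iff.2 ((Nat.Prime.coprime_iff_not_dvd hp.out).2 hpN)
  obtain ⟨w, hw, -⟩ := hensel_pow (N := N) (u := u) (a := a)
    (norm_eq_one_iff_toZMod.2 (by rw [ha]; exact hs0)) (by
      rw [hN1, one_pow, lt_iff_le_and_ne]
      refine ⟨PadicInt.norm_le_one _, fun h => ?_⟩
      apply norm_eq_one_iff_toZMod.1 h
      rw [map_sub, map_pow, ha, hs, sub_self])
  exact ⟨w, hw⟩

/-- `-1` is a `2n`-th power modulo the primes `≡ 1` modulo `MM n`. -/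
lemma exists_neg_one_pow (hn : n ≠ 0) (h : p % MM n = 1) : ∃ s : ZMod p, s ^ (2 * n) = -1 := by
  obtain ⟨k, hk⟩ := pow_padicValNat_dvd (p := 2) (n := n)
  have hkodd : Odd k := by
    rw [← Nat.not_even_iff_odd, even_iff_two_dvd]
    rintro ⟨j, hj⟩
    apply pow_succ_padicValNat_not_dvd (p := 2) hn
    refine ⟨j, ?_⟩
    conv_lhs => rw [hk, hj]
    ring
  set a := padicValNat 2 n with ha
  have hMM : MM n = 2 ^ (a + 2) := rfl
  obtain ⟨g, hg⟩ := IsCyclic.exists_generator (α := (ZMod p)ˣ)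
  have hord : orderOf g = p - 1 := by
    rw [orderOf_eq_card_of_forall_mem_zpowers hg, Nat.card_eq_fintype_card, ZMod.card_units]
  have hp1 := hp.out.one_lt
  have hdvd : 2 ^ (a + 2) ∣ p - 1 := by
    rw [hMM] at h
    exact (Nat.modEq_iff_dvd' (by omega)).1 (by
      rw [Nat.ModEq, h, Nat.mod_eq_of_lt (Nat.one_lt_two_pow (by omega))])
  obtain ⟨j, hj⟩ := hdvd
  have hj0 : j ≠ 0 := by
    rintro rfl
    omega
  have hoh : orderOf (g ^ j) = 2 ^ (a + 2) := by
    rw [orderOf_pow_of_dvd hj0 (by rw [hord, hj]; exact dvd_mul_left _ _), hord, hj,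
      Nat.mul_div_cancel _ (Nat.pos_of_ne_zero hj0)]
  set y : ZMod p := ((g ^ j : (ZMod p)ˣ) : ZMod p) with hy
  have hy1 : (y ^ 2 ^ (a + 1)) ^ 2 = 1 := by
    rw [← pow_mul, ← pow_succ, hy, ← Units.val_pow_eq_pow_val, ← hoh, pow_orderOf_eq_one,
      Units.val_one]
  have hy2 : y ^ 2 ^ (a + 1) ≠ 1 := by
    intro h0
    rw [hy, ← Units.val_pow_eq_pow_val, Units.val_eq_one] at h0
    have h1 := orderOf_dvd_of_pow_eq_one h0
    rw [hoh] at h1
    have h2 := Nat.le_of_dvd (by positivity) h1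
    have h3 : 2 ^ (a + 1) < 2 ^ (a + 2) := Nat.pow_lt_pow_right (by norm_num) (by omega)
    omega
  have hy3 : y ^ 2 ^ (a + 1) = -1 := by
    have : (y ^ 2 ^ (a + 1) - 1) * (y ^ 2 ^ (a + 1) + 1) = 0 := by linear_combination hy1
    rcases mul_eq_zero.1 this with h0 | h0
    · exact absurd (sub_eq_zero.1 h0) hy2
    · exact eq_neg_of_add_eq_zero_left h0
  refine ⟨y, ?_⟩
  have e : 2 * n = 2 ^ (a + 1) * k := by
    conv_lhs => rw [hk]
    ring
  rw [e, pow_mul, hy3, hkodd.neg_one_pow]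

end hensel

/-- the modulus controlling the small primes -/
def KK (n : ℕ) : ℕ := MM n * ((2 * n) ^ 2 * (4 * (2 * n) ^ 4 + 2 * n).factorial)

lemma KK_pos (hn : n ≠ 0) : 0 < KK n := by
  unfold KK
  have := MM_pos n
  positivity

lemma padic_point (hn : n ≠ 0) (hmn : m ∣ n) {u : ℕ} (hu : u % KK n = 1)
    (hprime : ∀ p : ℕ, p.Prime → p ∣ u → p % MM n = 1) (p : ℕ) [hp : Fact p.Prime] :
    Nonempty (Point n m (u : ℤ) ℚ_[p]) := by
  have hm0 : m ≠ 0 := by
    rintro rfl
    exact hn (zero_dvd_iff.1 hmn)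
  have h2n : 2 * n ≠ 0 := by omega
  have h2m : 2 * m ≠ 0 := by omega
  have hu1 : u ≡ 1 [MOD KK n] := by
    have h1 : 1 < KK n := by
      have : 1 < MM n := MM_one n
      unfold KK
      refine lt_of_lt_of_le this (Nat.le_mul_of_pos_right _ ?_)
      positivity
    rw [Nat.ModEq, hu, Nat.mod_eq_of_lt h1]
  rcases le_or_gt p (4 * (2 * n) ^ 4 + 2 * n) with hpB | hpB
  · -- small primes
    have hdvd : (2 * n) ^ 2 * p ∣ KK n := by
      unfold KK
      exact Dvd.dvd.mul_left (Nat.mul_dvd_mul_left _ (Nat.dvd_factorial hp.out.pos hpB)) _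
    have h1 : (((2 * n) ^ 2 * p : ℕ) : ℤ) ∣ 1 - (u : ℤ) := by
      have := Nat.modEq_iff_dvd.1 hu1
      push_cast at this
      exact (Int.natCast_dvd_natCast.2 hdvd).trans (by exact_mod_cast this)
    obtain ⟨v, hv⟩ := h1
    have hnorm : ‖(1 : ℤ_[p]) ^ (2 * n) - (u : ℤ_[p])‖ < ‖((2 * n : ℕ) : ℤ_[p])‖ ^ 2 := by
      have e : (1 : ℤ_[p]) ^ (2 * n) - (u : ℤ_[p]) = ((2 * n : ℕ) : ℤ_[p]) ^ 2 * (p * (v : ℤ_[p])) := by
        have := congrArg (Int.cast : ℤ → ℤ_[p]) hv
        push_cast at this ⊢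
        rw [one_pow]
        linear_combination this
      have h0 : ((2 * n : ℕ) : ℤ_[p]) ≠ 0 := by exact_mod_cast h2n
      have h3 : 0 < ‖((2 * n : ℕ) : ℤ_[p])‖ := norm_pos_iff.2 h0
      rw [e, norm_mul, norm_pow]
      have h4 : ‖(p : ℤ_[p]) * (v : ℤ_[p])‖ < 1 := by
        rw [norm_mul]
        have h7 : ‖(p : ℤ_[p])‖ < 1 := by
          rw [PadicInt.norm_p]
          exact inv_lt_one_of_one_lt₀ (by exact_mod_cast hp.out.one_lt)
        calc ‖(p : ℤ_[p])‖ * ‖(v : ℤ_[p])‖ ≤ ‖(p : ℤ_[p])‖ * 1 :=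
              mul_le_mul_of_nonneg_left (PadicInt.norm_le_one _) (norm_nonneg _)
          _ < 1 := by rw [mul_one]; exact h7
      calc ‖((2 * n : ℕ) : ℤ_[p])‖ ^ 2 * ‖(p : ℤ_[p]) * (v : ℤ_[p])‖ <
            ‖((2 * n : ℕ) : ℤ_[p])‖ ^ 2 * 1 := mul_lt_mul_of_pos_left h4 (by positivity)
        _ = _ := mul_one _
    obtain ⟨w, hw, hw1⟩ := hensel_pow (a := 1) (by simp) hnorm
    have hw0 : (w : ℚ_[p]) ≠ 0 := by
      intro h0
      have h1 : w = 0 := Subtype.ext h0
      rw [h1] at hw1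
      simp at hw1
    refine ⟨⟨w, 0, 1, Or.inl hw0, ?_⟩⟩
    have := congrArg (fun x : ℤ_[p] => (x : ℚ_[p])) hw
    push_cast at this
    rw [this, zero_pow h2n, one_pow]
    push_cast
    ring
  · have hpn : ¬ p ∣ 2 * n := by
      intro h
      have := Nat.le_of_dvd (by omega) h
      omega
    by_cases hpu : p ∣ u
    · -- primes dividing `u`
      obtain ⟨s, hs⟩ := exists_neg_one_pow hn (hprime p hp.out hpu)
      have hs0 : s ≠ 0 := by
        rintro rfl
        rw [zero_pow h2n] at hs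
        have h3 := congrArg Neg.neg hs
        rw [neg_neg, neg_zero] at h3
        exact zero_ne_one h3
      obtain ⟨w, hw⟩ := hensel_pow_mod (N := 2 * n) hpn (u := -1) hs0 (by rw [hs]; simp)
      refine ⟨⟨w, 1, 0, Or.inr one_ne_zero, ?_⟩⟩
      have := congrArg (fun x : ℤ_[p] => (x : ℚ_[p])) hw
      push_cast at this
      rw [this, one_pow, zero_pow h2m]
      ring
    · -- the other primes
      have hu0 : (u : ZMod p) ≠ 0 := by
        rw [Ne, ZMod.natCast_eq_zero_iff]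
        exact hpu
      obtain ⟨x, y, z, hxyz, heq⟩ := Diag.exists_zero (2 * n) (by omega) (by omega) hu0
      obtain ⟨X, hX⟩ := ZMod.ringHom_surjective (toZMod : ℤ_[p] →+* ZMod p) x
      obtain ⟨Y, hY⟩ := ZMod.ringHom_surjective (toZMod : ℤ_[p] →+* ZMod p) y
      obtain ⟨Z, hZ⟩ := ZMod.ringHom_surjective (toZMod : ℤ_[p] →+* ZMod p) z
      have hxy : x ≠ 0 ∨ y ≠ 0 := by
        by_contra hcon
        push Not at hcon
        obtain ⟨hx, hy⟩ := hcon
        rw [hx, hy, zero_pow h2n, add_zero] at heq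
        rcases mul_eq_zero.1 heq.symm with h | h
        · exact hu0 h
        · have := (pow_eq_zero_iff h2n).1 h
          tauto
      obtain ⟨c, hc⟩ := hmn
      have key : ∀ W Y : ℤ_[p], W ^ (2 * n) + Y ^ (2 * n) = u * Z ^ (2 * n) →
          ((W : ℚ_[p]) ≠ 0 ∨ (Y : ℚ_[p]) ≠ 0) → Nonempty (Point n m (u : ℤ) ℚ_[p]) := by
        intro W Y h hne
        refine ⟨⟨W, Y, (Z : ℚ_[p]) ^ c, hne, ?_⟩⟩
        have := congrArg (fun x : ℤ_[p] => (x : ℚ_[p])) h
        push_cast at this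
        rw [this, ← pow_mul]
        congr 2
        rw [hc]; ring
      rcases hxy with hx | hy
      · obtain ⟨w, hw⟩ := hensel_pow_mod (N := 2 * n) hpn
          (u := (u : ℤ_[p]) * Z ^ (2 * n) - Y ^ (2 * n)) hx (by
            rw [map_sub, map_mul, map_pow, map_pow, map_natCast, hY, hZ, ← heq]; ring)
        have hw0 : (w : ℚ_[p]) ≠ 0 := by
          intro h0
          have h1 : w = 0 := Subtype.ext h0
          rw [h1, zero_pow h2n] at hw
          have h2 := congrArg (toZMod : ℤ_[p] →+* ZMod p) hw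
          rw [map_zero, map_sub, map_mul, map_pow, map_pow, map_natCast, hY, hZ, ← heq] at h2
          have h3 : x ^ (2 * n) = 0 := by linear_combination -h2
          exact hx ((pow_eq_zero_iff h2n).1 h3)
        exact key w Y (by rw [hw]; ring) (Or.inl hw0)
      · obtain ⟨w, hw⟩ := hensel_pow_mod (N := 2 * n) hpn
          (u := (u : ℤ_[p]) * Z ^ (2 * n) - X ^ (2 * n)) hy (by
            rw [map_sub, map_mul, map_pow, map_pow, map_natCast, hX, hZ, ← heq]; ring)
        have hw0 : (w : ℚ_[p]) ≠ 0 := by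
          intro h0
          have h1 : w = 0 := Subtype.ext h0
          rw [h1, zero_pow h2n] at hw
          have h2 := congrArg (toZMod : ℤ_[p] →+* ZMod p) hw
          rw [map_zero, map_sub, map_mul, map_pow, map_pow, map_natCast, hX, hZ, ← heq] at h2
          have h3 : y ^ (2 * n) = 0 := by linear_combination -h2
          exact hy ((pow_eq_zero_iff h2n).1 h3)
        exact key w X (by rw [hw]; ring) (Or.inl hw0)

/-- **Twists with points everywhere locally.** -/
theorem els_of (hn : n ≠ 0) (hmn : m ∣ n) {u : ℕ} (hu : u % KK n = 1)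
    (hprime : ∀ p : ℕ, p.Prime → p ∣ u → p % MM n = 1) : ELS n m (u : ℤ) := by
  have hu0 : u ≠ 0 := by
    rintro rfl
    rw [Nat.zero_mod] at hu
    exact absurd hu (by norm_num)
  refine ⟨⟨?_, fun p _ => Classical.choice (padic_point hn hmn hu hprime p)⟩⟩
  have hux : (0 : ℝ) < u := by exact_mod_cast Nat.pos_of_ne_zero hu0
  refine ⟨(u : ℝ) ^ (((2 * n : ℕ) : ℝ)⁻¹), 0, 1, Or.inl (Real.rpow_pos_of_pos hux _).ne', ?_⟩
  rw [Real.rpow_inv_natCast_pow hux.le (by omega), zero_pow (by omega), one_pow]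
  push_cast
  ring

end Stoll308.Fermat
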