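import Mathlib
import Pool.Agent.Work.MP_308fa9_nt.FEls
import Pool.Agent.Work.MP_308fa9_nt.Count3

set_option autoImplicit false

/-! Lower bound for the number of locally soluble twists. -/

namespace Stoll308.AP

open Finset

open Classical in
/-- The integers `u ≤ X`, `u ≡ 1 mod k`, all of whose prime factors are `≡ 1 mod M`. -/
theorem count_class {M k : ℕ} (hM : 1 < M) (hk0 : 0 < k) (hMk : M ∣ k) :
    ∃ c : ℝ, 0 < c ∧ ∃ X0 : ℕ, ∀ X : ℕ, X0 ≤ X →
      c * X / (Real.log X) ^ (1 - 1 / (Nat.totient M : ℝ)) ≤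
        (((Icc 1 X).filter (fun u => u % k = 1 % k ∧
          ∀ p : ℕ, p.Prime → p ∣ u → p % M = 1)).card : ℝ) := by
  have : NeZero k := ⟨hk0.ne'⟩
  have hMz : NeZero M := ⟨by omega⟩
  set κ : ℝ := 1 / (Nat.totient M : ℝ) with hκ
  have hφ : 0 < Nat.totient M := Nat.totient_pos.2 (by omega)
  have hφ' : (1 : ℝ) ≤ Nat.totient M := by exact_mod_cast hφ
  have hκ0 : 0 < κ := by rw [hκ]; positivity
  have hκ1 : κ ≤ 1 := by
    rw [hκ, div_le_one (by linarith)]; exact hφ'
  have hMert : Mert (fun p => @ite ℝ (k < p ∧ p % M = 1) (Classical.propDecidable _) 1 0) κ := by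
    refine (Mert.residue (q := M) (a := 1) isUnit_one).congr k fun p _ hp => ?_
    have e : ((p : ℕ) : ZMod M) = 1 ↔ p % M = 1 := by
      rw [← Nat.cast_one, ZMod.natCast_eq_natCast_iff, Nat.ModEq, Nat.mod_eq_of_lt hM]
    by_cases h : p % M = 1
    · rw [if_pos ⟨hp, h⟩, if_pos (e.2 h)]
    · rw [if_neg (fun h' => h h'.2), if_neg (fun h' => h (e.1 h'))]
  obtain ⟨c₁, hc₁, hV⟩ := V_lower (P := fun p => k < p ∧ p % M = 1) hMert
  obtain ⟨K₁, hK₁⟩ := rankin (fun p => k < p ∧ p % M = 1)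
  obtain ⟨K₂, hK₂0, hK₂⟩ := count_residue k
  have hK₂r : (0 : ℝ) < K₂ := by exact_mod_cast hK₂0
  set E := K₁ + 2 with hE
  have hEr : (0 : ℝ) < E := by positivity
  refine ⟨c₁ / (4 * K₂) * (1 / (2 * E)) ^ κ, by positivity, (K₂ + 3) ^ E, fun X hX => ?_⟩
  obtain ⟨z, hzX, hXz⟩ := exists_root E X (by omega)
  have hZz : K₂ + 3 ≤ z := by
    by_contra hlt
    have : (z + 1) ^ E ≤ (K₂ + 3) ^ E := Nat.pow_le_pow_left (by omega) E
    omega
  have hz3 : 3 ≤ z := by omega
  have hz1 : 1 ≤ z := by omega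
  have hzX' : z ≤ X := (Nat.le_self_pow (by omega) z).trans hzX
  have hX0 : 0 < X := by omega
  have hXr : (0 : ℝ) < X := by exact_mod_cast hX0
  have hlX : 0 < Real.log X := log_nat_pos (by omega)
  have hz0r : (0 : ℝ) < z := by exact_mod_cast (by omega : 0 < z)
  have hlz0 : 0 < Real.log z := log_nat_pos (by omega)
  set P : ℕ → Prop := fun p => k < p ∧ p % M = 1 with hP
  set MS := (PP P z).powerset.filter (fun T => ∏ p ∈ T, p ≤ z ^ K₁) with hMdef
  set m : Finset ℕ → ℕ := fun T => ∏ r ∈ T, r with hm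
  have hMsub : ∀ T ∈ MS, T ⊆ PP P z := fun T hT => mem_powerset.1 (mem_filter.1 hT).1
  have hprT : ∀ T ∈ MS, ∀ r ∈ T, r.Prime := fun T hT r hr => (mem_PP.1 (hMsub T hT hr)).2.1
  have hm0 : ∀ T ∈ MS, 0 < m T := fun T hT => prod_pos fun r hr => (hprT T hT r hr).pos
  have hzK : ∀ T ∈ MS, z * K₂ ≤ X / m T := by
    intro T hT
    rw [Nat.le_div_iff_mul_le (hm0 T hT)]
    calc z * K₂ * m T ≤ z * z * z ^ K₁ :=
          Nat.mul_le_mul (Nat.mul_le_mul_left _ (by omega)) (mem_filter.1 hT).2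
      _ = z ^ E := by rw [hE]; ring
      _ ≤ X := hzX
  set R : Finset ℕ → Finset ℕ := fun T => (Ioc (X / m T / K₂) (X / m T)).filter
    (fun p : ℕ => p.Prime ∧ (p : ZMod k) = ((m T : ℕ) : ZMod k)⁻¹) with hR
  have hRz : ∀ T ∈ MS, ∀ p ∈ R T, z < p := by
    intro T hT p hp
    rw [hR, mem_filter, mem_Ioc] at hp
    have : z ≤ X / m T / K₂ := by
      rw [Nat.le_div_iff_mul_le hK₂0]
      exact hzK T hT
    omega
  have hcopk : ∀ T ∈ MS, Nat.Coprime (m T) k := by
    intro T hT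
    refine Nat.Coprime.prod_left fun r hr => ?_
    have hr' := mem_PP.1 (hMsub T hT hr)
    exact (Nat.Prime.coprime_iff_not_dvd hr'.2.1).2 fun hd =>
      absurd (Nat.le_of_dvd hk0 hd) (by have := hr'.2.2.1; omega)
  -- the count
  have hcard : ∑ T ∈ MS, (R T).card ≤ ((Icc 1 X).filter (fun u => u % k = 1 % k ∧
          ∀ p : ℕ, p.Prime → p ∣ u → p % M = 1)).card := by
    rw [← card_sigma]
    refine card_le_card_of_injOn (fun x => m x.1 * x.2) ?_ ?_
    · rintro ⟨T, p⟩ hx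
      rw [mem_coe, mem_sigma] at hx
      obtain ⟨hT, hp⟩ := hx
      simp only at hT hp ⊢
      rw [hR, mem_filter, mem_Ioc] at hp
      rw [mem_coe, mem_filter, mem_Icc]
      have hu1 : ((m T * p : ℕ) : ZMod k) = 1 := by
        push_cast
        rw [hp.2.2]
        exact ZMod.mul_inv_of_unit _ ((ZMod.isUnit_iff_coprime (m T) k).2 (hcopk T hT))
      have hmod : m T * p ≡ 1 [MOD k] := by
        rw [← ZMod.natCast_eq_natCast_iff, hu1, Nat.cast_one]
      have hmT : m T ≡ 1 [MOD M] := by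
        have : ∀ S : Finset ℕ, (∀ r ∈ S, r % M = 1) → (∏ r ∈ S, r) ≡ 1 [MOD M] := by
          intro S
          induction S using Finset.induction_on with
          | empty => intro _; rfl
          | insert a S ha ih =>
            intro h
            rw [prod_insert ha]
            have h1 : a ≡ 1 [MOD M] := by
              rw [Nat.ModEq, h a (mem_insert_self _ _), Nat.mod_eq_of_lt hM]
            have h2 := ih fun r hr => h r (mem_insert_of_mem hr)
            exact h1.mul h2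
        exact this T fun r hr => (mem_PP.1 (hMsub T hT hr)).2.2.2
      have hpM : p % M = 1 := by
        have h1 : m T * p ≡ 1 [MOD M] := hmod.of_dvd hMk
        have h2 : m T * p ≡ 1 * p [MOD M] := hmT.mul_right p
        have h3 : p ≡ 1 [MOD M] := by
          rw [one_mul] at h2
          exact h2.symm.trans h1
        rw [Nat.ModEq, Nat.mod_eq_of_lt hM] at h3
        exact h3
      refine ⟨⟨Nat.mul_pos (hm0 T hT) hp.2.1.pos, ?_⟩, hmod, ?_⟩
      · calc m T * p ≤ m T * (X / m T) := Nat.mul_le_mul_left _ hp.1.2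
          _ ≤ X := Nat.mul_div_le _ _
      · intro r hr hdvd
        rcases (Nat.Prime.dvd_mul hr).1 hdvd with h | h
        · obtain ⟨s, hs, hrs⟩ := (Prime.dvd_finsetProd_iff hr.prime _).1 h
          have : r = s := (Nat.prime_dvd_prime_iff_eq hr (hprT T hT s hs)).1 hrs
          subst this
          exact (mem_PP.1 (hMsub T hT hs)).2.2.2
        · have : r = p := (Nat.prime_dvd_prime_iff_eq hr hp.2.1).1 h
          rw [this]
          exact hpM
    · rintro ⟨T, p⟩ hx ⟨S, p'⟩ hy heq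
      rw [mem_coe, mem_sigma] at hx hy
      obtain ⟨hT, hp⟩ := hx
      obtain ⟨hS, hp'⟩ := hy
      simp only at hT hp hS hp' heq
      have hzp := hRz T hT p hp
      rw [hR, mem_filter] at hp hp'
      have h1 : p ∣ (∏ r ∈ S, r) * p' := by rw [← heq]; exact dvd_mul_left _ _
      have hpp : p = p' := by
        rcases (Nat.Prime.dvd_mul hp.2.1).1 h1 with h | h
        · exfalso
          rw [Prime.dvd_finsetProd_iff hp.2.1.prime] at h
          obtain ⟨s, hs, hrs⟩ := h
          have : p = s := (Nat.prime_dvd_prime_iff_eq hp.2.1 (hprT S hS s hs)).1 hrs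
          subst this
          have := (mem_PP.1 (hMsub S hS hs)).1
          omega
        · exact (Nat.prime_dvd_prime_iff_eq hp.2.1 hp'.2.1).1 h
      subst hpp
      have h2 : ∏ r ∈ T, r = ∏ r ∈ S, r := Nat.eq_of_mul_eq_mul_right hp.2.1.pos heq
      have h3 : T = S := by
        rw [← Nat.primeFactors_prod (fun r hr => hprT T hT r hr), h2,
          Nat.primeFactors_prod (fun r hr => hprT S hS r hr)]
      subst h3
      rfl
  have hlow : ∀ T ∈ MS, X / (2 * K₂ * Real.log X) * (1 / ((∏ p ∈ T, p : ℕ) : ℝ)) ≤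
      ((R T).card : ℝ) := by
    intro T hT
    have hunit : IsUnit (((m T : ℕ) : ZMod k)⁻¹) := by
      rw [isUnit_iff_exists_inv]
      exact ⟨(m T : ZMod k), ZMod.inv_mul_of_unit _ ((ZMod.isUnit_iff_coprime (m T) k).2
        (hcopk T hT))⟩
    have hy : K₂ < X / m T := by
      have := hzK T hT
      have h2 : K₂ * 3 ≤ z * K₂ := by rw [mul_comm]; exact Nat.mul_le_mul_right _ hz3
      omega
    have hcount := hK₂ _ hunit (X / m T) hy
    refine le_trans ?_ hcount
    have hmT0 := hm0 T hT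
    have hTr : (0 : ℝ) < ((∏ p ∈ T, p : ℕ) : ℝ) := by exact_mod_cast hmT0
    have hyr : (0 : ℝ) < ((X / m T : ℕ) : ℝ) := by exact_mod_cast (by omega : 0 < X / m T)
    have hly : 0 < Real.log ((X / m T : ℕ) : ℝ) := log_nat_pos (by omega)
    have hlyX : Real.log ((X / m T : ℕ) : ℝ) ≤ Real.log X :=
      Real.log_le_log hyr (by exact_mod_cast Nat.div_le_self X (m T))
    have e1 : (X : ℝ) ≤ 2 * ((∏ p ∈ T, p : ℕ) : ℝ) * ((X / m T : ℕ) : ℝ) := by
      have f1 : X < m T * (X / m T + 1) := Nat.lt_mul_div_succ X hmT0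
      have f2 : m T * (X / m T + 1) ≤ 2 * (∏ p ∈ T, p) * (X / m T) := by
        calc m T * (X / m T + 1) ≤ m T * (2 * (X / m T)) := Nat.mul_le_mul_left _ (by omega)
          _ = _ := by rw [hm]; ring
      exact_mod_cast (f1.le.trans f2)
    calc X / (2 * K₂ * Real.log X) * (1 / ((∏ p ∈ T, p : ℕ) : ℝ))
        = (X / (2 * ((∏ p ∈ T, p : ℕ) : ℝ))) / (K₂ * Real.log X) := by
          field_simp
      _ ≤ ((X / m T : ℕ) : ℝ) / (K₂ * Real.log X) := by
          gcongr
          rw [div_le_iff₀ (by positivity)]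
          linarith
      _ ≤ ((X / m T : ℕ) : ℝ) / (K₂ * Real.log ((X / m T : ℕ) : ℝ)) := by
          gcongr
  have hsum : X / (2 * K₂ * Real.log X) * (c₁ * Real.log z ^ κ / 2) ≤
      ∑ T ∈ MS, ((R T).card : ℝ) := by
    calc X / (2 * K₂ * Real.log X) * (c₁ * Real.log z ^ κ / 2)
        ≤ X / (2 * K₂ * Real.log X) * ∑ T ∈ MS, 1 / ((∏ p ∈ T, p : ℕ) : ℝ) := by
          gcongr
          have := hV z (by omega)
          have h2 := hK₁ z hz3
          linarith
      _ = ∑ T ∈ MS, X / (2 * K₂ * Real.log X) * (1 / ((∏ p ∈ T, p : ℕ) : ℝ)) := by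
          rw [mul_sum]
      _ ≤ _ := sum_le_sum hlow
  have hlogz : (1 / (2 * (E : ℝ))) * Real.log X ≤ Real.log z := by
    have f1 : X ≤ z ^ (2 * E) := by
      calc X ≤ (z + 1) ^ E := hXz.le
        _ ≤ (z ^ 2) ^ E := Nat.pow_le_pow_left (by nlinarith) E
        _ = z ^ (2 * E) := by rw [← pow_mul]
    have f2 : Real.log X ≤ (2 * E) * Real.log z := by
      have := Real.log_le_log hXr (by exact_mod_cast f1 : (X : ℝ) ≤ (z : ℝ) ^ (2 * E))
      rw [Real.log_pow] at this
      push_cast at this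
      exact this
    rw [one_div, inv_mul_le_iff₀ (by positivity)]
    exact f2
  have hpow : (1 / (2 * (E : ℝ))) ^ κ * Real.log X ^ κ ≤ Real.log z ^ κ := by
    rw [← Real.mul_rpow (by positivity) hlX.le]
    exact Real.rpow_le_rpow (by positivity) hlogz hκ0.le
  have hfin : c₁ / (4 * K₂) * (1 / (2 * (E : ℝ))) ^ κ * X / Real.log X ^ (1 - κ) =
      X / (2 * K₂ * Real.log X) * (c₁ * ((1 / (2 * (E : ℝ))) ^ κ * Real.log X ^ κ) / 2) := by
    rw [Real.rpow_sub hlX, Real.rpow_one]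
    have g1 : Real.log X ^ κ ≠ 0 := (Real.rpow_pos_of_pos hlX κ).ne'
    field_simp
    ring
  rw [hfin]
  calc X / (2 * K₂ * Real.log X) * (c₁ * ((1 / (2 * (E : ℝ))) ^ κ * Real.log X ^ κ) / 2)
      ≤ X / (2 * K₂ * Real.log X) * (c₁ * Real.log z ^ κ / 2) := by
        gcongr
    _ ≤ ∑ T ∈ MS, ((R T).card : ℝ) := hsum
    _ = ((∑ T ∈ MS, (R T).card : ℕ) : ℝ) := by push_cast; rfl
    _ ≤ _ := by exact_mod_cast hcard

end Stoll308.AP

namespace Stoll308.Fermat

open Finset

variable {n m : ℕ}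

/-- **The lower bound.** -/
theorem els_count (hn : n ≠ 0) (hmn : m ∣ n) :
    ∃ c : ℝ, 0 < c ∧ ∃ X0 : ℕ, ∀ X : ℕ, X0 ≤ X →
      c * X / (Real.log X) ^ (1 - del n) ≤ ((elsSet n m X).ncard : ℝ) := by
  classical
  obtain ⟨c, hc, X0, h⟩ := AP.count_class (M := MM n) (k := KK n) (MM_one n) (KK_pos hn)
    (by unfold KK; exact dvd_mul_right _ _)
  rw [del_eq] at h
  refine ⟨c, hc, X0, fun X hX => (h X hX).trans ?_⟩
  have hfin : (elsSet n m X).Finite :=
    (Set.finite_Icc (1 : ℤ) X).subset fun t ht => ⟨ht.1, ht.2.1⟩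
  set A := (Icc 1 X).filter (fun u => u % KK n = 1 % KK n ∧
          ∀ p : ℕ, p.Prime → p ∣ u → p % MM n = 1) with hA
  have hKK1 : 1 < KK n := by
    have : 1 < MM n := MM_one n
    unfold KK
    refine lt_of_lt_of_le this (Nat.le_mul_of_pos_right _ ?_)
    positivity
  have h1 : (((A.image (fun u : ℕ => (u : ℤ))) : Finset ℤ) : Set ℤ) ⊆ elsSet n m X := by
    intro t ht
    rw [coe_image, Set.mem_image] at ht
    obtain ⟨u, hu, rfl⟩ := ht
    rw [mem_coe, hA, mem_filter, mem_Icc] at hu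
    refine ⟨by exact_mod_cast hu.1.1, by exact_mod_cast hu.1.2, ?_⟩
    exact els_of hn hmn (by rw [hu.2.1, Nat.mod_eq_of_lt hKK1]) hu.2.2
  have h2 := Set.ncard_le_ncard h1 hfin
  rw [Set.ncard_coe_finset, card_image_of_injective _ Nat.cast_injective] at h2
  exact_mod_cast h2

end Stoll308.Fermat
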