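import Mathlib
import Pool.Agent.Work.MP_308fa9_nt.FCount3

set_option autoImplicit false

/-!
The number of twists with an adelic point orthogonal to all the `(H, c)`.
-/

namespace Stoll308.Fermat

open Finset NumberTheorySymbols Linked Stoll308.Core

variable {n m l : ℕ}

section transfer

variable {t t₁ r : ℤ}

/-- The map `(x, y, z) ↦ (x, y, r z^m)`. -/
def Point.push {F : Type*} [Field F] (ht : t = t₁ * r ^ 2) (P : Point n m t F) : Point n 1 t₁ F where
  x := P.x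
  y := P.y
  z := (r : F) * P.z ^ m
  ne := P.ne
  eq := by
    have h := congrArg (Int.cast : ℤ → F) ht
    push_cast at h
    rw [P.eq, h, mul_one, mul_pow, ← pow_mul, mul_comm m 2]
    ring

lemma splits_push {F : Type*} [Field F] (ht : t = t₁ * r ^ 2) (hr : (r : F) ≠ 0)
    (P : Point n m t F) (c : F) : Splits ((P.push ht).eval l) c ↔ Splits (P.eval l) c := by
  unfold Point.eval
  have h1 : (P.push ht).x = P.x := rfl
  have h2 : (P.push ht).y = P.y := rfl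
  rw [h1, h2]
  split_ifs with h
  · rfl
  · have h := congrArg (Int.cast : ℤ → F) ht
    push_cast at h
    have : (t : F) * gval n l P.x P.y = ((t₁ : F) * gval n l P.x P.y) * (r : F) ^ 2 := by
      rw [h]; ring
    rw [this, splits_mul_sq hr]

lemma bm_push (ht : t = t₁ * r ^ 2) (hr : r ≠ 0) (h : BMNonempty n m l t) :
    BMNonempty n 1 l t₁ := by
  obtain ⟨P, hP⟩ := h
  refine ⟨⟨P.real.push ht, fun p _ => (P.padic p).push ht⟩, fun c hc => ?_⟩
  obtain ⟨h1, h2⟩ := hP c hc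
  have hram : AdelicPoint.ramified (⟨P.real.push ht, fun p _ => (P.padic p).push ht⟩ :
      AdelicPoint n 1 t₁) l c = P.ramified l c := by
    ext p
    constructor
    · rintro ⟨hp, h⟩
      exact ⟨hp, fun h' => h ((splits_push ht (by exact_mod_cast hr) _ _).2 h')⟩
    · rintro ⟨hp, h⟩
      exact ⟨hp, fun h' => h ((splits_push ht (by exact_mod_cast hr) _ _).1 h')⟩
  refine ⟨by rw [hram]; exact h1, ?_⟩
  rw [hram, h2]
  exact (splits_push ht (by exact_mod_cast hr) _ _).symm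

end transfer

open Classical in
/-- the pairs -/
noncomputable def prs (n l s Y : ℕ) : Finset (Bool → ℕ) :=
  (TX Bool Y).filter (fun f => Squarefree (f false * f true) ∧ Desc n l s (f false) (f true))

open Classical in
lemma exists_pair (hn : n ≠ 0) (hl : l.Prime) (hl2 : l ≠ 2) (hln : l ∣ n)
    (hneg : ∀ x : ZMod l, x ^ (2 * n) ≠ -1) {X t : ℕ} (ht1 : 1 ≤ t) (htX : t ≤ X)
    (h : BMNonempty n m l (t : ℤ)) :
    ∃ r s : ℕ, ∃ f ∈ prs n l s (X / r ^ 2), 1 ≤ r ∧ (s = 1 ∨ s = 2) ∧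
      t = s * (f false * f true) * r ^ 2 := by
  obtain ⟨t₁, r, hr, hsq⟩ := Nat.sq_mul_squarefree t
  have hr0 : r ≠ 0 := by
    rintro rfl
    rw [zero_pow (by norm_num), zero_mul] at hr
    omega
  have ht₁0 : t₁ ≠ 0 := hsq.ne_zero
  have h1 : BMNonempty n 1 l (t₁ : ℤ) :=
    bm_push (r := (r : ℤ)) (by rw [← hr]; push_cast; ring) (by exact_mod_cast hr0) h
  obtain ⟨s, D, E, hs, ht, hd⟩ := desc_of_bm hn hl hl2 hln hneg
    (by rw [Int.squarefree_natCast]; exact hsq) (by exact_mod_cast Nat.pos_of_ne_zero ht₁0) h1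
  have ht' : t₁ = s * (D * E) := by exact_mod_cast ht
  have hs0 : 0 < s := by omega
  have hDE : D * E ≠ 0 := by
    intro h0
    rw [h0, mul_zero] at ht'
    exact ht₁0 ht'
  have hD : 0 < D := Nat.pos_of_ne_zero (left_ne_zero_of_mul hDE)
  have hE : 0 < E := Nat.pos_of_ne_zero (right_ne_zero_of_mul hDE)
  set f : Bool → ℕ := fun b => if b then E else D with hf
  have f0 : f false = D := rfl
  have f1 : f true = E := rfl
  refine ⟨r, s, f, ?_, Nat.one_le_iff_ne_zero.2 hr0, hs, ?_⟩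
  · unfold prs
    rw [mem_filter, Core.mem_TX, Fintype.prod_bool, f0, f1]
    refine ⟨⟨fun b => ?_, ?_⟩, hsq.squarefree_of_dvd (by rw [ht']; exact dvd_mul_left _ _), hd⟩
    · cases b
      · exact hD
      · exact hE
    · rw [Nat.le_div_iff_mul_le (by positivity), mul_comm E D]
      calc D * E * r ^ 2 ≤ s * (D * E) * r ^ 2 := by
            refine Nat.mul_le_mul_right _ (Nat.le_mul_of_pos_left _ hs0)
        _ = t := by rw [← ht', ← hr, mul_comm]
        _ ≤ X := htX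
  · rw [f0, f1, ← ht', ← hr, mul_comm]

lemma bmSet_le (hn : n ≠ 0) (hl : l.Prime) (hl2 : l ≠ 2) (hln : l ∣ n)
    (hneg : ∀ x : ZMod l, x ^ (2 * n) ≠ -1) {X R : ℕ} (hR : 1 ≤ R) (hRX : R ≤ X) :
    ((bmSet n m l X).ncard : ℝ) ≤
      ∑ r ∈ Icc 1 R, (((prs n l 1 (X / r ^ 2)).card : ℝ) + (prs n l 2 (X / r ^ 2)).card) + X / R := by
  classical
  set B : Finset ℕ := (Icc 1 X).filter (fun t : ℕ => BMNonempty n m l (t : ℤ)) with hB
  have h1 : bmSet n m l X = ((B.image (fun t : ℕ => (t : ℤ)) : Finset ℤ) : Set ℤ) := by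
    ext t
    rw [coe_image, Set.mem_image]
    constructor
    · rintro ⟨h1, h2, h3⟩
      obtain ⟨k, rfl⟩ := Int.eq_ofNat_of_zero_le (show 0 ≤ t by omega)
      refine ⟨k, ?_, rfl⟩
      rw [hB, mem_coe, mem_filter, mem_Icc]
      exact ⟨⟨by exact_mod_cast h1, by exact_mod_cast h2⟩, h3⟩
    · rintro ⟨k, hk, rfl⟩
      rw [hB, mem_coe, mem_filter, mem_Icc] at hk
      exact ⟨by exact_mod_cast hk.1.1, by exact_mod_cast hk.1.2, hk.2⟩
  have h2 : (bmSet n m l X).ncard ≤ B.card := by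
    rw [h1, Set.ncard_coe_finset]
    exact card_image_le
  set U1 : Finset ℕ := (Icc 1 R).biUnion (fun r => ((prs n l 1 (X / r ^ 2)).image
    (fun f => 1 * (f false * f true) * r ^ 2)) ∪ ((prs n l 2 (X / r ^ 2)).image
    (fun f => 2 * (f false * f true) * r ^ 2))) with hU1
  set U2 : Finset ℕ := (Ioc R X).biUnion (fun r => (Ioc 0 X).filter (fun t => r ^ 2 ∣ t)) with hU2
  have h3 : B ⊆ U1 ∪ U2 := by
    intro t ht
    rw [hB, mem_filter, mem_Icc] at ht
    obtain ⟨r, s, f, hf, hr, hs, hts⟩ := exists_pair hn hl hl2 hln hneg ht.1.1 ht.1.2 ht.2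
    rw [mem_union]
    rcases le_or_gt r R with hrR | hrR
    · left
      rw [hU1, mem_biUnion]
      refine ⟨r, mem_Icc.2 ⟨hr, hrR⟩, ?_⟩
      rw [mem_union, mem_image, mem_image]
      rcases hs with rfl | rfl
      · exact Or.inl ⟨f, hf, hts.symm⟩
      · exact Or.inr ⟨f, hf, hts.symm⟩
    · right
      rw [hU2, mem_biUnion]
      have hdvd : r ^ 2 ∣ t := ⟨s * (f false * f true), by rw [hts]; ring⟩
      have hrX : r ≤ X := by
        calc r ≤ r ^ 2 := Nat.le_self_pow (by norm_num) r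
          _ ≤ t := Nat.le_of_dvd ht.1.1 hdvd
          _ ≤ X := ht.1.2
      exact ⟨r, mem_Ioc.2 ⟨hrR, hrX⟩, mem_filter.2 ⟨mem_Ioc.2 ⟨ht.1.1, ht.1.2⟩, hdvd⟩⟩
  have h4 : (U1.card : ℝ) ≤ ∑ r ∈ Icc 1 R, (((prs n l 1 (X / r ^ 2)).card : ℝ) +
      (prs n l 2 (X / r ^ 2)).card) := by
    have : U1.card ≤ ∑ r ∈ Icc 1 R, ((prs n l 1 (X / r ^ 2)).card + (prs n l 2 (X / r ^ 2)).card) := by
      refine card_biUnion_le.trans (sum_le_sum fun r _ => ?_)
      exact (card_union_le _ _).trans (Nat.add_le_add card_image_le card_image_le)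
    exact_mod_cast this
  have h5 : (U2.card : ℝ) ≤ X / R := by
    have e1 : (U2.card : ℝ) ≤ ∑ r ∈ Ioc R X, (X : ℝ) * ((r : ℝ) ^ 2)⁻¹ := by
      have : U2.card ≤ ∑ r ∈ Ioc R X, X / r ^ 2 := by
        refine card_biUnion_le.trans (sum_le_sum fun r _ => ?_)
        rw [Nat.Ioc_filter_dvd_card_eq_div]
      have : (U2.card : ℝ) ≤ ((∑ r ∈ Ioc R X, X / r ^ 2 : ℕ) : ℝ) := by exact_mod_cast this
      refine this.trans ?_
      push_cast
      refine sum_le_sum fun r _ => ?_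
      rw [← div_eq_mul_inv]
      have := @Nat.cast_div_le ℝ _ _ _ X (r ^ 2)
      push_cast at this
      exact this
    rw [← mul_sum] at e1
    have e2 := sum_Ioc_inv_sq_le_sub (α := ℝ) (k := R) (n := X) (by omega) hRX
    have e3 : (0 : ℝ) ≤ ((X : ℕ) : ℝ)⁻¹ := by positivity
    calc (U2.card : ℝ) ≤ X * ∑ r ∈ Ioc R X, ((r : ℝ) ^ 2)⁻¹ := e1
      _ ≤ X * (R : ℝ)⁻¹ := mul_le_mul_of_nonneg_left (by linarith) (Nat.cast_nonneg X)
      _ = X / R := by rw [div_eq_mul_inv]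
  have h6 : ((bmSet n m l X).ncard : ℝ) ≤ (U1.card : ℝ) + U2.card := by
    have := (h2.trans (card_le_card h3)).trans (card_union_le _ _)
    exact_mod_cast this
  linarith

lemma sum_inv_sq_le {R : ℕ} (hR : 1 ≤ R) : ∑ r ∈ Icc 1 R, 1 / (r : ℝ) ^ 2 ≤ 2 := by
  have h1 : Icc 1 R = insert 1 (Ioc 1 R) := by
    ext x
    rw [mem_insert, mem_Icc, mem_Ioc]
    omega
  rw [h1, sum_insert (by simp)]
  have h2 := sum_Ioc_inv_sq_le_sub (α := ℝ) (k := 1) (n := R) one_ne_zero hR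
  have h3 : (0 : ℝ) ≤ ((R : ℕ) : ℝ)⁻¹ := by positivity
  simp only [one_div]
  push_cast at h2 ⊢
  norm_num at h2 ⊢
  linarith

lemma rpow_le_of_le {x y e : ℝ} (hx : 1 ≤ x) (h1 : x / 4 ≤ y) (h2 : y ≤ x) (hy : 1 ≤ y) :
    y ^ e ≤ 4 ^ |e| * x ^ e := by
  have hx0 : 0 < x := by linarith
  have hxe : 0 < x ^ e := Real.rpow_pos_of_pos hx0 e
  rcases le_or_gt 0 e with he | he
  · have h3 : y ^ e ≤ x ^ e := Real.rpow_le_rpow (by linarith) h2 he
    have h4 : (1 : ℝ) ≤ 4 ^ |e| := Real.one_le_rpow (by norm_num) (abs_nonneg e)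
    nlinarith
  · have h3 : y ^ e ≤ (x / 4) ^ e := Real.rpow_le_rpow_of_nonpos (by linarith) h1 he.le
    have h4 : (x / 4) ^ e = 4 ^ |e| * x ^ e := by
      rw [Real.div_rpow hx0.le (by norm_num), abs_of_neg he, Real.rpow_neg (by norm_num)]
      field_simp
    rw [← h4]
    exact h3

/-- **The upper bound.** -/
theorem bm_le (hn : n ≠ 0) (hl : l.Prime) (hl2 : l ≠ 2) (hln : l ∣ n)
    (hneg : ∀ x : ZMod l, x ^ (2 * n) ≠ -1) {η : ℝ} (hη : 0 < η) :
    ∃ C : ℝ, 0 < C ∧ ∀ X : ℕ, 16 ≤ X →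
      ((bmSet n m l X).ncard : ℝ) ≤ C * (X * Real.log X ^ (3 / 4 * del n - 1 + η)) := by
  classical
  obtain ⟨C1, hC1, h1⟩ := desc_count n hl hl2 1 hη
  obtain ⟨C2, hC2, h2⟩ := desc_count n hl hl2 2 hη
  set e : ℝ := 3 / 4 * del n - 1 + η with he
  have hd := del_pos n
  refine ⟨2 * ((C1 + C2) * 4 ^ |e|) + 4, by positivity, fun X hX => ?_⟩
  set S := Nat.sqrt X with hS
  set R := Nat.sqrt S with hR
  have hS4 : 4 ≤ S := by
    rw [hS, Nat.le_sqrt]; omega
  have hR2 : 2 ≤ R := by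
    rw [hR, Nat.le_sqrt]; omega
  have hSX : S * S ≤ X := Nat.sqrt_le X
  have hRS : R * R ≤ S := Nat.sqrt_le S
  have hXS : X < (S + 1) * (S + 1) := Nat.lt_succ_sqrt X
  have hSR : S < (R + 1) * (R + 1) := Nat.lt_succ_sqrt S
  have hX0 : (0 : ℝ) < X := by exact_mod_cast (by omega : 0 < X)
  have hlX : 1 ≤ Real.log X := one_le_log3 (by omega)
  have hlX0 : 0 < Real.log X := by linarith
  have hlXe : 0 < Real.log X ^ e := Real.rpow_pos_of_pos hlX0 e
  have hS0 : (4 : ℝ) ≤ S := by exact_mod_cast hS4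
  have hR0 : (2 : ℝ) ≤ R := by exact_mod_cast hR2
  -- comparison of the logarithms
  have hlS : Real.log X ≤ 4 * Real.log S := by
    have h3 : (X : ℝ) ≤ (S : ℝ) ^ 4 := by
      have h4 : (X : ℝ) < ((S : ℝ) + 1) * (S + 1) := by exact_mod_cast hXS
      have h5 : (S : ℝ) + 1 ≤ (S : ℝ) ^ 2 := by nlinarith
      calc (X : ℝ) ≤ (S + 1) * (S + 1) := h4.le
        _ ≤ (S : ℝ) ^ 2 * (S : ℝ) ^ 2 := by gcongr
        _ = (S : ℝ) ^ 4 := by ring
    have h6 := Real.log_le_log hX0 h3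
    rw [Real.log_pow] at h6
    push_cast at h6
    exact h6
  have hlR : Real.log X ≤ 4 * R := by
    have h3 : (X : ℝ) ≤ ((R : ℝ) + 1) ^ 4 := by
      have h4 : (X : ℝ) < ((S : ℝ) + 1) * (S + 1) := by exact_mod_cast hXS
      have h5 : (S : ℝ) + 1 ≤ ((R : ℝ) + 1) ^ 2 := by
        have : (S + 1 : ℕ) ≤ (R + 1) * (R + 1) := hSR
        have h' : ((S + 1 : ℕ) : ℝ) ≤ ((R + 1) * (R + 1) : ℕ) := by exact_mod_cast this
        push_cast at h'
        linarith
      calc (X : ℝ) ≤ (S + 1) * (S + 1) := h4.le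
        _ ≤ ((R : ℝ) + 1) ^ 2 * ((R : ℝ) + 1) ^ 2 := by gcongr
        _ = ((R : ℝ) + 1) ^ 4 := by ring
    have h6 := Real.log_le_log hX0 h3
    rw [Real.log_pow] at h6
    push_cast at h6
    have h7 := Real.log_le_sub_one_of_pos (show (0 : ℝ) < R + 1 by linarith)
    linarith
  have hmain := bmSet_le (m := m) hn hl hl2 hln hneg (X := X) (R := R) (by omega)
    (by nlinarith)
  have hterm : ∀ r ∈ Icc 1 R, (((prs n l 1 (X / r ^ 2)).card : ℝ) + (prs n l 2 (X / r ^ 2)).card) ≤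
      (C1 + C2) * 4 ^ |e| * (X * Real.log X ^ e) * (1 / (r : ℝ) ^ 2) := by
    intro r hr
    obtain ⟨hr1, hr2⟩ := mem_Icc.1 hr
    have hr0 : (0 : ℝ) < r := by exact_mod_cast hr1
    set Y := X / r ^ 2 with hY
    have hrS : r ^ 2 ≤ S := by
      calc r ^ 2 ≤ R * R := by rw [sq]; exact Nat.mul_le_mul hr2 hr2
        _ ≤ S := hRS
    have hSY : S ≤ Y := by
      rw [hY, Nat.le_div_iff_mul_le (by positivity)]
      calc S * r ^ 2 ≤ S * S := Nat.mul_le_mul_left _ hrS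
        _ ≤ X := hSX
    have hYX : Y ≤ X := Nat.div_le_self _ _
    have hY3 : 3 ≤ Y := by omega
    have hYr : (Y : ℝ) ≤ X / (r : ℝ) ^ 2 := by
      have := @Nat.cast_div_le ℝ _ _ _ X (r ^ 2)
      push_cast at this
      exact this
    have hlY1 : Real.log X / 4 ≤ Real.log Y := by
      have : Real.log S ≤ Real.log Y := Real.log_le_log (by linarith) (by exact_mod_cast hSY)
      linarith
    have hlY2 : Real.log Y ≤ Real.log X :=
      Real.log_le_log (by exact_mod_cast (by omega : 0 < Y)) (by exact_mod_cast hYX)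
    have h3 := rpow_le_of_le (e := e) hlX hlY1 hlY2 (one_le_log3 hY3)
    have h4 := h1 Y hY3
    have h5 := h2 Y hY3
    have h6 : (Y : ℝ) * Real.log Y ^ e ≤ (X / (r : ℝ) ^ 2) * (4 ^ |e| * Real.log X ^ e) := by
      refine mul_le_mul hYr h3 (Real.rpow_nonneg (by linarith [one_le_log3 hY3]) _) (by positivity)
    have e1 : ((prs n l 1 Y).card : ℝ) ≤ C1 * (Y * Real.log Y ^ e) := h4
    have e2 : ((prs n l 2 Y).card : ℝ) ≤ C2 * (Y * Real.log Y ^ e) := h5
    calc ((prs n l 1 Y).card : ℝ) + (prs n l 2 Y).card ≤ (C1 + C2) * (Y * Real.log Y ^ e) := by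
          rw [add_mul]; linarith
      _ ≤ (C1 + C2) * ((X / (r : ℝ) ^ 2) * (4 ^ |e| * Real.log X ^ e)) :=
          mul_le_mul_of_nonneg_left h6 (by linarith)
      _ = _ := by ring
  have h3 := sum_le_sum hterm
  rw [← mul_sum] at h3
  have h4 : 0 ≤ (C1 + C2) * 4 ^ |e| * (X * Real.log X ^ e) := by positivity
  have h5 := mul_le_mul_of_nonneg_left (sum_inv_sq_le (R := R) (by omega)) h4
  have h6 : (X : ℝ) / R ≤ 4 * (X * Real.log X ^ e) := by
    have h7 : (Real.log X)⁻¹ ≤ Real.log X ^ e := by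
      rw [← Real.rpow_neg_one]
      exact Real.rpow_le_rpow_of_exponent_le hlX (by rw [he]; nlinarith)
    have h8 : (X : ℝ) / R ≤ 4 * (X * (Real.log X)⁻¹) := by
      rw [div_le_iff₀ (by linarith)]
      have : 4 * (X * (Real.log X)⁻¹) * R = X * (4 * R / Real.log X) := by field_simp
      rw [this]
      refine le_mul_of_one_le_right hX0.le ?_
      rw [one_le_div hlX0]
      exact hlR
    refine h8.trans ?_
    gcongr
  calc ((bmSet n m l X).ncard : ℝ) ≤ _ := hmain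
    _ ≤ (C1 + C2) * 4 ^ |e| * (X * Real.log X ^ e) * 2 + 4 * (X * Real.log X ^ e) :=
        add_le_add (h3.trans h5) h6
    _ = _ := by ring

end Stoll308.Fermat
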