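import Pool.Agent.Work.MP_308fa9_nt.Mert3

set_option autoImplicit false

/-! Sums of reciprocals of squarefree numbers composed of primes of a set with a mean value. -/

namespace Stoll308.AP

open Finset Filter Topology NumberTheorySymbols

open Classical in
/-- the primes `≤ z` with the property `P` -/
noncomputable def PP (P : ℕ → Prop) (z : ℕ) : Finset ℕ :=
  (Icc 0 z).filter (fun p => p.Prime ∧ P p)

lemma mem_PP {P : ℕ → Prop} {z p : ℕ} : p ∈ PP P z ↔ p ≤ z ∧ p.Prime ∧ P p := by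
  simp [PP]

lemma exp_le_two {t : ℝ} (h0 : 0 ≤ t) (h1 : t ≤ 1) : Real.exp t ≤ 1 + 2 * t := by
  have h := convexOn_exp.2 (Set.mem_univ (0 : ℝ)) (Set.mem_univ (1 : ℝ))
    (by linarith : 0 ≤ 1 - t) h0 (by ring)
  simp only [smul_eq_mul, mul_zero, mul_one, zero_add, Real.exp_zero] at h
  have he : Real.exp 1 ≤ 3 := by
    have := Real.exp_one_lt_d9; linarith
  nlinarith

lemma log_one_add_ge {x : ℝ} (h0 : 0 ≤ x) : x - x ^ 2 ≤ Real.log (1 + x) := by
  have h := Real.one_sub_inv_le_log_of_pos (x := 1 + x) (by linarith)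
  refine le_trans ?_ h
  have : x - x ^ 2 ≤ x / (1 + x) := by
    rw [le_div_iff₀ (by linarith)]
    nlinarith [pow_nonneg h0 3]
  calc x - x ^ 2 ≤ x / (1 + x) := this
    _ = 1 - (1 + x)⁻¹ := by field_simp; ring

lemma sum_inv_sq_le (s : Finset ℕ) (hs : ∀ p ∈ s, p.Prime) : ∑ p ∈ s, (1 / (p : ℝ)) ^ 2 ≤ 1 := by
  obtain ⟨N, hN1, hN⟩ : ∃ N : ℕ, 1 ≤ N ∧ s ⊆ Ioc 1 N := by
    refine ⟨s.sup id + 1, by omega, fun p hp => ?_⟩
    rw [mem_Ioc]
    have := Finset.le_sup (f := id) hp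
    simp only [id] at this
    exact ⟨(hs p hp).one_lt, by omega⟩
  refine (sum_le_sum_of_subset_of_nonneg hN fun _ _ _ => by positivity).trans ?_
  have : ∀ N : ℕ, 1 ≤ N → ∑ p ∈ Ioc 1 N, (1 / (p : ℝ)) ^ 2 ≤ 1 - 1 / (N : ℝ) := by
    intro N hN
    induction N, hN using Nat.le_induction with
    | base => norm_num
    | succ N hN ih =>
      rw [sum_Ioc_succ_top (by omega)]
      have hN' : (1 : ℝ) ≤ N := by exact_mod_cast hN
      have h1 : (1 / ((N + 1 : ℕ) : ℝ)) ^ 2 ≤ 1 / (N : ℝ) - 1 / ((N : ℝ) + 1) := by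
        have e2 : 1 / (N : ℝ) - 1 / ((N : ℝ) + 1) = 1 / (N * (N + 1)) := by
          field_simp
          ring
        rw [e2, one_div_pow]
        push_cast
        exact one_div_le_one_div_of_le (by positivity) (by nlinarith)
      push_cast at *
      linarith
  have h2 : 0 ≤ 1 / (N : ℝ) := by positivity
  linarith [this N hN1]

/-- the Euler product over the primes `≤ z` with the property `P` -/
noncomputable def V (P : ℕ → Prop) (z : ℕ) : ℝ := ∏ p ∈ PP P z, (1 + 1 / (p : ℝ))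

lemma V_pos (P : ℕ → Prop) (z : ℕ) : 0 < V P z := prod_pos fun p _ => by positivity

lemma V_eq (P : ℕ → Prop) (z : ℕ) :
    V P z = ∑ T ∈ (PP P z).powerset, 1 / ((∏ p ∈ T, p : ℕ) : ℝ) := by
  unfold V
  simp only [Finset.prod_one_add]
  refine sum_congr rfl fun T _ => ?_
  push_cast
  rw [prod_div_distrib, prod_const_one]

open Classical in
lemma sum_PP (P : ℕ → Prop) (z : ℕ) (f : ℕ → ℝ) :
    ∑ p ∈ PP P z, f p = ∑ p ∈ (Icc 0 z).filter Nat.Prime, (if P p then (1 : ℝ) else 0) * f p := by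
  unfold PP
  rw [← filter_filter, sum_filter (s := (Icc 0 z).filter Nat.Prime)]
  refine sum_congr rfl fun p _ => ?_
  split_ifs <;> simp

open Classical in
lemma V_lower {P : ℕ → Prop} {κ : ℝ} (hP : Mert (fun p => if P p then 1 else 0) κ) :
    ∃ c : ℝ, 0 < c ∧ ∀ z : ℕ, 2 ≤ z → c * Real.log z ^ κ ≤ V P z := by
  obtain ⟨C, hC0, hC⟩ := hP.loglog
  refine ⟨Real.exp (-C - 1), Real.exp_pos _, fun z hz => ?_⟩
  have hlz : 0 < Real.log z := log_nat_pos hz
  have h1 : κ * Real.log (Real.log z) - C ≤ ∑ p ∈ PP P z, 1 / (p : ℝ) := by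
    rw [sum_PP]
    have := (abs_le.1 (hC z hz)).1
    simp only [mul_one_div] at *
    linarith
  have h2 : ∑ p ∈ PP P z, (1 / (p : ℝ)) ^ 2 ≤ 1 := sum_inv_sq_le _ fun p hp => (mem_PP.1 hp).2.1
  have h3 : κ * Real.log (Real.log z) - C - 1 ≤ Real.log (V P z) := by
    unfold V
    rw [Real.log_prod fun p _ => by positivity]
    calc κ * Real.log (Real.log z) - C - 1 ≤ ∑ p ∈ PP P z, (1 / (p : ℝ) - (1 / (p : ℝ)) ^ 2) := by
          rw [sum_sub_distrib]; linarith
      _ ≤ _ := sum_le_sum fun p _ => log_one_add_ge (by positivity)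
  rw [← Real.log_le_log_iff (by positivity) (V_pos P z), Real.log_mul (Real.exp_pos _).ne'
    (by positivity), Real.log_exp, Real.log_rpow hlz]
  linarith

open Classical in
/-- **Rankin's trick**: the squarefree numbers composed of primes `≤ z` in the set which exceed
`z^K` contribute at most one half. -/
lemma rankin (P : ℕ → Prop) : ∃ K : ℕ, ∀ z : ℕ, 3 ≤ z →
    V P z / 2 ≤ ∑ T ∈ (PP P z).powerset.filter (fun T => ∏ p ∈ T, p ≤ z ^ K),
      1 / ((∏ p ∈ T, p : ℕ) : ℝ) := by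
  obtain ⟨C, hC⟩ := Mert.one
  have hC0 : 0 ≤ C := (abs_nonneg _).trans (hC 0)
  obtain ⟨K, hK⟩ := exists_nat_ge (3 + 2 * C)
  refine ⟨K, fun z hz => ?_⟩
  have hz0 : (0 : ℝ) < z := by exact_mod_cast (by omega : 0 < z)
  have hlz : 1 ≤ Real.log z := by
    rw [Real.le_log_iff_exp_le hz0]
    have h3 : (3 : ℝ) ≤ z := by exact_mod_cast hz
    have := Real.exp_one_lt_d9
    linarith
  have hlz0 : 0 < Real.log z := by linarith
  set δ := 1 / Real.log z with hδ
  have hδ0 : 0 < δ := by positivity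
  have hprod : ∏ p ∈ PP P z, (1 + (p : ℝ) ^ δ / p) ≤ V P z * Real.exp (2 + 2 * C) := by
    have h1 : ∏ p ∈ PP P z, (1 + (p : ℝ) ^ δ / p) ≤
        ∏ p ∈ PP P z, ((1 + 1 / (p : ℝ)) * Real.exp (2 * δ * (Real.log p / p))) := by
      refine prod_le_prod (fun p _ => by positivity) fun p hp => ?_
      rw [mem_PP] at hp
      have hp0 : (0 : ℝ) < p := by exact_mod_cast hp.2.1.pos
      have hlp : 0 ≤ Real.log p := Real.log_natCast_nonneg p
      have hlpz : Real.log p ≤ Real.log z := Real.log_le_log hp0 (by exact_mod_cast hp.1)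
      have e1 : (p : ℝ) ^ δ ≤ 1 + 2 * (δ * Real.log p) := by
        rw [Real.rpow_def_of_pos hp0, mul_comm (Real.log _)]
        refine exp_le_two (by positivity) ?_
        rw [hδ, one_div, inv_mul_le_iff₀ hlz0, mul_one]
        exact hlpz
      have e2 : 1 + 2 * δ * (Real.log p / p) ≤ Real.exp (2 * δ * (Real.log p / p)) := by
        have := Real.add_one_le_exp (2 * δ * (Real.log p / p))
        linarith
      calc 1 + (p : ℝ) ^ δ / p ≤ 1 + (1 + 2 * (δ * Real.log p)) / p := by gcongr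
        _ = (1 + 1 / (p : ℝ)) + 2 * δ * (Real.log p / p) := by field_simp; ring
        _ ≤ (1 + 1 / (p : ℝ)) * (1 + 2 * δ * (Real.log p / p)) := by
            have : 0 ≤ (1 / (p : ℝ)) * (2 * δ * (Real.log p / p)) := by positivity
            nlinarith
        _ ≤ (1 + 1 / (p : ℝ)) * Real.exp (2 * δ * (Real.log p / p)) := by gcongr
    refine h1.trans ?_
    rw [prod_mul_distrib, ← Real.exp_sum]
    refine mul_le_mul_of_nonneg_left ?_ (V_pos P z).le
    rw [Real.exp_le_exp, ← mul_sum]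
    have h2 : ∑ p ∈ PP P z, Real.log p / p ≤ Real.log z + C := by
      have h3 := (abs_le.1 (hC z)).2
      simp only [one_mul] at h3
      have h4 : ∑ p ∈ PP P z, Real.log p / p ≤ ∑ p ∈ (Icc 0 z).filter Nat.Prime, Real.log p / p := by
        refine sum_le_sum_of_subset_of_nonneg (fun p hp => ?_) fun p _ _ =>
          div_nonneg (Real.log_natCast_nonneg p) (Nat.cast_nonneg p)
        rw [mem_PP] at hp
        rw [mem_filter, mem_Icc]
        exact ⟨⟨Nat.zero_le _, hp.1⟩, hp.2.1⟩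
      linarith
    calc 2 * δ * ∑ p ∈ PP P z, Real.log p / p ≤ 2 * δ * (Real.log z + C) := by gcongr
      _ = 2 + 2 * C * δ := by rw [hδ]; field_simp
      _ ≤ 2 + 2 * C * 1 := by
          have : δ ≤ 1 := by rw [hδ, div_le_one hlz0]; exact hlz
          gcongr
      _ = 2 + 2 * C := by ring
  have htail : ∑ T ∈ (PP P z).powerset.filter (fun T => ¬ ∏ p ∈ T, p ≤ z ^ K),
      1 / ((∏ p ∈ T, p : ℕ) : ℝ) ≤ V P z / 2 := by
    have h1 : ∑ T ∈ (PP P z).powerset.filter (fun T => ¬ ∏ p ∈ T, p ≤ z ^ K),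
        1 / ((∏ p ∈ T, p : ℕ) : ℝ) ≤
        ∑ T ∈ (PP P z).powerset, Real.exp (-K) * ∏ p ∈ T, ((p : ℝ) ^ δ / p) := by
      refine (sum_le_sum (g := fun T : Finset ℕ => Real.exp (-K) * ∏ p ∈ T, ((p : ℝ) ^ δ / p))
        fun T hT => ?_).trans (sum_le_sum_of_subset_of_nonneg (filter_subset _ _) fun T _ _ =>
          mul_nonneg (Real.exp_pos _).le (prod_nonneg fun p _ =>
            div_nonneg (Real.rpow_nonneg (Nat.cast_nonneg p) _) (Nat.cast_nonneg p)))
      rw [mem_filter, not_le] at hT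
      have hT1 : (z : ℝ) ^ K ≤ ((∏ p ∈ T, p : ℕ) : ℝ) := by exact_mod_cast hT.2.le
      have hm0 : (0 : ℝ) < ((∏ p ∈ T, p : ℕ) : ℝ) := lt_of_lt_of_le (by positivity) hT1
      have e1 : ∏ p ∈ T, ((p : ℝ) ^ δ / p) =
          ((∏ p ∈ T, p : ℕ) : ℝ) ^ δ / ((∏ p ∈ T, p : ℕ) : ℝ) := by
        push_cast
        rw [prod_div_distrib, Real.finsetProd_rpow _ _ fun p _ => Nat.cast_nonneg p]
      have e2 : Real.exp K ≤ ((∏ p ∈ T, p : ℕ) : ℝ) ^ δ := by
        rw [Real.rpow_def_of_pos hm0, Real.exp_le_exp]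
        have e3 : (K : ℝ) * Real.log z ≤ Real.log ((∏ p ∈ T, p : ℕ) : ℝ) := by
          rw [← Real.log_pow]
          exact Real.log_le_log (by positivity) hT1
        calc (K : ℝ) = K * Real.log z * δ := by rw [hδ]; field_simp
          _ ≤ _ := by gcongr
      rw [e1, Real.exp_neg, ← mul_div_assoc]
      refine div_le_div_of_nonneg_right ?_ hm0.le
      rw [inv_mul_eq_div, le_div_iff₀ (Real.exp_pos _), one_mul]
      exact e2
    refine h1.trans ?_
    rw [← mul_sum, ← Finset.prod_one_add]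
    calc Real.exp (-K) * ∏ p ∈ PP P z, (1 + (p : ℝ) ^ δ / p)
        ≤ Real.exp (-K) * (V P z * Real.exp (2 + 2 * C)) := by gcongr
      _ = V P z * Real.exp (-K + (2 + 2 * C)) := by rw [Real.exp_add (-(K : ℝ))]; ring
      _ ≤ V P z * Real.exp (-1) := by
          have := (V_pos P z).le
          gcongr
          linarith
      _ ≤ V P z * (1 / 2) := by
          have := (V_pos P z).le
          gcongr
          rw [Real.exp_neg, ← one_div]
          refine one_div_le_one_div_of_le (by norm_num) ?_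
          have := Real.add_one_le_exp (1 : ℝ)
          linarith
      _ = V P z / 2 := by ring
  have hsplit := sum_filter_add_sum_filter_not (PP P z).powerset (fun T => ∏ p ∈ T, p ≤ z ^ K)
    (fun T => 1 / ((∏ p ∈ T, p : ℕ) : ℝ))
  rw [← V_eq] at hsplit
  linarith

end Stoll308.AP
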