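import Pool.Agent.Work.MP_308fa9_nt.PrimesAP

set_option autoImplicit false

/-! Mertens' theorems for functions on the primes with a mean value. -/

namespace Stoll308.AP

open Finset Filter Topology
open Pool.Agent.Work.MP_40574a_nt

/-- `g` has mean value `κ` on the primes: `∑_{p ≤ N} g(p) log p / p = κ log N + O(1)`. -/
def Mert (g : ℕ → ℝ) (κ : ℝ) : Prop :=
  ∃ C : ℝ, ∀ N : ℕ, |∑ p ∈ (Icc 0 N).filter Nat.Prime, g p * (Real.log p / p) - κ * Real.log N| ≤ C

lemma Mert.add {g h : ℕ → ℝ} {κ μ : ℝ} (hg : Mert g κ) (hh : Mert h μ) :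
    Mert (fun p => g p + h p) (κ + μ) := by
  obtain ⟨C, hC⟩ := hg
  obtain ⟨D, hD⟩ := hh
  refine ⟨C + D, fun N => ?_⟩
  have h1 : ∑ p ∈ (Icc 0 N).filter Nat.Prime, (g p + h p) * (Real.log p / p) -
      (κ + μ) * Real.log N =
      (∑ p ∈ (Icc 0 N).filter Nat.Prime, g p * (Real.log p / p) - κ * Real.log N) +
      (∑ p ∈ (Icc 0 N).filter Nat.Prime, h p * (Real.log p / p) - μ * Real.log N) := by
    simp only [add_mul, sum_add_distrib]; ring
  rw [h1]
  exact (abs_add_le _ _).trans (add_le_add (hC N) (hD N))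

lemma Mert.const_mul {g : ℕ → ℝ} {κ : ℝ} (c : ℝ) (hg : Mert g κ) :
    Mert (fun p => c * g p) (c * κ) := by
  obtain ⟨C, hC⟩ := hg
  refine ⟨|c| * C, fun N => ?_⟩
  have h1 : ∑ p ∈ (Icc 0 N).filter Nat.Prime, c * g p * (Real.log p / p) - c * κ * Real.log N =
      c * (∑ p ∈ (Icc 0 N).filter Nat.Prime, g p * (Real.log p / p) - κ * Real.log N) := by
    simp only [mul_sub, mul_sum, mul_assoc]
  rw [h1, abs_mul]
  exact mul_le_mul_of_nonneg_left (hC N) (abs_nonneg c)

lemma Mert.zero : Mert (fun _ => 0) 0 := ⟨0, fun N => by simp⟩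

lemma Mert.sum {ι : Type*} (s : Finset ι) {g : ι → ℕ → ℝ} {κ : ι → ℝ}
    (h : ∀ i ∈ s, Mert (g i) (κ i)) : Mert (fun p => ∑ i ∈ s, g i p) (∑ i ∈ s, κ i) := by
  classical
  induction s using Finset.induction_on with
  | empty => simpa using Mert.zero
  | insert a s ha ih =>
    simp only [Finset.sum_insert ha]
    exact (h a (Finset.mem_insert_self _ _)).add (ih fun i hi => h i (Finset.mem_insert_of_mem hi))

/-- changing finitely many values -/
lemma Mert.congr {g h : ℕ → ℝ} {κ : ℝ} (hg : Mert g κ) (B : ℕ)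
    (hB : ∀ p : ℕ, p.Prime → B < p → h p = g p) : Mert h κ := by
  obtain ⟨C, hC⟩ := hg
  refine ⟨C + ∑ p ∈ (Icc 0 B).filter Nat.Prime, |h p - g p| * (Real.log p / p), fun N => ?_⟩
  have h1 : ∑ p ∈ (Icc 0 N).filter Nat.Prime, h p * (Real.log p / p) - κ * Real.log N =
      (∑ p ∈ (Icc 0 N).filter Nat.Prime, g p * (Real.log p / p) - κ * Real.log N) +
      ∑ p ∈ (Icc 0 N).filter Nat.Prime, (h p - g p) * (Real.log p / p) := by
    simp only [sub_mul, sum_sub_distrib]; ring
  have hpos : ∀ n : ℕ, 0 ≤ Real.log n / n := fun n =>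
    div_nonneg (Real.log_natCast_nonneg n) (Nat.cast_nonneg n)
  rw [h1]
  refine (abs_add_le _ _).trans (add_le_add (hC N) ?_)
  refine (abs_sum_le_sum_abs _ _).trans ?_
  have h2 : ∑ p ∈ (Icc 0 N).filter Nat.Prime, |(h p - g p) * (Real.log p / p)| =
      ∑ p ∈ ((Icc 0 N).filter Nat.Prime).filter (fun p => p ≤ B),
        |h p - g p| * (Real.log p / p) := by
    rw [sum_filter (s := (Icc 0 N).filter Nat.Prime)]
    refine sum_congr rfl fun p hp => ?_
    split_ifs with hlt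
    · rw [abs_mul, abs_of_nonneg (hpos p)]
    · rw [hB p (mem_filter.1 hp).2 (not_le.1 hlt)]
      simp
  rw [h2]
  refine sum_le_sum_of_subset_of_nonneg (fun p hp => ?_) fun p _ _ =>
    mul_nonneg (abs_nonneg _) (hpos p)
  simp only [mem_filter, mem_Icc] at hp ⊢
  exact ⟨⟨hp.1.1.1, hp.2⟩, hp.1.2⟩

lemma Mert.one : Mert (fun _ => 1) 1 := by
  obtain ⟨C, hC, h⟩ := Mertens.mertens_first
  refine ⟨C, fun N => ?_⟩
  rcases Nat.eq_zero_or_pos N with rfl | hN
  · simpa [Finset.filter_singleton, Nat.not_prime_zero] using hC.le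
  · have := h N (by exact_mod_cast hN)
    rw [Mertens.A_nat] at this
    simpa using this

lemma Mert.const (a : ℝ) : Mert (fun _ => a) a := by
  have := Mert.one.const_mul a
  simpa using this

/-- The prime powers contribute a bounded amount. -/
lemma prime_powers : ∃ C : ℝ, 0 ≤ C ∧ ∀ N : ℕ,
    ∑ d ∈ (Ioc 0 N).filter (fun d => ¬ d.Prime), ArithmeticFunction.vonMangoldt d / d ≤ C := by
  obtain ⟨C, hC0, hC⟩ := Mertens.lower_nat
  have hlog4 : 0 ≤ Real.log 4 := Real.log_nonneg (by norm_num)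
  refine ⟨C + (Real.log 4 + 4), by positivity, fun N => ?_⟩
  rcases Nat.eq_zero_or_pos N with rfl | hN
  · simp; positivity
  have hNr : (0 : ℝ) < N := by exact_mod_cast hN
  have h1 : (N : ℝ) * ∑ d ∈ Ioc 0 N, ArithmeticFunction.vonMangoldt d / d ≤
      N * Real.log N + (Real.log 4 + 4) * N := by
    have h2 : ∑ d ∈ Ioc 0 N, ArithmeticFunction.vonMangoldt d * ((N / d : ℕ) : ℝ) ≤
        N * Real.log N := by
      rw [← ArithmeticFunction.sum_Ioc_mul_zeta_eq_sum, ArithmeticFunction.vonMangoldt_mul_zeta]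
      calc ∑ n ∈ Ioc 0 N, ArithmeticFunction.log n ≤ ∑ n ∈ Ioc 0 N, Real.log N := by
            refine sum_le_sum fun n hn => ?_
            rw [mem_Ioc] at hn
            rw [ArithmeticFunction.log_apply]
            exact Real.log_le_log (by exact_mod_cast hn.1) (by exact_mod_cast hn.2)
        _ = N * Real.log N := by simp
    have h3 : ∑ d ∈ Ioc 0 N, ArithmeticFunction.vonMangoldt d ≤ (Real.log 4 + 4) * N := by
      have := Chebyshev.psi_le_const_mul_self hNr.le
      rwa [Chebyshev.psi, Nat.floor_natCast] at this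
    calc (N : ℝ) * ∑ d ∈ Ioc 0 N, ArithmeticFunction.vonMangoldt d / d
        = ∑ d ∈ Ioc 0 N, ArithmeticFunction.vonMangoldt d * (N / d) := by
          rw [mul_sum]
          refine sum_congr rfl fun d _ => ?_
          ring
      _ ≤ ∑ d ∈ Ioc 0 N, (ArithmeticFunction.vonMangoldt d * ((N / d : ℕ) : ℝ) +
            ArithmeticFunction.vonMangoldt d) := by
          refine sum_le_sum fun d hd => ?_
          rw [mem_Ioc] at hd
          have hd0 : (0 : ℝ) < d := by exact_mod_cast hd.1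
          have h4 : (N : ℝ) / d ≤ ((N / d : ℕ) : ℝ) + 1 := by
            rw [div_le_iff₀ hd0]
            have : N < d * (N / d + 1) := Nat.lt_mul_div_succ N hd.1
            rw [mul_comm] at this
            exact_mod_cast this.le
          have h5 : 0 ≤ ArithmeticFunction.vonMangoldt d := ArithmeticFunction.vonMangoldt_nonneg
          nlinarith [mul_le_mul_of_nonneg_left h4 h5]
      _ ≤ _ := by
          rw [sum_add_distrib]
          exact add_le_add h2 h3
  have h2 : ∑ d ∈ Ioc 0 N, ArithmeticFunction.vonMangoldt d / d ≤ Real.log N + (Real.log 4 + 4) := by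
    have : (N : ℝ) * ∑ d ∈ Ioc 0 N, ArithmeticFunction.vonMangoldt d / d ≤
        N * (Real.log N + (Real.log 4 + 4)) := by linarith
    exact le_of_mul_le_mul_left this hNr
  have h3 := sum_filter_add_sum_filter_not (Ioc 0 N) Nat.Prime
    (fun d => ArithmeticFunction.vonMangoldt d / (d : ℝ))
  have h4 : ∑ d ∈ (Ioc 0 N).filter Nat.Prime, ArithmeticFunction.vonMangoldt d / (d : ℝ) =
      Mertens.A N := by
    rw [Mertens.A_nat]
    have : (Ioc 0 N).filter Nat.Prime = (Icc 0 N).filter Nat.Prime := by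
      ext p
      simp only [mem_filter, mem_Ioc, mem_Icc]
      constructor
      · rintro ⟨⟨h1, h2⟩, h3⟩; exact ⟨⟨h1.le, h2⟩, h3⟩
      · rintro ⟨⟨h1, h2⟩, h3⟩; exact ⟨⟨h3.pos, h2⟩, h3⟩
    rw [this]
    refine sum_congr rfl fun p hp => ?_
    rw [ArithmeticFunction.vonMangoldt_apply_prime (mem_filter.1 hp).2]
  have h5 := hC N hN
  linarith

section char
variable {q : ℕ} [NeZero q]

lemma prime_char_bound (χ : DirichletCharacter ℂ q) (hχ : χ ≠ 1) : ∃ C : ℝ, ∀ N : ℕ,
    ‖∑ p ∈ (Icc 0 N).filter Nat.Prime, χ (p : ZMod q) * ((Real.log p / p : ℝ) : ℂ)‖ ≤ C := by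
  obtain ⟨C, hC⟩ := mangoldt_bound χ hχ
  obtain ⟨D, hD0, hD⟩ := prime_powers
  refine ⟨C + D, fun N => ?_⟩
  have h3 := sum_filter_add_sum_filter_not (Ioc 0 N) Nat.Prime
    (fun d => χ (d : ZMod q) * ((ArithmeticFunction.vonMangoldt d / d : ℝ) : ℂ))
  have h4 : ∑ d ∈ (Ioc 0 N).filter Nat.Prime,
      χ (d : ZMod q) * ((ArithmeticFunction.vonMangoldt d / d : ℝ) : ℂ) =
      ∑ p ∈ (Icc 0 N).filter Nat.Prime, χ (p : ZMod q) * ((Real.log p / p : ℝ) : ℂ) := by
    have : (Ioc 0 N).filter Nat.Prime = (Icc 0 N).filter Nat.Prime := by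
      ext p
      simp only [mem_filter, mem_Ioc, mem_Icc]
      constructor
      · rintro ⟨⟨h1, h2⟩, h3⟩; exact ⟨⟨h1.le, h2⟩, h3⟩
      · rintro ⟨⟨h1, h2⟩, h3⟩; exact ⟨⟨h3.pos, h2⟩, h3⟩
    rw [this]
    refine sum_congr rfl fun p hp => ?_
    rw [ArithmeticFunction.vonMangoldt_apply_prime (mem_filter.1 hp).2]
  rw [← h4, eq_sub_of_add_eq h3]
  refine (norm_sub_le _ _).trans (add_le_add (hC N) ?_)
  refine (norm_sum_le _ _).trans (le_trans (sum_le_sum fun d _ => ?_) (hD N))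
  have hΛ : 0 ≤ ArithmeticFunction.vonMangoldt d / (d : ℝ) :=
    div_nonneg ArithmeticFunction.vonMangoldt_nonneg (Nat.cast_nonneg d)
  rw [norm_mul, Complex.norm_real, Real.norm_of_nonneg hΛ]
  exact mul_le_of_le_one_left hΛ (DirichletCharacter.norm_le_one χ _)

open Classical in
lemma prime_one_bound : ∃ C : ℝ, ∀ N : ℕ,
    ‖∑ p ∈ (Icc 0 N).filter Nat.Prime, (1 : DirichletCharacter ℂ q) (p : ZMod q) *
      ((Real.log p / p : ℝ) : ℂ) - (Real.log N : ℂ)‖ ≤ C := by
  have h1 : Mert (fun p => if IsUnit (p : ZMod q) then 1 else 0) 1 := by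
    refine Mert.one.congr q fun p hp hlt => ?_
    rw [if_pos]
    rw [ZMod.isUnit_iff_coprime]
    exact (Nat.Prime.coprime_iff_not_dvd hp).2 fun hd =>
      absurd (Nat.le_of_dvd (Nat.pos_of_ne_zero (NeZero.ne q)) hd) (not_le.2 hlt)
  obtain ⟨C, hC⟩ := h1
  refine ⟨C, fun N => ?_⟩
  have h2 := hC N
  rw [← Real.norm_eq_abs, ← Complex.norm_real] at h2
  refine le_of_eq_of_le (congrArg _ ?_) h2
  push_cast
  rw [one_mul]
  congr 1
  refine sum_congr rfl fun p _ => ?_
  by_cases h : IsUnit (p : ZMod q)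
  · rw [MulChar.one_apply h]; simp [h]
  · rw [MulChar.map_nonunit _ h]; simp [h]

open Classical in
/-- **Mertens' first theorem in a residue class.** -/
theorem Mert.residue {a : ZMod q} (ha : IsUnit a) :
    Mert (fun p => if (p : ZMod q) = a then 1 else 0) (1 / Nat.totient q) := by
  have hφ : (0 : ℝ) < Nat.totient q := by
    exact_mod_cast Nat.totient_pos.2 (Nat.pos_of_ne_zero (NeZero.ne q))
  have hχ : ∀ χ : DirichletCharacter ℂ q, ∃ C : ℝ, ∀ N : ℕ,
      ‖∑ p ∈ (Icc 0 N).filter Nat.Prime, χ (p : ZMod q) * ((Real.log p / p : ℝ) : ℂ) -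
        (if χ = 1 then (Real.log N : ℂ) else 0)‖ ≤ C := by
    intro χ
    by_cases h : χ = 1
    · subst h
      obtain ⟨C, hC⟩ := prime_one_bound (q := q)
      exact ⟨C, fun N => by simpa using hC N⟩
    · obtain ⟨C, hC⟩ := prime_char_bound χ h
      exact ⟨C, fun N => by simpa [h] using hC N⟩
  choose C hC using hχ
  refine ⟨(∑ χ : DirichletCharacter ℂ q, C χ) / Nat.totient q, fun N => ?_⟩
  rw [le_div_iff₀ hφ, ← abs_of_pos hφ, ← abs_mul, abs_of_pos hφ, ← Real.norm_eq_abs,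
    ← Complex.norm_real]
  have hkey : (((∑ p ∈ (Icc 0 N).filter Nat.Prime,
      (if (p : ZMod q) = a then (1 : ℝ) else 0) * (Real.log p / p) -
        1 / (Nat.totient q : ℝ) * Real.log N) * Nat.totient q : ℝ) : ℂ) =
      ∑ χ : DirichletCharacter ℂ q, χ a⁻¹ *
        (∑ p ∈ (Icc 0 N).filter Nat.Prime, χ (p : ZMod q) * ((Real.log p / p : ℝ) : ℂ) -
        (if χ = 1 then (Real.log N : ℂ) else 0)) := by
    have e1 : ∑ χ : DirichletCharacter ℂ q, χ a⁻¹ *
        ∑ p ∈ (Icc 0 N).filter Nat.Prime, χ (p : ZMod q) * ((Real.log p / p : ℝ) : ℂ) =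
        ∑ p ∈ (Icc 0 N).filter Nat.Prime, (if a = (p : ZMod q) then (Nat.totient q : ℂ) else 0) *
          ((Real.log p / p : ℝ) : ℂ) := by
      simp only [mul_sum]
      rw [sum_comm]
      refine sum_congr rfl fun p _ => ?_
      rw [← DirichletCharacter.sum_char_inv_mul_char_eq ℂ ha, sum_mul]
      refine sum_congr rfl fun χ _ => ?_
      ring
    have e2 : ∑ χ : DirichletCharacter ℂ q, χ a⁻¹ * (if χ = 1 then (Real.log N : ℂ) else 0) =
        Real.log N := by
      simp only [mul_ite, mul_zero, sum_ite_eq', mem_univ, if_true]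
      rw [MulChar.one_apply, one_mul]
      rw [isUnit_iff_exists_inv]
      exact ⟨a, ZMod.inv_mul_of_unit a ha⟩
    simp only [mul_sub, sum_sub_distrib]
    rw [e1, e2]
    push_cast
    rw [sub_mul, sum_mul]
    have hφ' : (Nat.totient q : ℂ) ≠ 0 := by exact_mod_cast hφ.ne'
    congr 1
    · refine sum_congr rfl fun p _ => ?_
      by_cases h : (p : ZMod q) = a
      · rw [if_pos h, if_pos h.symm]; push_cast; ring
      · rw [if_neg h, if_neg (fun h' => h h'.symm)]; push_cast; ring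
    · field_simp
  rw [hkey]
  refine (norm_sum_le _ _).trans (sum_le_sum fun χ _ => ?_)
  rw [norm_mul]
  have h5 := DirichletCharacter.norm_le_one χ a⁻¹
  calc ‖χ a⁻¹‖ * ‖∑ p ∈ (Icc 0 N).filter Nat.Prime, χ (p : ZMod q) * ((Real.log p / p : ℝ) : ℂ) -
        (if χ = 1 then (Real.log N : ℂ) else 0)‖ ≤ 1 * C χ :=
        mul_le_mul h5 (hC χ N) (norm_nonneg _) zero_le_one
    _ = C χ := one_mul _

/-- Class functions. -/
theorem Mert.classfn (G : ZMod q → ℝ) :
    Mert (fun p => G p) ((∑ a : (ZMod q)ˣ, G a) / Nat.totient q) := by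
  classical
  have h1 : Mert (fun p => ∑ a : (ZMod q)ˣ, G a * (if (p : ZMod q) = a then 1 else 0))
      (∑ a : (ZMod q)ˣ, G a * (1 / Nat.totient q)) :=
    Mert.sum _ fun a _ => (Mert.residue a.isUnit).const_mul (G a)
  rw [← sum_mul, mul_one_div] at h1
  refine h1.congr q fun p hp hlt => ?_
  have hu : IsUnit (p : ZMod q) := by
    rw [ZMod.isUnit_iff_coprime]
    exact (Nat.Prime.coprime_iff_not_dvd hp).2 fun hd =>
      absurd (Nat.le_of_dvd (Nat.pos_of_ne_zero (NeZero.ne q)) hd) (not_le.2 hlt)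
  obtain ⟨u, hu⟩ := hu
  simp only [← hu, mul_ite, mul_one, mul_zero, Units.val_inj]
  simp

end char

end Stoll308.AP
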