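import Pool.Agent.Work.MP_308fa9_nt.Mert
import Pool.Agent.Work.MP_2b9663_nt.MV

set_option autoImplicit false

/-! Mertens' second theorem, Chebyshev type lower bounds and quadratic characters. -/

namespace Stoll308.AP

open Finset Filter Topology NumberTheorySymbols

/-- partial sums -/
noncomputable def psum (g : ℕ → ℝ) (N : ℕ) : ℝ :=
  ∑ p ∈ (Icc 0 N).filter Nat.Prime, g p * (Real.log p / p)

lemma filter_succ (N : ℕ) : (Icc 0 (N + 1)).filter Nat.Prime =
    if (N + 1).Prime then insert (N + 1) ((Icc 0 N).filter Nat.Prime) else (Icc 0 N).filter Nat.Prime := by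
  rw [← Finset.insert_Icc_right_eq_Icc_add_one (by omega), filter_insert]

lemma psum_succ (g : ℕ → ℝ) (N : ℕ) :
    psum g (N + 1) = psum g N + if (N + 1).Prime then g (N + 1) * (Real.log (N + 1 : ℕ) / (N + 1 : ℕ)) else 0 := by
  unfold psum
  rw [filter_succ]
  split_ifs with h
  · rw [sum_insert (by simp), add_comm]
  · rw [add_zero]

lemma sum_inv_succ (g : ℕ → ℝ) (N : ℕ) :
    ∑ p ∈ (Icc 0 (N + 1)).filter Nat.Prime, g p / p =
      ∑ p ∈ (Icc 0 N).filter Nat.Prime, g p / p +
        if (N + 1).Prime then g (N + 1) / (N + 1 : ℕ) else 0 := by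
  rw [filter_succ]
  split_ifs with h
  · rw [sum_insert (by simp), add_comm]
  · rw [add_zero]

lemma abel_loglog (g : ℕ → ℝ) {N : ℕ} (hN : 1 ≤ N) :
    ∑ p ∈ (Icc 0 N).filter Nat.Prime, g p / p =
      psum g N / Real.log (N + 1 : ℕ) +
        ∑ n ∈ Ioc 1 N, psum g n * (1 / Real.log n - 1 / Real.log (n + 1 : ℕ)) := by
  induction N, hN using Nat.le_induction with
  | base =>
    have : (Icc 0 1).filter Nat.Prime = ∅ := by decide
    simp [psum, this]
  | succ N hN ih =>
    rw [sum_inv_succ, ih, sum_Ioc_succ_top (by omega), psum_succ]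
    have hl : Real.log (N + 1 : ℕ) ≠ 0 := (Real.log_pos (by exact_mod_cast (by omega : 1 < N + 1))).ne'
    have hl2 : Real.log (N + 1 + 1 : ℕ) ≠ 0 :=
      (Real.log_pos (by exact_mod_cast (by omega : 1 < N + 1 + 1))).ne'
    split_ifs with h
    · have hN0 : ((N + 1 : ℕ) : ℝ) ≠ 0 := by positivity
      field_simp
      ring
    · field_simp
      ring

lemma log_nat_pos {n : ℕ} (hn : 2 ≤ n) : 0 < Real.log n :=
  Real.log_pos (by exact_mod_cast (by omega : 1 < n))

lemma log2_le {n : ℕ} (hn : 2 ≤ n) : Real.log 2 ≤ Real.log n :=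
  Real.log_le_log (by norm_num) (by exact_mod_cast hn)

/-- comparing `∑ (1 - log n / log (n+1))` with `log log` -/
lemma T_bounds {N : ℕ} (hN : 1 ≤ N) :
    ∑ n ∈ Ioc 1 N, (1 - Real.log n / Real.log (n + 1 : ℕ)) ≤
      Real.log (Real.log (N + 1 : ℕ)) - Real.log (Real.log 2) ∧
    Real.log (Real.log (N + 1 : ℕ)) - Real.log (Real.log 2) - (1 / Real.log 2 ^ 2) * (1 - 1 / N) ≤
      ∑ n ∈ Ioc 1 N, (1 - Real.log n / Real.log (n + 1 : ℕ)) := by
  induction N, hN using Nat.le_induction with
  | base => constructor <;> norm_num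
  | succ N hN ih =>
    obtain ⟨ih1, ih2⟩ := ih
    rw [sum_Ioc_succ_top (by omega)]
    set L := Real.log (N + 1 : ℕ) with hL
    set L' := Real.log (N + 1 + 1 : ℕ) with hL'
    have hLpos : 0 < L := log_nat_pos (by omega)
    have hL'pos : 0 < L' := log_nat_pos (by omega)
    have h2L : Real.log 2 ≤ L := log2_le (by omega)
    have h2L' : Real.log 2 ≤ L' := log2_le (by omega)
    have hlog2 : 0 < Real.log 2 := Real.log_pos (by norm_num)
    have hLL : L ≤ L' := Real.log_le_log (by positivity) (by push_cast; linarith)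
    have h1 : 1 - L / L' ≤ Real.log L' - Real.log L := by
      have := Real.one_sub_inv_le_log_of_pos (x := L' / L) (by positivity)
      rw [Real.log_div hL'pos.ne' hLpos.ne', inv_div] at this
      exact this
    have h2 : Real.log L' - Real.log L ≤ L' / L - 1 := by
      have := Real.log_le_sub_one_of_pos (x := L' / L) (by positivity)
      rwa [Real.log_div hL'pos.ne' hLpos.ne'] at this
    have hNr : (1 : ℝ) ≤ N := by exact_mod_cast hN
    have h3 : L' - L ≤ 1 / ((N : ℝ) + 1) := by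
      rw [hL, hL', ← Real.log_div (by positivity) (by positivity)]
      refine (Real.log_le_sub_one_of_pos (by positivity)).trans (le_of_eq ?_)
      push_cast
      field_simp
      ring
    have h4 : L' / L - 1 - (1 - L / L') ≤ 1 / Real.log 2 ^ 2 * (1 / (N : ℝ) - 1 / ((N : ℝ) + 1)) := by
      have e1 : L' / L - 1 - (1 - L / L') = (L' - L) ^ 2 / (L * L') := by
        field_simp
      have e2 : 1 / (N : ℝ) - 1 / ((N : ℝ) + 1) = 1 / (N * (N + 1)) := by
        field_simp
        ring
      rw [e1, e2]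
      calc (L' - L) ^ 2 / (L * L') ≤ (1 / ((N : ℝ) + 1)) ^ 2 / (Real.log 2 * Real.log 2) := by
            gcongr
        _ = 1 / Real.log 2 ^ 2 * (1 / ((N : ℝ) + 1) ^ 2) := by
            field_simp
        _ ≤ 1 / Real.log 2 ^ 2 * (1 / (N * (N + 1))) := by
            gcongr
            nlinarith
    constructor
    · linarith
    · push_cast at *
      have e3 : 1 / Real.log 2 ^ 2 * (1 - 1 / ((N : ℝ) + 1)) =
          1 / Real.log 2 ^ 2 * (1 - 1 / (N : ℝ)) +
          1 / Real.log 2 ^ 2 * (1 / (N : ℝ) - 1 / ((N : ℝ) + 1)) := by ring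
      rw [e3]
      linarith

/-- **Mertens' second theorem** for functions with a mean value. -/
theorem Mert.loglog {g : ℕ → ℝ} {κ : ℝ} (hg : Mert g κ) : ∃ C : ℝ, 0 ≤ C ∧ ∀ N : ℕ, 2 ≤ N →
    |∑ p ∈ (Icc 0 N).filter Nat.Prime, g p / p - κ * Real.log (Real.log N)| ≤ C := by
  obtain ⟨C, hC⟩ := hg
  have hC0 : 0 ≤ C := (abs_nonneg _).trans (hC 0)
  have hlog2 : 0 < Real.log 2 := Real.log_pos (by norm_num)
  refine ⟨C / Real.log 2 + |κ| * (1 + Real.log 2 + |Real.log (Real.log 2)| + 1 / Real.log 2 ^ 2),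
    by positivity, fun N hN => ?_⟩
  have hN0 : (0 : ℝ) < N := by positivity
  set r : ℕ → ℝ := fun n => psum g n - κ * Real.log n with hr
  have hrC : ∀ n, |r n| ≤ C := hC
  have hps : ∀ n, psum g n = κ * Real.log n + r n := fun n => by rw [hr]; ring
  rw [abel_loglog g (by omega : 1 ≤ N)]
  have hLN : 0 < Real.log N := log_nat_pos hN
  have hLN' : 0 < Real.log (N + 1 : ℕ) := log_nat_pos (by omega)
  have hmain : psum g N / Real.log (N + 1 : ℕ) +
        ∑ n ∈ Ioc 1 N, psum g n * (1 / Real.log n - 1 / Real.log (n + 1 : ℕ)) -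
        κ * Real.log (Real.log N) =
      κ * (Real.log N / Real.log (N + 1 : ℕ) +
        ∑ n ∈ Ioc 1 N, (1 - Real.log n / Real.log (n + 1 : ℕ)) - Real.log (Real.log N)) +
      (r N / Real.log (N + 1 : ℕ) +
        ∑ n ∈ Ioc 1 N, r n * (1 / Real.log n - 1 / Real.log (n + 1 : ℕ))) := by
    have e1 : ∑ n ∈ Ioc 1 N, psum g n * (1 / Real.log n - 1 / Real.log (n + 1 : ℕ)) =
        κ * ∑ n ∈ Ioc 1 N, (1 - Real.log n / Real.log (n + 1 : ℕ)) +
        ∑ n ∈ Ioc 1 N, r n * (1 / Real.log n - 1 / Real.log (n + 1 : ℕ)) := by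
      rw [mul_sum, ← sum_add_distrib]
      refine sum_congr rfl fun n hn => ?_
      rw [mem_Ioc] at hn
      have : Real.log n ≠ 0 := (log_nat_pos (by omega)).ne'
      rw [hps]
      field_simp
    rw [e1, hps N]
    ring
  rw [hmain]
  refine (abs_add_le _ _).trans ?_
  have hb1 : |r N / Real.log (N + 1 : ℕ) +
        ∑ n ∈ Ioc 1 N, r n * (1 / Real.log n - 1 / Real.log (n + 1 : ℕ))| ≤ C / Real.log 2 := by
    have htel : ∀ N : ℕ, 1 ≤ N → ∑ n ∈ Ioc 1 N, (1 / Real.log n - 1 / Real.log (n + 1 : ℕ)) =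
        1 / Real.log 2 - 1 / Real.log (N + 1 : ℕ) := by
      intro N hN
      induction N, hN using Nat.le_induction with
      | base => norm_num
      | succ N hN ih => rw [sum_Ioc_succ_top (by omega), ih]; push_cast; ring
    calc |r N / Real.log (N + 1 : ℕ) +
          ∑ n ∈ Ioc 1 N, r n * (1 / Real.log n - 1 / Real.log (n + 1 : ℕ))|
        ≤ C / Real.log (N + 1 : ℕ) +
          ∑ n ∈ Ioc 1 N, C * (1 / Real.log n - 1 / Real.log (n + 1 : ℕ)) := by
          refine (abs_add_le _ _).trans (add_le_add ?_ ((abs_sum_le_sum_abs _ _).trans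
            (sum_le_sum fun n hn => ?_)))
          · rw [abs_div, abs_of_pos hLN']
            exact div_le_div_of_nonneg_right (hrC N) hLN'.le
          · rw [mem_Ioc] at hn
            have h1 : 0 < Real.log n := log_nat_pos (by omega)
            have h2 : Real.log n ≤ Real.log (n + 1 : ℕ) :=
              Real.log_le_log (by exact_mod_cast (by omega : 0 < n)) (by push_cast; linarith)
            have h3 : 0 ≤ 1 / Real.log n - 1 / Real.log (n + 1 : ℕ) := by
              rw [sub_nonneg]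
              exact one_div_le_one_div_of_le h1 h2
            rw [abs_mul, abs_of_nonneg h3]
            exact mul_le_mul_of_nonneg_right (hrC n) h3
      _ = C / Real.log 2 := by
          rw [← mul_sum, htel N (by omega)]; ring
  have hb2 : |Real.log N / Real.log (N + 1 : ℕ) +
        ∑ n ∈ Ioc 1 N, (1 - Real.log n / Real.log (n + 1 : ℕ)) - Real.log (Real.log N)| ≤
      1 + Real.log 2 + |Real.log (Real.log 2)| + 1 / Real.log 2 ^ 2 := by
    obtain ⟨t1, t2⟩ := T_bounds (by omega : 1 ≤ N)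
    have hle : Real.log N ≤ Real.log (N + 1 : ℕ) :=
      Real.log_le_log hN0 (by push_cast; linarith)
    have hle2 : Real.log (N + 1 : ℕ) ≤ 2 * Real.log N := by
      have e1 : (2 : ℝ) * Real.log N = Real.log ((N : ℝ) ^ 2) := by
        rw [Real.log_pow]; norm_num
      rw [e1]
      refine Real.log_le_log (by positivity) ?_
      have : (2 : ℝ) ≤ N := by exact_mod_cast hN
      push_cast
      nlinarith
    have h5 : Real.log (Real.log (N + 1 : ℕ)) ≤ Real.log 2 + Real.log (Real.log N) := by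
      rw [← Real.log_mul (by norm_num) hLN.ne']
      exact Real.log_le_log hLN' hle2
    have h6 : Real.log (Real.log N) ≤ Real.log (Real.log (N + 1 : ℕ)) := Real.log_le_log hLN hle
    have h7 : 0 ≤ Real.log N / Real.log (N + 1 : ℕ) := by positivity
    have h8 : Real.log N / Real.log (N + 1 : ℕ) ≤ 1 := by rwa [div_le_one hLN']
    have h9 : 0 ≤ 1 / Real.log 2 ^ 2 * (1 / (N : ℝ)) := by positivity
    have h10 := neg_abs_le (Real.log (Real.log 2))
    have h11 := le_abs_self (Real.log (Real.log 2))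
    have h12 : 0 < 1 / Real.log 2 ^ 2 := by positivity
    rw [abs_le]
    constructor
    · have : 1 / Real.log 2 ^ 2 * (1 - 1 / (N : ℝ)) =
        1 / Real.log 2 ^ 2 - 1 / Real.log 2 ^ 2 * (1 / (N : ℝ)) := by ring
      linarith
    · linarith
  rw [abs_mul, add_comm]
  exact add_le_add hb1 (mul_le_mul_of_nonneg_left hb2 (abs_nonneg κ))

/-- **A Chebyshev type lower bound**, uniform in the function. -/
theorem count_unif (C : ℝ) (_hC0 : 0 ≤ C) {κ : ℝ} (hκ : 0 < κ) :
    ∃ K : ℕ, 0 < K ∧ ∀ g : ℕ → ℝ, (∀ N : ℕ, |∑ p ∈ (Icc 0 N).filter Nat.Prime,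
      g p * (Real.log p / p) - κ * Real.log N| ≤ C) → (∀ p, 0 ≤ g p) → ∀ y : ℕ, K < y →
      (y : ℝ) / (K * Real.log y) ≤ ∑ p ∈ (Ioc (y / K) y).filter Nat.Prime, g p := by
  obtain ⟨K, hK⟩ := exists_nat_gt (Real.exp ((1 + 2 * C) / κ))
  have hK0 : (0 : ℝ) < K := (Real.exp_pos _).trans hK
  have hK0' : 0 < K := by exact_mod_cast hK0
  have hlogK : 1 + 2 * C ≤ κ * Real.log K := by
    have : (1 + 2 * C) / κ ≤ Real.log K := by
      rw [Real.le_log_iff_exp_le hK0]; exact hK.le
    rw [div_le_iff₀ hκ] at this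
    linarith
  refine ⟨K, hK0', fun g hC h0 y hy => ?_⟩
  have hy0 : (0 : ℝ) < y := by exact_mod_cast (by omega : 0 < y)
  have hly : 0 < Real.log y := log_nat_pos (by omega)
  have hyK : 1 ≤ y / K := (Nat.one_le_div_iff hK0').2 hy.le
  have hyK' : ((y / K : ℕ) : ℝ) ≤ y / K := Nat.cast_div_le
  have h1 := abs_le.1 (hC y)
  have h2 := abs_le.1 (hC (y / K))
  have h3 : ∑ p ∈ (Icc 0 y).filter Nat.Prime, g p * (Real.log p / p) =
      ∑ p ∈ (Icc 0 (y / K)).filter Nat.Prime, g p * (Real.log p / p) +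
      ∑ p ∈ (Ioc (y / K) y).filter Nat.Prime, g p * (Real.log p / p) := by
    rw [← sum_union]
    · rw [← filter_union]
      congr 2
      ext n
      have := Nat.div_le_self y K
      simp only [mem_Icc, mem_union, mem_Ioc]
      omega
    · rw [disjoint_left]
      intro n hn hn'
      simp only [mem_filter, mem_Icc, mem_Ioc] at hn hn'
      omega
  have h4 : Real.log ((y / K : ℕ) : ℝ) ≤ Real.log y - Real.log K := by
    rw [← Real.log_div hy0.ne' hK0.ne']
    exact Real.log_le_log (by exact_mod_cast hyK) hyK'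
  have h5 : 1 ≤ ∑ p ∈ (Ioc (y / K) y).filter Nat.Prime, g p * (Real.log p / p) := by
    have : κ * Real.log ((y / K : ℕ) : ℝ) ≤ κ * (Real.log y - Real.log K) :=
      mul_le_mul_of_nonneg_left h4 hκ.le
    nlinarith [h1.1, h2.2]
  have h6 : ∑ p ∈ (Ioc (y / K) y).filter Nat.Prime, g p * (Real.log p / p) ≤
      ∑ p ∈ (Ioc (y / K) y).filter Nat.Prime, g p * (K * Real.log y / y) := by
    refine sum_le_sum fun p hp => ?_
    rw [mem_filter, mem_Ioc] at hp
    have hp0 : (0 : ℝ) < p := by exact_mod_cast hp.2.pos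
    refine mul_le_mul_of_nonneg_left ?_ (h0 p)
    rw [div_le_div_iff₀ hp0 hy0]
    have e1 : (y : ℝ) ≤ K * p := by
      have : y < K * (y / K + 1) := Nat.lt_mul_div_succ y hK0'
      have e2 : K * (y / K + 1) ≤ K * p := Nat.mul_le_mul_left K hp.1.1
      exact_mod_cast (this.le.trans e2)
    have e3 : Real.log p ≤ Real.log y := Real.log_le_log hp0 (by exact_mod_cast hp.1.2)
    have e4 : 0 ≤ Real.log p := Real.log_natCast_nonneg p
    calc Real.log p * y ≤ Real.log y * (K * p) := by gcongr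
      _ = K * Real.log y * p := by ring
  rw [← sum_mul] at h6
  have h7 := h5.trans h6
  rw [div_le_iff₀ (by positivity)]
  rw [mul_div_assoc', le_div_iff₀ hy0, one_mul] at h7
  linarith

end Stoll308.AP
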