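import Pool.Agent.Work.MP_92f640_nt.LConv
import Pool.Agent.Work.MP_40574a_nt.Mertens

set_option autoImplicit false

/-! Mertens' first theorem in residue classes (Shapiro's proof). -/

namespace Stoll308.AP

open Finset Filter Topology
open Pool.Agent.Work.MP_92f640_nt

section char
variable {q : ℕ} [NeZero q] (χ : DirichletCharacter ℂ q)

noncomputable def S (N : ℕ) : ℂ := ∑ n ∈ Ioc 0 N, χ (n : ZMod q)

lemma abel_id (f : ℕ → ℝ) (N M : ℕ) (h : N ≤ M) :
    ∑ n ∈ Ioc N M, χ (n : ZMod q) * (f n : ℂ) =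
      (S χ M - S χ N) * (f (M + 1) : ℂ) +
        ∑ n ∈ Ioc N M, (S χ n - S χ N) * ((f n - f (n + 1) : ℝ) : ℂ) := by
  induction M, h using Nat.le_induction with
  | base => simp
  | succ M hM ih =>
    rw [sum_Ioc_succ_top (by omega), sum_Ioc_succ_top (by omega), ih]
    have : S χ (M + 1) = S χ M + χ ((M + 1 : ℕ) : ZMod q) := by
      unfold S; rw [sum_Ioc_succ_top (by omega)]
    rw [this]
    push_cast
    ring

lemma abel_bound (hχ : χ ≠ 1) (f : ℕ → ℝ) (N M : ℕ) (h : N ≤ M) (h0 : ∀ n, N < n → 0 ≤ f n)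
    (h1 : ∀ n, N < n → f (n + 1) ≤ f n) :
    ‖∑ n ∈ Ioc N M, χ (n : ZMod q) * (f n : ℂ)‖ ≤ 2 * q * f (N + 1) := by
  have hS : ∀ n, ‖S χ n - S χ N‖ ≤ 2 * q := by
    intro n
    have e1 := char_sum_bound χ hχ n
    have e2 := char_sum_bound χ hχ N
    calc ‖S χ n - S χ N‖ ≤ ‖S χ n‖ + ‖S χ N‖ := norm_sub_le _ _
      _ ≤ q + q := add_le_add e1 e2
      _ = 2 * q := by ring
  rw [abel_id χ f N M h]
  have htel : ∀ M, N ≤ M → ∑ n ∈ Ioc N M, (f n - f (n + 1)) = f (N + 1) - f (M + 1) := by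
    intro M hM
    induction M, hM using Nat.le_induction with
    | base => simp
    | succ M hM ih => rw [sum_Ioc_succ_top (by omega), ih]; ring
  calc ‖(S χ M - S χ N) * (f (M + 1) : ℂ) +
        ∑ n ∈ Ioc N M, (S χ n - S χ N) * ((f n - f (n + 1) : ℝ) : ℂ)‖
      ≤ ‖(S χ M - S χ N) * (f (M + 1) : ℂ)‖ +
        ∑ n ∈ Ioc N M, ‖(S χ n - S χ N) * ((f n - f (n + 1) : ℝ) : ℂ)‖ :=
        (norm_add_le _ _).trans (add_le_add_right (norm_sum_le _ _) _)
    _ ≤ 2 * q * f (M + 1) + ∑ n ∈ Ioc N M, 2 * q * (f n - f (n + 1)) := by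
        refine add_le_add ?_ (sum_le_sum fun n hn => ?_)
        · rw [norm_mul, Complex.norm_real, Real.norm_of_nonneg (h0 _ (by omega))]
          exact mul_le_mul_of_nonneg_right (hS M) (h0 _ (by omega))
        · rw [mem_Ioc] at hn
          have := h1 n (by omega)
          rw [norm_mul, Complex.norm_real, Real.norm_of_nonneg (by linarith)]
          exact mul_le_mul_of_nonneg_right (hS n) (by linarith)
    _ = 2 * q * f (N + 1) := by
        rw [← mul_sum, htel M h]; ring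

/-- The tails of `L(1, χ)`. -/
lemma tail_bound (hχ : χ ≠ 1) (N : ℕ) :
    ‖∑ n ∈ Ioc 0 N, χ (n : ZMod q) * (((n : ℝ)⁻¹ : ℝ) : ℂ) - DirichletCharacter.LFunction χ 1‖ ≤
      2 * q * ((N + 1 : ℕ) : ℝ)⁻¹ := by
  have h1 := tendsto_LFunction χ hχ (s := 1) (by simp)
  have h2 : ∀ M, N ≤ M → ‖∑ n ∈ Ioc 0 N, χ (n : ZMod q) * (((n : ℝ)⁻¹ : ℝ) : ℂ) -
      ∑ n ∈ Ioc 0 M, χ (n : ZMod q) * (n : ℂ) ^ (-1 : ℂ)‖ ≤ 2 * q * ((N + 1 : ℕ) : ℝ)⁻¹ := by
    intro M hM
    have h3 : ∑ n ∈ Ioc 0 M, χ (n : ZMod q) * (n : ℂ) ^ (-1 : ℂ) =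
        ∑ n ∈ Ioc 0 M, χ (n : ZMod q) * (((n : ℝ)⁻¹ : ℝ) : ℂ) := by
      refine sum_congr rfl fun n _ => ?_
      rw [Complex.cpow_neg_one]
      push_cast
      rfl
    rw [h3, ← sum_Ioc_consecutive _ (Nat.zero_le N) hM, sub_add_cancel_left, norm_neg]
    refine abel_bound χ hχ (fun n => (n : ℝ)⁻¹) N M hM (fun n _ => by positivity) fun n hn => ?_
    have : (0 : ℝ) < n := by exact_mod_cast (by omega : 0 < n)
    push_cast
    gcongr
    linarith
  have h3 := ((tendsto_const_nhds (x := ∑ n ∈ Ioc 0 N, χ (n : ZMod q) *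
    (((n : ℝ)⁻¹ : ℝ) : ℂ))).sub h1).norm
  exact le_of_tendsto h3 (eventually_atTop.2 ⟨N, h2⟩)

lemma log_sum_bound (hχ : χ ≠ 1) (N : ℕ) :
    ‖∑ n ∈ Ioc 0 N, χ (n : ZMod q) * ((Real.log n / n : ℝ) : ℂ)‖ ≤ 2 + 2 * q := by
  have hq : (0 : ℝ) ≤ q := by positivity
  have hb : ∀ n : ℕ, Real.log n / n ≤ 1 ∧ 0 ≤ Real.log n / n := by
    intro n
    rcases Nat.eq_zero_or_pos n with rfl | hn
    · simp
    · have hn' : (0 : ℝ) < n := by exact_mod_cast hn
      refine ⟨?_, div_nonneg (Real.log_natCast_nonneg n) hn'.le⟩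
      rw [div_le_one hn']
      exact (Real.log_le_sub_one_of_pos hn').trans (by linarith)
  have hsmall : ∀ N : ℕ, N ≤ 2 → ‖∑ n ∈ Ioc 0 N, χ (n : ZMod q) * ((Real.log n / n : ℝ) : ℂ)‖ ≤ 2 := by
    intro N hN
    refine (norm_sum_le _ _).trans ?_
    calc ∑ n ∈ Ioc 0 N, ‖χ (n : ZMod q) * ((Real.log n / n : ℝ) : ℂ)‖ ≤ ∑ n ∈ Ioc 0 N, (1 : ℝ) := by
          refine sum_le_sum fun n _ => ?_
          rw [norm_mul, Complex.norm_real, Real.norm_of_nonneg (hb n).2]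
          exact mul_le_one₀ (DirichletCharacter.norm_le_one χ _) (hb n).2 (hb n).1
      _ = N := by simp
      _ ≤ 2 := by exact_mod_cast hN
  rcases le_or_gt N 2 with hN | hN
  · linarith [hsmall N hN]
  · rw [← sum_Ioc_consecutive _ (Nat.zero_le 2) hN.le]
    refine (norm_add_le _ _).trans (add_le_add (hsmall 2 le_rfl) ?_)
    refine (abel_bound χ hχ (fun n => Real.log n / n) 2 N hN.le (fun n _ => (hb n).2)
      fun n hn => ?_).trans ?_
    · have h3 : (3 : ℝ) ≤ n := by exact_mod_cast hn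
      have he : Real.exp 1 ≤ 3 := by
        have := Real.exp_one_lt_d9; linarith
      exact Real.log_div_self_antitoneOn (by simp only [Set.mem_Ici]; linarith)
        (by simp only [Set.mem_Ici]; push_cast; linarith) (by push_cast; linarith)
    · have := (hb 3).1
      have h4 : 2 * (q : ℝ) * (Real.log ((2 + 1 : ℕ) : ℝ) / ((2 + 1 : ℕ) : ℝ)) ≤ 2 * q * 1 :=
        mul_le_mul_of_nonneg_left this (by positivity)
      linarith

open ArithmeticFunction in
lemma log_sum_eq (N : ℕ) :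
    ∑ n ∈ Ioc 0 N, χ (n : ZMod q) * ((Real.log n / n : ℝ) : ℂ) =
      ∑ d ∈ Ioc 0 N, χ (d : ZMod q) * ((vonMangoldt d / d : ℝ) : ℂ) *
        ∑ m ∈ Ioc 0 (N / d), χ (m : ZMod q) * (((m : ℝ)⁻¹ : ℝ) : ℂ) := by
  let f : ArithmeticFunction ℂ := ⟨fun d => χ (d : ZMod q) * ((vonMangoldt d / d : ℝ) : ℂ), by simp⟩
  let g : ArithmeticFunction ℂ := ⟨fun m => χ (m : ZMod q) * (((m : ℝ)⁻¹ : ℝ) : ℂ), by simp⟩
  have h := sum_Ioc_mul_eq_sum_sum f g N
  have hfg : ∀ n ∈ Ioc 0 N, (f * g) n = χ (n : ZMod q) * ((Real.log n / n : ℝ) : ℂ) := by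
    intro n hn
    rw [mem_Ioc] at hn
    have hn0 : (n : ℝ) ≠ 0 := by exact_mod_cast (by omega : n ≠ 0)
    rw [mul_apply]
    have h1 : ∀ x ∈ n.divisorsAntidiagonal, f x.1 * g x.2 =
        χ (n : ZMod q) * ((vonMangoldt x.1 / n : ℝ) : ℂ) := by
      rintro ⟨d, m⟩ hx
      rw [Nat.mem_divisorsAntidiagonal] at hx
      obtain ⟨hx1, hx2⟩ := hx
      simp only at hx1
      subst hx1
      change χ (d : ZMod q) * ((vonMangoldt d / d : ℝ) : ℂ) * (χ (m : ZMod q) * (((m : ℝ)⁻¹ : ℝ) : ℂ)) = _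
      push_cast
      rw [map_mul]
      have hd : (d : ℂ) ≠ 0 := by
        intro h0; apply hn0; push_cast; rw [show (d : ℝ) = 0 by exact_mod_cast h0, zero_mul]
      have hm : (m : ℂ) ≠ 0 := by
        intro h0; apply hn0; push_cast; rw [show (m : ℝ) = 0 by exact_mod_cast h0, mul_zero]
      field_simp
    rw [sum_congr rfl h1, ← mul_sum, ← Complex.ofReal_sum, ← sum_div]
    rw [Nat.sum_divisorsAntidiagonal (fun d _ => vonMangoldt d), vonMangoldt_sum]
  rw [← sum_congr rfl hfg, h]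
  rfl

/-- `∑_{d ≤ N} χ(d) Λ(d) / d` is bounded. -/
lemma mangoldt_bound (hχ : χ ≠ 1) : ∃ C : ℝ, ∀ N : ℕ,
    ‖∑ d ∈ Ioc 0 N, χ (d : ZMod q) * ((ArithmeticFunction.vonMangoldt d / d : ℝ) : ℂ)‖ ≤ C := by
  set L := DirichletCharacter.LFunction χ 1 with hL
  have hL0 : L ≠ 0 := DirichletCharacter.LFunction_apply_one_ne_zero hχ
  have hq : (0 : ℝ) ≤ q := by positivity
  refine ⟨(2 + 2 * q + 2 * q * (Real.log 4 + 4)) / ‖L‖, fun N => ?_⟩
  rw [le_div_iff₀ (norm_pos_iff.2 hL0), ← norm_mul]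
  rcases Nat.eq_zero_or_pos N with rfl | hN
  · have : 0 ≤ Real.log 4 := Real.log_nonneg (by norm_num)
    simp only [lt_self_iff_false, not_false_eq_true, Ioc_eq_empty, sum_empty, zero_mul, norm_zero]
    positivity
  have hNr : (0 : ℝ) < N := by exact_mod_cast hN
  have h1 := log_sum_eq χ N
  have h2 : (∑ d ∈ Ioc 0 N, χ (d : ZMod q) *
      ((ArithmeticFunction.vonMangoldt d / d : ℝ) : ℂ)) * L =
      ∑ n ∈ Ioc 0 N, χ (n : ZMod q) * ((Real.log n / n : ℝ) : ℂ) -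
      ∑ d ∈ Ioc 0 N, χ (d : ZMod q) * ((ArithmeticFunction.vonMangoldt d / d : ℝ) : ℂ) *
        (∑ m ∈ Ioc 0 (N / d), χ (m : ZMod q) * (((m : ℝ)⁻¹ : ℝ) : ℂ) - L) := by
    rw [h1, sum_mul, ← sum_sub_distrib]
    refine sum_congr rfl fun d _ => ?_
    ring
  rw [h2]
  refine (norm_sub_le _ _).trans (add_le_add (log_sum_bound χ hχ N) ?_)
  calc ‖∑ d ∈ Ioc 0 N, χ (d : ZMod q) * ((ArithmeticFunction.vonMangoldt d / d : ℝ) : ℂ) *
        (∑ m ∈ Ioc 0 (N / d), χ (m : ZMod q) * (((m : ℝ)⁻¹ : ℝ) : ℂ) - L)‖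
      ≤ ∑ d ∈ Ioc 0 N, (2 * q / N) * ArithmeticFunction.vonMangoldt d := by
        refine (norm_sum_le _ _).trans (sum_le_sum fun d hd => ?_)
        rw [mem_Ioc] at hd
        have hd0 : (0 : ℝ) < d := by exact_mod_cast hd.1
        have hΛ : 0 ≤ ArithmeticFunction.vonMangoldt d := ArithmeticFunction.vonMangoldt_nonneg
        rw [norm_mul, norm_mul, Complex.norm_real, Real.norm_of_nonneg (by positivity)]
        have h3 := tail_bound χ hχ (N / d)
        rw [← hL] at h3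
        have h4 : (((N / d + 1 : ℕ) : ℝ))⁻¹ ≤ d / N := by
          rw [inv_le_comm₀ (by positivity) (by positivity), inv_div]
          rw [div_le_iff₀ hd0]
          have : N < d * (N / d + 1) := Nat.lt_mul_div_succ N hd.1
          rw [mul_comm] at this
          exact_mod_cast this.le
        have h5 := DirichletCharacter.norm_le_one χ (d : ZMod q)
        calc ‖χ (d : ZMod q)‖ * (ArithmeticFunction.vonMangoldt d / d) *
              ‖∑ m ∈ Ioc 0 (N / d), χ (m : ZMod q) * (((m : ℝ)⁻¹ : ℝ) : ℂ) - L‖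
            ≤ 1 * (ArithmeticFunction.vonMangoldt d / d) * (2 * q * (d / N)) := by
              gcongr
              exact h3.trans (by gcongr)
          _ = (2 * q / N) * ArithmeticFunction.vonMangoldt d := by
              field_simp
    _ = (2 * q / N) * Chebyshev.psi N := by
        rw [← mul_sum, Chebyshev.psi, Nat.floor_natCast]
    _ ≤ (2 * q / N) * ((Real.log 4 + 4) * N) := by
        gcongr
        exact Chebyshev.psi_le_const_mul_self hNr.le
    _ = 2 * q * (Real.log 4 + 4) := by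
        field_simp

end char

end Stoll308.AP
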